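import Pool.Agent.SPH.H4.Main
import Pool.Agent.HT.D1

/-!
# Project SPH: the uniform statement, and the type `H3`
-/

namespace Pool.Agent.SPH

open Pool.Agent.Helper7.AG (Artin)
open Pool.Agent.HT

/-- the product of the standard generators of the Artin group of `M`, in their order -/
def coxEl {n : ℕ} (M : CoxeterMatrix (Fin n)) : Artin M :=
  (List.ofFn fun k => (PresentedGroup.of k : Artin M)).prod

/-- Aut and Out of the Artin group of `M`: the inversion of the generators extends to an
automorphism `ε` of order two; every automorphism is `conj x` or `conj x * ε`, not both, with `x`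
unique up to the powers of `c ^ m`, which form the center, where `c` is the product of the
generators; Out has order two and is generated by the class of `ε`; the extension splits -/
def AutDesc {n : ℕ} (M : CoxeterMatrix (Fin n)) (m : ℕ) : Prop :=
  ∃ ε : MulAut (Artin M), InvertsGens M ε ∧ ε * ε = 1 ∧
    FormMod (Artin M) ε (coxEl M ^ m) ∧
    Subgroup.center (Artin M) = Subgroup.zpowers (coxEl M ^ m) ∧
    OutGenBy (Artin M) ε ∧ Splits (Artin M)

/-- `c a b = g (a b c) g⁻¹` for `g = c`... : `gc * gb * ga` is conjugate to `gd = ga * gb * gc`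
and the fifth power of `gd` is central -/
theorem h3_pow : (gc * gb * ga) ^ 5 = gd ^ 5 := by
  have h1 : gc * gb * ga = (ga⁻¹ * gc) * gd * (ga⁻¹ * gc)⁻¹ := by
    have h2 : ga * gc = gc * ga := ga_gc
    unfold gd
    rw [mul_inv_rev, inv_inv]
    have h3 : ga⁻¹ * gc = gc * ga⁻¹ := by
      rw [inv_mul_eq_iff_eq_mul, ← mul_assoc, h2, mul_inv_cancel_right]
    rw [h3]
    group
  have hc : gd ^ 5 ∈ Subgroup.center HA := by
    rw [center_eq]
    exact Subgroup.mem_zpowers _
  rw [h1, conj_pow]
  rw [Subgroup.mem_center_iff] at hc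
  rw [hc, mul_inv_cancel_right]

theorem desc_H3 : AutDesc CoxeterMatrix.H₃ 5 := by
  have hz : coxEl CoxeterMatrix.H₃ ^ 5 = gd ^ 5 := by
    rw [← h3_pow]
    congr 1
  obtain ⟨ε, ha, hb, hc, he⟩ := HT.exists_eps
  have h1 := aut_form ha hb hc he
  have h2 : ∀ x : HA, ε ≠ MulAut.conj x := fun x => eps_not_inner ha x
  have ho := outGenBy_of he h1 h2
  refine ⟨ε, ?_, he, ?_, ?_, ho, splits_of he ho⟩
  · intro s
    fin_cases s
    · exact hc
    · exact hb
    · exact ha
  · rw [hz]
    exact formMod_of h1 h2 center_eq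
  · rw [hz]
    exact center_eq

theorem desc_H4 : AutDesc CoxeterMatrix.H₄ 15 := by
  have hz : coxEl CoxeterMatrix.H₄ = H4.gd := by
    simp [coxEl, List.ofFn_succ, H4.gd, mul_assoc]
  have h := H4.main
  rw [← hz] at h
  exact h

end Pool.Agent.SPH
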