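import Pool.Agent.SPH.G2

/-!
# Project SPH, piece SPH-R: roots of the powers of the Garside element

If `y ^ m = δ ^ m` then `y` is conjugate to `δ`: the join `v` of the elements `y ^ i δ ^ (-i)`,
`0 ≤ i < m`, satisfies `y v = v δ`.
-/

namespace Pool.Agent.SPH.Gar

variable {G : Type*} [Group G] [Lattice G] (H : Gar G)

/-- The join `v n` of the elements `y ^ i δ ^ (-i)`, `i ≤ n`, by its universal property.
`v 0 = 1`, `v (n + 1) = v n ⊔ y ^ (n + 1) δ ^ (-(n + 1))`. -/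
theorem exists_vn (y : G) (n : ℕ) : ∃ v : G, ∀ x : G,
    v ≤ x ↔ ∀ i : ℕ, i ≤ n → y ^ i * H.δ ^ (-(i : ℤ)) ≤ x := by
  induction n with
  | zero =>
    refine ⟨1, fun x => ⟨fun h i hi => ?_, fun h => ?_⟩⟩
    · have : i = 0 := by omega
      subst this
      simpa using h
    · simpa using h 0 le_rfl
  | succ n ih =>
    obtain ⟨v, hv⟩ := ih
    refine ⟨v ⊔ y ^ (n + 1) * H.δ ^ (-((n + 1 : ℕ) : ℤ)), fun x => ?_⟩
    rw [sup_le_iff, hv]
    constructor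
    · rintro ⟨h1, h2⟩ i hi
      rcases Nat.lt_or_ge n i with h3 | h3
      · have : i = n + 1 := by omega
        subst this
        exact h2
      · exact h1 i h3
    · intro h1
      exact ⟨fun i hi => h1 i (by omega), h1 (n + 1) le_rfl⟩

/-- Let `v` be as in `exists_vn` for `n = m - 1`.  For all `x`: `y v δ⁻¹ ≤ x` iff
`y ^ (i + 1) δ ^ (-(i + 1)) ≤ x` for all `i ≤ m - 1` (left and right multiplication by `y⁻¹` and
`δ` preserve the order), iff `y ^ i δ ^ (-i) ≤ x` for `1 ≤ i ≤ m`, and the term with `i = m` is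
`1`, the term with `i = 0`; so iff `v ≤ x`.  Hence `y v δ⁻¹ = v`. -/
theorem root_conj {y : G} {m : ℕ} (hm : 0 < m) (h : y ^ m = H.δ ^ m) :
    ∃ v : G, y * v = v * H.δ := by
  obtain ⟨v, hv⟩ := H.exists_vn y (m - 1)
  refine ⟨v, ?_⟩
  have key : ∀ x : G, y * v * H.δ⁻¹ ≤ x ↔ v ≤ x := by
    intro x
    have h1 : y * v * H.δ⁻¹ ≤ x ↔ v ≤ y⁻¹ * x * H.δ := by
      rw [← H.mul_zpow_le_iff (y * v * H.δ⁻¹) x 1, ← H.mul_le_iff y⁻¹, zpow_one]
      have e1 : y⁻¹ * (y * v * H.δ⁻¹ * H.δ) = v := by group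
      have e2 : y⁻¹ * (x * H.δ) = y⁻¹ * x * H.δ := by group
      rw [e1, e2]
    have h3 : ∀ i : ℕ, y ^ i * H.δ ^ (-(i : ℤ)) ≤ y⁻¹ * x * H.δ ↔
        y ^ (i + 1) * H.δ ^ (-((i + 1 : ℕ) : ℤ)) ≤ x := by
      intro i
      rw [← H.mul_zpow_le_iff (y ^ (i + 1) * H.δ ^ (-((i + 1 : ℕ) : ℤ))) x 1,
        ← H.mul_le_iff y⁻¹ (y ^ (i + 1) * H.δ ^ (-((i + 1 : ℕ) : ℤ)) * H.δ ^ (1 : ℤ)), zpow_one]
      have e1 : y⁻¹ * (y ^ (i + 1) * H.δ ^ (-((i + 1 : ℕ) : ℤ)) * H.δ) =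
          y ^ i * H.δ ^ (-(i : ℤ)) := by
        rw [pow_succ', Nat.cast_add, Nat.cast_one, neg_add, zpow_add, zpow_neg_one]
        group
      have e2 : y⁻¹ * (x * H.δ) = y⁻¹ * x * H.δ := by group
      rw [e1, e2]
    have h4 : y ^ m * H.δ ^ (-(m : ℤ)) = y ^ 0 * H.δ ^ (-((0 : ℕ) : ℤ)) := by
      rw [h]
      simp
    rw [h1, hv, hv]
    constructor
    · intro h5 i hi
      rcases Nat.eq_zero_or_pos i with h6 | h6
      · have h7 := (h3 (m - 1)).1 (h5 (m - 1) le_rfl)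
        rw [Nat.sub_add_cancel hm, h4] at h7
        rw [h6]
        exact h7
      · have h7 := (h3 (i - 1)).1 (h5 (i - 1) (by omega))
        rw [Nat.sub_add_cancel h6] at h7
        exact h7
    · intro h5 i hi
      rw [h3]
      rcases Nat.lt_or_ge i (m - 1) with h6 | h6
      · exact h5 (i + 1) (by omega)
      · have h7 : i + 1 = m := by omega
        rw [h7, h4]
        exact h5 0 (Nat.zero_le _)
  have h2 : y * v * H.δ⁻¹ = v := le_antisymm ((key v).2 le_rfl) ((key _).1 le_rfl)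
  calc y * v = y * v * H.δ⁻¹ * H.δ := by group
    _ = v * H.δ := by rw [h2]

end Pool.Agent.SPH.Gar
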