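import Pool.Agent.SPH.RT3
import Pool.Agent.SPH.Root

/-!
# Project SPH, piece SPH-FX: automorphisms which fix `δ` and two centralisers

`fix_all`: an automorphism which is the identity on a subgroup `U` with `G = U ∪ U s` is the
identity, under a condition on the centraliser of `U`.  `two_blocks`: the case in which `U` is
generated by the centralisers of `δ ^ n1` and `δ ^ n2`, as in the types `H4` (3, 5).
-/

namespace Pool.Agent.SPH.Frame

variable {S : Type*} [Lattice S] [BoundedOrder S] {E : Germ S} {G : Type*} [Group G] [Lattice G]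
  (F : Frame E G)

theorem zpow_δ_inj {i j : ℤ} (h : F.δ ^ i = F.δ ^ j) : i = j := by
  have h1 := congrArg F.len h
  rw [F.len_zpow, F.len_zpow] at h1
  have h2 := F.len_δ
  exact mul_left_cancel₀ h2.ne' h1

/-- If `s ∈ U` then `U = G`.  Otherwise, for `x ∈ U`, `u = s⁻¹ x s` is in `U` (if not,
`u s⁻¹ = s⁻¹ x ∈ U`, so `s ∈ U`), so `φ u = u`, and `v = φ s * s⁻¹` commutes with `x`.  In
particular `v` commutes with `δ`, so `v = δ ^ j` (`cent_one`), and `v` is central by `hc`.  Also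
`s ^ 2 ∈ U` (if not, `s ^ 2 * s⁻¹ = s ∈ U`), so `s ^ 2 = φ (s ^ 2) = v ^ 2 * s ^ 2`,
`δ ^ (2 j) = 1`, `j = 0` and `φ s = s`. -/
theorem fix_all (h1 : ∀ x, E.tau x = x → x = ⊥ ∨ x = ⊤) {U : Subgroup G} {s : G}
    (hU : ∀ u, u ∈ U ∨ u * s⁻¹ ∈ U) (hδ : F.δ ∈ U)
    (hc : ∀ j : ℤ, (∀ x ∈ U, x * F.δ ^ j = F.δ ^ j * x) → ∀ u, u * F.δ ^ j = F.δ ^ j * u)
    {φ : MulAut G} (hφ : ∀ x ∈ U, φ x = x) : φ = 1 := by
  have hfin : φ s = s → φ = 1 := by
    intro hs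
    ext u
    rw [MulAut.one_apply]
    rcases hU u with h2 | h2
    · exact hφ u h2
    · have h3 := hφ _ h2
      rw [map_mul, map_inv, hs] at h3
      exact mul_right_cancel h3
  by_cases hs : s ∈ U
  · exact hfin (hφ s hs)
  have hconj : ∀ x ∈ U, s⁻¹ * x * s ∈ U := by
    intro x hx
    rcases hU (s⁻¹ * x * s) with h2 | h2
    · exact h2
    · exfalso
      apply hs
      rw [mul_inv_cancel_right] at h2
      have h3 := U.mul_mem h2 (U.inv_mem hx)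
      rw [mul_inv_cancel_right] at h3
      exact inv_mem_iff.1 h3
  obtain ⟨v, hv⟩ : ∃ v, φ s = v * s := ⟨φ s * s⁻¹, by group⟩
  have hcom : ∀ x ∈ U, x * v = v * x := by
    intro x hx
    have h2 := hφ _ (hconj x hx)
    rw [map_mul, map_mul, map_inv, hφ x hx, hv] at h2
    calc x * v = v * s * ((v * s)⁻¹ * x * (v * s)) * s⁻¹ := by group
      _ = v * s * (s⁻¹ * x * s) * s⁻¹ := by rw [h2]
      _ = v * x := by group
  obtain ⟨j, rfl⟩ := F.cent_one h1 (hcom _ hδ).symm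
  have hcen := hc j hcom
  have hs2 : s * s ∈ U := by
    rcases hU (s * s) with h2 | h2
    · exact h2
    · rw [mul_inv_cancel_right] at h2
      exact absurd h2 hs
  have h2 := hφ _ hs2
  rw [map_mul, hv] at h2
  have h3 : F.δ ^ j * F.δ ^ j = 1 := by
    have h4 : F.δ ^ j * s * (F.δ ^ j * s) = F.δ ^ j * F.δ ^ j * (s * s) := by
      rw [mul_assoc, ← mul_assoc s, hcen s]
      simp only [mul_assoc]
    rw [h4] at h2
    exact mul_eq_right.1 h2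
  have h5 : j = 0 := by
    have h6 : F.δ ^ (j + j) = F.δ ^ (0 : ℤ) := by
      rw [zpow_add, h3, zpow_zero]
    have h7 := F.zpow_δ_inj h6
    omega
  apply hfin
  rw [hv, h5, zpow_zero, one_mul]

/-- the hypotheses on an exponent `n` and the atom `a` of the centraliser of `δ ^ n` -/
structure Blk (E : Germ S) (n : ℕ) (a : S) (c : ℤ) : Prop where
  two : E.Two n
  kt : E.KT n
  mem : a ∈ E.T n
  K_a : E.K a = E.shz c a
  faithful : ∀ j : ℤ, E.shz j a = a → (n : ℤ) ∣ j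

/-- `rt_one` gives `φ (g a) = g (shz i a)`, i.e. `φ (g a) = δ ^ (-i) * g a * δ ^ i`; so for every
`j` with `n ∣ j - i` the automorphism `conj (δ ^ j) * φ` fixes `g a` (the difference of the
exponents is a multiple of `n`, and `τ ^ n` fixes `a`); it also fixes `δ`, so it is the identity on
the centraliser of `δ ^ n` (`Cn_le`). -/
theorem blk_fix {n : ℕ} {a : S} {c : ℤ} (h : Blk E n a c) {φ : MulAut G} (hφ : φ F.δ = F.δ) :
    ∃ i : ℤ, ∀ j : ℤ, (n : ℤ) ∣ j - i →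
      ∀ u ∈ F.Cn n, (MulAut.conj (F.δ ^ j) * φ) u = u := by
  obtain ⟨i, hi⟩ := F.rt_one h.two h.kt hφ h.mem h.K_a
  refine ⟨i, fun j hj u hu => ?_⟩
  obtain ⟨q, hq⟩ := hj
  have hga : (MulAut.conj (F.δ ^ j) * φ) (F.g a) = F.g a := by
    have h1 : Commute (F.g a) (F.δ ^ (n : ℤ)) := by
      rw [zpow_natCast]
      exact F.mem_Cn.1 (F.g_mem_Cn.2 h.mem.1)
    have h2 : Commute (F.g a) (F.δ ^ (j - i)) := by
      rw [hq, zpow_mul]
      exact h1.zpow_right q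
    rw [MulAut.mul_apply, hi, F.g_shz, MulAut.conj_apply]
    have h3 : F.δ ^ j * (F.δ ^ (-i) * F.g a * F.δ ^ i) * (F.δ ^ j)⁻¹ =
        F.δ ^ (j - i) * F.g a * (F.δ ^ (j - i))⁻¹ := by
      rw [zpow_sub]
      group
    rw [h3, ← h2.eq, mul_inv_cancel_right]
  have hδ : (MulAut.conj (F.δ ^ j) * φ) F.δ = F.δ := by
    rw [MulAut.mul_apply, hφ, MulAut.conj_apply]
    group
  have h4 : Set.EqOn (MulAut.conj (F.δ ^ j) * φ).toMonoidHom (MonoidHom.id G)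
      ({F.g a, F.δ} : Set G) := by
    rintro y (rfl | hy)
    · exact hga
    · rw [Set.mem_singleton_iff] at hy
      rw [hy]
      exact hδ
  exact MonoidHom.eqOn_closure h4 (F.Cn_le h.kt h.mem hu)

private theorem fx2_dvd {n : ℕ} {a : S} {c : ℤ} (h : Blk E n a c) {j : ℤ}
    (hj : F.g a * F.δ ^ j = F.δ ^ j * F.g a) : (n : ℤ) ∣ j := by
  apply h.faithful
  apply F.g_inj
  rw [F.g_shz, mul_assoc, hj, zpow_neg, inv_mul_cancel_left]

/-- `blk_fix` for both blocks, the Chinese remainder theorem, and `fix_all` with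
`U = Cn n1 ⊔ Cn n2`; `hc`: if `δ ^ j` commutes with `g a1` and `g a2` then `n1 ∣ j`, `n2 ∣ j`
(`faithful`, `g_shz`, `g_inj`), so `m ∣ j` and `comm_pow_m` applies. -/
theorem two_blocks (h1 : ∀ x, E.tau x = x → x = ⊥ ∨ x = ⊤) {n1 n2 : ℕ} {a1 a2 : S} {c1 c2 : ℤ}
    (b1 : Blk E n1 a1 c1) (b2 : Blk E n2 a2 c2) (hn : Nat.Coprime n1 n2)
    (hm : E.m = n1 * n2) {s : G} (hU : ∀ u, u ∈ F.Cn n1 ⊔ F.Cn n2 ∨ u * s⁻¹ ∈ F.Cn n1 ⊔ F.Cn n2)
    {φ : MulAut G} (hφ : φ F.δ = F.δ) : ∃ j : ℤ, φ = MulAut.conj (F.δ ^ j) := by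
  obtain ⟨i1, h3⟩ := F.blk_fix b1 hφ
  obtain ⟨i2, h4⟩ := F.blk_fix b2 hφ
  have hco : IsCoprime (n1 : ℤ) (n2 : ℤ) := Nat.isCoprime_iff_coprime.2 hn
  obtain ⟨j, hj1, hj2⟩ : ∃ j : ℤ, (n1 : ℤ) ∣ j - i1 ∧ (n2 : ℤ) ∣ j - i2 := by
    obtain ⟨u, v, huv⟩ := hco
    refine ⟨i1 + (i2 - i1) * (u * n1), ⟨(i2 - i1) * u, by ring⟩, ⟨(i1 - i2) * v, ?_⟩⟩
    have h5 : u * (n1 : ℤ) = 1 - v * n2 := by linarith
    rw [h5]
    ring
  have hall : ∀ x ∈ F.Cn n1 ⊔ F.Cn n2, (MulAut.conj (F.δ ^ j) * φ) x = x := by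
    have h5 : F.Cn n1 ⊔ F.Cn n2 ≤
        (MulAut.conj (F.δ ^ j) * φ).toMonoidHom.eqLocus (MonoidHom.id G) :=
      sup_le (fun x hx => h3 j hj1 x hx) (fun x hx => h4 j hj2 x hx)
    exact fun x hx => h5 hx
  have h6 : MulAut.conj (F.δ ^ j) * φ = 1 := by
    refine F.fix_all h1 hU ((le_sup_left : F.Cn n1 ≤ F.Cn n1 ⊔ F.Cn n2) (F.δ_mem_Cn n1))
      (fun k hk u => ?_) hall
    have d1 := F.fx2_dvd b1 (hk (F.g a1)
      ((le_sup_left : F.Cn n1 ≤ F.Cn n1 ⊔ F.Cn n2) (F.g_mem_Cn.2 b1.mem.1)))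
    have d2 := F.fx2_dvd b2 (hk (F.g a2)
      ((le_sup_right : F.Cn n2 ≤ F.Cn n1 ⊔ F.Cn n2) (F.g_mem_Cn.2 b2.mem.1)))
    obtain ⟨q, hq⟩ := hco.mul_dvd d1 d2
    have h7 : Commute u (F.δ ^ ((E.m : ℕ) : ℤ)) := by
      rw [zpow_natCast]
      exact F.comm_pow_m u
    have h8 : (E.m : ℤ) = (n1 : ℤ) * n2 := by
      rw [hm]
      push_cast
      ring
    rw [hq, ← h8, zpow_mul]
    exact h7.zpow_right q
  refine ⟨-j, ?_⟩
  rw [zpow_neg, map_inv]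
  exact eq_inv_of_mul_eq_one_right h6

/-- `Z(G)` is generated by `δ ^ m` and it is infinite cyclic -/
theorem map_center (h1 : ∀ x, E.tau x = x → x = ⊥ ∨ x = ⊤)
    (hm : ∀ j, 0 < j → j < E.m → ∃ x, E.tau^[j] x ≠ x) (φ : MulAut G) :
    φ (F.δ ^ E.m) = F.δ ^ E.m ∨ φ (F.δ ^ E.m) = (F.δ ^ E.m)⁻¹ := by
  have hc : ∀ ψ : MulAut G, ∃ j : ℤ, ψ (F.δ ^ E.m) = (F.δ ^ E.m) ^ j := by
    intro ψ
    have h2 : ψ (F.δ ^ E.m) ∈ Subgroup.center G := by
      rw [Subgroup.mem_center_iff]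
      intro u
      obtain ⟨v, rfl⟩ := ψ.surjective u
      rw [← map_mul, ← map_mul, F.comm_pow_m v]
    rw [F.center_eq h1 hm] at h2
    obtain ⟨j, hj⟩ := Subgroup.mem_zpowers_iff.1 h2
    exact ⟨j, hj.symm⟩
  obtain ⟨i, hi⟩ := hc φ
  obtain ⟨j, hj⟩ := hc φ⁻¹
  have h3 : F.δ ^ ((E.m : ℤ) * (i * j)) = F.δ ^ ((E.m : ℤ) * 1) := by
    rw [zpow_mul, zpow_natCast, zpow_mul, mul_one, zpow_natCast, ← hi, ← map_zpow, ← hj]
    exact φ.apply_symm_apply _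
  have hm0 : (E.m : ℤ) ≠ 0 := by
    have := E.m_pos
    omega
  have h4 : i * j = 1 := mul_left_cancel₀ hm0 (F.zpow_δ_inj h3)
  rcases Int.eq_one_or_neg_one_of_mul_eq_one h4 with h | h
  · left
    rw [hi, h, zpow_one]
  · right
    rw [hi, h, zpow_neg_one]

/-- If `φ (δ ^ m) = δ ^ m` then `y = φ δ` satisfies `y ^ m = δ ^ m`; `root_conj` gives `v` with
`y v = v δ`, so `conj v⁻¹ * φ` fixes `δ` and is inner by `hfix`. -/
theorem inner_of_fix (hfix : ∀ φ : MulAut G, φ F.δ = F.δ → ∃ x : G, φ = MulAut.conj x)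
    {φ : MulAut G} (hφ : φ (F.δ ^ E.m) = F.δ ^ E.m) : ∃ x : G, φ = MulAut.conj x := by
  have h1 : (φ F.δ) ^ E.m = F.δ ^ E.m := by rw [← map_pow, hφ]
  obtain ⟨v, hv⟩ := F.toGar.root_conj E.m_pos h1
  obtain ⟨x, hx⟩ := hfix (MulAut.conj v⁻¹ * φ) (by
    rw [MulAut.mul_apply, MulAut.conj_apply, inv_inv, mul_assoc, hv, inv_mul_cancel_left])
  refine ⟨v * x, ?_⟩
  rw [map_mul, ← hx, ← mul_assoc, ← map_mul, mul_inv_cancel, map_one, one_mul]

private theorem fx4_len_pow_m : 0 < F.len (F.δ ^ E.m) := by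
  have h := F.toGar.len_zpow (E.m : ℤ)
  rw [zpow_natCast] at h
  rw [h]
  exact mul_pos F.len_δ (by exact_mod_cast E.m_pos)

/-- `ε` maps `δ ^ m` to `δ ^ (-m)` because `ε` changes the sign of the length (`map_center`); so
for every `φ`, `φ` or `φ * ε` fixes `δ ^ m`, and `inner_of_fix` applies. -/
theorem form_of_fix (h1 : ∀ x, E.tau x = x → x = ⊥ ∨ x = ⊤)
    (hm : ∀ j, 0 < j → j < E.m → ∃ x, E.tau^[j] x ≠ x)
    (hfix : ∀ φ : MulAut G, φ F.δ = F.δ → ∃ x : G, φ = MulAut.conj x) {ε : MulAut G}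
    (hε : ε * ε = 1) (hl : ∀ u, F.len (ε u) = -F.len u) (φ : MulAut G) :
    (∃ x : G, φ = MulAut.conj x) ∨ ∃ x : G, φ = MulAut.conj x * ε := by
  have hpos := F.fx4_len_pow_m
  have hεm : ε (F.δ ^ E.m) = (F.δ ^ E.m)⁻¹ := by
    rcases F.map_center h1 hm ε with h | h
    · have h2 := hl (F.δ ^ E.m)
      rw [h] at h2
      linarith
    · exact h
  rcases F.map_center h1 hm φ with h | h
  · exact Or.inl (F.inner_of_fix hfix h)
  · right
    have h3 : (φ * ε) (F.δ ^ E.m) = F.δ ^ E.m := by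
      rw [MulAut.mul_apply, hεm, map_inv, h, inv_inv]
    obtain ⟨x, hx⟩ := F.inner_of_fix hfix h3
    refine ⟨x, ?_⟩
    rw [← hx, mul_assoc, hε, mul_one]

/-- the length is invariant under inner automorphisms; `len δ ≠ 0` -/
theorem not_inner {ε : MulAut G} (hl : ∀ u, F.len (ε u) = -F.len u) (x : G) :
    ε ≠ MulAut.conj x := by
  intro h
  have h1 := hl F.δ
  rw [h, MulAut.conj_apply, F.len_mul, F.len_mul, F.toGar.len_inv] at h1
  have h2 := F.len_δ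
  linarith

end Pool.Agent.SPH.Frame
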