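import Pool.Agent.SPH.CD

/-!
# Project SPH, piece SPH-GE: generation certificates

`U` is a subgroup of `G` and `s` an element of `G`.  Two bit masks record the simple elements `x`
with `g x ∈ U` (`B0`) and with `g x * s⁻¹ ∈ U` (`B1`).  A list of steps enlarges the masks:
`F x` puts `x` in `B0` if `x` is one of the given elements of `U`; `M x y q`: if `x`, `y` are in
the same mask then `x q` and `y q` are in the same coset of `U`, so `y q` joins the mask of `x q`;
`C x y q`: if `x q`, `y q` are in the same mask then `y` joins the mask of `x`.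
-/

namespace Pool.Agent.SPH.Gen

open CD (bit ins)

/-- the steps -/
inductive Stp
  | F (x : ℕ)
  | M (x y q : ℕ)
  | C (x y q : ℕ)

/-- conjunction -/
def an (a b : Bool) : Bool := cond a b false

/-- `x` and `y` are in the same mask -/
def sm (B0 B1 x y : ℕ) : Bool :=
  cond (an (bit B0 x) (bit B0 y)) true (an (bit B1 x) (bit B1 y))

variable (N : ℕ) (K : ℕ → ℕ) (le : ℕ → ℕ → Bool) (tm : ℕ → ℕ → ℕ) (fx : ℕ → Bool)

/-- the test of a step -/
def tst (B0 B1 : ℕ) : Stp → Bool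
  | .F x => an (Nat.blt x N) (fx x)
  | .M x y q => an (Nat.blt x N) (an (Nat.blt y N) (an (Nat.blt q N)
      (an (le q (K x)) (an (le q (K y)) (an (sm B0 B1 x y)
        (cond (bit B0 (tm x q)) true (bit B1 (tm x q))))))))
  | .C x y q => an (Nat.blt x N) (an (Nat.blt y N) (an (Nat.blt q N)
      (an (le q (K x)) (an (le q (K y)) (an (sm B0 B1 (tm x q) (tm y q))
        (cond (bit B0 x) true (bit B1 x)))))))

/-- the first mask after a step -/
def nx0 (B0 : ℕ) : Stp → ℕ
  | .F x => ins B0 x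
  | .M x y q => cond (bit B0 (tm x q)) (ins B0 (tm y q)) B0
  | .C x y _ => cond (bit B0 x) (ins B0 y) B0

/-- the second mask after a step -/
def nx1 (B0 B1 : ℕ) : Stp → ℕ
  | .F _ => B1
  | .M x y q => cond (bit B0 (tm x q)) B1 (ins B1 (tm y q))
  | .C x y _ => cond (bit B0 x) B1 (ins B1 y)

/-- run a list of steps and compare the masks with `Z0`, `Z1` -/
def run (Z0 Z1 : ℕ) : List Stp → ℕ → ℕ → Bool
  | [], B0, B1 => an (Nat.beq B0 Z0) (Nat.beq B1 Z1)
  | s :: l, B0, B1 => an (tst N K le tm fx B0 B1 s)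
      (run Z0 Z1 l (nx0 tm B0 s) (nx1 tm B0 B1 s))

variable {N K le tm fx} {G : Type*} [Group G]

/-- the meaning of the masks -/
def Inv (U : Subgroup G) (s : G) (g : ℕ → G) (B0 B1 : ℕ) : Prop :=
  (∀ x, bit B0 x = true → g x ∈ U) ∧ ∀ x, bit B1 x = true → g x * s⁻¹ ∈ U

theorem an_spec {a b : Bool} (h : an a b = true) : a = true ∧ b = true := by
  cases a with
  | false => exact absurd h (by simp [an])
  | true => exact ⟨rfl, h⟩

/-- `g x * (g y)⁻¹ ∈ U` for `x`, `y` in the same mask -/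
theorem sm_sound {U : Subgroup G} {s : G} {g : ℕ → G} {B0 B1 x y : ℕ} (h : Inv U s g B0 B1)
    (h1 : sm B0 B1 x y = true) : g x * (g y)⁻¹ ∈ U := by
  unfold sm at h1
  cases h0 : an (bit B0 x) (bit B0 y) with
  | true =>
    obtain ⟨h2, h3⟩ := an_spec h0
    exact U.mul_mem (h.1 x h2) (U.inv_mem (h.1 y h3))
  | false =>
    rw [h0] at h1
    obtain ⟨h2, h3⟩ := an_spec h1
    have h4 := U.mul_mem (h.2 x h2) (U.inv_mem (h.2 y h3))
    have e : g x * s⁻¹ * (g y * s⁻¹)⁻¹ = g x * (g y)⁻¹ := by group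
    rwa [e] at h4

private theorem ge_add0 {U : Subgroup G} {s : G} {g : ℕ → G} {B0 B1 z : ℕ} (h : Inv U s g B0 B1)
    (hz : g z ∈ U) : Inv U s g (ins B0 z) B1 := by
  refine ⟨fun x hx => ?_, h.2⟩
  rcases CD.bit_ins.1 hx with e | e
  · rw [← e]
    exact hz
  · exact h.1 x e

private theorem ge_add1 {U : Subgroup G} {s : G} {g : ℕ → G} {B0 B1 z : ℕ} (h : Inv U s g B0 B1)
    (hz : g z * s⁻¹ ∈ U) : Inv U s g B0 (ins B1 z) := by
  refine ⟨h.1, fun x hx => ?_⟩
  rcases CD.bit_ins.1 hx with e | e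
  · rw [← e]
    exact hz
  · exact h.2 x e

/-- as described in the header; `g (tm x q) = g x * g q` -/
theorem tst_sound {U : Subgroup G} {s : G} {g : ℕ → G} {B0 B1 : ℕ} {st : Stp}
    (hm : ∀ x < N, ∀ q < N, le q (K x) = true → g (tm x q) = g x * g q)
    (hf : ∀ x < N, fx x = true → g x ∈ U) (h : Inv U s g B0 B1)
    (ht : tst N K le tm fx B0 B1 st = true) :
    Inv U s g (nx0 tm B0 st) (nx1 tm B0 B1 st) := by
  cases st with
  | F x =>
    obtain ⟨h1, h2⟩ := an_spec ht
    exact ge_add0 h (hf x (Nat.le_of_ble_eq_true h1) h2)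
  | M x y q =>
    obtain ⟨h1, ht⟩ := an_spec ht
    obtain ⟨h2, ht⟩ := an_spec ht
    obtain ⟨h3, ht⟩ := an_spec ht
    obtain ⟨h4, ht⟩ := an_spec ht
    obtain ⟨h5, ht⟩ := an_spec ht
    obtain ⟨h6, ht⟩ := an_spec ht
    have ex := hm x (Nat.le_of_ble_eq_true h1) q (Nat.le_of_ble_eq_true h3) h4
    have ey := hm y (Nat.le_of_ble_eq_true h2) q (Nat.le_of_ble_eq_true h3) h5
    have h7 := U.inv_mem (sm_sound h h6)
    have h8 : g (tm y q) * (g (tm x q))⁻¹ ∈ U := by
      have e : g (tm y q) * (g (tm x q))⁻¹ = (g x * (g y)⁻¹)⁻¹ := by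
        rw [ex, ey]
        group
      rw [e]
      exact h7
    cases hc : bit B0 (tm x q) with
    | true =>
      have e0 : nx0 tm B0 (.M x y q) = ins B0 (tm y q) := by
        change cond (bit B0 (tm x q)) (ins B0 (tm y q)) B0 = _
        rw [hc]; rfl
      have e1 : nx1 tm B0 B1 (.M x y q) = B1 := by
        change cond (bit B0 (tm x q)) B1 (ins B1 (tm y q)) = _
        rw [hc]; rfl
      rw [e0, e1]
      refine ge_add0 h ?_
      have h9 := U.mul_mem h8 (h.1 _ hc)
      rwa [inv_mul_cancel_right] at h9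
    | false =>
      have e0 : nx0 tm B0 (.M x y q) = B0 := by
        change cond (bit B0 (tm x q)) (ins B0 (tm y q)) B0 = _
        rw [hc]; rfl
      have e1 : nx1 tm B0 B1 (.M x y q) = ins B1 (tm y q) := by
        change cond (bit B0 (tm x q)) B1 (ins B1 (tm y q)) = _
        rw [hc]; rfl
      rw [hc] at ht
      rw [e0, e1]
      refine ge_add1 h ?_
      have h9 := U.mul_mem h8 (h.2 _ ht)
      rwa [← mul_assoc, inv_mul_cancel_right] at h9
  | C x y q =>
    obtain ⟨h1, ht⟩ := an_spec ht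
    obtain ⟨h2, ht⟩ := an_spec ht
    obtain ⟨h3, ht⟩ := an_spec ht
    obtain ⟨h4, ht⟩ := an_spec ht
    obtain ⟨h5, ht⟩ := an_spec ht
    obtain ⟨h6, ht⟩ := an_spec ht
    have ex := hm x (Nat.le_of_ble_eq_true h1) q (Nat.le_of_ble_eq_true h3) h4
    have ey := hm y (Nat.le_of_ble_eq_true h2) q (Nat.le_of_ble_eq_true h3) h5
    have h7 := U.inv_mem (sm_sound h h6)
    have h8 : g y * (g x)⁻¹ ∈ U := by
      have e : g y * (g x)⁻¹ = (g (tm x q) * (g (tm y q))⁻¹)⁻¹ := by
        rw [ex, ey]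
        group
      rw [e]
      exact h7
    cases hc : bit B0 x with
    | true =>
      have e0 : nx0 tm B0 (.C x y q) = ins B0 y := by
        change cond (bit B0 x) (ins B0 y) B0 = _
        rw [hc]; rfl
      have e1 : nx1 tm B0 B1 (.C x y q) = B1 := by
        change cond (bit B0 x) B1 (ins B1 y) = _
        rw [hc]; rfl
      rw [e0, e1]
      refine ge_add0 h ?_
      have h9 := U.mul_mem h8 (h.1 _ hc)
      rwa [inv_mul_cancel_right] at h9
    | false =>
      have e0 : nx0 tm B0 (.C x y q) = B0 := by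
        change cond (bit B0 x) (ins B0 y) B0 = _
        rw [hc]; rfl
      have e1 : nx1 tm B0 B1 (.C x y q) = ins B1 y := by
        change cond (bit B0 x) B1 (ins B1 y) = _
        rw [hc]; rfl
      rw [hc] at ht
      rw [e0, e1]
      refine ge_add1 h ?_
      have h9 := U.mul_mem h8 (h.2 _ ht)
      rwa [← mul_assoc, inv_mul_cancel_right] at h9

theorem run_sound {U : Subgroup G} {s : G} {g : ℕ → G} {B0 B1 Z0 Z1 : ℕ} {l : List Stp}
    (hm : ∀ x < N, ∀ q < N, le q (K x) = true → g (tm x q) = g x * g q)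
    (hf : ∀ x < N, fx x = true → g x ∈ U) (h : Inv U s g B0 B1)
    (hr : run N K le tm fx Z0 Z1 l B0 B1 = true) : Inv U s g Z0 Z1 := by
  induction l generalizing B0 B1 with
  | nil =>
    obtain ⟨h1, h2⟩ := an_spec hr
    rw [← Nat.eq_of_beq_eq_true h1, ← Nat.eq_of_beq_eq_true h2]
    exact h
  | cons a l ih =>
    obtain ⟨h1, h2⟩ := an_spec hr
    exact ih (tst_sound hm hf h h1) h2

/-- Every element is in `U` or in `U s`.  Induction on words in the generators and their inverses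
(`Subgroup.closure_induction_right` or similar), for `u ∈ U`: `u a s⁻¹ = u (a s⁻¹)`, and
`u a⁻¹ s⁻¹ = u (c a)⁻¹ (c s⁻¹)`; for `u s⁻¹ ∈ U`: `u a = (u s⁻¹) (c s⁻¹)⁻¹ (c a)` and
`u a⁻¹ = (u s⁻¹) (a s⁻¹)⁻¹`. -/
theorem two {U : Subgroup G} {s : G} {W : Set G} (hW : Subgroup.closure W = ⊤)
    (h : ∀ a ∈ W, a * s⁻¹ ∈ U ∧ ∃ c, c * s⁻¹ ∈ U ∧ c * a ∈ U) (u : G) :
    u ∈ U ∨ u * s⁻¹ ∈ U := by
  have hu : u ∈ Subgroup.closure W := by rw [hW]; exact Subgroup.mem_top u
  induction hu using Subgroup.closure_induction_right with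
  | one => exact Or.inl U.one_mem
  | mul_right x _ a ha ih =>
    obtain ⟨h1, c, h2, h3⟩ := h a ha
    rcases ih with h4 | h4
    · right
      rw [mul_assoc]
      exact U.mul_mem h4 h1
    · left
      have e : x * a = x * s⁻¹ * (c * s⁻¹)⁻¹ * (c * a) := by group
      rw [e]
      exact U.mul_mem (U.mul_mem h4 (U.inv_mem h2)) h3
  | mul_inv_cancel x _ a ha ih =>
    obtain ⟨h1, c, h2, h3⟩ := h a ha
    rcases ih with h4 | h4
    · right
      have e : x * a⁻¹ * s⁻¹ = x * (c * a)⁻¹ * (c * s⁻¹) := by group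
      rw [e]
      exact U.mul_mem (U.mul_mem h4 (U.inv_mem h3)) h2
    · left
      have e : x * a⁻¹ = x * s⁻¹ * (a * s⁻¹)⁻¹ := by group
      rw [e]
      exact U.mul_mem h4 (U.inv_mem h1)

end Pool.Agent.SPH.Gen
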