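import Pool.Agent.SPH.AdChk
import Pool.Agent.SPH.Fix
import Pool.Agent.SPH.Gen

/-!
# Project SPH, piece SPH-ID: hypotheses on the germ from finite checks
-/

namespace Pool.Agent.SPH

open Pool.Agent.Helper7.AG

namespace TD

variable (D : TD)

/-- `i` is fixed by `τ ^ n` and it is not `1` or `δ` -/
def inT (n i : ℕ) : Bool :=
  an (Nat.beq (itN D.tau n i) i) (an (Nat.ble 1 i) (Nat.blt (i + 1) D.N))

/-- the list of these elements -/
def lsT (n : ℕ) : List ℕ := upB D.N (D.inT n)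

/-- only `1` and `δ` are fixed by `τ` -/
def chk1 : Bool := allB D.N fun i => cond (Nat.beq (D.tau i) i)
  (cond (Nat.beq i 0) true (Nat.beq (i + 1) D.N)) true

/-- the element `w` has an orbit with `m` elements under `τ` -/
def witc (w : ℕ) : Bool := an (Nat.blt w D.N) (allB D.m fun j => cond (Nat.beq j 0) true
  (cond (Nat.beq (itN D.tau j w) w) false true))

/-- `Two n` and `KT n` -/
def twoc (n : ℕ) : Bool := allL (D.lsT n) fun x => allL (D.lsT n) fun y =>
  an (cond (D.le x y) (Nat.beq x y) true) (itx D.K (2 * D.m) x y)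

/-- the check of a block -/
def blkc (n a c : ℕ) : Bool :=
  an (Nat.blt 0 n) (an (Nat.blt a D.N) (an (D.inT n a) (an (D.twoc n) (an (Nat.blt c D.m)
    (an (Nat.beq (D.K a) (itN D.tau c a))
      (allB n fun j => cond (Nat.beq j 0) true
        (cond (Nat.beq (itN D.tau j a) a) false true)))))))

variable {D} {h : D.Ok}

private theorem id1_beq {a b : ℕ} (h : a = b) : Nat.beq a b = true := by
  subst h
  exact Nat.beq_refl a

private theorem id1_cond {a b : Bool} (h : cond a b true = true) (ha : a = true) : b = true := by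
  subst ha
  exact h

private theorem id1_or {a b : Bool} (h : cond a true b = true) : a = true ∨ b = true := by
  cases a with
  | true => exact Or.inl rfl
  | false => exact Or.inr h

private theorem id1_bot {x : El h} (hx : x.i = 0) : x = ⊥ := El.ext' (hx.trans El.bot_i.symm)

private theorem id1_top {x : El h} (hx : x.i + 1 = D.N) : x = ⊤ := by
  apply El.ext'
  rw [El.top_i]
  omega

theorem tau_triv (hc : D.chk1 = true) (x : El h) (hx : (El.germ h).tau x = x) :
    x = ⊥ ∨ x = ⊤ := by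
  have h1 := allB_spec hc x.i x.lt
  have h2 : D.tau x.i = x.i := by
    rw [← El.tau_i, hx]
  have h3 := id1_cond h1 (id1_beq h2)
  rcases id1_or h3 with h4 | h4
  · exact Or.inl (id1_bot (Nat.eq_of_beq_eq_true h4))
  · exact Or.inr (id1_top (Nat.eq_of_beq_eq_true h4))

theorem exists_moved {w : ℕ} (hc : D.witc w = true) (j : ℕ) (h1 : 0 < j) (h2 : j < D.m) :
    ∃ x : El h, (El.germ h).tau^[j] x ≠ x := by
  obtain ⟨h3, h4⟩ := an_spec hc
  have hw : w < D.N := Nat.le_of_ble_eq_true h3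
  have h5 := allB_spec h4 j h2
  refine ⟨⟨w, hw⟩, fun h6 => ?_⟩
  have h7 : D.tau^[j] w = w := by
    have h8 := El.tau_iter (h := h) j ⟨w, hw⟩
    rw [h6] at h8
    exact h8.symm
  rcases id1_or h5 with h8 | h8
  · have := Nat.eq_of_beq_eq_true h8
    omega
  · have h9 : Nat.beq (itN D.tau j w) w = true := id1_beq (by rw [itN_eq, h7])
    rw [h9] at h8
    exact absurd h8 (by simp)

theorem mem_T_iff {n : ℕ} {x : El h} : x ∈ (El.germ h).T n ↔ D.inT n x.i = true := by
  constructor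
  · rintro ⟨h1, h2, h3⟩
    have e1 : Nat.beq (itN D.tau n x.i) x.i = true := by
      apply id1_beq
      rw [itN_eq, ← El.tau_iter, h1]
    have e2 : Nat.ble 1 x.i = true := by
      apply Nat.ble_eq_true_of_le
      rcases Nat.eq_zero_or_pos x.i with h0 | h0
      · exact absurd (id1_bot h0) h2
      · exact h0
    have e3 : Nat.blt (x.i + 1) D.N = true := by
      apply Nat.ble_eq_true_of_le
      have := x.lt
      rcases Nat.lt_or_ge (x.i + 1) D.N with h0 | h0
      · exact h0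
      · exact absurd (id1_top (by omega)) h3
    show cond (Nat.beq (itN D.tau n x.i) x.i) (cond (Nat.ble 1 x.i) (Nat.blt (x.i + 1) D.N) false)
      false = true
    rw [e1, e2, e3]
    rfl
  · intro h1
    obtain ⟨h2, h3⟩ := an_spec h1
    obtain ⟨h4, h5⟩ := an_spec h3
    have e1 := Nat.eq_of_beq_eq_true h2
    have e2 := Nat.le_of_ble_eq_true h4
    have e3 : x.i + 1 < D.N := Nat.le_of_ble_eq_true h5
    refine ⟨?_, ?_, ?_⟩
    · apply El.ext'
      rw [El.tau_iter, ← itN_eq]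
      exact e1
    · intro h6
      rw [h6, El.bot_i] at e2
      omega
    · intro h6
      rw [h6, El.top_i] at e3
      have := h.two
      omega

private theorem id1_ls {n : ℕ} {x : El h} (hx : x ∈ (El.germ h).T n) : x.i ∈ D.lsT n :=
  mem_upB x.lt (mem_T_iff.1 hx)

private theorem id1_K (k : ℕ) (x : El h) : ((El.germ h).K^[k] x).i = D.K^[k] x.i := by
  induction k with
  | zero => rfl
  | succ k ih =>
    rw [Function.iterate_succ_apply', Function.iterate_succ_apply', El.K_i, ih]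

theorem two_of {n : ℕ} (hc : D.twoc n = true) : (El.germ h).Two n := by
  intro x hx y hy hxy
  have h1 := (an_spec (allL_spec (allL_spec hc x.i (id1_ls hx)) y.i (id1_ls hy))).1
  exact El.ext' (Nat.eq_of_beq_eq_true (id1_cond h1 hxy))

theorem kt_of {n : ℕ} (hc : D.twoc n = true) : (El.germ h).KT n := by
  intro x hx y hy
  have h1 := (an_spec (allL_spec (allL_spec hc x.i (id1_ls hx)) y.i (id1_ls hy))).2
  obtain ⟨k, hk⟩ := itx_spec h1
  refine ⟨k, El.ext' ?_⟩
  rw [id1_K, hk]

/-- `shz c = tau^[c]` for `0 ≤ c < m`; `faithful`: `shz` is additive (`shz_add`), `shz n a = a`, so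
`shz j a = shz (j % n) a`, and `j % n = 0` by the last check -/
theorem blk_of {n a c : ℕ} (hc : D.blkc n a c = true) {x : El h} (hx : x.i = a) :
    Frame.Blk (El.germ h) n x (c : ℤ) := by
  obtain ⟨c1, hc⟩ := an_spec hc
  obtain ⟨_, hc⟩ := an_spec hc
  obtain ⟨c3, hc⟩ := an_spec hc
  obtain ⟨c4, hc⟩ := an_spec hc
  obtain ⟨c5, hc⟩ := an_spec hc
  obtain ⟨c6, c7⟩ := an_spec hc
  have hn : 0 < n := Nat.le_of_ble_eq_true c1
  have hcm : c < D.m := Nat.le_of_ble_eq_true c5
  have hnat : ∀ k : ℕ, (El.germ h).shz (k : ℤ) x = (El.germ h).tau^[k] x := by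
    intro k
    induction k with
    | zero => exact (El.germ h).shz_zero x
    | succ k ih =>
      rw [Nat.cast_succ, (El.germ h).shz_succ, ih, Function.iterate_succ_apply']
  have hmem : x ∈ (El.germ h).T n := mem_T_iff.2 (by rw [hx]; exact c3)
  refine ⟨two_of c4, kt_of c4, hmem, ?_, ?_⟩
  · rw [hnat]
    refine El.ext' ?_
    rw [El.K_i, El.tau_iter, hx, ← itN_eq]
    exact Nat.eq_of_beq_eq_true c6
  · intro j hj
    have hfix : (El.germ h).shz (n : ℤ) x = x := by
      rw [hnat]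
      refine El.ext' ?_
      rw [El.tau_iter, hx, ← itN_eq]
      exact Nat.eq_of_beq_eq_true (an_spec c3).1
    have hfix' : (El.germ h).shz (-(n : ℤ)) x = x := by
      have h1 := (El.germ h).shz_add (-(n : ℤ)) n x
      rw [hfix, neg_add_cancel, (El.germ h).shz_zero] at h1
      exact h1.symm
    have hall : ∀ q : ℤ, (El.germ h).shz ((n : ℤ) * q) x = x := by
      intro q
      induction q using Int.induction_on with
      | zero => rw [mul_zero, (El.germ h).shz_zero]
      | succ q ih =>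
        rw [show (n : ℤ) * ((q : ℤ) + 1) = (n : ℤ) * q + n by ring, (El.germ h).shz_add, hfix, ih]
      | pred q ih =>
        rw [show (n : ℤ) * (-(q : ℤ) - 1) = (n : ℤ) * (-(q : ℤ)) + -(n : ℤ) by ring,
          (El.germ h).shz_add, hfix', ih]
    have hn' : (0 : ℤ) < n := by exact_mod_cast hn
    have h0 : 0 ≤ j % (n : ℤ) := Int.emod_nonneg j hn'.ne'
    have h1 : j % (n : ℤ) < n := Int.emod_lt_of_pos j hn'
    obtain ⟨r, hr⟩ := Int.eq_ofNat_of_zero_le h0
    have hrn : r < n := by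
      rw [hr] at h1
      exact_mod_cast h1
    have h2 : (El.germ h).shz (r : ℤ) x = x := by
      have e : j = (r : ℤ) + (n : ℤ) * (j / n) := by
        rw [← hr]
        exact (Int.emod_add_mul_ediv j n).symm
      rw [e, (El.germ h).shz_add, hall] at hj
      exact hj
    have h3 : itN D.tau r a = a := by
      rw [hnat] at h2
      have h4 := congrArg El.i h2
      rw [El.tau_iter, hx, ← itN_eq] at h4
      exact h4
    have h5 := allB_spec c7 r hrn
    have hr0 : r = 0 := by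
      by_contra hne
      have h6 : Nat.beq r 0 = false := by
        cases h7 : Nat.beq r 0 with
        | false => rfl
        | true => exact absurd (Nat.eq_of_beq_eq_true h7) hne
      have h8 : Nat.beq (itN D.tau r a) a = true := by
        rw [h3]
        exact Nat.beq_refl a
      rw [h6, h8] at h5
      exact absurd h5 (by decide)
    rw [hr0] at hr
    exact Int.dvd_of_emod_eq_zero (by rw [hr]; rfl)

/-- the elements fixed by `τ ^ n1` or `τ ^ n2` -/
def fx2 (D : TD) (n1 n2 x : ℕ) : Bool :=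
  cond (Nat.beq (itN D.tau n1 x) x) true (Nat.beq (itN D.tau n2 x) x)

end TD

namespace AD

variable {A : AD} (h : A.Ok)

/-- `s` and `δ s⁻¹` are in the mask `Z`, for all generators `s` -/
def finc (A : AD) (Z : ℕ) : Bool := allL (List.ofFn A.gi) fun i =>
  an (CD.bit Z i) (CD.bit Z (A.D.ki i))

open Classical in
private noncomputable def idG [Lattice (Artin A.M)] (F : Frame (EE h) (Artin A.M)) (i : ℕ) :
    Artin A.M := if hi : i < A.D.N then F.g ⟨i, hi⟩ else 1

private theorem idG_eq [Lattice (Artin A.M)] (F : Frame (EE h) (Artin A.M)) {i : ℕ}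
    (hi : i < A.D.N) : idG h F i = F.g ⟨i, hi⟩ := dif_pos hi

private theorem idG_mul [Lattice (Artin A.M)] (F : Frame (EE h) (Artin A.M)) (x : ℕ)
    (hx : x < A.D.N) (q : ℕ) (hq : q < A.D.N) (e : A.D.le q (A.D.K x) = true) :
    idG h F (A.D.tm x q) = idG h F x * idG h F q := by
  have h1 : (⟨q, hq⟩ : SS h) ≤ (EE h).K ⟨x, hx⟩ := by
    rw [TD.El.le_def, TD.El.K_i]
    exact e
  have h2 : ((EE h).mul ⟨x, hx⟩ ⟨q, hq⟩ : SS h).i = A.D.tm x q := TD.El.mul_i h1
  have h3 : A.D.tm x q < A.D.N := by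
    rw [← h2]
    exact ((EE h).mul ⟨x, hx⟩ ⟨q, hq⟩ : SS h).lt
  have h4 : (⟨A.D.tm x q, h3⟩ : SS h) = (EE h).mul ⟨x, hx⟩ ⟨q, hq⟩ := TD.El.ext' h2.symm
  rw [idG_eq h F h3, idG_eq h F hx, idG_eq h F hq, h4, F.g_mul' h1]

private theorem idG_fx2 [Lattice (Artin A.M)] (F : Frame (EE h) (Artin A.M)) (n1 n2 x : ℕ)
    (hx : x < A.D.N) (e : A.D.fx2 n1 n2 x = true) : idG h F x ∈ F.Cn n1 ⊔ F.Cn n2 := by
  have key : ∀ n, Nat.beq (itN A.D.tau n x) x = true → idG h F x ∈ F.Cn n := by
    intro n hn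
    rw [idG_eq h F hx]
    refine F.g_mem_Cn.2 ?_
    apply TD.El.ext'
    rw [TD.El.tau_iter, ← itN_eq]
    exact Nat.eq_of_beq_eq_true hn
  cases hc : Nat.beq (itN A.D.tau n1 x) x with
  | true => exact (le_sup_left : F.Cn n1 ≤ F.Cn n1 ⊔ F.Cn n2) (key n1 hc)
  | false =>
    have e' : cond (Nat.beq (itN A.D.tau n1 x) x) true (Nat.beq (itN A.D.tau n2 x) x) = true := e
    rw [hc] at e'
    exact (le_sup_right : F.Cn n2 ≤ F.Cn n1 ⊔ F.Cn n2) (key n2 e')

private theorem idG_gi [Lattice (Artin A.M)] (F : Frame (EE h) (Artin A.M))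
    (hg : ∀ (k : Fin A.n) (x : SS h), x.i = A.gi k → F.g x = PresentedGroup.of k)
    (k : Fin A.n) : idG h F (A.gi k) = PresentedGroup.of k := by
  have h1 : A.gi k < A.D.N := lt_of_le_of_lt (h.gi_atom k).2 h.T_N
  rw [idG_eq h F h1]
  exact hg k _ rfl

private theorem idG_closure : Subgroup.closure
    (Set.range fun k : Fin A.n => (PresentedGroup.of k : Artin A.M)) = ⊤ :=
  PresentedGroup.closure_range_of _

/-- `Gen.run_sound` with `g i = F.g ⟨i, _⟩`, `U = Cn n1 ⊔ Cn n2` and the start masks `0` and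
`{gi k0}`, then `Gen.two` for the set of the generators `of k`; `c = g (ki (gi k))` satisfies
`c * of k = δ` because `K (ki i) = i`; `δ ∈ U`. -/
theorem gen_two [Lattice (Artin A.M)] (F : Frame (EE h) (Artin A.M))
    (hg : ∀ (k : Fin A.n) (x : SS h), x.i = A.gi k → F.g x = PresentedGroup.of k)
    {n1 n2 Z0 Z1 : ℕ} {k0 : Fin A.n} {l : List Gen.Stp}
    (hr : Gen.run A.D.N A.D.K A.D.le A.D.tm (A.D.fx2 n1 n2) Z0 Z1 l 0
      (CD.ins 0 (A.gi k0)) = true)
    (hz : A.finc Z1 = true) (u : Artin A.M) :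
    u ∈ F.Cn n1 ⊔ F.Cn n2 ∨ u * (PresentedGroup.of k0)⁻¹ ∈ F.Cn n1 ⊔ F.Cn n2 := by
  have hI : Gen.Inv (F.Cn n1 ⊔ F.Cn n2) (PresentedGroup.of k0 : Artin A.M) (idG h F) Z0 Z1 := by
    refine Gen.run_sound (idG_mul h F) (idG_fx2 h F n1 n2) ⟨?_, ?_⟩ hr
    · intro x hx
      rw [CD.bit_zero] at hx
      exact absurd hx (by simp)
    · intro x hx
      rcases CD.bit_ins.1 hx with e | e
      · rw [← e, idG_gi h F hg, mul_inv_cancel]
        exact Subgroup.one_mem _
      · rw [CD.bit_zero] at e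
        exact absurd e (by simp)
  refine Gen.two (W := Set.range fun k : Fin A.n => (PresentedGroup.of k : Artin A.M))
    idG_closure ?_ u
  rintro _ ⟨k, rfl⟩
  obtain ⟨h1, h2⟩ := an_spec (allL_spec hz (A.gi k) ((List.mem_ofFn' A.gi _).2 ⟨k, rfl⟩))
  have h3 := hI.2 _ h1
  rw [idG_gi h F hg] at h3
  refine ⟨h3, idG h F (A.D.ki (A.gi k)), hI.2 _ h2, ?_⟩
  have h4 : A.gi k < A.D.N := lt_of_le_of_lt (h.gi_atom k).2 h.T_N
  have h5 : A.D.ki (A.gi k) < A.D.N := h.ok.ki_lt _ h4
  have h6 : ((EE h).K ⟨A.D.ki (A.gi k), h5⟩ : SS h).i = A.gi k := by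
    rw [TD.El.K_i]
    exact h.ok.K_ki _ h4
  have h7 := F.g_K (⟨A.D.ki (A.gi k), h5⟩ : SS h)
  rw [hg k _ h6] at h7
  change idG h F (A.D.ki (A.gi k)) * PresentedGroup.of k ∈ _
  rw [idG_eq h F h5, h7]
  exact (le_sup_left : F.Cn n1 ≤ F.Cn n1 ⊔ F.Cn n2) (F.δ_mem_Cn n1)

/-- the same with all generators in `U` (their mask `Z0`) -/
theorem gen_one [Lattice (Artin A.M)] (F : Frame (EE h) (Artin A.M))
    (hg : ∀ (k : Fin A.n) (x : SS h), x.i = A.gi k → F.g x = PresentedGroup.of k)
    {n1 n2 Z0 Z1 : ℕ} {l : List Gen.Stp}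
    (hr : Gen.run A.D.N A.D.K A.D.le A.D.tm (A.D.fx2 n1 n2) Z0 Z1 l 0 0 = true)
    (hz : (allL (List.ofFn A.gi) fun i => CD.bit Z0 i) = true) : F.Cn n1 ⊔ F.Cn n2 = ⊤ := by
  have h0 : ∀ x, CD.bit 0 x = true → False := by
    intro x hx
    rw [CD.bit_zero] at hx
    exact absurd hx (by simp)
  have hI : Gen.Inv (F.Cn n1 ⊔ F.Cn n2) (1 : Artin A.M) (idG h F) Z0 Z1 :=
    Gen.run_sound (idG_mul h F) (idG_fx2 h F n1 n2)
      ⟨fun x hx => (h0 x hx).elim, fun x hx => (h0 x hx).elim⟩ hr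
  rw [eq_top_iff, ← idG_closure, Subgroup.closure_le]
  rintro _ ⟨k, rfl⟩
  have h1 := hI.1 _ (allL_spec hz (A.gi k) ((List.mem_ofFn' A.gi _).2 ⟨k, rfl⟩))
  rwa [idG_gi h F hg] at h1

/-- the product of a list of simple elements, starting from `x`, is `δ` -/
def prc (D : TD) : ℕ → List ℕ → Bool
  | x, [] => Nat.beq (x + 1) D.N
  | x, q :: l => an (Nat.blt q D.N) (an (D.le q (D.K x)) (prc D (D.tm x q) l))

/-- `g_mul'`, `mul_i`; induction on the list for a general start `x` -/
theorem prod_of [Lattice (Artin A.M)] (F : Frame (EE h) (Artin A.M))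
    (hg : ∀ (k : Fin A.n) (x : SS h), x.i = A.gi k → F.g x = PresentedGroup.of k)
    (hp : prc A.D 0 (List.ofFn A.gi) = true) :
    (List.ofFn fun k => (PresentedGroup.of k : Artin A.M)).prod = F.δ := by
  have key : ∀ (l : List (Fin A.n)) (x : SS h), prc A.D x.i (l.map A.gi) = true →
      F.g x * (l.map fun k => (PresentedGroup.of k : Artin A.M)).prod = F.δ := by
    intro l
    induction l with
    | nil =>
      intro x hx
      have h1 : x.i + 1 = A.D.N := Nat.eq_of_beq_eq_true hx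
      have h2 : x = ⊤ := by
        apply TD.El.ext'
        rw [TD.El.top_i]
        omega
      rw [List.map_nil, List.prod_nil, mul_one, h2, F.g_top]
    | cons k l ih =>
      intro x hx
      obtain ⟨h1, h2⟩ := an_spec (show an (Nat.blt (A.gi k) A.D.N) (an (A.D.le (A.gi k)
        (A.D.K x.i)) (prc A.D (A.D.tm x.i (A.gi k)) (l.map A.gi))) = true from hx)
      obtain ⟨h3, h4⟩ := an_spec h2
      have h5 : A.gi k < A.D.N := Nat.le_of_ble_eq_true h1
      have h6 : (⟨A.gi k, h5⟩ : SS h) ≤ (EE h).K x := by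
        rw [TD.El.le_def, TD.El.K_i]
        exact h3
      have h7 := F.g_mul' h6
      have h8 := ih ((EE h).mul x ⟨A.gi k, h5⟩) (by rw [TD.El.mul_i h6]; exact h4)
      rw [← h7, hg k ⟨A.gi k, h5⟩ rfl, mul_assoc] at h8
      rw [List.map_cons, List.prod_cons]
      exact h8
  have h1 := key (List.finRange A.n) ⊥ (by
    rw [← List.ofFn_eq_map]
    exact hp)
  rw [F.g_bot, one_mul, ← List.ofFn_eq_map] at h1
  exact h1

end AD

end Pool.Agent.SPH
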