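import Pool.Agent.SPH.Fix

/-!
# Project SPH, type E6: the centraliser of `δ ^ 4`

The simple elements which are fixed by `τ ^ 4` form the germ of the braid group on four strands:
atoms `b`, `τ b`, `b' = τ² b`, `τ³ b`, `a`, `τ a`, and `u = b b' = b' b`, `a u = δ`.  An
automorphism which fixes `δ` and the length fixes `a` and `u` after a conjugation by a power of
`δ`.  The centraliser of `u` in the centraliser of `δ ^ 4` consists of the elements
`b ^ p b' ^ q δ ^ (2 l)`; this gives `φ b = b` or `φ b = b'`.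
-/

namespace Pool.Agent.SPH

/-- the table facts about the simple elements fixed by `τ ^ 4` -/
structure Blk4 {S : Type*} [Lattice S] [BoundedOrder S] (E : Germ S) (a u b b' : S) :
    Prop where
  two : E.Two 2
  kt : E.KT 2
  mem : a ∈ E.T 2
  K_a : E.K a = u
  rk_a : ∀ y ∈ E.T 2, E.rk y = E.rk a → y = a ∨ y = E.tau a
  tau_u : E.tau u ≠ u
  uK : E.K u ⊓ u = ⊥
  bK : E.K b ⊓ b = ⊥
  bK' : E.K b' ⊓ b' = ⊥
  b_bot : b ≠ ⊥
  b_ne : b ≠ b'
  b_le : b ≤ u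
  b_le' : b' ≤ u
  q_b : E.q b u = b'
  q_b' : E.q b' u = b
  tau_b : E.tau^[2] b = b'
  tau_b' : E.tau^[2] b' = b
  loops : ∀ t, E.tau^[4] t = t → t ≠ ⊥ → E.q u (u ⊔ t) ≤ t →
    E.q (E.K u) (E.K u ⊔ t) ≤ E.tau t → b ≤ t ∨ b' ≤ t ∨ E.K u ≤ t
  fix4 : ∀ x, E.tau^[4] x = x → x = ⊥ ∨ x = ⊤ ∨ ∃ k : ℕ, x = E.tau^[k] b ∨
    x = E.K (E.tau^[k] b) ∨ x = E.tau^[k] a ∨ x = E.K (E.tau^[k] a)
  a_eq : ∃ i j : ℕ, E.tau^[i] b ≤ E.K (E.tau^[j] b) ∧
    E.q (E.tau^[i] b) (E.K (E.tau^[j] b)) = a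

namespace Frame

variable {S : Type*} [Lattice S] [BoundedOrder S] {E : Germ S} {G : Type*} [Group G] [Lattice G]
  (F : Frame E G)

theorem one_le_g (x : S) : 1 ≤ F.g x := by
  rw [← F.g_bot, F.g_le]
  exact bot_le

theorem g_le_δ (x : S) : F.g x ≤ F.δ := by
  rw [← F.g_top, F.g_le]
  exact le_top

theorem g_sup (x y : S) : F.g (x ⊔ y) = F.g x ⊔ F.g y := by
  obtain ⟨z, hz⟩ := F.g_surj (F.g x ⊔ F.g y) ((F.one_le_g x).trans le_sup_left)
    (sup_le (F.g_le_δ x) (F.g_le_δ y))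
  apply le_antisymm
  · rw [← hz, F.g_le]
    refine sup_le (F.g_le.1 ?_) (F.g_le.1 ?_)
    · rw [hz]; exact le_sup_left
    · rw [hz]; exact le_sup_right
  · exact sup_le (F.g_le.2 le_sup_left) (F.g_le.2 le_sup_right)

theorem g_inf (x y : S) : F.g (x ⊓ y) = F.g x ⊓ F.g y := by
  obtain ⟨z, hz⟩ := F.g_surj (F.g x ⊓ F.g y) (le_inf (F.one_le_g x) (F.one_le_g y))
    (inf_le_left.trans (F.g_le_δ x))
  apply le_antisymm
  · exact le_inf (F.g_le.2 inf_le_left) (F.g_le.2 inf_le_right)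
  · rw [← hz, F.g_le]
    refine le_inf (F.g_le.1 ?_) (F.g_le.1 ?_)
    · rw [hz]; exact inf_le_left
    · rw [hz]; exact inf_le_right

/-- `x ^ (n + 1) ⊓ δ = x (x ^ n ⊓ K x)` and `x ^ n ⊓ K x ≤ x ⊓ K x = 1` -/
theorem pow_inf_δ {x : S} (h : E.K x ⊓ x = ⊥) (n : ℕ) : F.g x ^ (n + 1) ⊓ F.δ = F.g x := by
  induction n with
  | zero =>
    rw [zero_add, pow_one]
    exact inf_eq_left.2 (F.g_le_δ x)
  | succ n ih =>
    have h1 : F.g x ^ (n + 1) ⊓ F.g (E.K x) = 1 := by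
      have h2 : F.g x ^ (n + 1) ⊓ F.g (E.K x) = F.g x ^ (n + 1) ⊓ F.δ ⊓ F.g (E.K x) := by
        rw [inf_assoc, inf_eq_right.2 (F.g_le_δ (E.K x))]
      rw [h2, ih, ← F.g_inf, inf_comm, h, F.g_bot]
    have h3 : F.g x ^ (n + 2) ⊓ F.δ = F.g x * F.g x ^ (n + 1) ⊓ F.g x * F.g (E.K x) := by
      rw [F.g_K, ← pow_succ']
    rw [h3, ← F.toGar.mul_inf, h1, mul_one]

/-- no nontrivial power of `g x` is a power of `δ` -/
theorem pow_ne_zpow {x : S} (h : E.K x ⊓ x = ⊥) (h0 : x ≠ ⊥) (h1 : x ≠ ⊤) {n k : ℤ}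
    (hn : F.g x ^ n = F.δ ^ k) : n = 0 := by
  have key : ∀ (m : ℕ) (j : ℤ), F.g x ^ (m + 1) ≠ F.δ ^ j := by
    intro m j hj
    have h2 := F.pow_inf_δ h m
    rcases le_or_gt j 0 with h3 | h3
    · have h4 : F.g x ^ (m + 1) ≤ 1 := by
        rw [hj, ← zpow_zero F.δ]
        exact (F.zpow_le_iff _ _).2 h3
      have h5 : F.g x ≤ F.g ⊥ := by
        rw [F.g_bot, ← h2]
        exact inf_le_left.trans h4
      exact h0 (le_bot_iff.1 (F.g_le.1 h5))
    · have h4 : F.δ ≤ F.g x ^ (m + 1) := by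
        rw [hj]
        have h5 := (F.zpow_le_iff 1 j).2 h3
        rwa [zpow_one] at h5
      rw [inf_eq_right.2 h4, ← F.g_top] at h2
      exact h1 (F.g_inj h2).symm
  obtain ⟨m, rfl | rfl⟩ := n.eq_nat_or_neg
  · rcases m with _ | m
    · rfl
    · exact absurd (by exact_mod_cast hn) (key m k)
  · rcases m with _ | m
    · rfl
    · refine absurd ?_ (key m (-k))
      rw [zpow_neg, inv_eq_iff_eq_inv, ← zpow_neg] at hn
      exact_mod_cast hn

/-- powers of different elements are different -/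
theorem pow_eq_pow {x y : S} (hx : E.K x ⊓ x = ⊥) (hy : E.K y ⊓ y = ⊥) (hxy : x ≠ y) {n : ℤ}
    (hn : F.g x ^ n = F.g y ^ n) : n = 0 := by
  have key : ∀ m : ℕ, F.g x ^ (m + 1) ≠ F.g y ^ (m + 1) := by
    intro m hm
    have h2 := F.pow_inf_δ hx m
    rw [hm, F.pow_inf_δ hy m] at h2
    exact hxy (F.g_inj h2).symm
  obtain ⟨m, rfl | rfl⟩ := n.eq_nat_or_neg
  · rcases m with _ | m
    · rfl
    · exact absurd (by exact_mod_cast hn) (key m)
  · rcases m with _ | m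
    · rfl
    · refine absurd ?_ (key m)
      rw [zpow_neg, zpow_neg, inv_inj] at hn
      exact_mod_cast hn

section

variable {a u b b' : S} (B : Blk4 E a u b b')

include B

theorem b4_comm : Commute (F.g b) (F.g b') := by
  have h1 := F.g_mul B.b_le
  have h2 := F.g_mul B.b_le'
  rw [B.q_b] at h1
  rw [B.q_b'] at h2
  exact h1.trans h2.symm

theorem b4_u : F.g u = F.g b * F.g b' := by
  have h1 := F.g_mul B.b_le
  rw [B.q_b] at h1
  exact h1.symm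

theorem b4_comm_u : Commute (F.g b) (F.g u) := by
  rw [F.b4_u B]
  exact (Commute.refl _).mul_right (F.b4_comm B)

theorem b4_comm_u' : Commute (F.g b') (F.g u) := by
  rw [F.b4_u B]
  exact (F.b4_comm B).symm.mul_right (Commute.refl _)

theorem b4_uT : u ∈ E.T 2 := by
  rw [← B.K_a]
  exact K_mem_T B.mem

theorem b4_δ2 : F.g b' = F.δ ^ (-2 : ℤ) * F.g b * F.δ ^ (2 : ℤ) := by
  rw [← B.tau_b, F.g_tau_iter, zpow_neg, zpow_ofNat]

theorem b4_δ2' : F.g b = F.δ ^ (-2 : ℤ) * F.g b' * F.δ ^ (2 : ℤ) := by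
  rw [← B.tau_b', F.g_tau_iter, zpow_neg, zpow_ofNat]

theorem b4_δ4 : Commute (F.g b) (F.δ ^ 4) := by
  refine (F.comm_iff b 4).2 ?_
  change E.tau^[2 + 2] b = b
  rw [Function.iterate_add_apply, B.tau_b, B.tau_b']

theorem b4_δ4' : Commute (F.g b') (F.δ ^ 4) := by
  refine (F.comm_iff b' 4).2 ?_
  change E.tau^[2 + 2] b' = b'
  rw [Function.iterate_add_apply, B.tau_b', B.tau_b]

omit B in
/-- the first table condition -/
theorem b4_cond1 {z : G} {y x : S} (h : F.g u * z = z * F.g y)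
    (hx : F.g x = z ⊓ F.δ) : E.q u (u ⊔ x) ≤ x := by
  rw [← F.g_le, ← F.mul_le_iff (F.g u), F.g_mul le_sup_left, F.g_sup]
  refine sup_le ?_ ?_
  · have h1 := F.mul_le (F.g u) _ _ (F.one_le_g x)
    rwa [mul_one] at h1
  · rw [hx, F.toGar.mul_inf, h]
    refine le_inf (inf_le_left.trans ?_) (inf_le_right.trans ?_)
    · have h1 := F.mul_le z _ _ (F.one_le_g y)
      rwa [mul_one] at h1
    · have h1 := F.mulδ_le _ _ (F.one_le_g u)
      rwa [one_mul] at h1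

omit B in
/-- the second table condition -/
theorem b4_cond2 {z : G} {y x : S} (h : F.g u * z = z * F.g y)
    (hx : F.g x = z ⊓ F.δ) : E.q (E.K u) (E.K u ⊔ x) ≤ E.tau x := by
  rw [← F.g_le, ← F.mul_le_iff (F.g (E.K u)), F.g_mul le_sup_left, F.g_sup, F.g_tau,
    ← F.mul_le_iff (F.g u)]
  have e : F.g u * (F.g (E.K u) * (F.δ⁻¹ * F.g x * F.δ)) = F.g x * F.δ := by
    rw [← mul_assoc, F.g_K]
    group
  rw [e, F.toGar.mul_sup, F.g_K]
  refine sup_le ?_ ?_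
  · have h1 := F.mulδ_le _ _ (F.one_le_g x)
    rwa [one_mul] at h1
  · have e2 : F.g x * F.δ = z * F.δ ⊓ F.δ * F.δ := by
      rw [hx]
      have h1 := F.toGar.inf_mul_zpow z F.δ 1
      rwa [zpow_one] at h1
    rw [e2]
    refine le_inf ?_ ?_
    · refine (F.mul_le (F.g u) _ _ (show F.g x ≤ z by rw [hx]; exact inf_le_left)).trans ?_
      rw [h]
      exact F.mul_le z _ _ (F.g_le_δ y)
    · exact (F.mul_le (F.g u) _ _ (F.g_le_δ x)).trans (F.mulδ_le _ _ (F.g_le_δ u))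

theorem b4_bot' : b' ≠ ⊥ := by
  intro h
  apply B.b_bot
  rw [← B.tau_b', h]
  exact Function.iterate_fixed E.tau_bot 2

theorem b4_δ2u : Commute (F.δ ^ (2 : ℤ)) (F.g u) := by
  have h1 : Commute (F.g u) (F.δ ^ 2) := (F.comm_iff u 2).2 (b4_uT B).1
  rw [zpow_ofNat]
  exact h1.symm

/-- the case `z = 1` -/
theorem b4_one {k : ℤ} (h : Commute (F.δ ^ (-k)) (F.g u)) : ∃ l : ℤ, -k = 2 * l := by
  rcases Int.even_or_odd k with ⟨j, hj⟩ | ⟨j, hj⟩
  · exact ⟨-j, by rw [hj]; ring⟩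
  · exfalso
    apply B.tau_u
    have h1 : Commute (F.δ ^ (-k) * (F.δ ^ (2 : ℤ)) ^ (j + 1)) (F.g u) :=
      h.mul_left ((F.b4_δ2u B).zpow_left _)
    have h2 : F.δ ^ (-k) * (F.δ ^ (2 : ℤ)) ^ (j + 1) = F.δ ^ 1 := by
      rw [← zpow_mul, ← zpow_add, ← zpow_natCast F.δ 1]
      congr 1
      rw [hj]
      push_cast
      ring
    rw [h2] at h1
    exact (F.comm_iff u 1).1 h1.symm

omit B in
private theorem b4_len {x : S} (hx : x ≠ ⊥) {z : G} : F.len ((F.g x)⁻¹ * z) < F.len z := by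
  have h1 : 1 < F.g x := by
    refine lt_of_le_of_ne (F.one_le_g x) fun h => hx (F.g_inj ?_)
    rw [F.g_bot]
    exact h.symm
  have h2 := F.len_lt _ _ h1
  rw [F.toGar.len_one] at h2
  rw [F.len_mul, F.toGar.len_inv]
  linarith

omit B in
private theorem b4_pos {x y : S} {z : G} (hx : F.g x = z ⊓ F.δ) (h : y ≤ x) :
    1 ≤ (F.g y)⁻¹ * z := by
  have h1 : F.g y ≤ z := (F.g_le.2 h).trans (by rw [hx]; exact inf_le_left)
  have h2 := F.mul_le (F.g y)⁻¹ _ _ h1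
  rwa [inv_mul_cancel] at h2

/-- the elements `z δ ^ (-k)`, `z ≥ 1`, which commute with `u` and `δ ^ 4` -/
theorem b4_cent_aux (n : ℕ) : ∀ (z : G) (k : ℤ), 1 ≤ z → F.len z ≤ n →
    Commute z (F.δ ^ 4) → Commute (z * F.δ ^ (-k)) (F.g u) →
    ∃ p q l : ℤ, z * F.δ ^ (-k) = F.g b ^ p * F.g b' ^ q * F.δ ^ (2 * l) := by
  induction n with
  | zero =>
    intro z k hz hn _ hu
    rcases hz.eq_or_lt with h1 | h1
    · rw [← h1, one_mul] at hu
      obtain ⟨l, hl⟩ := F.b4_one B hu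
      exact ⟨0, 0, l, by rw [← h1, hl, zpow_zero, zpow_zero, one_mul, one_mul, one_mul]⟩
    · have h2 := F.len_lt _ _ h1
      rw [F.toGar.len_one] at h2
      rw [Nat.cast_zero] at hn
      omega
  | succ n ih =>
    intro z k hz hn h4 hu
    rcases hz.eq_or_lt with h1 | h1
    · rw [← h1, one_mul] at hu
      obtain ⟨l, hl⟩ := F.b4_one B hu
      exact ⟨0, 0, l, by rw [← h1, hl, zpow_zero, zpow_zero, one_mul, one_mul, one_mul]⟩
    obtain ⟨x, hx⟩ := F.g_surj (z ⊓ F.δ) (le_inf hz F.one_le_δ) inf_le_right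
    have hx0 : x ≠ ⊥ := by
      intro h2
      have h3 := F.pos z h1
      rw [← hx, h2, F.g_bot] at h3
      exact lt_irrefl _ h3
    have hx4 : E.tau^[4] x = x := by
      rw [← F.comm_iff, hx]
      exact F.conj_inf_δ h4
    have hh : F.g u * z = z * F.g (E.shz k u) := by
      rw [F.g_shz]
      have h2 : z * F.δ ^ (-k) * F.g u = F.g u * (z * F.δ ^ (-k)) := hu
      calc F.g u * z = F.g u * (z * F.δ ^ (-k)) * F.δ ^ k := by group
        _ = z * F.δ ^ (-k) * F.g u * F.δ ^ k := by rw [h2]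
        _ = z * (F.δ ^ (-k) * F.g u * F.δ ^ k) := by group
    have hn' : F.len z ≤ n + 1 := by exact_mod_cast hn
    rcases B.loops x hx4 hx0 (F.b4_cond1 hh hx) (F.b4_cond2 hh hx) with h2 | h2 | h2
    · obtain ⟨p, q, l, h3⟩ := ih ((F.g b)⁻¹ * z) k (F.b4_pos hx h2)
        (by have := F.b4_len (z := z) B.b_bot; omega) ((F.b4_δ4 B).inv_left.mul_left h4)
        (by rw [mul_assoc]; exact (F.b4_comm_u B).inv_left.mul_left hu)
      refine ⟨p + 1, q, l, ?_⟩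
      calc z * F.δ ^ (-k) = F.g b * ((F.g b)⁻¹ * z * F.δ ^ (-k)) := by group
        _ = F.g b * (F.g b ^ p * F.g b' ^ q * F.δ ^ (2 * l)) := by rw [h3]
        _ = F.g b ^ (p + 1) * F.g b' ^ q * F.δ ^ (2 * l) := by
          rw [zpow_add_one, ← mul_assoc, ← mul_assoc, ← zpow_one_add, add_comm 1 p, zpow_add_one]
    · obtain ⟨p, q, l, h3⟩ := ih ((F.g b')⁻¹ * z) k (F.b4_pos hx h2)
        (by have := F.b4_len (z := z) (b4_bot' B); omega)
        ((F.b4_δ4' B).inv_left.mul_left h4)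
        (by rw [mul_assoc]; exact (F.b4_comm_u' B).inv_left.mul_left hu)
      refine ⟨p, q + 1, l, ?_⟩
      have h5 : Commute (F.g b') (F.g b ^ p) := (F.b4_comm B).symm.zpow_right p
      calc z * F.δ ^ (-k) = F.g b' * ((F.g b')⁻¹ * z * F.δ ^ (-k)) := by group
        _ = F.g b' * (F.g b ^ p * F.g b' ^ q * F.δ ^ (2 * l)) := by rw [h3]
        _ = F.g b' * F.g b ^ p * F.g b' ^ q * F.δ ^ (2 * l) := by simp only [mul_assoc]
        _ = F.g b ^ p * F.g b' ^ (q + 1) * F.δ ^ (2 * l) := by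
          rw [h5.eq, add_comm q 1, zpow_one_add]
          simp only [mul_assoc]
    · have hK0 : E.K u ≠ ⊥ := (K_mem_T (b4_uT B)).2.1
      have hK4 : Commute (F.g (E.K u)) (F.δ ^ 4) := by
        refine (F.comm_iff (E.K u) 4).2 ?_
        change E.tau^[2 + 2] (E.K u) = E.K u
        rw [Function.iterate_add_apply, (K_mem_T (b4_uT B)).1, (K_mem_T (b4_uT B)).1]
      have hpos := F.b4_pos hx h2
      have h5 : F.δ * ((F.g (E.K u))⁻¹ * z) * F.δ⁻¹ * F.δ ^ (-(k - 1)) =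
          F.g u * (z * F.δ ^ (-k)) := by
        have e1 : F.δ = F.g u * F.g (E.K u) := (F.g_K u).symm
        have e2 : F.δ * (F.g (E.K u))⁻¹ = F.g u := by
          rw [mul_inv_eq_iff_eq_mul]
          exact e1
        calc F.δ * ((F.g (E.K u))⁻¹ * z) * F.δ⁻¹ * F.δ ^ (-(k - 1))
            = F.δ * (F.g (E.K u))⁻¹ * (z * F.δ ^ (-k)) := by group
          _ = F.g u * (z * F.δ ^ (-k)) := by rw [e2]
      obtain ⟨p, q, l, h3⟩ := ih (F.δ * ((F.g (E.K u))⁻¹ * z) * F.δ⁻¹) (k - 1)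
        (by
          have h6 := F.mulδi_le _ _ (F.mul_le F.δ _ _ hpos)
          rwa [mul_one, mul_inv_cancel] at h6)
        (by
          have h6 := F.b4_len (z := z) hK0
          rw [F.len_mul, F.len_mul, F.toGar.len_inv]
          omega)
        (by
          have h6 : Commute F.δ (F.δ ^ 4) := (Commute.refl F.δ).pow_right 4
          exact (h6.mul_left (hK4.inv_left.mul_left h4)).mul_left h6.inv_left)
        (by
          rw [h5]
          exact (Commute.refl _).mul_left hu)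
      rw [h5] at h3
      refine ⟨p - 1, q - 1, l, ?_⟩
      have h6 : Commute (F.g b) (F.g b') := F.b4_comm B
      calc z * F.δ ^ (-k) = (F.g u)⁻¹ * (F.g u * (z * F.δ ^ (-k))) := by group
        _ = (F.g b')⁻¹ * (F.g b)⁻¹ * (F.g b ^ p * F.g b' ^ q * F.δ ^ (2 * l)) := by
          rw [h3, F.b4_u B, mul_inv_rev]
        _ = (F.g b')⁻¹ * ((F.g b)⁻¹ * F.g b ^ p) * F.g b' ^ q * F.δ ^ (2 * l) := by
          simp only [mul_assoc]
        _ = (F.g b')⁻¹ * F.g b ^ (p - 1) * F.g b' ^ q * F.δ ^ (2 * l) := by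
          rw [← zpow_neg_one (F.g b), ← zpow_add, neg_add_eq_sub]
        _ = F.g b ^ (p - 1) * ((F.g b')⁻¹ * F.g b' ^ q) * F.δ ^ (2 * l) := by
          rw [(h6.symm.inv_left.zpow_right (p - 1)).eq]
          simp only [mul_assoc]
        _ = F.g b ^ (p - 1) * F.g b' ^ (q - 1) * F.δ ^ (2 * l) := by
          rw [← zpow_neg_one (F.g b'), ← zpow_add, neg_add_eq_sub]

/-- the centraliser of `u` in the centraliser of `δ ^ 4` -/
theorem b4_cent {z : G} (h4 : Commute z (F.δ ^ 4)) (hu : Commute z (F.g u)) :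
    ∃ p q l : ℤ, z = F.g b ^ p * F.g b' ^ q * F.δ ^ (2 * l) := by
  obtain ⟨k, hk, -⟩ := F.arch z
  have h1 : 1 ≤ z * F.δ ^ k := by
    have h2 := (F.mul_zpow_le_iff _ _ k).2 hk
    rwa [← zpow_add, neg_add_cancel, zpow_zero] at h2
  have e : z * F.δ ^ k * F.δ ^ (-k) = z := by group
  obtain ⟨p, q, l, h3⟩ := F.b4_cent_aux B (F.len (z * F.δ ^ k)).toNat (z * F.δ ^ k) k h1
    (Int.self_le_toNat _)
    (h4.mul_left (((Commute.refl F.δ).pow_right 4).zpow_left k)) (by rw [e]; exact hu)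
  exact ⟨p, q, l, by rw [← e]; exact h3⟩

/-- conjugation by `δ²` exchanges `b` and `b'` -/
theorem b4_kap : ∃ κ : MulAut G, (∀ x, κ x = F.δ ^ (-2 : ℤ) * x * F.δ ^ (2 : ℤ)) ∧
    κ (F.g b) = F.g b' ∧ κ (F.g b') = F.g b ∧ ∀ k : ℤ, κ (F.δ ^ k) = F.δ ^ k := by
  have h : ∀ x, MulAut.conj (F.δ ^ (-2 : ℤ)) x = F.δ ^ (-2 : ℤ) * x * F.δ ^ (2 : ℤ) := by
    intro x
    rw [MulAut.conj_apply]
    group
  refine ⟨_, h, ?_, ?_, fun k => ?_⟩
  · rw [h, ← F.b4_δ2 B]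
  · rw [h, ← F.b4_δ2' B]
  · rw [h]
    group

theorem b4_prod (p q : ℤ) : F.g b ^ p * F.g b' ^ q * (F.g b' ^ p * F.g b ^ q) =
    F.g u ^ (p + q) := by
  have h : Commute (F.g b) (F.g b') := F.b4_comm B
  rw [F.b4_u B, h.mul_zpow, zpow_add, zpow_add]
  have h1 : Commute (F.g b ^ q) (F.g b' ^ (q + p)) := h.zpow_zpow q (q + p)
  calc F.g b ^ p * F.g b' ^ q * (F.g b' ^ p * F.g b ^ q)
      = F.g b ^ p * (F.g b' ^ (q + p) * F.g b ^ q) := by
        rw [zpow_add]; simp only [mul_assoc]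
    _ = F.g b ^ p * (F.g b ^ q * F.g b' ^ (q + p)) := by rw [h1.eq]
    _ = F.g b ^ p * F.g b ^ q * (F.g b' ^ p * F.g b' ^ q) := by
        rw [add_comm q p, zpow_add]; simp only [mul_assoc]

theorem b4_δ4z (l : ℤ) : Commute (F.δ ^ (4 * l)) (F.g b) ∧ Commute (F.δ ^ (4 * l)) (F.g b') := by
  have e : F.δ ^ (4 * l) = (F.δ ^ 4) ^ l := by
    rw [zpow_mul, zpow_ofNat]
  rw [e]
  exact ⟨(F.b4_δ4 B).symm.zpow_left l, (F.b4_δ4' B).symm.zpow_left l⟩

/-- the image of `b` under an automorphism which fixes `δ` and `u` -/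
theorem b4_image {φ : MulAut G} (hφ : φ F.δ = F.δ) (hu : φ (F.g u) = F.g u) :
    ∃ p : ℤ, φ (F.g b) = F.g b ^ p * F.g b' ^ (1 - p) := by
  have hδ4 : φ (F.δ ^ 4) = F.δ ^ 4 := by rw [map_pow, hφ]
  have c4 : Commute (φ (F.g b)) (F.δ ^ 4) := by
    rw [← hδ4]
    exact (F.b4_δ4 B).map φ
  have cu : Commute (φ (F.g b)) (F.g u) := by
    rw [← hu]
    exact (F.b4_comm_u B).map φ
  obtain ⟨p, q, l, h⟩ := F.b4_cent B c4 cu
  obtain ⟨κ, k0, k1, k2, k3⟩ := F.b4_kap B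
  have hκ : ∀ x, φ (κ x) = κ (φ x) := by
    intro x
    rw [k0, k0, map_mul, map_mul, F.map_δ_zpow hφ, F.map_δ_zpow hφ]
  have h' : φ (F.g b') = F.g b' ^ p * F.g b ^ q * F.δ ^ (2 * l) := by
    rw [← k1, hκ, h, map_mul, map_mul, map_zpow, map_zpow, k1, k2, k3]
  have ku : κ (F.g u) = F.g u := by
    rw [F.b4_u B, map_mul, k1, k2, (F.b4_comm B).eq]
  have huT := b4_uT B
  obtain ⟨l', hl | hl⟩ := Int.even_or_odd' l
  · -- the even case
    obtain ⟨d1, d2⟩ := F.b4_δ4z B l'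
    have e1 : F.δ ^ (2 * l) = F.δ ^ (4 * l') := by rw [hl]; congr 1; ring
    have e2 : F.g u = F.g u ^ (p + q) * F.δ ^ (4 * l) := by
      calc F.g u = φ (F.g b) * φ (F.g b') := by rw [← map_mul, ← F.b4_u B, hu]
        _ = F.g b ^ p * F.g b' ^ q * (F.δ ^ (4 * l') * (F.g b' ^ p * F.g b ^ q)) *
            F.δ ^ (4 * l') := by rw [h, h', e1]; simp only [mul_assoc]
        _ = F.g b ^ p * F.g b' ^ q * (F.g b' ^ p * F.g b ^ q * F.δ ^ (4 * l')) *
            F.δ ^ (4 * l') := by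
          rw [((d2.zpow_right p).mul_right (d1.zpow_right q)).eq]
        _ = F.g b ^ p * F.g b' ^ q * (F.g b' ^ p * F.g b ^ q) *
            (F.δ ^ (4 * l') * F.δ ^ (4 * l')) := by simp only [mul_assoc]
        _ = F.g u ^ (p + q) * F.δ ^ (4 * l) := by
          rw [F.b4_prod B, ← zpow_add, hl]
          congr 2
          ring
    have d3 : Commute (F.δ ^ (4 * l)) (F.g u) := by
      rw [F.b4_u B]
      exact (F.b4_δ4z B l).1.mul_right (F.b4_δ4z B l).2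
    have e3 : F.g u ^ (p + q - 1) = F.δ ^ (-(4 * l)) := by
      rw [zpow_sub_one, eq_mul_inv_of_mul_eq e2.symm, ← d3.inv_left.eq, mul_inv_cancel_right,
        zpow_neg]
    have e4 := F.pow_ne_zpow B.uK huT.2.1 huT.2.2 e3
    rw [e4, zpow_zero] at e3
    have e5 : -(4 * l) = 0 := F.zpow_δ_inj (by rw [← e3, zpow_zero])
    have e6 : l = 0 := by omega
    refine ⟨p, ?_⟩
    rw [h, e6, mul_zero, zpow_zero, mul_one]
    congr 2
    omega
  · -- the odd case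
    exfalso
    obtain ⟨d1, d2⟩ := F.b4_δ4z B l'
    have e0 : F.δ ^ (2 * l) = F.δ ^ (4 * l') * F.δ ^ (2 : ℤ) := by
      rw [← zpow_add, hl]; congr 1; ring
    have f1 : F.δ ^ (2 : ℤ) * F.g b = F.g b' * F.δ ^ (2 : ℤ) := by
      rw [F.b4_δ2' B]; group
    have f2 : F.δ ^ (2 : ℤ) * F.g b' = F.g b * F.δ ^ (2 : ℤ) := by
      rw [F.b4_δ2 B]; group
    have g1 : SemiconjBy (F.δ ^ (2 * l)) (F.g b) (F.g b') := by
      rw [e0]
      exact SemiconjBy.mul_left d2 f1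
    have g2 : SemiconjBy (F.δ ^ (2 * l)) (F.g b') (F.g b) := by
      rw [e0]
      exact SemiconjBy.mul_left d1 f2
    have g3 : F.δ ^ (2 * l) * (F.g b ^ p * F.g b' ^ q) = F.g b' ^ p * F.g b ^ q * F.δ ^ (2 * l) :=
      ((g1.zpow_right p).mul_right (g2.zpow_right q)).eq
    have e2 : φ (F.g b ^ 2) = F.g u ^ (p + q) * F.δ ^ (4 * l) := by
      calc φ (F.g b ^ 2) = φ (F.g b) * φ (F.g b) := by rw [sq, map_mul]
        _ = F.g b ^ p * F.g b' ^ q * (F.δ ^ (2 * l) * (F.g b ^ p * F.g b' ^ q)) *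
            F.δ ^ (2 * l) := by rw [h]; simp only [mul_assoc]
        _ = F.g b ^ p * F.g b' ^ q * (F.g b' ^ p * F.g b ^ q * F.δ ^ (2 * l)) *
            F.δ ^ (2 * l) := by rw [g3]
        _ = F.g b ^ p * F.g b' ^ q * (F.g b' ^ p * F.g b ^ q) *
            (F.δ ^ (2 * l) * F.δ ^ (2 * l)) := by simp only [mul_assoc]
        _ = F.g u ^ (p + q) * F.δ ^ (4 * l) := by
          rw [F.b4_prod B, ← zpow_add]
          congr 2
          ring
    have e3 : F.g b ^ 2 = F.g u ^ (p + q) * F.δ ^ (4 * l) := by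
      apply φ.injective
      rw [e2, map_mul, map_zpow, hu, F.map_δ_zpow hφ]
    have e4 : F.g b' ^ 2 = F.g u ^ (p + q) * F.δ ^ (4 * l) := by
      have h1 := congrArg κ e3
      rwa [map_mul, map_pow, map_zpow, k1, ku, k3] at h1
    have e5 : (2 : ℤ) = 0 := F.pow_eq_pow B.bK B.bK' B.b_ne (by
      rw [zpow_ofNat, zpow_ofNat, e3, e4])
    omega

/-- an automorphism which fixes `δ` and `u` maps `b` to `b` or to `b'` -/
theorem b4_final {φ : MulAut G} (hφ : φ F.δ = F.δ) (hu : φ (F.g u) = F.g u) :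
    φ (F.g b) = F.g b ∨ φ (F.g b) = F.g b' := by
  have hu' : φ⁻¹ (F.g u) = F.g u := by
    conv_lhs => rw [← hu]
    exact φ.symm_apply_apply _
  obtain ⟨p, hp⟩ := F.b4_image B hφ hu
  obtain ⟨r, hr⟩ := F.b4_image B (F.symm_δ hφ) hu'
  obtain ⟨κ, k0, k1, k2, k3⟩ := F.b4_kap B
  have hκ : ∀ x, φ (κ x) = κ (φ x) := by
    intro x
    rw [k0, k0, map_mul, map_mul, F.map_δ_zpow hφ, F.map_δ_zpow hφ]
  have hp' : φ (F.g b') = F.g b' ^ p * F.g b ^ (1 - p) := by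
    rw [← k1, hκ, hp, map_mul, map_zpow, map_zpow, k1, k2]
  have hc : Commute (F.g b) (F.g b') := F.b4_comm B
  obtain ⟨s, hs⟩ : ∃ s : ℤ, s = p * r + (1 - p) * (1 - r) := ⟨_, rfl⟩
  have h1 : F.g b = F.g b ^ s * F.g b' ^ (1 - s) := by
    calc F.g b = φ (φ⁻¹ (F.g b)) := (φ.apply_symm_apply _).symm
      _ = (F.g b ^ p * F.g b' ^ (1 - p)) ^ r * (F.g b' ^ p * F.g b ^ (1 - p)) ^ (1 - r) := by
        rw [hr, map_mul, map_zpow, map_zpow, hp, hp']
      _ = F.g b ^ (p * r) * F.g b' ^ ((1 - p) * r) *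
          (F.g b' ^ (p * (1 - r)) * F.g b ^ ((1 - p) * (1 - r))) := by
        rw [(hc.zpow_zpow _ _).mul_zpow, (hc.symm.zpow_zpow _ _).mul_zpow]
        simp only [zpow_mul]
      _ = F.g b ^ (p * r) * (F.g b' ^ ((1 - p) * r) * F.g b' ^ (p * (1 - r))) *
          F.g b ^ ((1 - p) * (1 - r)) := by simp only [mul_assoc]
      _ = F.g b ^ (p * r) * (F.g b' ^ (1 - s) * F.g b ^ ((1 - p) * (1 - r))) := by
        rw [← zpow_add, mul_assoc]
        congr 3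
        rw [hs]; ring
      _ = F.g b ^ (p * r) * (F.g b ^ ((1 - p) * (1 - r)) * F.g b' ^ (1 - s)) := by
        rw [(hc.zpow_zpow _ _).eq]
      _ = F.g b ^ s * F.g b' ^ (1 - s) := by
        rw [← mul_assoc, ← zpow_add, hs]
  have h2 : F.g b ^ (1 - s) = F.g b' ^ (1 - s) := by
    have h3 : F.g b ^ (1 - s) = (F.g b ^ s)⁻¹ * F.g b := by
      rw [← zpow_neg, ← zpow_add_one]; congr 1; ring
    rw [h3]
    nth_rewrite 2 [h1]
    rw [inv_mul_cancel_left]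
  have h3 := F.pow_eq_pow B.bK B.bK' B.b_ne h2
  have h4 : (2 * p - 1) * (2 * r - 1) = 1 := by
    have h5 : (2 * p - 1) * (2 * r - 1) = 2 * s - 1 := by rw [hs]; ring
    rw [h5]
    omega
  rcases Int.eq_one_or_neg_one_of_mul_eq_one h4 with h5 | h5
  · left
    have h6 : p = 1 := by omega
    rw [hp, h6, sub_self, zpow_zero, mul_one, zpow_one]
  · right
    have h6 : p = 0 := by omega
    rw [hp, h6, zpow_zero, one_mul, sub_zero, zpow_one]

/-- the centraliser of `δ ^ 4` is generated by `b` and `δ` -/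
theorem b4_Cn_le : F.Cn 4 ≤ Subgroup.closure ({F.g b, F.δ} : Set G) := by
  intro z hz
  have hb : F.g b ∈ Subgroup.closure ({F.g b, F.δ} : Set G) :=
    Subgroup.subset_closure (by simp)
  have hd : F.δ ∈ Subgroup.closure ({F.g b, F.δ} : Set G) :=
    Subgroup.subset_closure (by simp)
  have hτ : ∀ (x : S) (k : ℕ), F.g x ∈ Subgroup.closure ({F.g b, F.δ} : Set G) →
      F.g (E.tau^[k] x) ∈ Subgroup.closure ({F.g b, F.δ} : Set G) := by
    intro x k hx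
    rw [F.g_tau_iter]
    exact mul_mem (mul_mem (inv_mem (pow_mem hd k)) hx) (pow_mem hd k)
  have hK : ∀ x : S, F.g x ∈ Subgroup.closure ({F.g b, F.δ} : Set G) →
      F.g (E.K x) ∈ Subgroup.closure ({F.g b, F.δ} : Set G) := by
    intro x hx
    have h1 : F.g (E.K x) = (F.g x)⁻¹ * F.δ := by
      rw [eq_inv_mul_iff_mul_eq]
      exact F.g_K x
    rw [h1]
    exact mul_mem (inv_mem hx) hd
  have ha : F.g a ∈ Subgroup.closure ({F.g b, F.δ} : Set G) := by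
    obtain ⟨i, j, h1, h2⟩ := B.a_eq
    have h3 := F.g_mul h1
    rw [h2] at h3
    have h4 : F.g a = (F.g (E.tau^[i] b))⁻¹ * F.g (E.K (E.tau^[j] b)) := by
      rw [eq_inv_mul_iff_mul_eq]
      exact h3
    rw [h4]
    exact mul_mem (inv_mem (hτ b i hb)) (hK _ (hτ b j hb))
  have h1 := F.cent (F.mem_Cn.1 hz)
  refine (Subgroup.closure_le _).2 ?_ h1
  rintro _ ⟨x, hx, rfl⟩
  rw [SetLike.mem_coe]
  rcases B.fix4 x hx with h2 | h2 | ⟨k, h2 | h2 | h2 | h2⟩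
  · rw [h2, F.g_bot]
    exact one_mem _
  · rw [h2, F.g_top]
    exact hd
  · rw [h2]
    exact hτ b k hb
  · rw [h2]
    exact hK _ (hτ b k hb)
  · rw [h2]
    exact hτ a k ha
  · rw [h2]
    exact hK _ (hτ a k ha)

/-- on the centraliser of `δ ^ 4` an automorphism which fixes `δ` and the length is conjugation by
a power of `δ` -/
theorem b4_fix {φ : MulAut G} (hφ : φ F.δ = F.δ) (hl : ∀ z, F.len (φ z) = F.len z) :
    ∃ i : ℤ, ∀ j : ℤ, (4 : ℤ) ∣ j - i → ∀ z ∈ F.Cn 4, (MulAut.conj (F.δ ^ j) * φ) z = z := by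
  -- the image of `a`
  obtain ⟨y, hy, k, hk⟩ := F.rt B.two B.kt hφ B.mem
  have hla := hl (F.g a)
  rw [hk, F.len_mul, F.len_g, F.len_g, F.len_zpow] at hla
  have hδ : F.len F.δ = E.rk ⊤ := by rw [← F.g_top, F.len_g]
  have r1 : E.rk a < E.rk ⊤ := E.rk_lt (lt_of_le_of_ne le_top B.mem.2.2)
  have r2 : E.rk y < E.rk ⊤ := E.rk_lt (lt_of_le_of_ne le_top hy.2.2)
  have r3 : 0 < E.rk a := E.rk_pos B.mem.2.1
  have r4 : 0 < E.rk y := E.rk_pos hy.2.1
  rw [hδ] at hla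
  have hk0 : k = 0 := by
    rcases lt_trichotomy k 0 with h | h | h
    · exfalso; nlinarith
    · exact h
    · exfalso; nlinarith
  rw [hk0, mul_zero, add_zero] at hla
  rw [hk0, zpow_zero, mul_one] at hk
  have hya : ∃ c : ℤ, φ (F.g a) = F.δ ^ (-c) * F.g a * F.δ ^ c := by
    rcases B.rk_a y hy (by exact_mod_cast hla) with h | h
    · exact ⟨0, by rw [hk, h]; simp⟩
    · exact ⟨1, by rw [hk, h, F.g_tau, zpow_neg_one, zpow_one]⟩
  obtain ⟨c, hc⟩ := hya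
  -- normalisation
  obtain ⟨ψ, hψ⟩ : ∃ ψ : MulAut G, ψ = MulAut.conj (F.δ ^ c) * φ := ⟨_, rfl⟩
  have hψx : ∀ x, ψ x = F.δ ^ c * φ x * F.δ ^ (-c) := by
    intro x
    rw [hψ, MulAut.mul_apply, MulAut.conj_apply, zpow_neg]
  have hψδ : ψ F.δ = F.δ := by
    rw [hψx, hφ]; group
  have hψa : ψ (F.g a) = F.g a := by
    rw [hψx, hc]; group
  have hψu : ψ (F.g u) = F.g u := by
    have h1 : F.g u = (F.g a)⁻¹ * F.δ := by
      rw [eq_inv_mul_iff_mul_eq, ← B.K_a]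
      exact F.g_K a
    rw [h1, map_mul, map_inv, hψa, hψδ]
  have hb : ∃ i : ℤ, φ (F.g b) = F.δ ^ (-i) * F.g b * F.δ ^ i := by
    have h0 : φ (F.g b) = F.δ ^ (-c) * ψ (F.g b) * F.δ ^ c := by
      rw [hψx]; group
    rcases F.b4_final B hψδ hψu with h1 | h1
    · exact ⟨c, by rw [h0, h1]⟩
    · refine ⟨2 + c, ?_⟩
      rw [h0, h1, F.b4_δ2 B]
      group
  obtain ⟨i, hi⟩ := hb
  refine ⟨i, fun j hj z hz => ?_⟩
  obtain ⟨q, hq⟩ := hj
  have hgb : (MulAut.conj (F.δ ^ j) * φ) (F.g b) = F.g b := by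
    have h2 : Commute (F.g b) (F.δ ^ (j - i)) := by
      rw [hq]
      exact (F.b4_δ4z B q).1.symm
    rw [MulAut.mul_apply, hi, MulAut.conj_apply]
    have h3 : F.δ ^ j * (F.δ ^ (-i) * F.g b * F.δ ^ i) * (F.δ ^ j)⁻¹ =
        F.δ ^ (j - i) * F.g b * (F.δ ^ (j - i))⁻¹ := by
      rw [zpow_sub]
      group
    rw [h3, ← h2.eq, mul_inv_cancel_right]
  have hgδ : (MulAut.conj (F.δ ^ j) * φ) F.δ = F.δ := by
    rw [MulAut.mul_apply, hφ, MulAut.conj_apply]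
    group
  have h4 : Set.EqOn (MulAut.conj (F.δ ^ j) * φ).toMonoidHom (MonoidHom.id G)
      ({F.g b, F.δ} : Set G) := by
    rintro x (rfl | hx)
    · exact hgb
    · rw [Set.mem_singleton_iff] at hx
      rw [hx]
      exact hgδ
  exact MonoidHom.eqOn_closure h4 (F.b4_Cn_le B hz)

/-- an automorphism which fixes `δ` and the length is conjugation by a power of `δ`, if the
centralisers of `δ ^ 3` and `δ ^ 4` generate the group -/
theorem b4_blocks {a1 : S} {c1 : ℤ} (b1 : Blk E 3 a1 c1) (hU : F.Cn 3 ⊔ F.Cn 4 = ⊤)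
    {φ : MulAut G} (hφ : φ F.δ = F.δ) (hl : ∀ z, F.len (φ z) = F.len z) :
    ∃ j : ℤ, φ = MulAut.conj (F.δ ^ j) := by
  obtain ⟨i1, h3⟩ := F.blk_fix b1 hφ
  obtain ⟨i2, h4⟩ := F.b4_fix B hφ hl
  have hall : ∀ x, (MulAut.conj (F.δ ^ (4 * i1 - 3 * i2)) * φ) x = x := by
    intro x
    have h5 : F.Cn 3 ⊔ F.Cn 4 ≤
        (MulAut.conj (F.δ ^ (4 * i1 - 3 * i2)) * φ).toMonoidHom.eqLocus (MonoidHom.id G) :=
      sup_le (fun z hz => h3 _ ⟨i1 - i2, by push_cast; ring⟩ z hz)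
        (fun z hz => h4 _ ⟨i1 - i2, by ring⟩ z hz)
    have h6 : x ∈ F.Cn 3 ⊔ F.Cn 4 := by
      rw [hU]
      exact Subgroup.mem_top x
    exact h5 h6
  refine ⟨-(4 * i1 - 3 * i2), ?_⟩
  have h6 : MulAut.conj (F.δ ^ (4 * i1 - 3 * i2)) * φ = 1 := MulEquiv.ext hall
  rw [zpow_neg, map_inv]
  exact eq_inv_of_mul_eq_one_right h6

end

end Frame

end Pool.Agent.SPH
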