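import Pool.Agent.SPH.Word
import Pool.Agent.SPH.Four

/-!
# Project SPH: sub-frames

Let `j : S0 → S` be an embedding of germs, let `G0`, `G` be groups with frames `F0`, `F` and let
`ρ : G0 →* G` be a homomorphism with `ρ (F0.g x) = F.g (j x)`.  Then `ρ` is injective; if below every
simple element `≠ ⊥` fixed by `τ ^ k` there is an element `j x ≠ ⊥`, and all `j x` are fixed by
`τ ^ k`, then the range of `ρ` is the centraliser of `δ ^ k`; so an automorphism of `G` which fixes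
`δ` induces an automorphism of `G0` which fixes `δ0`.
-/

namespace Pool.Agent.SPH

open Pool.Agent.Helper7.AG

namespace AD

variable {A : AD} (h : A.Ok)

open Classical in
private noncomputable def sbY {G : Type*} [Group G] (X : SS h → G) (i : ℕ) : G :=
  if hi : i < A.D.N then X ⟨i, hi⟩ else 1

private theorem sbY_i {G : Type*} [Group G] (X : SS h → G) (w : SS h) : sbY h X w.i = X w := by
  unfold sbY
  rw [dif_pos w.lt]

private theorem sbY_rel {G : Type*} [Group G] {X : SS h → G}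
    (hX : ∀ {x y : SS h}, x ≤ y → X x * X ((EE h).q x y) = X y) {t u : ℕ} (h1 : t < 256)
    (h2 : u < 256) (h3 : CD.bit A.R1 (CD.pc t u) = true) :
    sbY h X t * sbY h X u = sbY h X u * sbY h X (A.d t u) := by
  obtain ⟨⟨_, ht⟩, ⟨_, hu⟩, hle⟩ := h.of_R1 t u h1 h2 h3
  have htN : t < A.D.N := lt_of_le_of_lt ht h.T_N
  have huN : u < A.D.N := lt_of_le_of_lt hu h.T_N
  obtain ⟨s, hs⟩ : ∃ s : SS h, s.i = t := ⟨⟨t, htN⟩, rfl⟩
  obtain ⟨v, hv⟩ : ∃ v : SS h, v.i = u := ⟨⟨u, huN⟩, rfl⟩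
  subst hs
  subst hv
  have e1 : v ≤ (EE h).K s := by
    rw [TD.El.le_def, TD.El.K_i]
    exact hle
  obtain ⟨x, hx⟩ : ∃ x, x = (EE h).mul s v := ⟨_, rfl⟩
  have e2 : v ≤ x := by
    rw [← anti_iff h, hx, (EE h).K_mul e1]
    exact (EE h).q_le_K e1
  have e3 : A.d s.i v.i = ((EE h).q v x).i := by
    rw [d, TD.El.q_i e2, hx, TD.El.mul_i e1]
  have e4 : X s * X v = X x := by
    have e5 := hX ((EE h).le_mul e1)
    rw [(EE h).q_mul e1] at e5
    rw [hx]
    exact e5
  rw [e3, sbY_i, sbY_i, sbY_i, e4, hX e2]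

/-- the universal property of the dual presentation -/
theorem exists_hom (P : Pre (EE h) (Artin A.M))
    (hP : ∀ (k : Fin A.n) (x : SS h), x.i = A.gi k → P.g x = PresentedGroup.of k)
    {G : Type*} [Group G] (X : SS h → G) (h0 : X ⊥ = 1)
    (hX : ∀ {x y : SS h}, x ≤ y → X x * X ((EE h).q x y) = X y) :
    ∃ ρ : Artin A.M →* G, ∀ x, ρ (P.g x) = X x := by
  have hY : ∀ t u, t < 256 → u < 256 → CD.bit A.R1 (CD.pc t u) = true →
      sbY h X t * sbY h X u = sbY h X u * sbY h X (A.d t u) := fun t u h1 h2 h3 =>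
    sbY_rel h hX h1 h2 h3
  obtain ⟨ρ, hρ⟩ := exists_lift (M := A.M) h.M_bd (fun k => sbY h X (A.gi k)) (by
    intro s t hst
    rcases h.brc s t hst with e | e
    · exact CD.brc_sound e hY
    · have e1 : A.M s t = A.M t s := A.M.symmetric s t
      rw [e1]
      exact (CD.brc_sound e hY).symm)
  have hat : ∀ t : SS h, (EE h).rk t = 1 → ρ (P.g t) = X t := by
    intro t ht
    obtain ⟨h1, h2⟩ := (h.atom t.i t.lt).1 ht
    have e := hom_atoms h P hP ρ (sbY h X) hY hρ h1 h2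
    rw [sbY_i] at e
    rw [← e]
    unfold TD.gN
    rw [dif_pos t.lt]
  refine ⟨ρ, ?_⟩
  have key : ∀ n : ℕ, ∀ s : SS h, (EE h).rk s = n → ρ (P.g s) = X s := by
    intro n
    induction n with
    | zero =>
      intro s hs
      have hb : s = ⊥ := by
        by_contra hne
        have := (EE h).rk_pos hne
        omega
      rw [hb, P.g_bot, map_one, h0]
    | succ n ih =>
      intro s hs
      have hne : s ≠ ⊥ := by
        rintro rfl
        rw [(EE h).rk_bot] at hs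
        omega
      obtain ⟨t, h1, h2, h3⟩ := h.ex s.i s.lt (fun e => hne (TD.El.ext' e))
      obtain ⟨a, ha⟩ : ∃ a : SS h, a.i = t := ⟨⟨t, lt_of_le_of_lt h2 h.T_N⟩, rfl⟩
      have ha1 : (EE h).rk a = 1 := (h.atom a.i a.lt).2 (by rw [ha]; exact ⟨h1, h2⟩)
      have hle : a ≤ s := by
        rw [TD.El.le_def, ha]
        exact h3
      have hq : (EE h).rk ((EE h).q a s) = n := by
        have := (EE h).rk_q hle
        omega
      rw [← P.g_mul hle, map_mul, hat a ha1, ih _ hq, hX hle]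
  exact fun x => key _ x rfl

end AD

/-- an embedding of germs -/
structure GEmb {S0 S : Type*} [Lattice S0] [BoundedOrder S0] [Lattice S] [BoundedOrder S]
    (E0 : Germ S0) (E : Germ S) where
  /-- the map -/
  j : S0 → S
  bot : j ⊥ = ⊥
  top : j ⊤ = ⊤
  inj : Function.Injective j
  inf : ∀ x y, j (x ⊓ y) = j x ⊓ j y
  q : ∀ {x y : S0}, x ≤ y → E.q (j x) (j y) = j (E0.q x y)

namespace GEmb

variable {S0 S : Type*} [Lattice S0] [BoundedOrder S0] [Lattice S] [BoundedOrder S]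
  {E0 : Germ S0} {E : Germ S} (J : GEmb E0 E)

theorem mono {x y : S0} (h : x ≤ y) : J.j x ≤ J.j y := by
  rw [← inf_eq_left, ← J.inf, inf_eq_left.2 h]

theorem K (x : S0) : E.K (J.j x) = J.j (E0.K x) := by
  unfold Germ.K
  rw [← J.top]
  exact J.q le_top

variable {G0 G : Type*} [Group G0] [Lattice G0] [Group G] [Lattice G] (F0 : Frame E0 G0)
  (F : Frame E G) {ρ : G0 →* G}

include J in
theorem map_δ (hρ : ∀ x, ρ (F0.g x) = F.g (J.j x)) : ρ F0.δ = F.δ := by
  rw [← F0.g_top, hρ, J.top, F.g_top]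

private theorem sub_head (hρ : ∀ x, ρ (F0.g x) = F.g (J.j x)) (n : ℕ) :
    ∀ u : G0, 1 ≤ u → F0.len u ≤ n → ∃ x, F0.g x = u ⊓ F0.δ ∧ F.g (J.j x) = ρ u ⊓ F.δ ∧
      1 ≤ ρ u := by
  induction n with
  | zero =>
    intro u h1 h2
    have hu : u = 1 := by
      rcases h1.eq_or_lt with h | h
      · exact h.symm
      · have h3 := F0.len_lt 1 u h
        rw [F0.toGar.len_one] at h3
        have h4 : (((0 : ℕ)) : ℤ) = 0 := rfl
        omega
    subst hu
    refine ⟨⊥, ?_, ?_, ?_⟩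
    · rw [F0.g_bot, inf_eq_left.2 F0.one_le_δ]
    · rw [J.bot, F.g_bot, map_one, inf_eq_left.2 F.one_le_δ]
    · rw [map_one]
  | succ n ih =>
    intro u h1 h2
    rcases h1.eq_or_lt with h | h
    · subst h
      refine ⟨⊥, ?_, ?_, ?_⟩
      · rw [F0.g_bot, inf_eq_left.2 F0.one_le_δ]
      · rw [J.bot, F.g_bot, map_one, inf_eq_left.2 F.one_le_δ]
      · rw [map_one]
    obtain ⟨x, hx⟩ := F0.g_surj (u ⊓ F0.δ) (le_inf h1 F0.one_le_δ) inf_le_right
    have hxb : 1 < F0.g x := by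
      rw [hx]
      exact F0.pos u h
    obtain ⟨v, hv⟩ : ∃ v, v = (F0.g x)⁻¹ * u := ⟨_, rfl⟩
    have huv : F0.g x * v = u := by rw [hv, mul_inv_cancel_left]
    have hv1 : 1 ≤ v := by
      rw [← F0.toGar.mul_le_iff (F0.g x), mul_one, huv, hx]
      exact inf_le_left
    have hvl : F0.len v ≤ n := by
      have h3 := F0.len_lt 1 _ hxb
      rw [F0.toGar.len_one] at h3
      have h4 := F0.len_mul (F0.g x) v
      rw [huv] at h4
      push_cast at h2
      omega
    obtain ⟨y, hy1, hy2, hy3⟩ := ih v hv1 hvl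
    -- `y ⊓ K x = ⊥`
    have hK : F0.g x * F0.g (E0.K x) = F0.δ := F0.g_K x
    have hK' : F.g (J.j x) * F.g (J.j (E0.K x)) = F.δ := by
      rw [← J.K]
      exact F.g_K _
    have h5 : y ⊓ E0.K x = ⊥ := by
      apply F0.g_inj
      rw [F0.g_inf, hy1, F0.g_bot, inf_assoc, inf_eq_right.2 (F0.g_le_δ (E0.K x))]
      have h6 : F0.g x * (v ⊓ F0.g (E0.K x)) = F0.g x := by
        rw [F0.toGar.mul_inf, huv, hK, hx]
      exact mul_eq_left.1 h6
    have h7 : ρ u = F.g (J.j x) * ρ v := by rw [← huv, map_mul, hρ]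
    refine ⟨x, hx, ?_, ?_⟩
    · rw [h7, ← hK', ← F.toGar.mul_inf]
      have h8 : ρ v ⊓ F.g (J.j (E0.K x)) = 1 := by
        have h9 : ρ v ⊓ F.g (J.j (E0.K x)) = ρ v ⊓ F.δ ⊓ F.g (J.j (E0.K x)) := by
          rw [inf_assoc, inf_eq_right.2 (F.g_le_δ _)]
        rw [h9, ← hy2, ← F.g_inf, ← J.inf, h5, J.bot, F.g_bot]
      rw [h8, mul_one]
    · rw [h7]
      have h8 : F.g (J.j x) * 1 ≤ F.g (J.j x) * ρ v := (F.toGar.mul_le_iff _ _ _).2 hy3
      rw [mul_one] at h8
      exact (F.one_le_g _).trans h8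

include J in
/-- `ρ` is injective -/
theorem injective (hρ : ∀ x, ρ (F0.g x) = F.g (J.j x)) : Function.Injective ρ := by
  rw [injective_iff_map_eq_one]
  intro w hw
  obtain ⟨k, hk⟩ : ∃ k, k = F0.lw w := ⟨_, rfl⟩
  obtain ⟨u, hu⟩ : ∃ u, u = F0.δ ^ (-k) * w := ⟨_, rfl⟩
  have hwu : w = F0.δ ^ k * u := by rw [hu, ← mul_assoc, ← zpow_add, add_neg_cancel, zpow_zero, one_mul]
  have hu0 : F0.lw u = 0 := by rw [hu, F0.toGar.lw_zpow_mul, ← hk, add_neg_cancel]
  have hu1 : 1 ≤ u := by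
    have := F0.toGar.zpow_lw_le u
    rwa [hu0, zpow_zero] at this
  have hud : ¬ F0.δ ≤ u := by
    intro h
    have h1 : F0.δ ^ (1 : ℤ) ≤ u := by rwa [zpow_one]
    rw [F0.toGar.zpow_le_iff_le_lw, hu0] at h1
    omega
  obtain ⟨x, hx1, hx2, hx3⟩ := J.sub_head F0 F hρ (F0.len u).toNat u hu1 (Int.self_le_toNat _)
  have h1 : ρ u = F.δ ^ (-k) := by
    have h2 := hw
    rw [hwu, map_mul, map_zpow, J.map_δ F0 F hρ] at h2
    rw [zpow_neg]
    exact (inv_eq_of_mul_eq_one_right h2).symm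
  have hk0 : 0 ≤ -k := by
    have h2 : F.δ ^ (0 : ℤ) ≤ F.δ ^ (-k) := by
      rw [zpow_zero, ← h1]
      exact hx3
    exact (F.toGar.zpow_le_iff _ _).1 h2
  have hk1 : -k ≤ 0 := by
    by_contra hc
    have h2 : F.δ ≤ ρ u := by
      have h3 : F.δ ^ (1 : ℤ) ≤ F.δ ^ (-k) := (F.toGar.zpow_le_iff _ _).2 (by omega)
      rwa [zpow_one, ← h1] at h3
    rw [inf_eq_right.2 h2, ← F.g_top, ← J.top] at hx2
    have h4 := J.inj (F.g_inj hx2)
    rw [h4, F0.g_top] at hx1
    apply hud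
    rw [hx1]
    exact inf_le_left
  have hk2 : k = 0 := by omega
  rw [hwu, hk2, zpow_zero, one_mul]
  rw [hk2, neg_zero, zpow_zero] at h1
  rw [h1, inf_eq_left.2 F.one_le_δ, ← F.g_bot, ← J.bot] at hx2
  have h5 := J.inj (F.g_inj hx2)
  rw [h5, F0.g_bot] at hx1
  rcases hu1.eq_or_lt with h | h
  · exact h.symm
  · have h6 := F0.pos u h
    rw [← hx1] at h6
    exact absurd h6 (lt_irrefl _)

/-- the range of `ρ` -/
theorem range_eq (hρ : ∀ x, ρ (F0.g x) = F.g (J.j x)) {k : ℕ}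
    (h1 : ∀ x, E.tau^[k] (J.j x) = J.j x)
    (h2 : ∀ s : S, s ≠ ⊥ → E.tau^[k] s = s → ∃ x : S0, x ≠ ⊥ ∧ J.j x ≤ s) :
    ρ.range = F.Cn k := by
  apply le_antisymm
  · rintro _ ⟨w, rfl⟩
    have h3 : Subgroup.closure (Set.range F0.g) ≤ (F.Cn k).comap ρ := by
      rw [Subgroup.closure_le]
      rintro _ ⟨x, rfl⟩
      change ρ (F0.g x) ∈ F.Cn k
      rw [hρ, F.g_mem_Cn]
      exact h1 x
    rw [F0.gen] at h3
    exact h3 (Subgroup.mem_top w)
  · intro u hu
    have h3 := F.cent (F.mem_Cn.1 hu)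
    have h4 : Subgroup.closure (F.g '' {x | E.tau^[k] x = x}) ≤ ρ.range := by
      rw [Subgroup.closure_le]
      rintro _ ⟨x, hx, rfl⟩
      change F.g x ∈ ρ.range
      have key : ∀ n : ℕ, ∀ s : S, E.rk s = n → E.tau^[k] s = s → F.g s ∈ ρ.range := by
        intro n
        induction n using Nat.strong_induction_on with
        | _ n ih =>
          intro s hs hf
          by_cases hb : s = ⊥
          · rw [hb, F.g_bot]
            exact one_mem _
          obtain ⟨x, hx, hxs⟩ := h2 s hb hf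
          have hjx : J.j x ≠ ⊥ := by
            rw [← J.bot]
            exact fun e => hx (J.inj e)
          have e1 := E.rk_q hxs
          have e2 := E.rk_pos hjx
          have e3 : E.tau^[k] (E.q (J.j x) s) = E.q (J.j x) s := by
            have e4 : ∀ m : ℕ, ∀ a b : S, a ≤ b →
                E.tau^[m] (E.q a b) = E.q (E.tau^[m] a) (E.tau^[m] b) := by
              intro m
              induction m with
              | zero => intro a b _; rfl
              | succ m ihm =>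
                intro a b hab
                rw [Function.iterate_succ_apply, Function.iterate_succ_apply,
                  Function.iterate_succ_apply, E.tau_q hab, ihm _ _ (E.tau_mono hab)]
            rw [e4 k _ _ hxs, h1, hf]
          have e5 := ih (E.rk (E.q (J.j x) s)) (by omega) _ rfl e3
          rw [← F.g_mul hxs]
          exact mul_mem ⟨F0.g x, hρ x⟩ e5
      exact key _ x rfl hx
    exact h4 h3

/-- an automorphism of `G` which fixes `δ` induces an automorphism of `G0` -/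
theorem exists_restrict (hρ : ∀ x, ρ (F0.g x) = F.g (J.j x)) {k : ℕ} (hr : ρ.range = F.Cn k)
    {φ : MulAut G} (hφ : φ F.δ = F.δ) :
    ∃ ψ : MulAut G0, (∀ w, ρ (ψ w) = φ (ρ w)) ∧ ψ F0.δ = F0.δ := by
  have hinj := J.injective F0 F hρ
  have hmem : ∀ (φ : MulAut G), φ F.δ = F.δ → ∀ w, φ (ρ w) ∈ ρ.range := by
    intro φ hφ w
    have h1 : ρ w ∈ F.Cn k := by
      rw [← hr]
      exact ⟨w, rfl⟩
    rw [hr, F.mem_Cn] at *
    have h2 := congrArg φ h1
    rwa [map_mul, map_mul, map_pow, hφ] at h2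
  have hφ' : φ.symm F.δ = F.δ := by
    rw [MulEquiv.symm_apply_eq]
    exact hφ.symm
  choose f hf using fun w => hmem φ hφ w
  choose f' hf' using fun w => hmem φ.symm hφ' w
  refine ⟨⟨⟨f, f', fun w => ?_, fun w => ?_⟩, fun v w => ?_⟩, hf, ?_⟩
  · apply hinj
    rw [hf', hf, MulEquiv.symm_apply_apply]
  · apply hinj
    rw [hf, hf', MulEquiv.apply_symm_apply]
  · apply hinj
    change ρ (f (v * w)) = ρ (f v * f w)
    rw [map_mul, hf, hf, hf, map_mul, map_mul]
  · apply hinj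
    change ρ (f F0.δ) = ρ F0.δ
    rw [hf, J.map_δ F0 F hρ, hφ]

end GEmb

end Pool.Agent.SPH
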