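import Pool.Agent.SPH.CD
import Pool.Agent.Helper7.AG.Defs

/-!
# Project SPH, piece SPH-AR1: Artin groups with labels at most five
-/

namespace Pool.Agent.SPH

open Pool.Agent.Helper7.AG

variable {S : Type*} {M : CoxeterMatrix S}

private lemma ar1_mk (n : ℕ) (x y : FreeGroup S) :
    PresentedGroup.mk (rels M) (alt x y n) =
      alt (PresentedGroup.mk (rels M) x) (PresentedGroup.mk (rels M) y) n := by
  induction n generalizing x y with
  | zero => simp [alt]
  | succ n ih => simp [alt, ih]

private lemma ar1_map {G H : Type*} [Group G] [Group H] (f : G →* H) (n : ℕ) (x y : G) :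
    f (alt x y n) = alt (f x) (f y) n := by
  induction n generalizing x y with
  | zero => simp [alt]
  | succ n ih => simp [alt, ih]

private lemma ar1_two {H : Type*} [Group H] (x y : H) : alt x y 2 = x * y := by simp [alt]
private lemma ar1_three {H : Type*} [Group H] (x y : H) : alt x y 3 = x * y * x := by
  simp [alt, mul_assoc]
private lemma ar1_four {H : Type*} [Group H] (x y : H) : alt x y 4 = x * y * x * y := by
  simp [alt, mul_assoc]
private lemma ar1_five {H : Type*} [Group H] (x y : H) : alt x y 5 = x * y * x * y * x := by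
  simp [alt, mul_assoc]

/-- the braid relations in the Artin group: the relator of `s`, `t` and the definition of `alt`
(for `M s t = 2, 3, 4, 5`) -/
theorem br_of (s t : S) :
    CD.Br (M s t) (PresentedGroup.of s : Artin M) (PresentedGroup.of t) := by
  have h : alt (FreeGroup.of s) (FreeGroup.of t) (M s t) *
    (alt (FreeGroup.of t) (FreeGroup.of s) (M s t))⁻¹ ∈ rels M := ⟨s, t, rfl⟩
  have h1 := PresentedGroup.one_of_mem h
  rw [map_mul, map_inv, mul_inv_eq_one, ar1_mk, ar1_mk] at h1
  change alt (PresentedGroup.of s : Artin M) (PresentedGroup.of t) (M s t) =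
      alt (PresentedGroup.of t : Artin M) (PresentedGroup.of s) (M s t) at h1
  refine ⟨fun e => ?_, fun e => ?_, fun e => ?_, fun e => ?_⟩
  · rw [e, ar1_two, ar1_two] at h1
    exact h1
  · rw [e, ar1_three, ar1_three] at h1
    exact h1
  · rw [e, ar1_four, ar1_four] at h1
    exact h1
  · rw [e, ar1_five, ar1_five] at h1
    exact h1

/-- homomorphisms from the Artin group; the relators of `s = t` are trivial since `M s s = 1` -/
theorem exists_lift {G : Type*} [Group G] (hM : ∀ s t : S, s ≠ t → 2 ≤ M s t ∧ M s t ≤ 5)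
    (f : S → G) (hf : ∀ s t : S, s ≠ t → CD.Br (M s t) (f s) (f t)) :
    ∃ F : Artin M →* G, ∀ s, F (PresentedGroup.of s) = f s := by
  have key : ∀ r ∈ rels M, FreeGroup.lift f r = 1 := by
    rintro r ⟨s, t, rfl⟩
    rw [map_mul, map_inv, mul_inv_eq_one, ar1_map, ar1_map, FreeGroup.lift_apply_of,
      FreeGroup.lift_apply_of]
    by_cases hst : s = t
    · rw [hst]
    · obtain ⟨h2, h5⟩ := hM s t hst
      obtain ⟨b2, b3, b4, b5⟩ := hf s t hst
      have hc : M s t = 2 ∨ M s t = 3 ∨ M s t = 4 ∨ M s t = 5 := by omega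
      rcases hc with e | e | e | e
      · rw [e, ar1_two, ar1_two]
        exact b2 e
      · rw [e, ar1_three, ar1_three]
        exact b3 e
      · rw [e, ar1_four, ar1_four]
        exact b4 e
      · rw [e, ar1_five, ar1_five]
        exact b5 e
  exact ⟨PresentedGroup.toGroup key, fun s => PresentedGroup.toGroup.of key⟩

/-- the length `Artin M → ℤ` (values in `Multiplicative ℤ`; every relator has length zero) -/
theorem exists_len (hM : ∀ s t : S, s ≠ t → 2 ≤ M s t ∧ M s t ≤ 5) :
    ∃ F : Artin M →* Multiplicative ℤ, ∀ s, F (PresentedGroup.of s) = Multiplicative.ofAdd 1 :=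
  exists_lift hM (fun _ => Multiplicative.ofAdd 1)
    (fun _ _ _ => ⟨fun _ => rfl, fun _ => rfl, fun _ => rfl, fun _ => rfl⟩)

theorem hom_ext {G : Type*} [Group G] {F F' : Artin M →* G}
    (h : ∀ s, F (PresentedGroup.of s) = F' (PresentedGroup.of s)) : F = F' :=
  PresentedGroup.ext h

end Pool.Agent.SPH
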