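import Pool.Agent.SPH.Fix
import Pool.Agent.SPH.Art1
import Pool.Agent.HT.D2

/-!
# Project SPH, piece SPH-EP: the inverting automorphism and the final statement
-/

namespace Pool.Agent.SPH

open Pool.Agent.Helper7.AG Pool.Agent.HT

variable {T : Type*} {M : CoxeterMatrix T}

/-- `exists_lift` for `s ↦ (of s)⁻¹` (a braid relation of `x`, `y` of length `m` gives the one of
`x⁻¹`, `y⁻¹`: take inverses of both sides and use `Br.symm`), and `hom_ext` -/
theorem exists_eps (hM : ∀ s t : T, s ≠ t → 2 ≤ M s t ∧ M s t ≤ 5) :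
    ∃ ε : MulAut (Artin M), InvertsGens M ε ∧ ε * ε = 1 := by
  have hbr : ∀ s t : T, s ≠ t →
      CD.Br (M s t) ((PresentedGroup.of s : Artin M)⁻¹) ((PresentedGroup.of t : Artin M)⁻¹) := by
    intro s t _
    obtain ⟨b2, b3, b4, b5⟩ := br_of (M := M) s t
    refine ⟨fun e => ?_, fun e => ?_, fun e => ?_, fun e => ?_⟩
    · have h := congrArg (fun x : Artin M => x⁻¹) (b2 e)
      simp only [mul_inv_rev] at h
      exact h.symm
    · have h := congrArg (fun x : Artin M => x⁻¹) (b3 e)
      simp only [mul_inv_rev, ← mul_assoc] at h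
      exact h
    · have h := congrArg (fun x : Artin M => x⁻¹) (b4 e)
      simp only [mul_inv_rev, ← mul_assoc] at h
      exact h.symm
    · have h := congrArg (fun x : Artin M => x⁻¹) (b5 e)
      simp only [mul_inv_rev, ← mul_assoc] at h
      exact h
  obtain ⟨f, hf⟩ := exists_lift (M := M) hM (fun s => (PresentedGroup.of s : Artin M)⁻¹) hbr
  have hff : f.comp f = MonoidHom.id (Artin M) := by
    apply hom_ext
    intro s
    rw [MonoidHom.comp_apply, hf, map_inv, hf, inv_inv]
    rfl
  have hff' : ∀ x, f (f x) = x := fun x => DFunLike.congr_fun hff x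
  let ε : MulAut (Artin M) :=
    { toFun := f, invFun := f, left_inv := hff', right_inv := hff', map_mul' := map_mul f }
  refine ⟨ε, fun s => hf s, ?_⟩
  ext x
  exact hff' x

/-- a homomorphism `L` with value one on the generators changes its sign under `ε` -/
theorem len_eps {ε : MulAut (Artin M)} (hε : InvertsGens M ε) {L : Artin M → ℤ}
    (hL : ∀ u v, L (u * v) = L u + L v) (h1 : ∀ s, L (PresentedGroup.of s) = 1) (u : Artin M) :
    L (ε u) = -L u := by
  have hL1 : L 1 = 0 := by
    have h := hL 1 1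
    rw [mul_one] at h
    omega
  have hLi : ∀ v, L v⁻¹ = -L v := by
    intro v
    have h := hL v⁻¹ v
    rw [inv_mul_cancel, hL1] at h
    omega
  let Lh : Artin M →* Multiplicative ℤ :=
    { toFun := fun v => Multiplicative.ofAdd (L v)
      map_one' := by rw [hL1]; rfl
      map_mul' := fun v w => by rw [hL]; rfl }
  let Lm : Artin M →* Multiplicative ℤ :=
    { toFun := fun v => Multiplicative.ofAdd (-L v)
      map_one' := by rw [hL1]; rfl
      map_mul' := fun v w => by rw [hL, neg_add]; rfl }
  have h2 : Lh.comp ε.toMonoidHom = Lm := by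
    apply hom_ext
    intro s
    change Multiplicative.ofAdd (L (ε (PresentedGroup.of s))) =
      Multiplicative.ofAdd (-L (PresentedGroup.of s))
    rw [hε s, hLi]
  exact Multiplicative.ofAdd.injective (DFunLike.congr_fun h2 u)

variable {S : Type*} [Lattice S] [BoundedOrder S] {E : Germ S}

/-- The description of the automorphisms, from the statement on the automorphisms which fix `δ`:
`form_of_fix`, `not_inner`, `center_eq` (`Cent.lean`), and `formMod_of`, `outGenBy_of`,
`splits_of` (`HT/D2.lean`). -/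
theorem final [Lattice (Artin M)] (F : Frame E (Artin M))
    (hM : ∀ s t : T, s ≠ t → 2 ≤ M s t ∧ M s t ≤ 5)
    (hlen : ∀ s, F.len (PresentedGroup.of s) = 1)
    (h1 : ∀ x, E.tau x = x → x = ⊥ ∨ x = ⊤)
    (hm : ∀ j, 0 < j → j < E.m → ∃ x, E.tau^[j] x ≠ x)
    (hfix : ∀ φ : MulAut (Artin M), φ F.δ = F.δ → ∃ x : Artin M, φ = MulAut.conj x) :
    ∃ ε : MulAut (Artin M), InvertsGens M ε ∧ ε * ε = 1 ∧
      FormMod (Artin M) ε (F.δ ^ E.m) ∧
      Subgroup.center (Artin M) = Subgroup.zpowers (F.δ ^ E.m) ∧
      OutGenBy (Artin M) ε ∧ Splits (Artin M) := by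
  obtain ⟨ε, hε, he⟩ := exists_eps hM
  have hl : ∀ u, F.len (ε u) = -F.len u := fun u => len_eps hε F.len_mul hlen u
  have hform := F.form_of_fix h1 hm hfix he hl
  have hinn := F.not_inner hl
  have hc := F.center_eq h1 hm
  have hout := outGenBy_of he hform hinn
  exact ⟨ε, hε, he, formMod_of hform hinn hc, hc, hout, splits_of he hout⟩

end Pool.Agent.SPH
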