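import Pool.Agent.SPH.Fix
import Pool.Agent.SPH.Sub

/-!
# Project SPH: two centralisers, general version

`Fx n`: every automorphism which fixes `δ` is, on the centraliser of `δ ^ n`, the conjugation by a
power of `δ`; `Ff n`: `δ ^ j` commutes with this centraliser only if `n ∣ j`.
-/

namespace Pool.Agent.SPH.Frame

variable {S : Type*} [Lattice S] [BoundedOrder S] {E : Germ S} {G : Type*} [Group G] [Lattice G]
  (F : Frame E G)

/-- the conclusion of `blk_fix` -/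
def Fx (n : ℕ) : Prop := ∀ φ : MulAut G, φ F.δ = F.δ → ∃ i : ℤ, ∀ j : ℤ, (n : ℤ) ∣ j - i →
  ∀ u ∈ F.Cn n, (MulAut.conj (F.δ ^ j) * φ) u = u

/-- `δ ^ j` is central in `Cn n` only if `n ∣ j` -/
def Ff (n : ℕ) : Prop := ∀ j : ℤ, (∀ u ∈ F.Cn n, u * F.δ ^ j = F.δ ^ j * u) → (n : ℤ) ∣ j

theorem Fx_of_blk {n : ℕ} {a : S} {c : ℤ} (h : Blk E n a c) : F.Fx n :=
  fun _ hφ => F.blk_fix h hφ

/-- see the proof of `two_blocks` (`fx2_dvd`) -/
theorem Ff_of_blk {n : ℕ} {a : S} {c : ℤ} (h : Blk E n a c) : F.Ff n := by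
  intro j hj
  apply h.faithful
  apply F.g_inj
  rw [F.g_shz, mul_assoc, hj _ (F.g_mem_Cn.2 h.mem.1), zpow_neg, inv_mul_cancel_left]

/-- `g x` is in `Cn n`; if `δ ^ j` commutes with it then `shz j x = x`; with `r = j % n` also
`tau^[r] x = x`, so `r = 0` (see the proof of `TD.blk_of` in `Idx.lean`) -/
theorem Ff_of_moved {n : ℕ} (hn : 0 < n) {x : S} (h1 : E.tau^[n] x = x)
    (h2 : ∀ i, 0 < i → i < n → E.tau^[i] x ≠ x) : F.Ff n := by
  intro j hj
  have hjx : E.shz j x = x := by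
    apply F.g_inj
    rw [F.g_shz, mul_assoc, hj _ (F.g_mem_Cn.2 h1), zpow_neg, inv_mul_cancel_left]
  have hnat : ∀ k : ℕ, E.shz (k : ℤ) x = E.tau^[k] x := by
    intro k
    induction k with
    | zero => exact E.shz_zero x
    | succ k ih => rw [Nat.cast_succ, E.shz_succ, ih, Function.iterate_succ_apply']
  have hfix : E.shz (n : ℤ) x = x := by rw [hnat, h1]
  have hfix' : E.shz (-(n : ℤ)) x = x := by
    have h3 := E.shz_add (-(n : ℤ)) n x
    rw [hfix, neg_add_cancel, E.shz_zero] at h3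
    exact h3.symm
  have hall : ∀ q : ℤ, E.shz ((n : ℤ) * q) x = x := by
    intro q
    induction q using Int.induction_on with
    | zero => rw [mul_zero, E.shz_zero]
    | succ q ih =>
      rw [show (n : ℤ) * ((q : ℤ) + 1) = (n : ℤ) * q + n by ring, E.shz_add, hfix, ih]
    | pred q ih =>
      rw [show (n : ℤ) * (-(q : ℤ) - 1) = (n : ℤ) * (-(q : ℤ)) + -(n : ℤ) by ring,
        E.shz_add, hfix', ih]
  have hn' : (0 : ℤ) < n := by exact_mod_cast hn
  have h0 : 0 ≤ j % (n : ℤ) := Int.emod_nonneg j hn'.ne'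
  have h3 : j % (n : ℤ) < n := Int.emod_lt_of_pos j hn'
  obtain ⟨r, hr⟩ := Int.eq_ofNat_of_zero_le h0
  have hrn : r < n := by
    rw [hr] at h3
    exact_mod_cast h3
  have h4 : E.shz (r : ℤ) x = x := by
    have e : j = (r : ℤ) + (n : ℤ) * (j / n) := by
      rw [← hr]
      exact (Int.emod_add_mul_ediv j n).symm
    rw [e, E.shz_add, hall] at hjx
    exact hjx
  rw [hnat] at h4
  have hr0 : r = 0 := by
    by_contra hne
    exact h2 r (Nat.pos_of_ne_zero hne) hrn h4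
  rw [hr0] at hr
  exact Int.dvd_of_emod_eq_zero (by rw [hr]; rfl)

/-- copy of `two_blocks` -/
theorem two_blocks' (h1 : ∀ x, E.tau x = x → x = ⊥ ∨ x = ⊤) {n1 n2 : ℕ}
    (b1 : F.Fx n1) (f1 : F.Ff n1) (b2 : F.Fx n2) (f2 : F.Ff n2) (hn : Nat.Coprime n1 n2)
    (hm : E.m = n1 * n2) {s : G} (hU : ∀ u, u ∈ F.Cn n1 ⊔ F.Cn n2 ∨ u * s⁻¹ ∈ F.Cn n1 ⊔ F.Cn n2)
    {φ : MulAut G} (hφ : φ F.δ = F.δ) : ∃ j : ℤ, φ = MulAut.conj (F.δ ^ j) := by
  obtain ⟨i1, h3⟩ := b1 φ hφ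
  obtain ⟨i2, h4⟩ := b2 φ hφ
  have hco : IsCoprime (n1 : ℤ) (n2 : ℤ) := Nat.isCoprime_iff_coprime.2 hn
  obtain ⟨j, hj1, hj2⟩ : ∃ j : ℤ, (n1 : ℤ) ∣ j - i1 ∧ (n2 : ℤ) ∣ j - i2 := by
    obtain ⟨u, v, huv⟩ := hco
    refine ⟨i1 + (i2 - i1) * (u * n1), ⟨(i2 - i1) * u, by ring⟩, ⟨(i1 - i2) * v, ?_⟩⟩
    have h5 : u * (n1 : ℤ) = 1 - v * n2 := by linarith
    rw [h5]
    ring
  have hall : ∀ x ∈ F.Cn n1 ⊔ F.Cn n2, (MulAut.conj (F.δ ^ j) * φ) x = x := by
    have h5 : F.Cn n1 ⊔ F.Cn n2 ≤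
        (MulAut.conj (F.δ ^ j) * φ).toMonoidHom.eqLocus (MonoidHom.id G) :=
      sup_le (fun x hx => h3 j hj1 x hx) (fun x hx => h4 j hj2 x hx)
    exact fun x hx => h5 hx
  have h6 : MulAut.conj (F.δ ^ j) * φ = 1 := by
    refine F.fix_all h1 hU ((le_sup_left : F.Cn n1 ≤ F.Cn n1 ⊔ F.Cn n2) (F.δ_mem_Cn n1))
      (fun k hk u => ?_) hall
    have d1 := f1 k fun u hu => hk u ((le_sup_left : F.Cn n1 ≤ F.Cn n1 ⊔ F.Cn n2) hu)
    have d2 := f2 k fun u hu => hk u ((le_sup_right : F.Cn n2 ≤ F.Cn n1 ⊔ F.Cn n2) hu)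
    obtain ⟨q, hq⟩ := hco.mul_dvd d1 d2
    have h7 : Commute u (F.δ ^ ((E.m : ℕ) : ℤ)) := by
      rw [zpow_natCast]
      exact F.comm_pow_m u
    have h8 : (E.m : ℤ) = (n1 : ℤ) * n2 := by
      rw [hm]
      push_cast
      ring
    rw [hq, ← h8, zpow_mul]
    exact h7.zpow_right q
  refine ⟨-j, ?_⟩
  rw [zpow_neg, map_inv]
  exact eq_inv_of_mul_eq_one_right h6

variable {S0 : Type*} [Lattice S0] [BoundedOrder S0] {E0 : Germ S0} {G0 : Type*} [Group G0]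
  [Lattice G0] (F0 : Frame E0 G0) {F} (J : GEmb E0 E) {ρ : G0 →* G}

include J in
/-- `F0.gen`, and both sides are homomorphisms to `ℤ` -/
theorem len_emb (hρ : ∀ x, ρ (F0.g x) = F.g (J.j x)) {r : ℕ}
    (hr : ∀ x, E.rk (J.j x) = r * E0.rk x) (w : G0) : F.len (ρ w) = r * F0.len w := by
  have hw : w ∈ Subgroup.closure (Set.range F0.g) := by
    rw [F0.gen]
    exact Subgroup.mem_top w
  induction hw using Subgroup.closure_induction with
  | mem x hx =>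
    obtain ⟨y, rfl⟩ := hx
    rw [hρ, F.len_g, F0.len_g, hr]
    push_cast
    rfl
  | one => rw [map_one, F.toGar.len_one, F0.toGar.len_one, mul_zero]
  | mul a b _ _ ha hb => rw [map_mul, F.len_mul, F0.len_mul, ha, hb, mul_add]
  | inv a _ ha => rw [map_inv, F.toGar.len_inv, F0.toGar.len_inv, ha, mul_neg]

include J in
/-- `GEmb.exists_restrict`, and `hB` for the restriction `ψ` (`len_emb`): `ψ = conj (δ ^ i)`, so
`φ u = δ ^ i u δ ^ (-i)` on `Cn k = range ρ`; take `-i` (and `δ ^ k` commutes with `Cn k`) -/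
theorem Fx_of_emb (hρ : ∀ x, ρ (F0.g x) = F.g (J.j x)) {k : ℕ} (hk : ρ.range = F.Cn k) {r : ℕ}
    (hr : ∀ x, E.rk (J.j x) = r * E0.rk x) (hr0 : 0 < r)
    (hl : ∀ φ : MulAut G, φ F.δ = F.δ → ∀ u, F.len (φ u) = F.len u)
    (hB : ∀ ψ : MulAut G0, ψ F0.δ = F0.δ → (∀ w, F0.len (ψ w) = F0.len w) →
      ∃ i : ℤ, ∀ w, ψ w = F0.δ ^ i * w * (F0.δ ^ i)⁻¹) : F.Fx k := by
  intro φ hφ
  obtain ⟨ψ, h1, h2⟩ := J.exists_restrict F0 F hρ hk hφ
  have h3 : ∀ w, F0.len (ψ w) = F0.len w := by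
    intro w
    have h4 := hl φ hφ (ρ w)
    rw [← h1, len_emb F0 J hρ hr, len_emb F0 J hρ hr] at h4
    have h5 : (r : ℤ) ≠ 0 := by
      have : (0 : ℤ) < r := by exact_mod_cast hr0
      omega
    exact mul_left_cancel₀ h5 h4
  obtain ⟨i, hi⟩ := hB ψ h2 h3
  refine ⟨-i, fun j hj u hu => ?_⟩
  obtain ⟨q, hq⟩ := hj
  have hu' : u ∈ ρ.range := by
    rw [hk]
    exact hu
  obtain ⟨w, rfl⟩ := hu'
  have h6 : Commute (ρ w) (F.δ ^ (k : ℤ)) := by
    rw [zpow_natCast]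
    exact F.mem_Cn.1 hu
  have h7 : Commute (ρ w) (F.δ ^ (j - -i)) := by
    rw [hq, zpow_mul]
    exact h6.zpow_right q
  have h9 : ρ (F0.δ ^ i * w * (F0.δ ^ i)⁻¹) = F.δ ^ i * ρ w * (F.δ ^ i)⁻¹ := by
    rw [map_mul, map_mul, map_inv, map_zpow, J.map_δ F0 F hρ]
  rw [MulAut.mul_apply, ← h1, hi, h9, MulAut.conj_apply]
  have h8 : F.δ ^ j * (F.δ ^ i * ρ w * (F.δ ^ i)⁻¹) * (F.δ ^ j)⁻¹ =
      F.δ ^ (j - -i) * ρ w * (F.δ ^ (j - -i))⁻¹ := by
    rw [sub_neg_eq_add, zpow_add]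
    group
  rw [h8, ← h7.eq, mul_inv_cancel_right]

/-- If all the generators are conjugate then every homomorphism to `ℤ` is a multiple of `len`. -/
theorem len_fix {T : Type*} {M : CoxeterMatrix T} [Lattice (Helper7.AG.Artin M)]
    (F : Frame E (Helper7.AG.Artin M)) (hlen : ∀ s, F.len (PresentedGroup.of s) = 1)
    (hc : ∀ s t : T, IsConj (PresentedGroup.of s : Helper7.AG.Artin M) (PresentedGroup.of t))
    (φ : MulAut (Helper7.AG.Artin M)) (hφ : φ F.δ = F.δ) (u : Helper7.AG.Artin M) :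
    F.len (φ u) = F.len u := by
  -- every additive function is a multiple of the length
  have key : ∀ f : Helper7.AG.Artin M → ℤ, (∀ g h, f (g * h) = f g + f h) →
      ∃ c : ℤ, ∀ w, f w = c * F.len w := by
    intro f hf
    have f1 : f 1 = 0 := by
      have h := hf 1 1
      rw [mul_one] at h
      omega
    have finv : ∀ g, f g⁻¹ = -f g := by
      intro g
      have h := hf g g⁻¹
      rw [mul_inv_cancel, f1] at h
      omega
    obtain ⟨c, hcc⟩ : ∃ c : ℤ, ∀ s : T, f (PresentedGroup.of s) = c := by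
      rcases isEmpty_or_nonempty T with h | ⟨⟨t⟩⟩
      · exact ⟨0, fun s => h.elim s⟩
      · refine ⟨f (PresentedGroup.of t), fun s => ?_⟩
        obtain ⟨g, hg⟩ := isConj_iff.1 (hc s t)
        have h := congrArg f hg
        rw [hf, hf, finv] at h
        omega
    refine ⟨c, fun w => ?_⟩
    have hw : w ∈ Subgroup.closure (Set.range (PresentedGroup.of (rels := Helper7.AG.rels M))) := by
      rw [PresentedGroup.closure_range_of]
      trivial
    induction hw using Subgroup.closure_induction with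
    | mem x hx =>
      obtain ⟨s, rfl⟩ := hx
      rw [hcc, hlen, mul_one]
    | one => rw [f1, F.toGar.len_one, mul_zero]
    | mul x y _ _ hx hy => rw [hf, hx, hy, F.len_mul, mul_add]
    | inv x _ hx => rw [finv, hx, F.toGar.len_inv, mul_neg]
  obtain ⟨c, hc'⟩ := key (fun w => F.len (φ w)) (fun g h => by rw [map_mul, F.len_mul])
  have h1 : F.len (φ F.δ) = c * F.len F.δ := hc' F.δ
  rw [hφ] at h1
  have h2 := F.len_δ
  have h3 : c = 1 := by
    have h4 : (c - 1) * F.len F.δ = 0 := by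
      rw [sub_mul, one_mul, ← h1, sub_self]
    rcases mul_eq_zero.1 h4 with h5 | h5
    · omega
    · omega
  have h5 : F.len (φ u) = c * F.len u := hc' u
  rw [h5, h3, one_mul]

end Pool.Agent.SPH.Frame
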