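import Pool.Agent.SPH.Frame

/-!
# Project SPH (MP_2ec7a7_al): from an action on the normal forms to the lattice order

`Pre E G`: the group `G` is generated by elements `g x` (`x` simple) which satisfy the relations
of the germ and act on the normal forms by `pX x`, and there is a length.  Everything here is the
abstract version of `Pool/Agent/HT/C5.lean` to `C8.lean` (copy the proofs).
-/

namespace Pool.Agent.SPH

/-- the input of the construction of the order -/
structure Pre {S : Type*} [Lattice S] [BoundedOrder S] (E : Germ S) (G : Type*) [Group G] where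
  /-- the simple elements -/
  g : S → G
  g_bot : g ⊥ = 1
  g_mul : ∀ {x y : S}, x ≤ y → g x * g (E.q x y) = g y
  gen : Subgroup.closure (Set.range g) = ⊤
  /-- the action -/
  f : G →* Equiv.Perm E.XX
  f_g : ∀ s, f (g s) = E.pX s
  /-- the length -/
  ln : G → ℤ
  ln_mul : ∀ u v, ln (u * v) = ln u + ln v
  ln_g : ∀ s, ln (g s) = E.rk s
  top_ne : (⊤ : S) ≠ ⊥

namespace Pre

variable {S : Type*} [Lattice S] [BoundedOrder S] {E : Germ S} {G : Type*} [Group G]
  (P : Pre E G)

/-- the element of a normal form -/
noncomputable def ev (p : E.XX) : G := P.g ⊤ ^ p.1.1 * (p.1.2.map P.g).prod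

/-- the monoid of positive elements -/
def PP : Submonoid G := Submonoid.closure (Set.range P.g)

/-- the order of the group: `u ≤ v` iff `u⁻¹ v` is positive -/
def Le (u v : G) : Prop := u⁻¹ * v ∈ P.PP

end Pre

end Pool.Agent.SPH
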