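import Pool.Agent.HT.D2

/-!
# Project SPH, piece SPH-OF: an outer automorphism group `D_∞ × Z/2`
-/

namespace Pool.Agent.SPH

open Pool.Agent.HT

variable {G : Type*} [Group G]

/-- the automorphism `conj x * T ^ k * θ ^ u * ε ^ v`, where `u`, `v` are `0` or `1` -/
def tw4 (T θ ε : MulAut G) (x : G) (k : ℤ) (u v : Bool) : MulAut G :=
  MulAut.conj x * T ^ k * (if u = true then θ else 1) * (if v = true then ε else 1)

/-- every automorphism of `G` is `conj x * T ^ k * θ ^ u * ε ^ v`; here `k`, `u`, `v` are unique, and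
`x` is unique up to the powers of `z` -/
def FormMod4 (T θ ε : MulAut G) (z : G) : Prop :=
  (∀ φ : MulAut G, ∃ (x : G) (k : ℤ) (u v : Bool), φ = tw4 T θ ε x k u v) ∧
  ∀ (x y : G) (k l : ℤ) (u u' v v' : Bool), tw4 T θ ε x k u v = tw4 T θ ε y l u' v' ↔
    k = l ∧ u = u' ∧ v = v' ∧ x⁻¹ * y ∈ Subgroup.zpowers z

/-- the relations between `T`, `θ` and `ε` -/
structure Rel4 (T θ ε : MulAut G) : Prop where
  θθ : θ * θ = 1
  εε : ε * ε = 1
  θT : θ * T * θ = T⁻¹
  εT : ε * T = T * ε
  εθ : ε * θ = θ * ε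

/-- `Out G` is the product of the infinite dihedral group, generated by the classes of `T` (a
translation) and `θ` (a reflection), and of the group of order two generated by the class of
`ε` -/
def OutD (T θ ε : MulAut G) : Prop :=
  ∃ e : Out G ≃* DihedralGroup 0 × ℤˣ, e (QuotientGroup.mk T) = (DihedralGroup.r 1, 1) ∧
    e (QuotientGroup.mk θ) = (DihedralGroup.sr 0, 1) ∧ e (QuotientGroup.mk ε) = (1, -1)

theorem θT_pow {T θ ε : MulAut G} (hR : Rel4 T θ ε) (i : ℤ) : T ^ i * θ = θ * T ^ (-i) := by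
  have h1 : θ * T * θ⁻¹ = T⁻¹ := by
    have : θ⁻¹ = θ := by
      rw [inv_eq_iff_mul_eq_one]; exact hR.θθ
    rw [this, hR.θT]
  have h2 : θ * T ^ (-i) * θ⁻¹ = T ^ i := by
    rw [← conj_zpow, h1, inv_zpow, zpow_neg, inv_inv]
  rw [← h2]
  group

theorem εT_pow {T θ ε : MulAut G} (hR : Rel4 T θ ε) (i : ℤ) : ε * T ^ i = T ^ i * ε :=
  ((show Commute ε T from hR.εT).zpow_right i)

theorem exists_psi {T θ ε : MulAut G} (hR : Rel4 T θ ε) :
    ∃ Ψ : DihedralGroup 0 × ℤˣ →* MulAut G, (∀ i : ℤ, Ψ (DihedralGroup.r i, 1) = T ^ i) ∧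
      (∀ i : ℤ, Ψ (DihedralGroup.sr i, 1) = θ * T ^ i) ∧ Ψ (1, -1) = ε := by
  let f : DihedralGroup 0 → MulAut G := fun g => match g with
    | .r i => T ^ (show ℤ from i)
    | .sr i => θ * T ^ (show ℤ from i)
  have hf : ∀ a b, f (a * b) = f a * f b := by
    intro a b
    rcases a with i | i <;> rcases b with j | j
    · show T ^ (show ℤ from i + j) = T ^ (show ℤ from i) * T ^ (show ℤ from j)
      exact zpow_add T _ _
    · show θ * T ^ (show ℤ from j - i) = T ^ (show ℤ from i) * (θ * T ^ (show ℤ from j))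
      rw [← mul_assoc, θT_pow hR, mul_assoc, ← zpow_add]
      congr 2
      show (j - i : ℤ) = -i + j
      ring
    · show θ * T ^ (show ℤ from i + j) = θ * T ^ (show ℤ from i) * T ^ (show ℤ from j)
      rw [mul_assoc, ← zpow_add]
      rfl
    · show T ^ (show ℤ from j - i) = θ * T ^ (show ℤ from i) * (θ * T ^ (show ℤ from j))
      have e : θ * T ^ (show ℤ from i) * (θ * T ^ (show ℤ from j)) =
          θ * (T ^ (show ℤ from i) * θ) * T ^ (show ℤ from j) := by group
      rw [e, θT_pow hR, ← mul_assoc, hR.θθ, one_mul, ← zpow_add]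
      congr 1
      show (j - i : ℤ) = -i + j
      ring
  let F : DihedralGroup 0 →* MulAut G := MonoidHom.mk' f hf
  have hε1 : ε * ε = 1 := hR.εε
  let e : ℤˣ →* MulAut G :=
    { toFun := fun u => if u = 1 then 1 else ε
      map_one' := by simp
      map_mul' := by
        intro u v
        rcases Int.units_eq_one_or u with rfl | rfl <;>
          rcases Int.units_eq_one_or v with rfl | rfl <;> simp [hε1] }
  have hcomm : ∀ (g : DihedralGroup 0) (u : ℤˣ), Commute (F g) (e u) := by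
    intro g u
    rcases Int.units_eq_one_or u with rfl | rfl
    · rw [map_one]; exact Commute.one_right _
    · have he : e (-1) = ε := by simp [e]
      rw [he]
      rcases g with i | i
      · exact (εT_pow hR i).symm
      · show θ * T ^ (show ℤ from i) * ε = ε * (θ * T ^ (show ℤ from i))
        rw [mul_assoc, ← εT_pow hR, ← mul_assoc, ← hR.εθ, mul_assoc]
  refine ⟨MonoidHom.noncommCoprod F e hcomm, ?_, ?_, ?_⟩
  · intro i
    rw [MonoidHom.noncommCoprod_apply]
    simp only [map_one, mul_one]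
    rfl
  · intro i
    rw [MonoidHom.noncommCoprod_apply]
    simp only [map_one, mul_one]
    rfl
  · rw [MonoidHom.noncommCoprod_apply]
    simp only [map_one, one_mul]
    simp [e]

theorem mk_conj (x : G) (ψ : MulAut G) :
    (QuotientGroup.mk (MulAut.conj x * ψ) : Out G) = QuotientGroup.mk ψ := by
  have h : (QuotientGroup.mk (MulAut.conj x) : Out G) = 1 := by
    rw [QuotientGroup.eq_one_iff]
    exact ⟨x, rfl⟩
  rw [QuotientGroup.mk_mul, h, one_mul]

theorem exists_equiv {T θ ε : MulAut G} (hR : Rel4 T θ ε) {z : G} (h : FormMod4 T θ ε z) :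
    ∃ (Ψ : DihedralGroup 0 × ℤˣ →* MulAut G) (e : Out G ≃* DihedralGroup 0 × ℤˣ),
      (∀ i : ℤ, Ψ (DihedralGroup.r i, 1) = T ^ i) ∧
      (∀ i : ℤ, Ψ (DihedralGroup.sr i, 1) = θ * T ^ i) ∧ Ψ (1, -1) = ε ∧
      ∀ g, e (QuotientGroup.mk (Ψ g)) = g := by
  obtain ⟨Ψ, h1, h2, h3⟩ := exists_psi hR
  have hm : ∀ a : DihedralGroup 0, Ψ (a, -1) = Ψ (a, 1) * ε := by
    intro a
    rw [← h3, ← map_mul]
    simp
  let f : DihedralGroup 0 × ℤˣ →* Out G := (QuotientGroup.mk' (Inn G)).comp Ψ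
  have hinj : Function.Injective f := by
    rw [injective_iff_map_eq_one]
    rintro ⟨a, w⟩ hg
    have hg' : Ψ (a, w) ∈ Inn G := (QuotientGroup.eq_one_iff _).1 hg
    obtain ⟨x, hx⟩ := hg'
    have hx0 : MulAut.conj x = tw4 T θ ε x 0 false false := by simp [tw4]
    have h1' : ∀ i : ZMod 0, Ψ (DihedralGroup.r i, 1) = T ^ (@id ℤ i) := fun i => h1 i
    have h2' : ∀ i : ZMod 0, Ψ (DihedralGroup.sr i, 1) = θ * T ^ (@id ℤ i) := fun i => h2 i
    rcases a with i | i <;> rcases Int.units_eq_one_or w with rfl | rfl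
    · have e1 : tw4 T θ ε 1 (@id ℤ i) false false = tw4 T θ ε x 0 false false := by
        rw [← hx0, hx, h1']
        simp [tw4]
      obtain ⟨e2, -⟩ := (h.2 _ _ _ _ _ _ _ _).1 e1
      have e3 : i = 0 := e2
      rw [e3]
      rfl
    · have e1 : tw4 T θ ε 1 (@id ℤ i) false true = tw4 T θ ε x 0 false false := by
        rw [← hx0, hx, hm, h1']
        simp [tw4]
      obtain ⟨-, -, e2, -⟩ := (h.2 _ _ _ _ _ _ _ _).1 e1
      exact absurd e2 (by simp)
    · have e1 : tw4 T θ ε 1 (-(@id ℤ i)) true false = tw4 T θ ε x 0 false false := by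
        rw [← hx0, hx, h2']
        have := θT_pow hR (-(@id ℤ i))
        rw [neg_neg, zpow_neg] at this
        simp only [tw4, map_one, one_mul, if_true, zpow_neg, Bool.false_eq_true, if_false,
          mul_one]
        rw [this]
      obtain ⟨-, e2, -⟩ := (h.2 _ _ _ _ _ _ _ _).1 e1
      exact absurd e2 (by simp)
    · have e1 : tw4 T θ ε 1 (-(@id ℤ i)) true true = tw4 T θ ε x 0 false false := by
        rw [← hx0, hx, hm, h2']
        have := θT_pow hR (-(@id ℤ i))
        rw [neg_neg, zpow_neg] at this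
        simp only [tw4, map_one, one_mul, if_true, zpow_neg, Bool.false_eq_true, if_false,
          mul_one]
        rw [this]
      obtain ⟨-, e2, -⟩ := (h.2 _ _ _ _ _ _ _ _).1 e1
      exact absurd e2 (by simp)
  have hsurj : Function.Surjective f := by
    intro o
    obtain ⟨φ, rfl⟩ := QuotientGroup.mk_surjective o
    obtain ⟨x, k, u, v, rfl⟩ := h.1 φ
    have key : ∃ g, Ψ g = T ^ k * (if u = true then θ else 1) * (if v = true then ε else 1) := by
      cases u <;> cases v
      · exact ⟨(DihedralGroup.r k, 1), by simp [h1]⟩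
      · exact ⟨(DihedralGroup.r k, -1), by simp [hm, h1]⟩
      · refine ⟨(DihedralGroup.sr (-k : ℤ), 1), ?_⟩
        rw [h2 (-k)]
        simp [θT_pow hR k]
      · refine ⟨(DihedralGroup.sr (-k : ℤ), -1), ?_⟩
        rw [hm, h2 (-k)]
        simp [θT_pow hR k]
    obtain ⟨g, hg⟩ := key
    refine ⟨g, ?_⟩
    show (QuotientGroup.mk (Ψ g) : Out G) = _
    rw [hg]
    unfold tw4
    rw [mul_assoc (MulAut.conj x), mul_assoc (MulAut.conj x), mk_conj]
  let E := MulEquiv.ofBijective f ⟨hinj, hsurj⟩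
  refine ⟨Ψ, E.symm, h1, h2, h3, ?_⟩
  intro g
  exact E.symm_apply_apply g

theorem outD_of {T θ ε : MulAut G} (hR : Rel4 T θ ε) {z : G} (h : FormMod4 T θ ε z) :
    OutD T θ ε := by
  obtain ⟨Ψ, e, h1, h2, h3, h4⟩ := exists_equiv hR h
  refine ⟨e, ?_, ?_, ?_⟩
  · have h5 : Ψ (DihedralGroup.r (1 : ZMod 0), 1) = T := by
      have := h1 1
      rw [zpow_one] at this
      exact this
    rw [← h5]
    exact h4 _
  · have h5 : Ψ (DihedralGroup.sr (0 : ZMod 0), 1) = θ := by
      have := h2 0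
      rw [zpow_zero, mul_one] at this
      exact this
    rw [← h5]
    exact h4 _
  · rw [← h4 (1, -1), h3]

theorem splits4_of {T θ ε : MulAut G} (hR : Rel4 T θ ε) {z : G} (h : FormMod4 T θ ε z) :
    Splits G := by
  obtain ⟨Ψ, e, h1, h2, h3, h4⟩ := exists_equiv hR h
  refine ⟨Ψ.comp e.toMonoidHom, ?_⟩
  intro o
  apply e.injective
  show e (QuotientGroup.mk (Ψ (e o))) = e o
  rw [h4]

end Pool.Agent.SPH
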