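import Pool.Agent.SPH.Fix

/-!
# Project SPH, piece SPH-TV: transvections; the case of two orbits (type `F4`)

`ζ = δ ^ m`.  `TvG` is the group of the automorphisms `φ` with `φ ζ = ζ` and `φ u ∈ u ⟨ζ⟩` for all
`u`; it commutes with the inner automorphisms (`τ (conj x) = conj (τ x) τ = conj x τ`), and
`NN = {conj x * τ}` is a group.  Under the hypotheses `F4H`, every automorphism which fixes `ζ` is
in `NN` or in `NN θ`.
-/

namespace Pool.Agent.SPH.Frame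

variable {S : Type*} [Lattice S] [BoundedOrder S] {E : Germ S} {G : Type*} [Group G] [Lattice G]
  (F : Frame E G)

/-- the automorphisms `u ↦ u ζ ^ c` -/
def TvG : Subgroup (MulAut G) where
  carrier := {φ | φ (F.δ ^ E.m) = F.δ ^ E.m ∧ ∀ u, ∃ c : ℤ, φ u = u * (F.δ ^ E.m) ^ c}
  mul_mem' := by
    rintro a b ⟨h1, h2⟩ ⟨h3, h4⟩
    refine ⟨?_, fun u => ?_⟩
    · show a (b (F.δ ^ E.m)) = F.δ ^ E.m
      rw [h3, h1]
    · obtain ⟨c, hc⟩ := h4 u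
      obtain ⟨c', hc'⟩ := h2 u
      refine ⟨c' + c, ?_⟩
      show a (b u) = _
      rw [hc, map_mul, hc', map_zpow, h1, mul_assoc, ← zpow_add]
  one_mem' := ⟨rfl, fun u => ⟨0, by rw [zpow_zero, mul_one]; rfl⟩⟩
  inv_mem' := by
    rintro a ⟨h1, h2⟩
    have h3 : a⁻¹ (F.δ ^ E.m) = F.δ ^ E.m := by
      conv_lhs => rw [← h1]
      exact MulAut.inv_apply_self G a (F.δ ^ E.m)
    refine ⟨h3, fun u => ?_⟩
    obtain ⟨c, hc⟩ := h2 (a⁻¹ u)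
    have h4 : a (a⁻¹ u) = u := MulAut.apply_inv_self G a u
    refine ⟨-c, ?_⟩
    rw [h4] at hc
    rw [zpow_neg]
    exact eq_mul_inv_of_mul_eq hc.symm

theorem mem_TvG {φ : MulAut G} : φ ∈ F.TvG ↔
    φ (F.δ ^ E.m) = F.δ ^ E.m ∧ ∀ u, ∃ c : ℤ, φ u = u * (F.δ ^ E.m) ^ c := Iff.rfl

/-- `ζ` is central (`comm_pow_m`), so `τ (conj x) = conj (τ x) τ = conj x τ` -/
theorem TvG_comm {τ : MulAut G} (hτ : τ ∈ F.TvG) (x : G) :
    τ * MulAut.conj x = MulAut.conj x * τ := by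
  obtain ⟨_, h2⟩ := hτ
  obtain ⟨c, hc⟩ := h2 x
  apply MulEquiv.ext
  intro u
  have h3 : Commute (τ u) ((F.δ ^ E.m) ^ c) := Commute.zpow_right (F.comm_pow_m (τ u)) c
  show τ (x * u * x⁻¹) = x * τ u * x⁻¹
  rw [map_mul, map_mul, map_inv, hc, mul_inv_rev, mul_assoc x, ← h3.eq]
  group

/-- the automorphisms `conj x * τ`, `τ ∈ TvG` -/
def NN : Subgroup (MulAut G) where
  carrier := {φ | ∃ x : G, ∃ τ ∈ F.TvG, φ = MulAut.conj x * τ}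
  mul_mem' := by
    rintro a b ⟨x, τ, h1, rfl⟩ ⟨y, τ', h2, rfl⟩
    refine ⟨x * y, τ * τ', F.TvG.mul_mem h1 h2, ?_⟩
    rw [map_mul, mul_assoc, ← mul_assoc τ, F.TvG_comm h1 y]
    simp only [mul_assoc]
  one_mem' := ⟨1, 1, F.TvG.one_mem, by rw [map_one, mul_one]⟩
  inv_mem' := by
    rintro a ⟨x, τ, h1, rfl⟩
    refine ⟨x⁻¹, τ⁻¹, F.TvG.inv_mem h1, ?_⟩
    rw [mul_inv_rev, ← map_inv, F.TvG_comm (F.TvG.inv_mem h1)]

theorem mem_NN {φ : MulAut G} : φ ∈ F.NN ↔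
    ∃ x : G, ∃ τ ∈ F.TvG, φ = MulAut.conj x * τ := Iff.rfl

theorem conj_mem_NN (x : G) : MulAut.conj x ∈ F.NN :=
  ⟨x, 1, F.TvG.one_mem, (mul_one _).symm⟩

/-- Let `x ∈ U`.  If `s ∈ U` all is clear.  Otherwise `u = s⁻¹ x s ∈ U` (if not, `u s⁻¹ = s⁻¹ x`
is in `U`), `φ x = x ζ ^ c`, `φ u = u ζ ^ c'`, and `v = φ s * s⁻¹` satisfies
`v⁻¹ x v = x ζ ^ (c' - c)`; the length gives `c' = c`.  So `v` commutes with `U`, `v = δ ^ j`
(`cent_one`), it is central by `hc`, so it is a power of `ζ` (`center_eq`), and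
`φ s = s ζ ^ i`.  Now every element is `x` or `x s` with `x ∈ U`.  `φ ζ = ζ` because `δ ∈ U`
gives `φ δ = δ ζ ^ c`; here it is a hypothesis. -/
theorem fix_tv (h1 : ∀ x, E.tau x = x → x = ⊥ ∨ x = ⊤)
    (hm : ∀ j, 0 < j → j < E.m → ∃ x, E.tau^[j] x ≠ x) {U : Subgroup G} {s : G}
    (hU : ∀ u, u ∈ U ∨ u * s⁻¹ ∈ U) (hδ : F.δ ∈ U)
    (hc : ∀ j : ℤ, (∀ x ∈ U, x * F.δ ^ j = F.δ ^ j * x) → ∀ u, u * F.δ ^ j = F.δ ^ j * u)
    {φ : MulAut G} (hφ : φ F.δ = F.δ)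
    (h : ∀ x ∈ U, ∃ c : ℤ, φ x = x * (F.δ ^ E.m) ^ c) : φ ∈ F.TvG := by
  have hζ : φ (F.δ ^ E.m) = F.δ ^ E.m := by rw [map_pow, hφ]
  have hcen : ∀ (c : ℤ) (u : G), u * (F.δ ^ E.m) ^ c = (F.δ ^ E.m) ^ c * u := fun c u =>
    (Commute.zpow_right (show Commute u (F.δ ^ E.m) from F.comm_pow_m u) c).eq
  have hfin : (∃ i : ℤ, φ s = s * (F.δ ^ E.m) ^ i) → φ ∈ F.TvG := by
    rintro ⟨i, hi⟩
    refine F.mem_TvG.2 ⟨hζ, fun u => ?_⟩
    rcases hU u with h2 | h2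
    · exact h u h2
    · obtain ⟨c, h3⟩ := h _ h2
      refine ⟨c + i, ?_⟩
      have h4 : φ u = φ (u * s⁻¹) * φ s := by rw [← map_mul, inv_mul_cancel_right]
      rw [h4, h3, hi, mul_assoc, ← mul_assoc _ s, ← hcen c s, zpow_add]
      simp only [mul_assoc, inv_mul_cancel_left]
  by_cases hs : s ∈ U
  · exact hfin (h s hs)
  have hconj : ∀ x ∈ U, s⁻¹ * x * s ∈ U := by
    intro x hx
    rcases hU (s⁻¹ * x * s) with h2 | h2
    · exact h2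
    · exfalso
      apply hs
      rw [mul_inv_cancel_right] at h2
      have h3 := U.mul_mem h2 (U.inv_mem hx)
      rw [mul_inv_cancel_right] at h3
      exact inv_mem_iff.1 h3
  obtain ⟨v, hv⟩ : ∃ v, φ s = v * s := ⟨φ s * s⁻¹, by group⟩
  have hcom : ∀ x ∈ U, x * v = v * x := by
    intro x hx
    obtain ⟨c, h2⟩ := h x hx
    obtain ⟨c', h3⟩ := h _ (hconj x hx)
    rw [map_mul, map_mul, map_inv, h2, hv] at h3
    have h4 : x * v = v * x * (F.δ ^ E.m) ^ (c' - c) := by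
      have h5 : x * v = v * s * ((v * s)⁻¹ * (x * (F.δ ^ E.m) ^ c) * (v * s)) * s⁻¹ *
          (F.δ ^ E.m) ^ (-c) := by
        rw [hcen c x]
        have h6 : v * s * ((v * s)⁻¹ * ((F.δ ^ E.m) ^ c * x) * (v * s)) * s⁻¹ =
          (F.δ ^ E.m) ^ c * (x * v) := by group
        rw [h6, ← hcen c (x * v), mul_assoc (x * v), ← zpow_add, add_neg_cancel, zpow_zero,
          mul_one]
      rw [h5, h3, zpow_sub, zpow_neg]
      have h7 : v * s * (s⁻¹ * x * s * (F.δ ^ E.m) ^ c') * s⁻¹ =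
          v * x * (s * (F.δ ^ E.m) ^ c') * s⁻¹ := by group
      rw [h7, hcen c' s]
      group
    have h8 := congrArg F.len h4
    rw [F.len_mul, F.len_mul, F.len_mul, ← zpow_natCast F.δ E.m, ← zpow_mul,
      F.toGar.len_zpow] at h8
    have h9 : F.len F.δ * ((E.m : ℤ) * (c' - c)) = 0 := by linarith
    have h10 : (E.m : ℤ) * (c' - c) = 0 := by
      rcases mul_eq_zero.1 h9 with h11 | h11
      · exact absurd h11 F.len_δ.ne'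
      · exact h11
    have h12 : c' - c = 0 := by
      rcases mul_eq_zero.1 h10 with h11 | h11
      · exfalso
        have := E.m_pos
        omega
      · exact h11
    rw [h4, h12, zpow_zero, mul_one]
  obtain ⟨j, rfl⟩ := F.cent_one h1 (hcom _ hδ).symm
  have hcj := hc j hcom
  have hz : F.δ ^ j ∈ Subgroup.center G := Subgroup.mem_center_iff.2 fun u => hcj u
  rw [F.center_eq h1 hm] at hz
  obtain ⟨i, hi⟩ := Subgroup.mem_zpowers_iff.1 hz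
  apply hfin
  exact ⟨i, by rw [hv, ← hi, hcen]⟩

/-- the hypotheses for the type `F4` -/
structure F4H (F : Frame E G) (a r : S) (c : ℤ) (s : G) (κ : G → ℤ) : Prop where
  h1 : ∀ x, E.tau x = x → x = ⊥ ∨ x = ⊤
  m6 : E.m = 6
  moved : ∀ j, 0 < j → j < E.m → ∃ x, E.tau^[j] x ≠ x
  b3 : Blk E 3 r c
  two : E.Two 2
  kt : E.KT 2
  a_mem : a ∈ E.T 2
  fa : ∀ j : ℤ, E.shz j a = a → (2 : ℤ) ∣ j
  hU : ∀ u, u ∈ F.Cn 3 ⊔ F.Cn 2 ∨ u * s⁻¹ ∈ F.Cn 3 ⊔ F.Cn 2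
  rel0 : F.g a * F.g r * F.g a * (F.g r * F.g r) = F.g r * F.g r * (F.g a * F.g r * F.g a)
  rel : ∀ y ∈ E.T 2, ∀ k : ℕ, k < 6 →
    F.g y * F.δ ^ k * F.g r * (F.g y * F.δ ^ k) * (F.g r * F.g r) =
      F.g r * F.g r * (F.g y * F.δ ^ k * F.g r * (F.g y * F.δ ^ k)) → k = 0
  κ_mul : ∀ u v, κ (u * v) = κ u + κ v
  κ_δ : κ F.δ = 0
  κ_a : κ (F.g a) ≠ 0

variable {F} {a r : S} {c : ℤ} {s : G} {κ : G → ℤ} (h : F4H F a r c s κ)
include h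

private theorem tv3_cen (l : ℤ) (u : G) : u * F.δ ^ (6 * l) = F.δ ^ (6 * l) * u := by
  have h1 : Commute u (F.δ ^ 6) := by
    have h2 := F.comm_pow_m u
    rw [h.m6] at h2
    exact h2
  have h3 : F.δ ^ (6 * l) = (F.δ ^ 6) ^ l := by
    rw [zpow_mul]
    norm_cast
  rw [h3]
  exact (h1.zpow_right l).eq

/-- `rt` gives `φ (g a) = g y * δ ^ k`.  Apply `φ` to `rel0`, and write `k = 6 l + k'` with
`0 ≤ k' < 6`; the central factor `δ ^ (6 l)` cancels, so `rel` gives `k' = 0`. -/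
theorem rt_a {φ : MulAut G} (h1 : φ F.δ = F.δ) (h2 : φ (F.g r) = F.g r) :
    ∃ y ∈ E.T 2, ∃ l : ℤ, φ (F.g a) = F.g y * F.δ ^ (6 * l) := by
  obtain ⟨y, hy, k, hk⟩ := F.rt h.two h.kt h1 h.a_mem
  refine ⟨y, hy, k / 6, ?_⟩
  have e1 : k = (((k % 6).toNat : ℕ) : ℤ) + 6 * (k / 6) := by
    rw [Int.toNat_of_nonneg (Int.emod_nonneg k (by norm_num))]
    exact (Int.emod_add_mul_ediv k 6).symm
  have e2 : (k % 6).toNat < 6 := by
    have := Int.emod_lt_of_pos k (show (0 : ℤ) < 6 by norm_num)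
    omega
  have e3 : F.δ ^ k = F.δ ^ (k % 6).toNat * F.δ ^ (6 * (k / 6)) := by
    conv_lhs => rw [e1]
    rw [zpow_add, zpow_natCast]
  have hZ : ∀ u : G, u * F.δ ^ (6 * (k / 6)) = F.δ ^ (6 * (k / 6)) * u :=
    fun u => tv3_cen h (k / 6) u
  have e4 : φ (F.g a) = F.g y * F.δ ^ (k % 6).toNat * F.δ ^ (6 * (k / 6)) := by
    rw [hk, e3, mul_assoc]
  have e5 := congrArg φ h.rel0
  simp only [map_mul, h2, e4] at e5
  have e6 : (k % 6).toNat = 0 := by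
    apply h.rel y hy _ e2
    generalize F.δ ^ (6 * (k / 6)) = Z at hZ e5
    generalize F.g y * F.δ ^ (k % 6).toNat = B at e5 ⊢
    generalize F.g r = R at e5 ⊢
    have e7 : B * R * B * (R * R) * (Z * Z) = R * R * (B * R * B) * (Z * Z) := by
      calc B * R * B * (R * R) * (Z * Z) = B * R * B * ((R * R) * Z) * Z := by
            simp only [mul_assoc]
        _ = B * (R * B * Z) * (R * R) * Z := by rw [hZ (R * R)]; simp only [mul_assoc]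
        _ = B * Z * R * B * ((R * R) * Z) := by rw [hZ (R * B)]; simp only [mul_assoc]
        _ = B * Z * R * (B * Z) * (R * R) := by rw [hZ (R * R)]; simp only [mul_assoc]
        _ = R * R * (B * Z * R * (B * Z)) := e5
        _ = R * R * (B * (Z * (R * B)) * Z) := by simp only [mul_assoc]
        _ = R * R * (B * R * B) * (Z * Z) := by rw [← hZ (R * B)]; simp only [mul_assoc]
    exact mul_right_cancel e7
  rw [e4, e6, pow_zero, mul_one]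

/-- The elements `u` with `φ u ∈ u ⟨ζ⟩` form a subgroup which contains `δ`, `g r`, `g a`, hence
`Cn 3` and `Cn 2` (`Cn_le`), and `fix_tv` applies with `U = Cn 3 ⊔ Cn 2` (`hc` as in
`two_blocks`: `b3.faithful`, `fa`). -/
theorem tv_of {φ : MulAut G} (h1 : φ F.δ = F.δ) (h2 : φ (F.g r) = F.g r) {l : ℤ}
    (h3 : φ (F.g a) = F.g a * F.δ ^ (6 * l)) : φ ∈ F.TvG := by
  have hζ : φ (F.δ ^ E.m) = F.δ ^ E.m := by rw [map_pow, h1]
  have hcen : ∀ (c : ℤ) (u : G), u * (F.δ ^ E.m) ^ c = (F.δ ^ E.m) ^ c * u := fun c u =>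
    (Commute.zpow_right (show Commute u (F.δ ^ E.m) from F.comm_pow_m u) c).eq
  let U' : Subgroup G :=
    { carrier := {u | ∃ c : ℤ, φ u = u * (F.δ ^ E.m) ^ c}
      mul_mem' := by
        rintro u v ⟨c1, e1⟩ ⟨c2, e2⟩
        refine ⟨c1 + c2, ?_⟩
        rw [map_mul, e1, e2, zpow_add, mul_assoc, ← mul_assoc _ v, ← hcen c1 v]
        simp only [mul_assoc]
      one_mem' := ⟨0, by rw [map_one, zpow_zero, mul_one]⟩
      inv_mem' := by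
        rintro u ⟨c1, e1⟩
        refine ⟨-c1, ?_⟩
        rw [map_inv, e1, mul_inv_rev, zpow_neg, ← zpow_neg, hcen] }
  have hU'δ : F.δ ∈ U' := ⟨0, by rw [h1, zpow_zero, mul_one]⟩
  have hU'r : F.g r ∈ U' := ⟨0, by rw [h2, zpow_zero, mul_one]⟩
  have hU'a : F.g a ∈ U' := by
    refine ⟨l, ?_⟩
    rw [h3, h.m6, zpow_mul]
    norm_cast
  have hC3 : F.Cn 3 ≤ U' := by
    refine (F.Cn_le h.b3.kt h.b3.mem).trans ?_
    rw [Subgroup.closure_le]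
    rintro x (rfl | hx)
    · exact hU'r
    · rw [Set.mem_singleton_iff] at hx
      rw [hx]
      exact hU'δ
  have hC2 : F.Cn 2 ≤ U' := by
    refine (F.Cn_le h.kt h.a_mem).trans ?_
    rw [Subgroup.closure_le]
    rintro x (rfl | hx)
    · exact hU'a
    · rw [Set.mem_singleton_iff] at hx
      rw [hx]
      exact hU'δ
  refine F.fix_tv h.h1 h.moved h.hU (le_sup_left (a := F.Cn 3) (F.δ_mem_Cn 3)) ?_ h1
    (fun x hx => (sup_le hC3 hC2) hx)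
  intro j hj
  have hs : ∀ x : S, F.g x ∈ F.Cn 3 ⊔ F.Cn 2 → E.shz j x = x := by
    intro x hx
    apply F.g_inj
    rw [F.g_shz, mul_assoc, hj _ hx, ← mul_assoc, ← zpow_add, neg_add_cancel, zpow_zero, one_mul]
  have d3 : ((3 : ℕ) : ℤ) ∣ j := by
    apply h.b3.faithful j
    apply hs
    exact le_sup_left (a := F.Cn 3) (F.g_mem_Cn.2 h.b3.mem.1)
  have d2 : (2 : ℤ) ∣ j := by
    apply h.fa j
    apply hs
    exact le_sup_right (b := F.Cn 2) (F.g_mem_Cn.2 h.a_mem.1)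
  obtain ⟨i, hi⟩ : (6 : ℤ) ∣ j := by
    have : ((3 : ℕ) : ℤ) = 3 := rfl
    omega
  intro u
  rw [hi]
  exact tv3_cen h i u

omit h in
private theorem tv4_conj_δ {φ : MulAut G} (hφ : φ F.δ = F.δ) (j : ℤ) :
    (MulAut.conj (F.δ ^ j) * φ) F.δ = F.δ := by
  rw [MulAut.mul_apply, hφ, MulAut.conj_apply]
  group

omit h in
private theorem tv4_comm (F : Frame E G) {n : ℕ} {x : S} (hx : x ∈ E.T n) (k : ℤ) :
    Commute (F.g x) (F.δ ^ ((n : ℤ) * k)) := by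
  have h1 : Commute (F.g x) (F.δ ^ (n : ℤ)) := by
    rw [zpow_natCast]
    exact F.mem_Cn.1 (F.g_mem_Cn.2 hx.1)
  rw [zpow_mul]
  exact h1.zpow_right k

omit h in
private theorem tv4_shz (F : Frame E G) {n : ℕ} {x : S} (hx : x ∈ E.T n) (k : ℤ) :
    E.shz ((n : ℤ) * k) x = x := by
  apply F.g_inj
  rw [F.g_shz, mul_assoc, (tv4_comm F hx k).eq, zpow_neg, inv_mul_cancel_left]

/-- `blk_fix` for `b3` gives `j` such that `ψ = conj (δ ^ j) * φ` fixes `g r`; then `rt_a` for `ψ`: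
`y = shz i a` or `y = shz i (K a)` (`exists_shz_or`); multiply by `conj (δ ^ (3 i))`, which fixes
`g r`, and maps `g y` to `g (shz (i - 3 i) a)`, and `2 ∣ i - 3 i`.  In the first case `tv_of`. -/
theorem split_AB {φ : MulAut G} (h1 : φ F.δ = F.δ) :
    ∃ j : ℤ, MulAut.conj (F.δ ^ j) * φ ∈ F.TvG ∨
      ((MulAut.conj (F.δ ^ j) * φ) (F.g r) = F.g r ∧
        ∃ l : ℤ, (MulAut.conj (F.δ ^ j) * φ) (F.g a) = F.g (E.K a) * F.δ ^ (6 * l)) := by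
  obtain ⟨i, hi⟩ := F.blk_fix h.b3 h1
  have hr : F.g r ∈ F.Cn 3 := F.g_mem_Cn.2 h.b3.mem.1
  have e1 : (MulAut.conj (F.δ ^ i) * φ) (F.g r) = F.g r := hi i (by simp) _ hr
  obtain ⟨y, hy, l, hl⟩ := rt_a h (tv4_conj_δ h1 i) e1
  have key : ∀ k : ℤ, (MulAut.conj (F.δ ^ (3 * k + i)) * φ) (F.g a) =
      F.g (E.shz (-(3 * k)) y) * F.δ ^ (6 * l) := by
    intro k
    have e2 : (MulAut.conj (F.δ ^ (3 * k + i)) * φ) (F.g a) =
        F.δ ^ (3 * k) * (MulAut.conj (F.δ ^ i) * φ) (F.g a) * (F.δ ^ (3 * k))⁻¹ := by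
      rw [MulAut.mul_apply, MulAut.mul_apply, MulAut.conj_apply, MulAut.conj_apply, zpow_add]
      group
    have e3 : F.δ ^ (6 * l) * (F.δ ^ (3 * k))⁻¹ = (F.δ ^ (3 * k))⁻¹ * F.δ ^ (6 * l) := by
      rw [← zpow_neg, ← zpow_add, ← zpow_add, add_comm]
    rw [e2, hl, F.g_shz, neg_neg, zpow_neg]
    simp only [mul_assoc]
    rw [e3]
  have e4 : ∀ k : ℤ, (MulAut.conj (F.δ ^ (3 * k + i)) * φ) (F.g r) = F.g r :=
    fun k => hi _ ⟨k, by push_cast; ring⟩ _ hr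
  have e5 : ∀ k : ℤ, -(3 * k) + k = ((2 : ℕ) : ℤ) * (-k) := fun k => by push_cast; ring
  rcases Germ.exists_shz_or h.kt h.a_mem hy with ⟨k, rfl⟩ | ⟨k, rfl⟩
  · refine ⟨3 * k + i, Or.inl (tv_of h (tv4_conj_δ h1 _) (e4 k) (l := l) ?_)⟩
    rw [key, ← E.shz_add, e5, tv4_shz F h.a_mem]
  · refine ⟨3 * k + i, Or.inr ⟨e4 k, l, ?_⟩⟩
    rw [key, ← E.shz_add, e5, E.shz_K, tv4_shz F h.a_mem]

/-- `φ₁ (φ₂ (g a)) = φ₁ (g (K a)) δ ^ (6 l₂)`, where `g (K a) = (g a)⁻¹ δ`, so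
`φ₁ (g (K a)) = δ ^ (-6 l₁) (g (K a))⁻¹ δ = g (τ a) δ ^ (-6 l₁)`.  With `conj (δ ^ 3)` we get
`g a` (`τ ^ (1 - 3) a = a` as `τ ^ 2` fixes `a`), and `tv_of` applies. -/
theorem BB {φ₁ φ₂ : MulAut G} (h1 : φ₁ F.δ = F.δ) (h2 : φ₂ F.δ = F.δ)
    (h3 : φ₁ (F.g r) = F.g r) (h4 : φ₂ (F.g r) = F.g r) {l₁ l₂ : ℤ}
    (h5 : φ₁ (F.g a) = F.g (E.K a) * F.δ ^ (6 * l₁))
    (h6 : φ₂ (F.g a) = F.g (E.K a) * F.δ ^ (6 * l₂)) : φ₁ * φ₂ ∈ F.NN := by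
  have hm : ∀ (u : G) (j : ℤ), Commute u (F.δ ^ (6 * j)) := by
    intro u j
    have h7 : Commute u (F.δ ^ (6 : ℤ)) := by
      have h8 := F.comm_pow_m u
      rw [h.m6] at h8
      exact_mod_cast h8
    rw [zpow_mul]
    exact h7.zpow_right j
  have k1 : F.g (E.K a) = (F.g a)⁻¹ * F.δ := eq_inv_mul_of_mul_eq (F.g_K a)
  have k2 : F.g (E.tau a) = (F.g (E.K a))⁻¹ * F.δ := eq_inv_mul_of_mul_eq (F.g_K (E.K a))
  have k3 : φ₁ (F.g (E.K a)) = F.δ ^ (-(6 * l₁)) * F.g (E.tau a) := by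
    calc φ₁ (F.g (E.K a)) = φ₁ ((F.g a)⁻¹ * F.δ) := by rw [← k1]
      _ = (φ₁ (F.g a))⁻¹ * F.δ := by rw [map_mul, map_inv, h1]
      _ = (F.g (E.K a) * F.δ ^ (6 * l₁))⁻¹ * F.δ := by rw [h5]
      _ = F.δ ^ (-(6 * l₁)) * ((F.g (E.K a))⁻¹ * F.δ) := by
        rw [mul_inv_rev, zpow_neg, mul_assoc]
      _ = F.δ ^ (-(6 * l₁)) * F.g (E.tau a) := by rw [← k2]
  have k4 : (φ₁ * φ₂) (F.g a) = F.g (E.tau a) * F.δ ^ (6 * (l₂ - l₁)) := by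
    have e1 : F.δ ^ (-(6 * l₁)) * F.g (E.tau a) = F.g (E.tau a) * F.δ ^ (-(6 * l₁)) := by
      have e2 : -(6 * l₁) = 6 * -l₁ := by ring
      rw [e2]
      exact (hm (F.g (E.tau a)) (-l₁)).eq.symm
    rw [MulAut.mul_apply, h6, map_mul, F.map_δ_zpow h1, k3, e1, mul_assoc, ← zpow_add]
    congr 2
    ring
  have k5 : (φ₁ * φ₂) F.δ = F.δ := by rw [MulAut.mul_apply, h2, h1]
  have k6 : (φ₁ * φ₂) (F.g r) = F.g r := by rw [MulAut.mul_apply, h4, h3]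
  have c3 : Commute (F.g r) (F.δ ^ (3 : ℤ)) := by simpa using tv4_comm F h.b3.mem 1
  have c2 : Commute (F.g a) (F.δ ^ (2 : ℤ)) := by simpa using tv4_comm F h.a_mem 1
  have k7 : (MulAut.conj (F.δ ^ (3 : ℤ)) * (φ₁ * φ₂)) (F.g r) = F.g r := by
    rw [MulAut.mul_apply, k6, MulAut.conj_apply, ← c3.eq, mul_inv_cancel_right]
  have k8 : (MulAut.conj (F.δ ^ (3 : ℤ)) * (φ₁ * φ₂)) (F.g a) =
      F.g a * F.δ ^ (6 * (l₂ - l₁)) := by
    rw [MulAut.mul_apply, k4, MulAut.conj_apply, F.g_tau]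
    calc F.δ ^ (3 : ℤ) * (F.δ⁻¹ * F.g a * F.δ * F.δ ^ (6 * (l₂ - l₁))) * (F.δ ^ (3 : ℤ))⁻¹ =
        F.δ ^ (2 : ℤ) * F.g a * F.δ ^ (-2 : ℤ) * F.δ ^ (6 * (l₂ - l₁)) := by group
      _ = F.g a * F.δ ^ (2 : ℤ) * F.δ ^ (-2 : ℤ) * F.δ ^ (6 * (l₂ - l₁)) := by rw [c2.eq]
      _ = F.g a * F.δ ^ (6 * (l₂ - l₁)) := by group
  have k9 := tv_of h (tv4_conj_δ k5 3) k7 k8
  refine F.mem_NN.2 ⟨(F.δ ^ (3 : ℤ))⁻¹, _, k9, ?_⟩
  rw [map_inv, inv_mul_cancel_left]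

private theorem κ_zpow_TV5 (y : G) (i : ℤ) : κ (y ^ i) = i * κ y := by
  have h1 := map_zpow (MonoidHom.mk' (fun u => Multiplicative.ofAdd (κ u))
    (fun u v => congrArg Multiplicative.ofAdd (h.κ_mul u v))) y i
  have h2 : Multiplicative.ofAdd (κ (y ^ i)) = Multiplicative.ofAdd (i • κ y) := by
    rw [ofAdd_zsmul]
    exact h1
  have h3 := Multiplicative.ofAdd.injective h2
  rw [h3, smul_eq_mul]

/-- `κ ζ = 0`, and `κ` is invariant under conjugation -/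
theorem κ_NN {φ : MulAut G} (h1 : φ ∈ F.NN) (u : G) : κ (φ u) = κ u := by
  obtain ⟨x, τ, hτ, rfl⟩ := F.mem_NN.1 h1
  obtain ⟨i, hi⟩ := (F.mem_TvG.1 hτ).2 u
  have h2 : κ (F.δ ^ E.m) = 0 := by
    have h3 := κ_zpow_TV5 h F.δ (E.m : ℤ)
    rw [zpow_natCast, h.κ_δ, mul_zero] at h3
    exact h3
  have h4 : κ x⁻¹ = -κ x := by
    have h5 := κ_zpow_TV5 h x (-1)
    rw [zpow_neg_one] at h5
    rw [h5, neg_one_mul]
  rw [MulAut.mul_apply, MulAut.conj_apply, hi, h.κ_mul, h.κ_mul, h.κ_mul, κ_zpow_TV5 h, h2, h4]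
  ring

/-- the reduction of an automorphism which fixes `ζ` -/
private theorem red_TV5 {φ : MulAut G} (h3 : φ (F.δ ^ E.m) = F.δ ^ E.m) :
    ∃ w : G, ∃ ψ : MulAut G, φ = MulAut.conj w * ψ ∧ ψ F.δ = F.δ ∧ (ψ ∈ F.TvG ∨
      (ψ (F.g r) = F.g r ∧ ∃ l : ℤ, ψ (F.g a) = F.g (E.K a) * F.δ ^ (6 * l))) := by
  have h4 : (φ F.δ) ^ E.m = F.δ ^ E.m := by rw [← map_pow, h3]
  obtain ⟨v, hv⟩ := F.toGar.root_conj E.m_pos h4
  have h5 : (MulAut.conj v⁻¹ * φ) F.δ = F.δ := by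
    rw [MulAut.mul_apply, MulAut.conj_apply, inv_inv, mul_assoc, hv, inv_mul_cancel_left]
  obtain ⟨j, hj⟩ := split_AB h h5
  refine ⟨v * (F.δ ^ j)⁻¹, MulAut.conj (F.δ ^ j) * (MulAut.conj v⁻¹ * φ), ?_, ?_, hj⟩
  · rw [map_mul, map_inv, map_inv]
    group
  · rw [MulAut.mul_apply, h5, MulAut.conj_apply, mul_inv_eq_iff_eq_mul]
    group

/-- Let `φ ζ = ζ`.  By `root_conj` (with `y = φ δ`) there is `v` such that `conj v⁻¹ * φ` fixes `δ`;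
`split_AB`.  The same for `θ`; there the first case is impossible by `κ_NN` for `u = g a`, since
`κ (g a) ≠ 0`.  In the second case for both, `ψ θ' ∈ NN` and `θ' θ' ∈ NN` by `BB`, where
`ψ = conj .. * φ`, `θ' = conj .. * θ`; so `ψ θ'⁻¹ ∈ NN` and `φ ∈ NN θ`. -/
theorem NN_or {θ : MulAut G} (h1 : ∀ u, κ (θ u) = -κ u)
    (h2 : θ (F.δ ^ E.m) = F.δ ^ E.m) {φ : MulAut G} (h3 : φ (F.δ ^ E.m) = F.δ ^ E.m) :
    φ ∈ F.NN ∨ φ * θ⁻¹ ∈ F.NN := by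
  obtain ⟨w, ψ, hw, hψ, hA | ⟨hB, l, hl⟩⟩ := red_TV5 h h3
  · exact Or.inl (F.mem_NN.2 ⟨w, ψ, hA, hw⟩)
  obtain ⟨w', θ', hw', hθ', hA | ⟨hB', l', hl'⟩⟩ := red_TV5 h h2
  · exfalso
    have h4 := κ_NN h (F.mem_NN.2 ⟨w', θ', hA, hw'⟩) (F.g a)
    rw [h1] at h4
    exact h.κ_a (by omega)
  · right
    have h5 := BB h hψ hθ' hB hB' hl hl'
    have h6 := BB h hθ' hθ' hB' hB' hl' hl'
    have h7 : φ * θ⁻¹ =
        MulAut.conj w * ((ψ * θ') * (θ' * θ')⁻¹) * (MulAut.conj w')⁻¹ := by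
      rw [hw, hw']
      group
    rw [h7]
    exact F.NN.mul_mem (F.NN.mul_mem (F.conj_mem_NN w) (F.NN.mul_mem h5 (F.NN.inv_mem h6)))
      (F.NN.inv_mem (F.conj_mem_NN w'))

end Pool.Agent.SPH.Frame
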