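import Pool.Agent.SPH.AdChk

/-!
# Project SPH, piece SPH-W: equality of products of simple elements by normal forms
-/

namespace Pool.Agent.SPH

namespace Germ

variable {S : Type*} [Lattice S] [BoundedOrder S] (E : Germ S)

/-- the left weighted form of a product of simple elements -/
noncomputable def nfL (l : List S) : List S := l.foldr E.act []

theorem nfL_nf (l : List S) : E.Nf (E.nfL l) := by
  induction l with
  | nil => exact trivial
  | cons s l ih => exact E.act_nf s ih

private theorem w1_top (k : ℤ) (l : List S) : strip k (⊤ :: l) = strip (k + 1) l := by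
  rw [strip, if_pos rfl]

private theorem w1_ne (k : ℤ) {x : S} (h : x ≠ ⊤) (l : List S) :
    strip k (x :: l) = (k, x :: l) := by
  rw [strip, if_neg h]

/-- a list is determined by its `strip` -/
theorem strip_inj {k : ℤ} {l l' : List S} (h : strip k l = strip k l') : l = l' := by
  induction l generalizing k l' with
  | nil =>
    cases l' with
    | nil => rfl
    | cons y l' =>
      exfalso
      by_cases hy : y = ⊤
      · rw [hy, w1_top] at h
        have h1 := le_strip (k + 1) l'
        rw [← h] at h1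
        have h2 : k + 1 ≤ k := h1
        omega
      · rw [w1_ne k hy] at h
        have h1 : ([] : List S) = y :: l' := congrArg Prod.snd h
        exact List.cons_ne_nil _ _ h1.symm
  | cons x l ih =>
    by_cases hx : x = ⊤
    · rw [hx, w1_top] at h
      have h0 := le_strip (k + 1) l
      cases l' with
      | nil =>
        exfalso
        rw [h] at h0
        have h2 : k + 1 ≤ k := h0
        omega
      | cons y l' =>
        by_cases hy : y = ⊤
        · rw [hy, w1_top] at h
          rw [hx, hy, ih h]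
        · exfalso
          rw [w1_ne k hy] at h
          rw [h] at h0
          have h2 : k + 1 ≤ k := h0
          omega
    · rw [w1_ne k hx] at h
      cases l' with
      | nil =>
        have h1 : x :: l = ([] : List S) := congrArg Prod.snd h
        exact absurd h1 (List.cons_ne_nil _ _)
      | cons y l' =>
        by_cases hy : y = ⊤
        · exfalso
          rw [hy, w1_top] at h
          have h1 := le_strip (k + 1) l'
          rw [← h] at h1
          have h2 : k + 1 ≤ k := h1
          omega
        · rw [w1_ne k hy] at h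
          exact congrArg Prod.snd h

end Germ

namespace Pre

variable {S : Type*} [Lattice S] [BoundedOrder S] {E : Germ S} {G : Type*} [Group G]
  (P : Pre E G)

/-- `act_prod` -/
theorem prod_nfL (l : List S) : ((E.nfL l).map P.g).prod = (l.map P.g).prod := by
  induction l with
  | nil => rfl
  | cons s l ih =>
    have h1 : E.nfL (s :: l) = E.act s (E.nfL l) := rfl
    rw [h1, P.act_prod s (E.nfL_nf l), ih, List.map_cons, List.prod_cons]

/-- induction on the list: `f_g`, the definition of `actX` and `strip_act` -/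
theorem f_prod (l : List S) : (P.f (l.map P.g).prod E.x0).1 = Germ.strip 0 (E.nfL l) := by
  induction l with
  | nil =>
    rw [List.map_nil, List.prod_nil, map_one, Equiv.Perm.one_apply]
    rfl
  | cons s l ih =>
    have h1 : E.nfL (s :: l) = E.act s (E.nfL l) := rfl
    rw [List.map_cons, List.prod_cons, map_mul, Equiv.Perm.mul_apply, P.f_g]
    have h2 : (E.pX s (P.f (l.map P.g).prod E.x0)).1 =
      Germ.strip (P.f (l.map P.g).prod E.x0).1.1
        (E.act (E.shz (P.f (l.map P.g).prod E.x0).1.1 s) (P.f (l.map P.g).prod E.x0).1.2) := rfl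
    rw [h2, ih, E.strip_act 0 s (E.nfL_nf l), E.shz_zero, h1]

theorem prod_eq_iff (l l' : List S) :
    (l.map P.g).prod = (l'.map P.g).prod ↔ E.nfL l = E.nfL l' := by
  constructor
  · intro h
    apply Germ.strip_inj (k := 0)
    rw [← P.f_prod l, ← P.f_prod l', h]
  · intro h
    rw [← P.prod_nfL l, ← P.prod_nfL l', h]

end Pre

namespace TD

variable (D : TD)

/-- `Germ.act` on the numbers -/
def actN : ℕ → List ℕ → List ℕ
  | s, [] => cond (Nat.beq s 0) [] [s]
  | s, x :: l => D.tm s (D.mt (D.K s) x) :: actN (D.q (D.mt (D.K s) x) x) l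

/-- `Germ.nfL` on the numbers -/
def nfN (l : List ℕ) : List ℕ := l.foldr D.actN []

/-- equality of lists -/
def eqL : List ℕ → List ℕ → Bool
  | [], [] => true
  | x :: l, y :: l' => an (Nat.beq x y) (eqL l l')
  | _, _ => false

theorem eqL_iff {l l' : List ℕ} : eqL l l' = true ↔ l = l' := by
  induction l generalizing l' with
  | nil =>
    cases l' with
    | nil => simp [eqL]
    | cons b l' => simp [eqL]
  | cons a l ih =>
    cases l' with
    | nil => simp [eqL]
    | cons b l' =>
      rw [eqL]
      constructor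
      · intro h
        obtain ⟨h1, h2⟩ := an_spec h
        rw [Nat.eq_of_beq_eq_true h1, ih.1 h2]
      · intro h
        injection h with h1 h2
        subst h1
        subst h2
        rw [Nat.beq_refl, ih.2 rfl]
        rfl

/-- two words in the simple elements have the same value -/
def wc (l l' : List ℕ) : Bool := an (allL l fun i => Nat.blt i D.N)
  (an (allL l' fun i => Nat.blt i D.N) (eqL (D.nfN l) (D.nfN l')))

/-- two words in the simple elements have different values -/
def wn (l l' : List ℕ) : Bool := an (allL l fun i => Nat.blt i D.N)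
  (an (allL l' fun i => Nat.blt i D.N) (cond (eqL (D.nfN l) (D.nfN l')) false true))

variable {D} {h : D.Ok}

theorem act_i (s : El h) (l : List (El h)) :
    ((El.germ h).act s l).map El.i = D.actN s.i (l.map El.i) := by
  induction l generalizing s with
  | nil =>
    by_cases h0 : s = ⊥
    · subst h0
      simp [Germ.act, actN, El.bot_i]
    · have h1 : s.i ≠ 0 := fun e => h0 (El.ext' e)
      have h2 : Nat.beq s.i 0 = false := by
        rw [← Bool.not_eq_true]
        exact fun h' => h1 (Nat.eq_of_beq_eq_true h')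
      simp [Germ.act, actN, h0, h2]
  | cons x l ih =>
    rw [Germ.act, List.map_cons, ih, List.map_cons, actN]
    have e1 : ((El.germ h).hd s x).i = D.tm s.i (D.mt (D.K s.i) x.i) := by
      unfold Germ.hd
      rw [El.mul_i inf_le_left, El.inf_i, El.K_i]
    have e2 : ((El.germ h).tl s x).i = D.q (D.mt (D.K s.i) x.i) x.i := by
      unfold Germ.tl
      rw [El.q_i inf_le_right, El.inf_i, El.K_i]
    rw [e1, e2]

theorem nfL_i (l : List (El h)) : ((El.germ h).nfL l).map El.i = D.nfN (l.map El.i) := by
  induction l with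
  | nil => rfl
  | cons x l ih =>
    change ((El.germ h).act x ((El.germ h).nfL l)).map El.i = D.actN x.i (D.nfN (l.map El.i))
    rw [act_i, ih]

open Classical in
/-- the simple element with a given number -/
noncomputable def gN {G : Type*} [Group G] (P : Pre (El.germ h) G) (i : ℕ) : G :=
  if hi : i < D.N then P.g ⟨i, hi⟩ else 1

private theorem w2_lift {l : List ℕ} (hl : allL l (fun i => Nat.blt i D.N) = true) :
    ∃ L : List (El h), L.map El.i = l := by
  have h1 : ∀ i ∈ l, i < D.N := fun i hi => Nat.le_of_ble_eq_true (allL_spec hl i hi)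
  clear hl
  induction l with
  | nil => exact ⟨[], rfl⟩
  | cons a l ih =>
    obtain ⟨L, hL⟩ := ih fun i hi => h1 i (List.mem_cons_of_mem _ hi)
    exact ⟨⟨a, h1 a List.mem_cons_self⟩ :: L, by rw [List.map_cons, hL]⟩

private theorem w2_map {G : Type*} [Group G] (P : Pre (El.germ h) G) (L : List (El h)) :
    (L.map El.i).map (gN P) = L.map P.g := by
  rw [List.map_map]
  refine List.map_congr_left fun x _ => ?_
  change gN P x.i = P.g x
  unfold gN
  rw [dif_pos x.lt]

private theorem w2_inj {L L' : List (El h)} (e : L.map El.i = L'.map El.i) : L = L' :=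
  List.map_injective_iff.2 (fun _ _ e => El.ext' e) e

theorem wc_sound {G : Type*} [Group G] (P : Pre (El.germ h) G) {l l' : List ℕ}
    (hc : D.wc l l' = true) : (l.map (gN P)).prod = (l'.map (gN P)).prod := by
  obtain ⟨h1, h2⟩ := an_spec hc
  obtain ⟨h3, h4⟩ := an_spec h2
  obtain ⟨L, rfl⟩ := w2_lift (h := h) h1
  obtain ⟨L', rfl⟩ := w2_lift (h := h) h3
  rw [w2_map, w2_map]
  rw [eqL_iff, ← nfL_i, ← nfL_i] at h4
  exact (P.prod_eq_iff L L').2 (w2_inj h4)

theorem wn_sound {G : Type*} [Group G] (P : Pre (El.germ h) G) {l l' : List ℕ}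
    (hc : D.wn l l' = true) : (l.map (gN P)).prod ≠ (l'.map (gN P)).prod := by
  obtain ⟨h1, h2⟩ := an_spec hc
  obtain ⟨h3, h4⟩ := an_spec h2
  obtain ⟨L, rfl⟩ := w2_lift (h := h) h1
  obtain ⟨L', rfl⟩ := w2_lift (h := h) h3
  rw [w2_map, w2_map]
  intro e
  have h5 := congrArg (List.map El.i) ((P.prod_eq_iff L L').1 e)
  rw [nfL_i, nfL_i] at h5
  rw [eqL_iff.2 h5] at h4
  exact absurd h4 (by simp)

end TD

namespace AD

open Pool.Agent.Helper7.AG

variable {A : AD} (h : A.Ok)

/-- `pp_rel` for the elements `P.g` -/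
theorem g_rel {G : Type*} [Group G] (P : Pre (EE h) G) {t u : ℕ} (h1 : t < 256) (h2 : u < 256)
    (h3 : CD.bit A.R1 (CD.pc t u) = true) :
    TD.gN P t * TD.gN P u = TD.gN P u * TD.gN P (A.d t u) := by
  obtain ⟨⟨_, ht⟩, ⟨_, hu⟩, hle⟩ := h.of_R1 t u h1 h2 h3
  have htN : t < A.D.N := lt_of_le_of_lt ht h.T_N
  have huN : u < A.D.N := lt_of_le_of_lt hu h.T_N
  obtain ⟨s, hs⟩ : ∃ s : SS h, s.i = t := ⟨⟨t, htN⟩, rfl⟩
  obtain ⟨v, hv⟩ : ∃ v : SS h, v.i = u := ⟨⟨u, huN⟩, rfl⟩
  have hpp : ∀ w : SS h, TD.gN P w.i = P.g w := by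
    intro w
    unfold TD.gN
    rw [dif_pos w.lt]
  subst hs
  subst hv
  have e1 : v ≤ (EE h).K s := by
    rw [TD.El.le_def, TD.El.K_i]
    exact hle
  obtain ⟨x, hx⟩ : ∃ x, x = (EE h).mul s v := ⟨_, rfl⟩
  have e2 : v ≤ x := by
    rw [← anti_iff h, hx, (EE h).K_mul e1]
    exact (EE h).q_le_K e1
  have e3 : A.d s.i v.i = ((EE h).q v x).i := by
    rw [d, TD.El.q_i e2, hx, TD.El.mul_i e1]
  have e4 : P.g s * P.g v = P.g x := by
    have e5 := P.g_mul ((EE h).le_mul e1)
    rw [(EE h).q_mul e1] at e5
    rw [hx]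
    exact e5
  rw [e3, hpp, hpp, hpp, e4, P.g_mul e2]

/-- `CD.run_unique` for `F ∘ gN P` and `Y` -/
theorem hom_atoms (P : Pre (EE h) (Artin A.M))
    (hP : ∀ (k : Fin A.n) (x : SS h), x.i = A.gi k → P.g x = PresentedGroup.of k)
    {G : Type*} [Group G] (F : Artin A.M →* G) (Y : ℕ → G)
    (hY : ∀ t u, t < 256 → u < 256 → CD.bit A.R1 (CD.pc t u) = true →
      Y t * Y u = Y u * Y (A.d t u))
    (h0 : ∀ k, F (PresentedGroup.of k) = Y (A.gi k)) {t : ℕ} (h1 : 1 ≤ t) (h2 : t ≤ A.T) :
    F (TD.gN P t) = Y t := by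
  refine CD.run_unique (X := fun i => F (TD.gN P i)) (Y := Y) h.run ?_ hY ?_ t (h.A1_of t h1 h2)
  · intro a b ha hb hab
    show F (TD.gN P a) * F (TD.gN P b) = F (TD.gN P b) * F (TD.gN P (A.d a b))
    rw [← map_mul, ← map_mul, g_rel h P ha hb hab]
  · intro i hi
    rw [h.A0_eq, CD.bit_mk, List.mem_ofFn] at hi
    obtain ⟨k, rfl⟩ := hi
    show F (TD.gN P (A.gi k)) = Y (A.gi k)
    have hlt : A.gi k < A.D.N := lt_of_le_of_lt (h.gi_atom k).2 h.T_N
    have e : TD.gN P (A.gi k) = PresentedGroup.of k := by
      unfold TD.gN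
      rw [dif_pos hlt]
      exact hP k _ rfl
    rw [e, h0 k]

end AD

end Pool.Agent.SPH
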