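import Pool.Agent.SPH.Uni
import Pool.Agent.SPH.F4.Fin

/-!
# Project SPH: the statement for the type `F4`
-/

namespace Pool.Agent.SPH

open Pool.Agent.Helper7.AG (Artin)
open Pool.Agent.HT

/-- Aut and Out of the Artin group of type `F4` with the generators `s0, s1, s2, s3`
(`m(0,1) = m(2,3) = 3`, `m(1,2) = 4`) and `z = (s0 s1 s2 s3) ^ 6`: there are automorphisms `T`
(`s0 ↦ s0 z`, `s1 ↦ s1 z`, `s2 ↦ s2 z⁻¹`, `s3 ↦ s3 z⁻¹`), `θ` (`si ↦ s(3-i)`) and `ε`
(`si ↦ si⁻¹`) with `θ² = ε² = 1`, `θ T θ = T⁻¹`, and `ε` commutes with `T` and `θ`; every automorphism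
is `conj x T^k θ^u ε^v` with unique `k`, `u`, `v` and `x` unique up to the powers of `z`, which
form the center; Out is the product of the infinite dihedral group generated by the classes of
`T` and `θ` and of the group of order two generated by the class of `ε`; the extension splits -/
def F4Desc : Prop :=
  ∃ T θ ε : MulAut (Artin CoxeterMatrix.F₄),
    (∀ i : Fin 4, T (PresentedGroup.of i) = PresentedGroup.of i *
      (coxEl CoxeterMatrix.F₄ ^ 6) ^ (if i.val ≤ 1 then (1 : ℤ) else -1)) ∧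
    (∀ i : Fin 4, θ (PresentedGroup.of i) = PresentedGroup.of (Fin.rev i)) ∧
    InvertsGens CoxeterMatrix.F₄ ε ∧ Rel4 T θ ε ∧
    FormMod4 T θ ε (coxEl CoxeterMatrix.F₄ ^ 6) ∧
    Subgroup.center (Artin CoxeterMatrix.F₄) = Subgroup.zpowers (coxEl CoxeterMatrix.F₄ ^ 6) ∧
    OutD T θ ε ∧ Splits (Artin CoxeterMatrix.F₄)

theorem desc_F4 : F4Desc := by
  have hz : coxEl CoxeterMatrix.F₄ = F4.gd := by
    simp [coxEl, List.ofFn_succ, F4.gd, F4.gs, mul_assoc]
  obtain ⟨T, θ, ε, h0, h1, h2, h3, hθ, hε, hR, hF, hc, ho, hs⟩ := F4.main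
  refine ⟨T, θ, ε, ?_, hθ, hε, hR, ?_, ?_, ho, hs⟩
  · rw [hz]
    intro i
    fin_cases i
    · simpa [F4.gs] using h0
    · simpa [F4.gs] using h1
    · simpa [F4.gs] using h2
    · simpa [F4.gs] using h3
  · rw [hz]
    exact hF
  · rw [hz]
    exact hc

end Pool.Agent.SPH
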