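import Pool.Agent.SPH.Art2

/-!
# Project SPH, piece SPH-AC: Boolean versions of the checks `AD.Ok`
-/

namespace Pool.Agent.SPH

/-- `p i` for some `i` in a list -/
def exL (l : List ℕ) (p : ℕ → Bool) : Bool :=
  List.rec false (fun i _ r => cond (p i) true r) l

theorem exL_spec {l : List ℕ} {p : ℕ → Bool} (h : exL l p = true) : ∃ i ∈ l, p i = true := by
  induction l with
  | nil => exact absurd h (by simp [exL])
  | cons a l ih =>
    have h' : cond (p a) true (exL l p) = true := h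
    cases hp : p a with
    | true => exact ⟨a, List.mem_cons_self, hp⟩
    | false =>
      rw [hp] at h'
      obtain ⟨i, hi, h2⟩ := ih h'
      exact ⟨i, List.mem_cons_of_mem _ hi, h2⟩

theorem mem_upB_iff {n : ℕ} {p : ℕ → Bool} {i : ℕ} : i ∈ upB n p ↔ i < n ∧ p i = true := by
  refine ⟨fun h => ?_, fun h => mem_upB h.1 h.2⟩
  induction n with
  | zero => exact absurd h (by simp [upB])
  | succ n ih =>
    have h' : i ∈ cond (p n) (n :: upB n p) (upB n p) := h
    cases hp : p n with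
    | true =>
      rw [hp] at h'
      rcases List.mem_cons.1 h' with h1 | h1
      · subst h1
        exact ⟨Nat.lt_succ_self _, hp⟩
      · have h2 := ih h1
        exact ⟨by omega, h2.2⟩
    | false =>
      rw [hp] at h'
      have h2 := ih h'
      exact ⟨by omega, h2.2⟩

/-- the row `t` of the mask of pairs -/
def CD.rw (R t : ℕ) : ℕ := Nat.mod (Nat.shiftRight R (256 * t)) (2 ^ 256)

/-- `Nat.testBit_mod_two_pow` or similar -/
theorem CD.bit_rw {R t u : ℕ} (h : u < 256) : CD.bit (CD.rw R t) u = CD.bit R (CD.pc t u) := by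
  have hbt : ∀ a k : ℕ, CD.bit a k = a.testBit k := by
    intro a k
    rw [Nat.testBit_eq_decide_div_mod_eq]
    show Nat.beq ((a >>> k) % 2) 1 = _
    rw [Nat.shiftRight_eq_div_pow]
    cases hd : Nat.beq (a / 2 ^ k % 2) 1 with
    | true => exact (decide_eq_true (Nat.eq_of_beq_eq_true hd)).symm
    | false => exact (decide_eq_false (Nat.ne_of_beq_eq_false hd)).symm
  rw [hbt, hbt]
  show ((R >>> (256 * t)) % 2 ^ 256).testBit u = R.testBit (256 * t + u)
  rw [Nat.testBit_mod_two_pow, Nat.testBit_shiftRight, decide_eq_true h, Bool.true_and]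

/-- some iterate `f^[k] t`, `k < n`, is `u` -/
def itx (f : ℕ → ℕ) (n t u : ℕ) : Bool :=
  Nat.rec (fun _ => false) (fun _ r s => cond (Nat.beq s u) true (r (f s))) n t

theorem itx_spec {f : ℕ → ℕ} {n t u : ℕ} (h : itx f n t u = true) : ∃ k, f^[k] t = u := by
  induction n generalizing t with
  | zero => exact absurd h (by simp [itx])
  | succ n ih =>
    have h' : cond (Nat.beq t u) true (itx f n (f t) u) = true := h
    cases hp : Nat.beq t u with
    | true => exact ⟨0, Nat.eq_of_beq_eq_true hp⟩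
    | false =>
      rw [hp] at h'
      obtain ⟨k, hk⟩ := ih h'
      exact ⟨k + 1, hk⟩

namespace AD

variable (A : AD)

/-- the atoms below `x` -/
def bel (x : ℕ) : List ℕ := upB (A.T + 1) fun t => an (Nat.ble 1 t) (A.D.le t x)

/-- the atoms -/
def chkP : Bool := allB A.D.N fun i => cond (Nat.beq (A.D.rk i) 1)
  (an (Nat.ble 1 i) (Nat.ble i A.T)) (cond (Nat.ble 1 i) (Nat.blt A.T i) true)

/-- the masks contain the atoms and the pairs -/
def chkQ : Bool := allB (A.T + 1) fun t => cond (Nat.ble 1 t)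
  (an (CD.bit A.A1 t) (allB (A.T + 1) fun u => cond (Nat.ble 1 u)
    (cond (A.D.le u (A.D.K t)) (CD.bit (CD.rw A.R1 t) u) true) true)) true

/-- the mask of pairs contains only the pairs -/
def chkR : Bool := allB 256 fun t => cond (Nat.beq (CD.rw A.R1 t) 0) true
  (an (Nat.ble 1 t) (an (Nat.ble t A.T) (allB 256 fun u => cond (CD.bit (CD.rw A.R1 t) u)
    (an (Nat.ble 1 u) (an (Nat.ble u A.T) (A.D.le u (A.D.K t)))) true)))

/-- there is an atom below `x`, and the atoms below `x` are connected -/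
def chkU (x : ℕ) : Bool :=
  an (cond (Nat.beq x 0) true (exL (A.bel x) fun _ => true))
    (allL (A.bel x) fun t => cond (allL (A.bel x) fun t' => Nat.ble t t') true
      (exL (A.bel x) fun t' => an (Nat.blt t' t) (Nat.beq (A.D.rk (A.D.jn t t')) 2)))

/-- the cycles of the elements of rank two -/
def chkV (x : ℕ) : Bool := cond (Nat.beq (A.D.rk x) 2)
  (allL (A.bel x) fun t => allL (A.bel x) fun u => itx (fun s => A.D.q s x) 6 t u) true

/-- the checks -/
structure Chk (A : AD) : Prop where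
  ok : A.D.Ok
  T_lt : A.T < 256
  T_N : A.T < A.D.N
  P : A.chkP = true
  gi_atom : ∀ k, 1 ≤ A.gi k ∧ A.gi k ≤ A.T
  gi_inj : Function.Injective A.gi
  A0_eq : A.A0 = CD.mk (List.ofFn A.gi)
  cox_eq : ∀ a b, A.cox (A.gi a) (A.gi b) = A.M a b
  M_bd : ∀ a b, a ≠ b → 2 ≤ A.M a b ∧ A.M a b ≤ 5
  run : CD.run A.d A.cox A.A0 A.A1 A.R1 A.l A.A0 0 = true
  Q : A.chkQ = true
  R : A.chkR = true
  brc : ∀ a b, a ≠ b → CD.brc A.d A.R1 (A.M a b) (A.gi a) (A.gi b) = true ∨
    CD.brc A.d A.R1 (A.M b a) (A.gi b) (A.gi a) = true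
  U : ∀ x < A.D.N, A.chkU x = true
  V : ∀ x < A.D.N, A.chkV x = true

private theorem ac2_le {a b : ℕ} (h : Nat.ble a b = true) : a ≤ b := Nat.le_of_ble_eq_true h

private theorem ac2_lt {a b : ℕ} (h : Nat.blt a b = true) : a < b := Nat.le_of_ble_eq_true h

private theorem ac2_eq {a b : ℕ} (h : Nat.beq a b = true) : a = b := Nat.eq_of_beq_eq_true h

private theorem ac2_beq {a b : ℕ} (h : a = b) : Nat.beq a b = true := by
  subst h
  exact Nat.beq_refl a

private theorem ac2_ble {a b : ℕ} (h : a ≤ b) : Nat.ble a b = true := Nat.ble_eq_true_of_le h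

private theorem ac2_cond {a b : Bool} (h : cond a b true = true) (ha : a = true) : b = true := by
  subst ha
  exact h

private theorem ac2_mem {A : AD} {x t : ℕ} :
    t ∈ A.bel x ↔ 1 ≤ t ∧ t ≤ A.T ∧ A.D.le t x = true := by
  unfold bel
  rw [mem_upB_iff]
  constructor
  · rintro ⟨h1, h2⟩
    obtain ⟨h3, h4⟩ := an_spec h2
    exact ⟨ac2_le h3, by omega, h4⟩
  · rintro ⟨h1, h2, h3⟩
    refine ⟨by omega, ?_⟩
    rw [h3, ac2_ble h1]
    rfl

/-- direct translations -/
theorem Chk.toOk {A : AD} (h : A.Chk) : A.Ok := by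
  refine
    { ok := h.ok, T_lt := h.T_lt, T_N := h.T_N, atom := ?_, gi_atom := h.gi_atom,
      gi_inj := h.gi_inj, A0_eq := h.A0_eq, cox_eq := h.cox_eq, M_bd := h.M_bd, run := h.run,
      A1_of := ?_, R1_of := ?_, of_R1 := ?_, brc := h.brc, ex := ?_, conn := ?_, rk2 := ?_ }
  · intro i hi
    have h1 : cond (Nat.beq (A.D.rk i) 1) (an (Nat.ble 1 i) (Nat.ble i A.T))
      (cond (Nat.ble 1 i) (Nat.blt A.T i) true) = true := allB_spec h.P i hi
    constructor
    · intro e
      rw [ac2_beq e] at h1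
      obtain ⟨h2, h3⟩ := an_spec h1
      exact ⟨ac2_le h2, ac2_le h3⟩
    · rintro ⟨h2, h3⟩
      by_contra hne
      have h4 : Nat.beq (A.D.rk i) 1 = false := by
        rw [← Bool.not_eq_true]
        exact fun h' => hne (ac2_eq h')
      rw [h4, ac2_ble h2] at h1
      have h5 := ac2_lt (show Nat.blt A.T i = true from h1)
      omega
  · intro t h1 h2
    have h3 := allB_spec h.Q t (by omega)
    exact (an_spec (ac2_cond h3 (ac2_ble h1))).1
  · intro t u h1 h2 h3 h4 h5
    have h6 := allB_spec h.Q t (by omega)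
    have h7 := allB_spec (an_spec (ac2_cond h6 (ac2_ble h1))).2 u (by omega)
    have h8 := ac2_cond (ac2_cond h7 (ac2_ble h3)) h5
    have h9 := h.T_lt
    rwa [CD.bit_rw (by omega)] at h8
  · intro t u ht hu hb
    have h1 : cond (Nat.beq (CD.rw A.R1 t) 0) true
      (an (Nat.ble 1 t) (an (Nat.ble t A.T) (allB 256 fun u => cond (CD.bit (CD.rw A.R1 t) u)
      (an (Nat.ble 1 u) (an (Nat.ble u A.T) (A.D.le u (A.D.K t)))) true))) = true :=
      allB_spec h.R t ht
    rw [← CD.bit_rw hu] at hb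
    have h2 : Nat.beq (CD.rw A.R1 t) 0 = false := by
      rw [← Bool.not_eq_true]
      intro h'
      rw [ac2_eq h', CD.bit_zero] at hb
      exact absurd hb (by simp)
    rw [h2] at h1
    obtain ⟨h3, h4⟩ := an_spec h1
    obtain ⟨h5, h6⟩ := an_spec h4
    obtain ⟨h7, h8⟩ := an_spec (ac2_cond (allB_spec h6 u hu) hb)
    obtain ⟨h9, h10⟩ := an_spec h8
    exact ⟨⟨ac2_le h3, ac2_le h5⟩, ⟨ac2_le h7, ac2_le h9⟩, h10⟩
  · intro x hx hx0
    have h1 := (an_spec (h.U x hx)).1
    have h2 : Nat.beq x 0 = false := by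
      rw [← Bool.not_eq_true]
      exact fun h' => hx0 (ac2_eq h')
    rw [h2] at h1
    obtain ⟨t, ht, -⟩ := exL_spec h1
    exact ⟨t, ac2_mem.1 ht⟩
  · intro x hx t h1 h2 h3
    have h4 := allL_spec (an_spec (h.U x hx)).2 t (ac2_mem.2 ⟨h1, h2, h3⟩)
    cases hc : allL (A.bel x) fun t' => Nat.ble t t' with
    | true =>
      left
      intro t' h5 h6
      rw [← Bool.not_eq_true]
      intro h7
      have h8 := ac2_le (allL_spec hc t' (ac2_mem.2 ⟨h5, by omega, h7⟩))
      omega
    | false =>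
      right
      have h5 : cond (allL (A.bel x) fun t' => Nat.ble t t') true
        (exL (A.bel x) fun t' => an (Nat.blt t' t) (Nat.beq (A.D.rk (A.D.jn t t')) 2)) = true := h4
      rw [hc] at h5
      obtain ⟨t', h6, h7⟩ := exL_spec h5
      obtain ⟨h8, h9, h10⟩ := ac2_mem.1 h6
      obtain ⟨h11, h12⟩ := an_spec h7
      exact ⟨t', h8, ac2_lt h11, h10, ac2_eq h12⟩
  · intro x hx hr t h1 h2 h3 u h4 h5 h6
    have h7 := allL_spec (allL_spec (ac2_cond (h.V x hx) (ac2_beq hr)) t
      (ac2_mem.2 ⟨h1, h2, h3⟩)) u (ac2_mem.2 ⟨h4, h5, h6⟩)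
    exact itx_spec h7

end AD

end Pool.Agent.SPH
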