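import Pool.Agent.SPH.Chk

/-!
# Project SPH: packed tables

`Tr` is a binary tree of natural numbers, indexed by the binary digits (the last digit first);
`ent w r j` is the entry `j` of a row `r` of numbers with `w` binary digits.
-/

namespace Pool.Agent.SPH

/-- binary trees of natural numbers -/
inductive Tr
  | lf (a : ℕ)
  | nd (l r : Tr)

/-- the entry of a tree -/
noncomputable def Tr.get (t : Tr) : ℕ → ℕ :=
  Tr.rec (fun a _ => a)
    (fun _ _ gl gr i => cond (Nat.beq (Nat.mod i 2) 0) (gl (Nat.div i 2)) (gr (Nat.div i 2))) t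

/-- the entry `j` of a row -/
def ent (w r j : ℕ) : ℕ := Nat.mod (Nat.shiftRight r (Nat.mul w j)) (Nat.pow 2 w)

end Pool.Agent.SPH
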