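import Pool.Agent.SPH.Germ2

/-!
# Project SPH, piece SPH-G: from the rank two relations to all relations of the germ

The elements of rank one are the atoms.  Suppose that `ga t`, `t` an atom, are elements of a group
such that `ga t * ga (q t x) = ga u * ga (q u x)` for all `x` of rank two and atoms `t`, `u`
below `x`.  If below every `x` any two atoms are joined by a chain of atoms in which neighbours have
a join of rank two, then `ga` extends to a map `g` of all simple elements with
`g x * g (q x y) = g y`.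
-/

namespace Pool.Agent.SPH

variable {S : Type*} [Lattice S] [BoundedOrder S]

/-- the input -/
structure Glu (E : Germ S) (G : Type*) [Group G] where
  /-- the atoms -/
  ga : S → G
  ex : ∀ x : S, x ≠ ⊥ → ∃ t ≤ x, E.rk t = 1
  conn : ∀ x t u : S, t ≤ x → u ≤ x → E.rk t = 1 → E.rk u = 1 →
    Relation.ReflTransGen (fun a b => a ≤ x ∧ b ≤ x ∧ E.rk a = 1 ∧ E.rk b = 1 ∧
      E.rk (a ⊔ b) = 2) t u
  rel : ∀ x t u : S, E.rk x = 2 → t ≤ x → u ≤ x → E.rk t = 1 → E.rk u = 1 →
    ga t * ga (E.q t x) = ga u * ga (E.q u x)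

namespace Glu

variable {E : Germ S} {G : Type*} [Group G] (P : Glu E G)

open Classical in
/-- `g` for the elements of rank at most `n`: `1` for `⊥`, and `ga t * g (q t x)` with a chosen
atom `t` below `x` -/
noncomputable def gn (P : Glu E G) : ℕ → S → G
  | 0, _ => 1
  | n + 1, x => if h : x ≠ ⊥ then
      P.ga (P.ex x h).choose * gn P n (E.q (P.ex x h).choose x) else 1

/-- the extension -/
noncomputable def g (x : S) : G := P.gn (E.rk x) x

theorem g_bot : P.g ⊥ = 1 := by
  unfold g
  rw [E.rk_bot, gn]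

private lemma rk_q_atom {t x : S} (h : t ≤ x) (h1 : E.rk t = 1) {n : ℕ} (hn : E.rk x = n + 1) :
    E.rk (E.q t x) = n := by
  have := E.rk_q h
  omega

private lemma g_unf {x : S} (h : x ≠ ⊥) : ∃ t, t ≤ x ∧ E.rk t = 1 ∧
    P.g x = P.ga t * P.g (E.q t x) := by
  obtain ⟨h1, h2⟩ := (P.ex x h).choose_spec
  refine ⟨_, h1, h2, ?_⟩
  obtain ⟨n, hn⟩ : ∃ n, E.rk x = n + 1 := ⟨E.rk x - 1, by have := E.rk_pos h; omega⟩
  unfold g
  rw [rk_q_atom h1 h2 hn, hn, gn, dif_pos h]

private lemma g_atom_aux (n : ℕ) : ∀ x : S, E.rk x = n → ∀ t, t ≤ x → E.rk t = 1 →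
    P.ga t * P.g (E.q t x) = P.g x := by
  induction n with
  | zero =>
    intro x hx t h h1
    have := E.rk_le h
    omega
  | succ n ih =>
    intro x hx t h h1
    have hne : x ≠ ⊥ := by
      rintro rfl
      rw [E.rk_bot] at hx
      omega
    obtain ⟨u, hu, hu1, hu2⟩ := P.g_unf hne
    rw [hu2]
    have step : ∀ a b : S, a ≤ x → b ≤ x → E.rk a = 1 → E.rk b = 1 → E.rk (a ⊔ b) = 2 →
        P.ga a * P.g (E.q a x) = P.ga b * P.g (E.q b x) := by
      intro a b ha hb ha1 hb1 h2
      have hw : a ⊔ b ≤ x := sup_le ha hb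
      have e : ∀ c : S, c ≤ x → E.rk c = 1 → c ≤ a ⊔ b →
          P.g (E.q c x) = P.ga (E.q c (a ⊔ b)) * P.g (E.q (a ⊔ b) x) := by
        intro c hc hc1 hcw
        rw [← ih (E.q c x) (rk_q_atom hc hc1 hx) (E.q c (a ⊔ b)) (E.q_mono hcw hw)
          (rk_q_atom hcw hc1 h2), E.q_q hcw hw]
      rw [e a ha ha1 le_sup_left, e b hb hb1 le_sup_right, ← mul_assoc, ← mul_assoc,
        P.rel (a ⊔ b) a b h2 le_sup_left le_sup_right ha1 hb1]
    have hc := P.conn x t u h hu h1 hu1
    clear hu2 hu hu1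
    induction hc with
    | refl => rfl
    | tail _ hab ihc =>
      obtain ⟨ha, hb, ha1, hb1, h2⟩ := hab
      exact ihc.trans (step _ _ ha hb ha1 hb1 h2)

/-- Induction on the rank of `x`.  Let `t`, `u` be atoms below `x` with `w = t ⊔ u` of rank two.
Then `q t w` is an atom below `q t x`, `q (q t w) (q t x) = q w x`, so by induction
`g (q t x) = ga (q t w) * g (q w x)`, and similarly for `u`; so
`ga t * g (q t x) = ga t * ga (q t w) * g (q w x) = ga u * g (q u x)` by `rel`.  With `conn` this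
holds for all atoms `t`, `u` below `x`, and for the chosen one it is `g x`. -/
theorem g_atom {t x : S} (h : t ≤ x) (h1 : E.rk t = 1) : P.ga t * P.g (E.q t x) = P.g x :=
  g_atom_aux P _ x rfl t h h1

/-- `g_atom` for `x = t`: `q t t = ⊥` -/
theorem g_eq {t : S} (h1 : E.rk t = 1) : P.g t = P.ga t := by
  rw [← P.g_atom le_rfl h1, E.q_self, g_bot, mul_one]

private lemma g_mul_aux (n : ℕ) : ∀ x y : S, E.rk x = n → x ≤ y →
    P.g x * P.g (E.q x y) = P.g y := by
  induction n with
  | zero =>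
    intro x y hx _
    have hb : x = ⊥ := by
      by_contra hne
      have := E.rk_pos hne
      omega
    rw [hb, g_bot, one_mul, E.q_bot]
  | succ n ih =>
    intro x y hx h
    have hne : x ≠ ⊥ := by
      rintro rfl
      rw [E.rk_bot] at hx
      omega
    obtain ⟨t, ht, h1, h2⟩ := P.g_unf hne
    have h3 := ih (E.q t x) (E.q t y) (rk_q_atom ht h1 hx) (E.q_mono ht h)
    rw [E.q_q ht h] at h3
    rw [h2, mul_assoc, h3, P.g_atom (ht.trans h) h1]

private lemma g_mem_aux (K : Subgroup G) (h : ∀ t : S, E.rk t = 1 → P.ga t ∈ K) (n : ℕ) :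
    ∀ x : S, E.rk x = n → P.g x ∈ K := by
  induction n with
  | zero =>
    intro x hx
    have hb : x = ⊥ := by
      by_contra hne
      have := E.rk_pos hne
      omega
    rw [hb, g_bot]
    exact K.one_mem
  | succ n ih =>
    intro x hx
    have hne : x ≠ ⊥ := by
      rintro rfl
      rw [E.rk_bot] at hx
      omega
    obtain ⟨t, ht, h1, h2⟩ := P.g_unf hne
    rw [h2]
    exact K.mul_mem (h t h1) (ih _ (rk_q_atom ht h1 hx))

/-- Induction on the rank of `x`: for `x ≠ ⊥` take an atom `t ≤ x`; then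
`g x * g (q x y) = ga t * g (q t x) * g (q (q t x) (q t y)) = ga t * g (q t y) = g y`. -/
theorem g_mul {x y : S} (h : x ≤ y) : P.g x * P.g (E.q x y) = P.g y :=
  g_mul_aux P _ x y rfl h

/-- `g_atom` and induction on the rank -/
theorem g_mem (K : Subgroup G) (h : ∀ t : S, E.rk t = 1 → P.ga t ∈ K) (x : S) : P.g x ∈ K :=
  g_mem_aux P K h _ x rfl

end Glu

end Pool.Agent.SPH
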