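import Pool.Agent.SPH.Pre1

/-!
# Project SPH, pieces SPH-C3, SPH-C4: joins, meets, and the frame
-/

namespace Pool.Agent.SPH.Pre

variable {S : Type*} [Lattice S] [BoundedOrder S] {E : Germ S} {G : Type*} [Group G]
  (P : Pre E G)

theorem le_refl' (u : G) : P.Le u u := by
  show u⁻¹ * u ∈ P.PP
  rw [inv_mul_cancel]
  exact P.PP.one_mem

theorem le_trans' {u v w : G} (h1 : P.Le u v) (h2 : P.Le v w) : P.Le u w := by
  have h3 : u⁻¹ * v * (v⁻¹ * w) ∈ P.PP := P.PP.mul_mem h1 h2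
  have e : u⁻¹ * v * (v⁻¹ * w) = u⁻¹ * w := by group
  rw [e] at h3
  exact h3

theorem le_antisymm' {u v : G} (h1 : P.Le u v) (h2 : P.Le v u) : u = v := by
  have h3 : 0 ≤ P.ln (u⁻¹ * v) := P.ln_nonneg h1
  have h4 : 0 ≤ P.ln (v⁻¹ * u) := P.ln_nonneg h2
  have h5 := P.ln_mul (u⁻¹ * v) (v⁻¹ * u)
  have e : u⁻¹ * v * (v⁻¹ * u) = 1 := by group
  have h6 := P.ln_mul 1 1
  rw [mul_one] at h6
  rw [e] at h5
  have h7 : u⁻¹ * v = 1 := P.eq_one_of_ln h1 (by omega)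
  exact inv_mul_eq_one.1 h7

theorem le_mul_iff {w u v : G} : P.Le (w * u) (w * v) ↔ P.Le u v := by
  show (w * u)⁻¹ * (w * v) ∈ P.PP ↔ u⁻¹ * v ∈ P.PP
  have e : (w * u)⁻¹ * (w * v) = u⁻¹ * v := by group
  rw [e]

theorem one_le' {u : G} : P.Le 1 u ↔ u ∈ P.PP := by
  show (1 : G)⁻¹ * u ∈ P.PP ↔ u ∈ P.PP
  rw [inv_one, one_mul]

/-- `le_al`, `mem_of_le_al` -/
theorem sup_le' {u : G} {s t : S} (h1 : P.Le (P.g s) u) (h2 : P.Le (P.g t) u) :
    P.Le (P.g (s ⊔ t)) u := by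
  have hu : u ∈ P.PP := P.one_le'.1 (P.le_trans' (P.one_le'.2 (P.g_mem s)) h1)
  exact P.mem_of_le_al hu (sup_le (P.le_al h1) (P.le_al h2))

private theorem Pre2_le {s t : S} (h : s ≤ t) : P.Le (P.g s) (P.g t) := by
  show (P.g s)⁻¹ * P.g t ∈ P.PP
  rw [← P.g_mul h, inv_mul_cancel_left]
  exact P.g_mem _

/-- as `join_simple` of `HT/C7.lean` -/
theorem join_simple {u : G} (hu : u ∈ P.PP) (s : S) :
    ∃ v, P.Le u v ∧ P.Le (P.g s) v ∧ ∀ x, P.Le u x → P.Le (P.g s) x → P.Le v x := by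
  revert s
  unfold PP at hu
  induction hu using Submonoid.closure_induction_left with
  | one =>
    intro s
    exact ⟨P.g s, P.one_le'.2 (P.g_mem s), P.le_refl' _, fun x _ hx => hx⟩
  | mul_left k hk u' hu' ih =>
    intro s
    obtain ⟨k, rfl⟩ := hk
    have e : P.g k * P.g (E.q k (k ⊔ s)) = P.g (k ⊔ s) := P.g_mul le_sup_left
    obtain ⟨v', hv1, hv2, hv3⟩ := ih (E.q k (k ⊔ s))
    have him' : P.Le (P.g s) (P.g (k ⊔ s)) := P.Pre2_le le_sup_right
    refine ⟨P.g k * v', P.le_mul_iff.2 hv1, ?_, ?_⟩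
    · refine P.le_trans' him' ?_
      rw [← e]
      exact P.le_mul_iff.2 hv2
    · intro x hx1 hx2
      have hkx : P.Le (P.g k) x := by
        refine P.le_trans' ?_ hx1
        show (P.g k)⁻¹ * (P.g k * u') ∈ P.PP
        rw [inv_mul_cancel_left]
        exact hu'
      have hmx : P.Le (P.g (k ⊔ s)) x := P.sup_le' hkx hx2
      have ex : P.g k * ((P.g k)⁻¹ * x) = x := mul_inv_cancel_left _ _
      have h1 : P.Le u' ((P.g k)⁻¹ * x) := by
        rw [← P.le_mul_iff (w := P.g k), ex]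
        exact hx1
      have h2 : P.Le (P.g (E.q k (k ⊔ s))) ((P.g k)⁻¹ * x) := by
        rw [← P.le_mul_iff (w := P.g k), ex, e]
        exact hmx
      have h3 := hv3 _ h1 h2
      rw [← P.le_mul_iff (w := P.g k), ex] at h3
      exact h3

/-- as `join_pos` of `HT/C7.lean` -/
theorem join_pos {u v : G} (hu : u ∈ P.PP) (hv : v ∈ P.PP) :
    ∃ w, P.Le u w ∧ P.Le v w ∧ ∀ x, P.Le u x → P.Le v x → P.Le w x := by
  revert u
  unfold PP at hv
  induction hv using Submonoid.closure_induction_left with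
  | one =>
    intro u hu
    exact ⟨u, P.le_refl' _, P.one_le'.2 hu, fun x hx _ => hx⟩
  | mul_left i hi v' hv' ih =>
    intro u hu
    obtain ⟨i, rfl⟩ := hi
    obtain ⟨w, hw1, hw2, hw3⟩ := P.join_simple hu i
    obtain ⟨w', hw1', hw2', hw3'⟩ := ih (u := (P.g i)⁻¹ * w) hw2
    have ew : P.g i * ((P.g i)⁻¹ * w) = w := mul_inv_cancel_left _ _
    refine ⟨P.g i * w', ?_, P.le_mul_iff.2 hw2', ?_⟩
    · refine P.le_trans' hw1 ?_
      have h1 := (P.le_mul_iff (w := P.g i)).2 hw1'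
      rw [ew] at h1
      exact h1
    · intro x hx1 hx2
      have hix : P.Le (P.g i) x := by
        refine P.le_trans' ?_ hx2
        show (P.g i)⁻¹ * (P.g i * v') ∈ P.PP
        rw [inv_mul_cancel_left]
        exact hv'
      have hwx : P.Le w x := hw3 x hx1 hix
      have ex : P.g i * ((P.g i)⁻¹ * x) = x := mul_inv_cancel_left _ _
      have h1 : P.Le ((P.g i)⁻¹ * w) ((P.g i)⁻¹ * x) := by
        rw [← P.le_mul_iff (w := P.g i), ex, ew]
        exact hwx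
      have h2 : P.Le v' ((P.g i)⁻¹ * x) := by
        rw [← P.le_mul_iff (w := P.g i), ex]
        exact hx2
      have h3 := hw3' _ h1 h2
      rw [← P.le_mul_iff (w := P.g i), ex] at h3
      exact h3

/-- as `exists_join` of `HT/C7.lean` -/
theorem exists_join (u v : G) :
    ∃ w, P.Le u w ∧ P.Le v w ∧ ∀ x, P.Le u x → P.Le v x → P.Le w x := by
  obtain ⟨n, hn, -⟩ := P.exists_zpow u
  obtain ⟨m, hm, -⟩ := P.exists_zpow v
  have hd : P.g ⊤ ∈ P.PP := P.g_mem ⊤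
  have h1 : P.g ⊤ ^ (m + n) * u ∈ P.PP := by
    rw [pow_add, mul_assoc]
    exact mul_mem (pow_mem hd m) hn
  have h2 : P.g ⊤ ^ (m + n) * v ∈ P.PP := by
    rw [add_comm, pow_add, mul_assoc]
    exact mul_mem (pow_mem hd n) hm
  obtain ⟨w, hw1, hw2, hw3⟩ := P.join_pos h1 h2
  have e : P.g ⊤ ^ (m + n) * ((P.g ⊤ ^ (m + n))⁻¹ * w) = w := mul_inv_cancel_left _ _
  refine ⟨(P.g ⊤ ^ (m + n))⁻¹ * w, ?_, ?_, ?_⟩
  · rw [← P.le_mul_iff (w := P.g ⊤ ^ (m + n)), e]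
    exact hw1
  · rw [← P.le_mul_iff (w := P.g ⊤ ^ (m + n)), e]
    exact hw2
  · intro x hx1 hx2
    rw [← P.le_mul_iff (w := P.g ⊤ ^ (m + n)), e]
    exact hw3 _ (P.le_mul_iff.2 hx1) (P.le_mul_iff.2 hx2)

private theorem Pre2_ln_le {u v : G} (h : P.Le u v) : P.ln u ≤ P.ln v := by
  have h1 : 0 ≤ P.ln (u⁻¹ * v) := P.ln_nonneg h
  have h2 : P.ln (u * (u⁻¹ * v)) = P.ln u + P.ln (u⁻¹ * v) := P.ln_mul _ _
  rw [mul_inv_cancel_left] at h2
  omega

private theorem Pre2_eq_of_ln {u v : G} (h : P.Le u v) (hl : P.ln v ≤ P.ln u) : u = v := by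
  have h2 : P.ln (u * (u⁻¹ * v)) = P.ln u + P.ln (u⁻¹ * v) := P.ln_mul _ _
  rw [mul_inv_cancel_left] at h2
  have h1 : u⁻¹ * v = 1 := P.eq_one_of_ln h (by omega)
  exact inv_mul_eq_one.1 h1

/-- as `exists_meet` of `HT/C7.lean` -/
theorem exists_meet (u v : G) :
    ∃ w, P.Le w u ∧ P.Le w v ∧ ∀ x, P.Le x u → P.Le x v → P.Le x w := by
  have h0 : ∃ z, ∃ x, P.Le x u ∧ P.Le x v ∧ P.ln x = z := by
    obtain ⟨n, hn, -⟩ := P.exists_zpow u
    obtain ⟨m, hm, -⟩ := P.exists_zpow v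
    have hd : P.g ⊤ ∈ P.PP := P.g_mem ⊤
    refine ⟨_, (P.g ⊤ ^ (m + n))⁻¹, ?_, ?_, rfl⟩
    · show ((P.g ⊤ ^ (m + n))⁻¹)⁻¹ * u ∈ P.PP
      rw [inv_inv, pow_add, mul_assoc]
      exact mul_mem (pow_mem hd m) hn
    · show ((P.g ⊤ ^ (m + n))⁻¹)⁻¹ * v ∈ P.PP
      rw [inv_inv, add_comm, pow_add, mul_assoc]
      exact mul_mem (pow_mem hd n) hm
  have hb : ∃ b : ℤ, ∀ z : ℤ, (∃ x, P.Le x u ∧ P.Le x v ∧ P.ln x = z) → z ≤ b := by
    refine ⟨P.ln u, ?_⟩
    rintro z ⟨x, hx1, -, rfl⟩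
    exact P.Pre2_ln_le hx1
  obtain ⟨z, ⟨w, hw1, hw2, hw3⟩, hmax⟩ := Int.exists_greatest_of_bdd hb h0
  refine ⟨w, hw1, hw2, ?_⟩
  intro x hx1 hx2
  obtain ⟨y, hy1, hy2, hy3⟩ := P.exists_join w x
  have h1 := hmax (P.ln y) ⟨y, hy3 u hw1 hx1, hy3 v hw2 hx2, rfl⟩
  have h2 : w = y := P.Pre2_eq_of_ln hy1 (by omega)
  rw [h2]
  exact hy2

private theorem C4_al_g (s : S) : E.al (P.f (P.g s) E.x0) = s := by
  rcases eq_or_ne s ⊥ with rfl | h0
  · rw [P.g_bot, map_one]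
    show (if (0 : ℤ) < 0 then (⊤ : S) else ([] : List S).headD ⊥) = ⊥
    rw [if_neg (lt_irrefl _)]
    rfl
  rcases eq_or_ne s ⊤ with rfl | h1
  · have h2 : (P.f (P.g ⊤) E.x0).1 = (E.x0.1.1 + 1, E.x0.1.2) := by
      rw [P.f_g]
      exact E.actX_top P.top_ne E.x0
    unfold Germ.al
    rw [h2]
    exact if_pos (show (0 : ℤ) < 0 + 1 by norm_num)
  · have h2 := P.f_g_x0 h0 h1
    simp [Germ.al, h2]

private theorem C4_list_mem (l : List S) : (l.map P.g).prod ∈ P.PP := by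
  induction l with
  | nil =>
    rw [List.map_nil, List.prod_nil]
    exact P.PP.one_mem
  | cons x l ih =>
    rw [List.map_cons, List.prod_cons]
    exact P.PP.mul_mem (P.g_mem x) ih

/-- as `cover_gS` of `HT/C7.lean` -/
theorem cover {u : G} (h1 : P.Le 1 u) (h2 : P.Le u (P.g ⊤)) : ∃ s, P.g s = u := by
  have hu : u ∈ P.PP := P.one_le'.1 h1
  have h3 := P.f_nonneg hu
  have h4 := P.ev_f_x0 u
  rw [ev] at h4
  obtain ⟨h5, h6⟩ := (P.f u E.x0).2
  generalize (P.f u E.x0).1 = p at h3 h4 h5 h6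
  obtain ⟨k, l⟩ := p
  simp only at h3 h4 h5 h6
  rcases h3.lt_or_eq with hk | hk
  · refine ⟨⊤, ?_⟩
    have h7 : P.Le (P.g ⊤) u := by
      obtain ⟨n, rfl⟩ : ∃ n : ℕ, k = (n : ℤ) + 1 := ⟨(k - 1).toNat, by omega⟩
      have h8 : (P.g ⊤)⁻¹ * u = P.g ⊤ ^ n * (l.map P.g).prod := by
        rw [← h4, add_comm, zpow_add, zpow_one, zpow_natCast]
        simp only [mul_assoc, inv_mul_cancel_left]
      show (P.g ⊤)⁻¹ * u ∈ P.PP
      rw [h8]
      exact P.PP.mul_mem (P.PP.pow_mem (P.g_mem ⊤) n) (P.C4_list_mem l)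
    exact P.le_antisymm' h7 h2
  · subst hk
    rw [zpow_zero, one_mul] at h4
    cases l with
    | nil =>
      refine ⟨⊥, ?_⟩
      rw [← h4, P.g_bot]
      simp
    | cons x l =>
      cases l with
      | nil =>
        refine ⟨x, ?_⟩
        rw [← h4]
        simp
      | cons y l =>
        exfalso
        have hy : y ≠ ⊥ := h5.tail.head
        have h7 : E.K x ⊓ y = ⊥ := h5.2.1
        have h10 : P.g x * P.g (E.K x) = P.g ⊤ := P.g_K x
        have h11 : (P.g y)⁻¹ * P.g (E.K x) ∈ P.PP := by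
          have e : (P.g y)⁻¹ * P.g (E.K x) = (l.map P.g).prod * (u⁻¹ * P.g ⊤) := by
            rw [← h4, ← h10, List.map_cons, List.prod_cons, List.map_cons, List.prod_cons]
            group
          rw [e]
          exact P.PP.mul_mem (P.C4_list_mem l) h2
        have h12 := P.le_al h11
        rw [P.C4_al_g] at h12
        apply hy
        rw [← le_bot_iff, ← h7]
        exact le_inf h12 le_rfl

/-- as `gS_Le_iff` of `HT/C7.lean` -/
theorem g_le_iff {s t : S} : P.Le (P.g s) (P.g t) ↔ s ≤ t := by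
  constructor
  · intro h
    have h1 := P.le_al h
    rwa [P.C4_al_g] at h1
  · intro h
    exact P.mem_of_le_al (P.g_mem t) (by rw [P.C4_al_g]; exact h)

private theorem C4_ne {s : S} (h : s ≠ ⊥) : P.g s ≠ 1 := by
  intro h1
  have h2 := P.ln_g s
  have h3 : P.ln (1 : G) = 0 := by
    have h4 := P.ln_mul (1 : G) 1
    rw [mul_one] at h4
    omega
  rw [h1, h3] at h2
  have h5 := E.rk_pos h
  omega

/-- the lattice structure of the group -/
@[instance_reducible]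
private noncomputable def C4_lat : Lattice G where
  le := P.Le
  le_refl := P.le_refl'
  le_trans := fun _ _ _ => P.le_trans'
  le_antisymm := fun _ _ => P.le_antisymm'
  sup := fun g h => (P.exists_join g h).choose
  le_sup_left := fun g h => (P.exists_join g h).choose_spec.1
  le_sup_right := fun g h => (P.exists_join g h).choose_spec.2.1
  sup_le := fun g h k h1 h2 => (P.exists_join g h).choose_spec.2.2 k h1 h2
  inf := fun g h => (P.exists_meet g h).choose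
  inf_le_left := fun g h => (P.exists_meet g h).choose_spec.1
  inf_le_right := fun g h => (P.exists_meet g h).choose_spec.2.1
  le_inf := fun k g h h1 h2 => (P.exists_meet g h).choose_spec.2.2 k h1 h2

private theorem C4_lt {g h : G} (h1 : P.Le g h) (h2 : g ≠ h) : P.C4_lat.lt g h := by
  letI := P.C4_lat
  have h3 : g ≤ h := h1
  exact lt_of_le_of_ne h3 h2

private theorem C4_le {g h : G} (h1 : P.C4_lat.lt g h) : P.Le g h ∧ g ≠ h := by
  letI := P.C4_lat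
  have h3 : g < h := h1
  exact ⟨h3.le, h3.ne⟩

/-- the lattice ordered group -/
private noncomputable def C4_gar : @Gar G _ P.C4_lat :=
  letI := P.C4_lat
  { δ := P.g ⊤
    len := P.ln
    mul_le := fun u g h h1 => P.le_mul_iff.2 h1
    mulδ_le := fun g h h1 => by
      show (g * P.g ⊤)⁻¹ * (h * P.g ⊤) ∈ P.PP
      have h2 := P.conj_mem (show g⁻¹ * h ∈ P.PP from h1)
      have e : (g * P.g ⊤)⁻¹ * (h * P.g ⊤) = (P.g ⊤)⁻¹ * (g⁻¹ * h) * P.g ⊤ := by group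
      rw [e]
      exact h2
    mulδi_le := fun g h h1 => by
      show (g * (P.g ⊤)⁻¹)⁻¹ * (h * (P.g ⊤)⁻¹) ∈ P.PP
      have h2 := P.conj_mem' (show g⁻¹ * h ∈ P.PP from h1)
      have e : (g * (P.g ⊤)⁻¹)⁻¹ * (h * (P.g ⊤)⁻¹) = P.g ⊤ * (g⁻¹ * h) * (P.g ⊤)⁻¹ := by group
      rw [e]
      exact h2
    len_mul := P.ln_mul
    len_lt := fun g h h1 => by
      obtain ⟨h2, h3⟩ := P.C4_le h1
      by_contra h4
      have h5 := P.ln_mul g (g⁻¹ * h)
      rw [mul_inv_cancel_left] at h5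
      have h6 := P.eq_one_of_ln h2 (by omega)
      exact h3 (inv_mul_eq_one.1 h6)
    len_δ := by
      rw [P.ln_g]
      exact_mod_cast E.rk_pos P.top_ne
    one_le_δ := by
      show (1 : G)⁻¹ * P.g ⊤ ∈ P.PP
      rw [inv_one, one_mul]
      exact P.g_mem ⊤
    arch := fun g => by
      obtain ⟨n, h1, h2⟩ := P.exists_zpow g
      refine ⟨n, ?_, ?_⟩
      · show (P.g ⊤ ^ (-(n : ℤ)))⁻¹ * g ∈ P.PP
        rw [zpow_neg, inv_inv, zpow_natCast]
        exact h1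
      · show g⁻¹ * P.g ⊤ ^ (n : ℤ) ∈ P.PP
        rw [zpow_natCast]
        exact h2
    pos := fun g h1 => by
      obtain ⟨h2, h3⟩ := P.C4_le h1
      have h4 : g ∈ P.PP := P.one_le'.1 h2
      obtain ⟨s, hs, h5⟩ := P.exists_first h4 (Ne.symm h3)
      have h6 : P.g s ≤ g := h5
      have h7 : P.g s ≤ P.g ⊤ := P.g_inv_top_mem s
      have h8 : (1 : G) < P.g s := P.C4_lt (P.one_le'.2 (P.g_mem s)) (Ne.symm (P.C4_ne hs))
      exact lt_of_lt_of_le h8 (le_inf h6 h7)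
    neg := fun g h1 => by
      obtain ⟨h2, h3⟩ := P.C4_le h1
      have h4 : g⁻¹ ∈ P.PP := by
        have h5 : g⁻¹ * 1 ∈ P.PP := h2
        rwa [mul_one] at h5
      obtain ⟨s, hs, h5⟩ := P.exists_last h4 (by
        intro h6
        exact h3 (inv_eq_one.1 h6))
      have h6 : g ≤ (P.g s)⁻¹ := h5
      have h7 : (P.g ⊤)⁻¹ ≤ (P.g s)⁻¹ := by
        show ((P.g ⊤)⁻¹)⁻¹ * (P.g s)⁻¹ ∈ P.PP
        rw [inv_inv]
        exact P.top_g_inv_mem s
      have h8 : (P.g s)⁻¹ < (1 : G) := by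
        refine P.C4_lt ?_ (fun h9 => P.C4_ne hs (inv_eq_one.1 h9))
        show ((P.g s)⁻¹)⁻¹ * 1 ∈ P.PP
        rw [inv_inv, mul_one]
        exact P.g_mem s
      exact lt_of_le_of_lt (sup_le h6 h7) h8 }

/-- as `exists_frame` of `HT/C8.lean` -/
theorem exists_frame : ∃ (L : Lattice G) (F : @Frame S _ _ E G _ L),
    (∀ s, F.g s = P.g s) ∧ ∀ u, F.len u = P.ln u := by
  refine ⟨P.C4_lat, ?_⟩
  letI := P.C4_lat
  refine ⟨{ P.C4_gar with
    g := P.g
    g_bot := P.g_bot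
    g_top := rfl
    g_mul := fun h => P.g_mul h
    g_le := P.g_le_iff
    g_surj := fun u h1 h2 => P.cover h1 h2
    len_g := P.ln_g
    gen := P.gen }, fun _ => rfl, fun _ => rfl⟩

end Pool.Agent.SPH.Pre
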