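import Pool.Agent.SPH.CD6
import Pool.Agent.SPH.Art1
import Pool.Agent.SPH.Glue
import Pool.Agent.SPH.Pre2
import Pool.Agent.SPH.Dat

/-!
# Project SPH, piece SPH-AR2: from the tables to the dual Garside structure of the Artin group

`AD` collects the tables of the germ and the certificate of the rank two relations; `AD.Ok` is
the list of the finite checks.  The result is `exists_pre`: the Artin group has generators `g x`
which satisfy the relations of the germ, and it acts on the normal forms.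
-/

namespace Pool.Agent.SPH

open Pool.Agent.Helper7.AG

/-- the mask of a list -/
def CD.mk (l : List ℕ) : ℕ := l.foldr (fun i m => CD.ins m i) 0

theorem CD.bit_mk {l : List ℕ} {i : ℕ} : CD.bit (CD.mk l) i = true ↔ i ∈ l := by
  induction l with
  | nil =>
    show CD.bit 0 i = true ↔ _
    rw [CD.bit_zero]
    simp
  | cons a l ih =>
    show CD.bit (CD.ins (CD.mk l) a) i = true ↔ _
    rw [CD.bit_ins, ih, List.mem_cons, eq_comm]

/-- tables of the germ (`D`), the standard generators among the atoms `1, ..., T` (`gi`), their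
labels (`cox`), and the certificate (`l`, with the masks `A0`, `A1`, `R1`) -/
structure AD where
  /-- the tables -/
  D : TD
  /-- the number of generators -/
  n : ℕ
  /-- the Coxeter matrix -/
  M : CoxeterMatrix (Fin n)
  /-- the number of atoms -/
  T : ℕ
  /-- the generators -/
  gi : Fin n → ℕ
  /-- the labels -/
  cox : ℕ → ℕ → ℕ
  /-- the certificate -/
  l : List CD.Stp
  /-- the mask of the generators -/
  A0 : ℕ
  /-- the mask of the atoms -/
  A1 : ℕ
  /-- the mask of the pairs -/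
  R1 : ℕ

namespace AD

/-- the atom `d t u` with `t u = u (d t u)` -/
def d (A : AD) (t u : ℕ) : ℕ := A.D.q u (A.D.tm t u)

/-- the finite checks -/
structure Ok (A : AD) : Prop where
  ok : A.D.Ok
  T_lt : A.T < 256
  T_N : A.T < A.D.N
  atom : ∀ i < A.D.N, (A.D.rk i = 1 ↔ 1 ≤ i ∧ i ≤ A.T)
  gi_atom : ∀ k, 1 ≤ A.gi k ∧ A.gi k ≤ A.T
  gi_inj : Function.Injective A.gi
  A0_eq : A.A0 = CD.mk (List.ofFn A.gi)
  cox_eq : ∀ a b, A.cox (A.gi a) (A.gi b) = A.M a b
  M_bd : ∀ a b, a ≠ b → 2 ≤ A.M a b ∧ A.M a b ≤ 5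
  run : CD.run A.d A.cox A.A0 A.A1 A.R1 A.l A.A0 0 = true
  A1_of : ∀ t, 1 ≤ t → t ≤ A.T → CD.bit A.A1 t = true
  R1_of : ∀ t u, 1 ≤ t → t ≤ A.T → 1 ≤ u → u ≤ A.T → A.D.le u (A.D.K t) = true →
    CD.bit A.R1 (CD.pc t u) = true
  of_R1 : ∀ t u, t < 256 → u < 256 → CD.bit A.R1 (CD.pc t u) = true →
    (1 ≤ t ∧ t ≤ A.T) ∧ (1 ≤ u ∧ u ≤ A.T) ∧ A.D.le u (A.D.K t) = true
  brc : ∀ a b, a ≠ b → CD.brc A.d A.R1 (A.M a b) (A.gi a) (A.gi b) = true ∨
    CD.brc A.d A.R1 (A.M b a) (A.gi b) (A.gi a) = true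
  ex : ∀ x < A.D.N, x ≠ 0 → ∃ t, 1 ≤ t ∧ t ≤ A.T ∧ A.D.le t x = true
  conn : ∀ x < A.D.N, ∀ t, 1 ≤ t → t ≤ A.T → A.D.le t x = true →
    (∀ t', 1 ≤ t' → t' < t → A.D.le t' x = false) ∨
      ∃ t', 1 ≤ t' ∧ t' < t ∧ A.D.le t' x = true ∧ A.D.rk (A.D.jn t t') = 2
  rk2 : ∀ x < A.D.N, A.D.rk x = 2 → ∀ t, 1 ≤ t → t ≤ A.T → A.D.le t x = true →
    ∀ u, 1 ≤ u → u ≤ A.T → A.D.le u x = true → ∃ k, (fun s => A.D.q s x)^[k] t = u

variable {A : AD} (h : A.Ok)

/-- the simple elements -/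
abbrev SS (h : A.Ok) : Type := TD.El h.ok

/-- the germ -/
noncomputable abbrev EE (h : A.Ok) : Germ (SS h) := TD.El.germ h.ok

include h in
/-- `CD.run_conj`, with `s i = of k` for `i = gi k` (`bit_mk`, `br_of`) -/
theorem exists_ga : ∃ ga : ℕ → Artin A.M, (∀ k, ga (A.gi k) = PresentedGroup.of k) ∧
    (∀ t u, t < 256 → u < 256 → CD.bit A.R1 (CD.pc t u) = true →
      ga t * ga u = ga u * ga (A.d t u)) ∧
    ∀ t, 1 ≤ t → t ≤ A.T → ∃ k, IsConj (PresentedGroup.of k) (ga t) := by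
  classical
  obtain ⟨s, hs⟩ : ∃ s : ℕ → Artin A.M, ∀ k, s (A.gi k) = PresentedGroup.of k := by
    refine ⟨fun i => if hi : ∃ k, A.gi k = i then PresentedGroup.of hi.choose else 1, ?_⟩
    intro k
    have hk : ∃ k', A.gi k' = A.gi k := ⟨k, rfl⟩
    show (if hi : ∃ k', A.gi k' = A.gi k then (PresentedGroup.of hi.choose : Artin A.M) else 1) = _
    rw [dif_pos hk, h.gi_inj hk.choose_spec]
  have hA0 : ∀ i, CD.bit A.A0 i = true ↔ ∃ k, A.gi k = i := by
    intro i
    rw [h.A0_eq, CD.bit_mk, List.mem_ofFn]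
  have hb : ∀ i j, CD.bit A.A0 i = true → CD.bit A.A0 j = true →
      CD.Br (A.cox i j) (s i) (s j) := by
    intro i j hi hj
    obtain ⟨a, rfl⟩ := (hA0 i).1 hi
    obtain ⟨b, rfl⟩ := (hA0 j).1 hj
    rw [h.cox_eq, hs, hs]
    exact br_of a b
  obtain ⟨ga, h1, h2, h3⟩ := CD.run_conj hb h.run
  refine ⟨ga, fun k => ?_, fun t u ht hu hb => (h2 t u ht hu hb).2.2.2, fun t ht1 ht2 => ?_⟩
  · rw [h1 _ ((hA0 _).2 ⟨k, rfl⟩), hs]
  · obtain ⟨i, hi, hc⟩ := h3 t (h.A1_of t ht1 ht2)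
    obtain ⟨k, rfl⟩ := (hA0 i).1 hi
    exact ⟨k, by rwa [hs] at hc⟩

/-- `TD.Ok.anti`, and `K` is a bijection with the inverse `ki`; for the other direction: `K` maps
the finite set of the pairs `x ≤ y` injectively into itself (with the order of the pair
reversed), hence onto; or use `K_pow` -/
theorem anti_iff {x y : SS h} : (EE h).K x ≤ (EE h).K y ↔ y ≤ x := by
  have key : ∀ {a b : SS h}, a ≤ b → (EE h).K b ≤ (EE h).K a := by
    intro a b hab
    rw [TD.El.le_def, TD.El.K_i, TD.El.K_i]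
    exact h.ok.anti _ a.lt _ b.lt hab
  constructor
  · intro e
    exact (EE h).tau_le_iff.1 (key e)
  · exact key

/-- `u = q t x` has rank one (`rk_q`), `u ≤ K t` (`q_le_K`), and `tm t u = x` (`mul_i`, `mul_q`),
hence `A.d t u = q u (tm t u) = q u x`.  `u ≤ x`: `K x = q u (K t)` (`q_K`) and
`q u (K t) ≤ K u` (`q_le_K`), so `anti_iff` applies. -/
theorem d_q {t x : SS h} (h1 : t ≤ x) (h2 : (EE h).rk t = 1) (h3 : (EE h).rk x = 2) :
    A.d t.i (A.D.q t.i x.i) = A.D.q (A.D.q t.i x.i) x.i ∧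
      A.D.le (A.D.q t.i x.i) (A.D.K t.i) = true ∧ (EE h).q t x ≤ x ∧
      (EE h).rk ((EE h).q t x) = 1 := by
  have e1 : (EE h).q t x ≤ (EE h).K t := (EE h).q_le_K h1
  have e2 : (EE h).mul t ((EE h).q t x) = x := (EE h).mul_q h1
  have e3 : ((EE h).q t x).i = A.D.q t.i x.i := TD.El.q_i h1
  have e4 : A.D.tm t.i (A.D.q t.i x.i) = x.i := by
    rw [← e3, ← TD.El.mul_i e1, e2]
  refine ⟨?_, ?_, ?_, ?_⟩
  · rw [d, e4]
  · rw [← e3, ← TD.El.K_i]
    exact e1
  · rw [← anti_iff h, ← (EE h).q_K h1]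
    exact (EE h).q_le_K e1
  · have e5 := (EE h).rk_q h1
    rw [h2, h3] at e5
    omega

/-- Let `P t = X t * X (q t x)` for the atoms `t ≤ x`.  With `u = q t x` (again an atom `≤ x`),
`P u = X u * X (q u x) = X u * X (A.d t u) = X t * X u = P t` by `d_q`, `R1_of` and `hX`.  So `P` is
constant along the iterates of `t ↦ q t x`, and `rk2` ends the proof. -/
theorem rel_two {G : Type*} [Group G] {X : ℕ → G}
    (hX : ∀ t u, t < 256 → u < 256 → CD.bit A.R1 (CD.pc t u) = true →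
      X t * X u = X u * X (A.d t u))
    {x t u : SS h} (h3 : (EE h).rk x = 2) (h1 : t ≤ x) (h2 : u ≤ x) (h4 : (EE h).rk t = 1)
    (h5 : (EE h).rk u = 1) :
    X t.i * X (A.D.q t.i x.i) = X u.i * X (A.D.q u.i x.i) := by
  have hat : ∀ s : SS h, (EE h).rk s = 1 → 1 ≤ s.i ∧ s.i ≤ A.T := fun s hs =>
    (h.atom s.i s.lt).1 hs
  have hT := h.T_lt
  have key : ∀ (k : ℕ) (s : SS h), s ≤ x → (EE h).rk s = 1 →
      (fun a => A.D.q a x.i)^[k] s.i = u.i →
      X s.i * X (A.D.q s.i x.i) = X u.i * X (A.D.q u.i x.i) := by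
    intro k
    induction k with
    | zero =>
      intro s _ _ e
      have e' : s.i = u.i := e
      rw [e']
    | succ k ih =>
      intro s hs hs1 e
      obtain ⟨f1, f2, f3, f4⟩ := d_q h hs hs1 h3
      have e3 : ((EE h).q s x).i = A.D.q s.i x.i := TD.El.q_i hs
      rw [Function.iterate_succ_apply] at e
      have g1 := ih ((EE h).q s x) f3 f4 (by rw [e3]; exact e)
      rw [← g1]
      have a1 := hat s hs1
      have a2 := hat _ f4
      rw [e3] at a2 ⊢
      have g2 := hX s.i (A.D.q s.i x.i) (by omega) (by omega)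
        (h.R1_of _ _ a1.1 a1.2 a2.1 a2.2 f2)
      rw [f1] at g2
      exact g2
  obtain ⟨k, hk⟩ := h.rk2 x.i x.lt h3 t.i (hat t h4).1 (hat t h4).2 h1 u.i (hat u h5).1
    (hat u h5).2 h2
  exact key k t h1 h4 hk

/-- `Glu` for any family which satisfies the relations; `ex`, `conn` (go down to the least atom
below `x`; the relation is symmetric), `rel_two` -/
theorem exists_glu {G : Type*} [Group G] {X : ℕ → G}
    (hX : ∀ t u, t < 256 → u < 256 → CD.bit A.R1 (CD.pc t u) = true →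
      X t * X u = X u * X (A.d t u)) :
    ∃ P : Glu (EE h) G, ∀ x : SS h, P.ga x = X x.i := by
  have hat : ∀ t : ℕ, 1 ≤ t → t ≤ A.T → A.D.rk t = 1 := fun t h1 h2 =>
    (h.atom t (lt_of_le_of_lt h2 h.T_N)).2 ⟨h1, h2⟩
  refine ⟨⟨fun x => X x.i, ?_, ?_, ?_⟩, fun _ => rfl⟩
  · intro x hx
    obtain ⟨t, h1, h2, h3⟩ := h.ex x.i x.lt (fun e => hx (TD.El.ext' e))
    exact ⟨⟨t, lt_of_le_of_lt h2 h.T_N⟩, h3, hat t h1 h2⟩
  · intro x t u ht hu ht1 hu1
    have key : ∀ n : ℕ, ∀ t : SS h, t.i = n → t ≤ x → (EE h).rk t = 1 →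
        ∃ m : SS h, m ≤ x ∧ (EE h).rk m = 1 ∧ (∀ t', 1 ≤ t' → t' < m.i → A.D.le t' x.i = false) ∧
          Relation.ReflTransGen (fun a b : SS h => a ≤ x ∧ b ≤ x ∧ (EE h).rk a = 1 ∧
            (EE h).rk b = 1 ∧ (EE h).rk (a ⊔ b) = 2) t m := by
      intro n
      induction n using Nat.strong_induction_on with
      | _ n ih =>
        intro t hn ht ht1
        obtain ⟨h1, h2⟩ := (h.atom t.i t.lt).1 ht1
        rcases h.conn x.i x.lt t.i h1 h2 ht with h3 | ⟨t', h3, h4, h5, h6⟩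
        · exact ⟨t, ht, ht1, h3, Relation.ReflTransGen.refl⟩
        · have h7 : t' ≤ A.T := by omega
          obtain ⟨m, m1, m2, m3, m4⟩ := ih t' (by omega)
            ⟨t', lt_of_le_of_lt h7 h.T_N⟩ rfl h5 (hat t' h3 h7)
          exact ⟨m, m1, m2, m3, Relation.ReflTransGen.head
            (b := (⟨t', lt_of_le_of_lt h7 h.T_N⟩ : SS h)) ⟨ht, h5, ht1, hat t' h3 h7, h6⟩ m4⟩
    obtain ⟨m, m1, m2, m3, m4⟩ := key _ t rfl ht ht1
    obtain ⟨k, k1, k2, k3, k4⟩ := key _ u rfl hu hu1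
    have e : m = k := by
      apply TD.El.ext'
      have hm := (h.atom m.i m.lt).1 m2
      have hk := (h.atom k.i k.lt).1 k2
      rcases lt_trichotomy m.i k.i with q | q | q
      · have e1 := k3 m.i hm.1 q
        have e2 : A.D.le m.i x.i = true := m1
        rw [e1] at e2
        exact absurd e2 (by simp)
      · exact q
      · have e1 := m3 k.i hk.1 q
        have e2 : A.D.le k.i x.i = true := k1
        rw [e1] at e2
        exact absurd e2 (by simp)
    subst e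
    refine m4.trans ?_
    clear m4 k3 m3 k1 k2 m1 m2
    induction k4 with
    | refl => exact Relation.ReflTransGen.refl
    | tail _ hab ih =>
      obtain ⟨a1, a2, a3, a4, a5⟩ := hab
      exact Relation.ReflTransGen.head ⟨a2, a1, a4, a3, by rw [sup_comm]; exact a5⟩ ih
  · intro x t u hx ht hu ht1 hu1
    have := rel_two h hX hx ht hu ht1 hu1
    rwa [← TD.El.q_i ht, ← TD.El.q_i hu] at this

open Classical in
/-- the permutations of the normal forms -/
noncomputable def pp (h : A.Ok) (t : ℕ) : Equiv.Perm (EE h).XX :=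
  if ht : t < A.D.N then (EE h).pX ⟨t, ht⟩ else 1

/-- `t`, `u` are atoms with `u ≤ K t` (`of_R1`).  Let `x = mul t u`, so `pX t * pX u = pX x`
(`pX_mul`).  `K x = q u (K t)` (`K_mul`) and `q u (K t) ≤ K u` (`q_le_K`), so `u ≤ x` (`anti_iff`),
`x = mul u (q u x)` and `pX u * pX (q u x) = pX x`, where `(q u x).i = A.d t u` (`mul_i`, `q_i`). -/
theorem pp_rel {t u : ℕ} (h1 : t < 256) (h2 : u < 256) (h3 : CD.bit A.R1 (CD.pc t u) = true) :
    pp h t * pp h u = pp h u * pp h (A.d t u) := by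
  obtain ⟨⟨_, ht⟩, ⟨_, hu⟩, hle⟩ := h.of_R1 t u h1 h2 h3
  have htN : t < A.D.N := lt_of_le_of_lt ht h.T_N
  have huN : u < A.D.N := lt_of_le_of_lt hu h.T_N
  obtain ⟨s, hs⟩ : ∃ s : SS h, s.i = t := ⟨⟨t, htN⟩, rfl⟩
  obtain ⟨v, hv⟩ : ∃ v : SS h, v.i = u := ⟨⟨u, huN⟩, rfl⟩
  have hpp : ∀ w : SS h, pp h w.i = (EE h).pX w := by
    intro w
    unfold pp
    rw [dif_pos w.lt]
  subst hs
  subst hv
  have e1 : v ≤ (EE h).K s := by
    rw [TD.El.le_def, TD.El.K_i]
    exact hle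
  obtain ⟨x, hx⟩ : ∃ x, x = (EE h).mul s v := ⟨_, rfl⟩
  have e2 : v ≤ x := by
    rw [← anti_iff h, hx, (EE h).K_mul e1]
    exact (EE h).q_le_K e1
  have e3 : A.d s.i v.i = ((EE h).q v x).i := by
    rw [d, TD.El.q_i e2, hx, TD.El.mul_i e1]
  rw [e3, hpp, hpp, hpp, (EE h).pX_mul e1, (EE h).pX_mul ((EE h).q_le_K e2), (EE h).mul_q e2, hx]

/-- `exists_lift` with `f k = pp (gi k)`, `brc_sound` and `Br.symm`; then `run_unique` for
`F ∘ ga` and `pp` -/
theorem exists_act {ga : ℕ → Artin A.M} (h0 : ∀ k, ga (A.gi k) = PresentedGroup.of k)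
    (hg : ∀ t u, t < 256 → u < 256 → CD.bit A.R1 (CD.pc t u) = true →
      ga t * ga u = ga u * ga (A.d t u)) :
    ∃ F : Artin A.M →* Equiv.Perm (EE h).XX, ∀ t, 1 ≤ t → t ≤ A.T → F (ga t) = pp h t := by
  have hpp : ∀ t u, t < 256 → u < 256 → CD.bit A.R1 (CD.pc t u) = true →
      pp h t * pp h u = pp h u * pp h (A.d t u) := fun t u h1 h2 h3 => pp_rel h h1 h2 h3
  obtain ⟨F, hF⟩ := exists_lift (M := A.M) h.M_bd (fun k => pp h (A.gi k)) (by
    intro s t hst
    rcases h.brc s t hst with e | e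
    · exact CD.brc_sound e hpp
    · have e1 : A.M s t = A.M t s := A.M.symmetric s t
      rw [e1]
      exact (CD.brc_sound e hpp).symm)
  refine ⟨F, fun t h1 h2 => ?_⟩
  refine CD.run_unique (X := fun i => F (ga i)) (Y := pp h) h.run ?_ hpp ?_ t (h.A1_of t h1 h2)
  · intro a b ha hb hab
    show F (ga a) * F (ga b) = F (ga b) * F (ga (A.d a b))
    rw [← map_mul, ← map_mul, hg a b ha hb hab]
  · intro i hi
    rw [h.A0_eq, CD.bit_mk, List.mem_ofFn] at hi
    obtain ⟨k, rfl⟩ := hi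
    show F (ga (A.gi k)) = pp h (A.gi k)
    rw [h0 k, hF k]

/-- everything together.  `g` is `Glu.g`; `F (g x) = pX x` by induction on the rank (`x = t y`
with an atom `t`, `g_atom`, `pX_mul`, `mul_q`); `ln (g x) = rk x` in the same way
(`ln (ga t) = ln (of k) = 1` as they are conjugate); `gen` because the standard generators are
among the `g x` (`g_eq`). -/
theorem exists_pre : ∃ P : Pre (EE h) (Artin A.M),
    (∀ (k : Fin A.n) (x : SS h), x.i = A.gi k → P.g x = PresentedGroup.of k) ∧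
      ∀ k, P.ln (PresentedGroup.of k) = 1 := by
  obtain ⟨ga, h0, hg, hconj⟩ := exists_ga h
  obtain ⟨P, hP⟩ := exists_glu h hg
  obtain ⟨F, hF⟩ := exists_act h h0 hg
  obtain ⟨L, hL⟩ := exists_len (M := A.M) h.M_bd
  have hatom : ∀ t : SS h, (EE h).rk t = 1 → 1 ≤ t.i ∧ t.i ≤ A.T := fun t ht =>
    (h.atom t.i t.lt).1 ht
  have hrk : ∀ (k : Fin A.n) (x : SS h), x.i = A.gi k → (EE h).rk x = 1 := by
    intro k x hx
    exact (h.atom x.i x.lt).2 (by rw [hx]; exact h.gi_atom k)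
  have hof : ∀ (k : Fin A.n) (x : SS h), x.i = A.gi k → P.g x = PresentedGroup.of k := by
    intro k x hx
    rw [P.g_eq (hrk k x hx), hP, hx, h0]
  have hFg : ∀ n : ℕ, ∀ s : SS h, (EE h).rk s = n → F (P.g s) = (EE h).pX s := by
    intro n
    induction n with
    | zero =>
      intro s hs
      have hb : s = ⊥ := by
        by_contra hne
        have := (EE h).rk_pos hne
        omega
      rw [hb, P.g_bot, map_one, (EE h).pX_bot]
    | succ n ih =>
      intro s hs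
      have hne : s ≠ ⊥ := by
        rintro rfl
        rw [(EE h).rk_bot] at hs
        omega
      obtain ⟨t, ht, ht1⟩ := P.ex s hne
      have hq : (EE h).rk ((EE h).q t s) = n := by
        have := (EE h).rk_q ht
        omega
      obtain ⟨h1, h2⟩ := hatom t ht1
      have e1 : F (P.ga t) = (EE h).pX t := by
        rw [hP, hF t.i h1 h2]
        unfold pp
        rw [dif_pos t.lt]
      rw [← P.g_atom ht ht1, map_mul, e1, ih _ hq, (EE h).pX_mul ((EE h).q_le_K ht),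
        (EE h).mul_q ht]
  have hLof : ∀ t : ℕ, 1 ≤ t → t ≤ A.T → L (ga t) = Multiplicative.ofAdd 1 := by
    intro t h1 h2
    obtain ⟨k, hk⟩ := hconj t h1 h2
    obtain ⟨c, hc⟩ := isConj_iff.1 hk
    rw [← hc, map_mul, map_mul, map_inv, mul_inv_cancel_comm, hL k]
  have hLg : ∀ n : ℕ, ∀ s : SS h, (EE h).rk s = n → (L (P.g s)).toAdd = (n : ℤ) := by
    intro n
    induction n with
    | zero =>
      intro s hs
      have hb : s = ⊥ := by
        by_contra hne
        have := (EE h).rk_pos hne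
        omega
      rw [hb, P.g_bot, map_one]
      rfl
    | succ n ih =>
      intro s hs
      have hne : s ≠ ⊥ := by
        rintro rfl
        rw [(EE h).rk_bot] at hs
        omega
      obtain ⟨t, ht, ht1⟩ := P.ex s hne
      have hq : (EE h).rk ((EE h).q t s) = n := by
        have := (EE h).rk_q ht
        omega
      obtain ⟨h1, h2⟩ := hatom t ht1
      rw [← P.g_atom ht ht1, map_mul, toAdd_mul, ih _ hq, hP, hLof t.i h1 h2, toAdd_ofAdd]
      push_cast
      ring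
  refine ⟨⟨P.g, P.g_bot, fun hxy => P.g_mul hxy, ?_, F, fun s => hFg _ s rfl,
    fun u => (L u).toAdd, ?_, fun s => hLg _ s rfl, TD.El.top_ne_bot⟩, hof, ?_⟩
  · rw [eq_top_iff, ← PresentedGroup.closure_range_of, Subgroup.closure_le]
    rintro _ ⟨k, rfl⟩
    have hlt : A.gi k < A.D.N := lt_of_le_of_lt (h.gi_atom k).2 h.T_N
    exact Subgroup.subset_closure ⟨⟨A.gi k, hlt⟩, hof k _ rfl⟩
  · intro u v
    show (L (u * v)).toAdd = _
    rw [map_mul, toAdd_mul]
  · intro k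
    show (L (PresentedGroup.of k)).toAdd = 1
    rw [hL k]
    rfl

end AD

end Pool.Agent.SPH
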