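import Mathlib

/-!
# Project SPH, piece SPH-CD: the rank two relations in the Artin group

The atoms are numbered; `d t u` is the atom with `t u = u (d t u)`, for the pairs `t`, `u` whose
product is a simple element.  Starting from elements `s i` for some atoms (the standard
generators), which satisfy braid relations, a list of steps defines elements `ga t` for all atoms
and derives the relations `ga t * ga u = ga u * ga (d t u)`.  A set of atoms or of pairs of
atoms is a bit mask; the pair `t`, `u` has the number `256 * t + u`.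
-/

namespace Pool.Agent.SPH

namespace CD

/-- the bit `i` of `m` -/
def bit (m i : ℕ) : Bool := Nat.beq (Nat.mod (Nat.shiftRight m i) 2) 1

/-- the mask with the bit `i` added -/
def ins (m i : ℕ) : ℕ := Nat.lor m (Nat.shiftLeft 1 i)

theorem bit_ins {m i j : ℕ} : bit (ins m i) j = true ↔ (i = j ∨ bit m j = true) := by
  have hbt : ∀ a k : ℕ, bit a k = a.testBit k := by
    intro a k
    rw [Nat.testBit_eq_decide_div_mod_eq]
    show Nat.beq (Nat.mod (a >>> k) 2) 1 = _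
    rw [Nat.shiftRight_eq_div_pow]
    show Nat.beq (a / 2 ^ k % 2) 1 = _
    rw [Bool.eq_iff_iff, decide_eq_true_eq]
    exact ⟨Nat.eq_of_beq_eq_true, fun h => by rw [h]; rfl⟩
  rw [hbt, hbt]
  show (m ||| (1 <<< i)).testBit j = true ↔ _
  rw [Nat.testBit_or, Nat.testBit_shiftLeft, Bool.or_eq_true, Bool.and_eq_true, or_comm,
    decide_eq_true_eq, Nat.testBit_one_eq_true_iff_self_eq_zero]
  constructor
  · rintro (⟨h1, h2⟩ | h)
    · left
      omega
    · exact Or.inr h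
  · rintro (h | h)
    · left
      constructor
      · omega
      · omega
    · exact Or.inr h

theorem bit_zero (i : ℕ) : bit 0 i = false := by
  unfold bit
  show Nat.beq (Nat.mod (0 >>> i) 2) 1 = false
  rw [Nat.zero_shiftRight]
  rfl

/-- conjunction -/
def an (a b : Bool) : Bool := cond a b false

/-- the number of a pair -/
def pc (t u : ℕ) : ℕ := 256 * t + u

/-- the steps: `dr t u` defines the atom `d t u`, `dl t u` defines `t` (from `u` and `d t u`),
`bs i j m` is a braid relation, `cl t u` closes a cycle, `cj`, `ck` are conjugations, `ce`, `ct`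
are cancellations -/
inductive Stp
  | dr (t u : ℕ)
  | dl (t u : ℕ)
  | bs (i j m : ℕ)
  | cl (t u : ℕ)
  | cj (t u v : ℕ)
  | ck (t u v : ℕ)
  | ce (t u v : ℕ)
  | ct (t u v : ℕ)

variable (d cox : ℕ → ℕ → ℕ) (A0 : ℕ)

/-- the pairs after `t`, `u` in its cycle are in the mask `R`, for at most `n` steps, until
the pair `t0`, `u0` is reached -/
def cyc (R t0 u0 : ℕ) : ℕ → ℕ → ℕ → Bool
  | 0, _, _ => false
  | n + 1, t, u => cond (an (Nat.beq t t0) (Nat.beq u u0)) true
      (an (Nat.blt t 256) (an (Nat.blt u 256) (an (bit R (pc t u)) (cyc R t0 u0 n u (d t u)))))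

/-- the test of a step, with the masks `A` of the defined atoms and `R` of the relations -/
def tst (A R : ℕ) : Stp → Bool
  | .dr t u => an (Nat.blt t 256) (an (Nat.blt u 256) (an (Nat.blt (d t u) 256)
      (an (bit A t) (an (bit A u) (cond (bit A (d t u)) false true)))))
  | .dl t u => an (Nat.blt t 256) (an (Nat.blt u 256) (an (Nat.blt (d t u) 256)
      (an (bit A u) (an (bit A (d t u)) (cond (bit A t) false true)))))
  | .bs i j m => an (Nat.blt i 256) (an (Nat.blt j 256) (an (bit A0 i) (an (bit A0 j)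
      (an (bit A i) (an (bit A j) (an (Nat.beq m (cox i j))
      (cond (Nat.beq m 2) (Nat.beq (d i j) i)
        (cond (Nat.beq m 3) (an (Nat.blt (d i j) 256) (an (bit R (pc i j))
            (Nat.beq (d j (d i j)) i)))
          (cond (Nat.beq m 4) (an (Nat.blt (d j (d i j)) 256) (an (bit R (pc i j))
              (an (bit R (pc j (d i j))) (Nat.beq (d (d i j) (d j (d i j))) i))))
            (an (Nat.beq m 5) (an (Nat.blt (d i j) 256) (an (Nat.blt (d (d i j) (d j (d i j))) 256)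
              (an (bit R (pc i j)) (an (bit R (pc j (d i j)))
              (an (bit R (pc (d i j) (d j (d i j))))
                (Nat.beq (d (d j (d i j)) (d (d i j) (d j (d i j)))) i))))))))))))))))
  | .cl t u => an (Nat.blt t 256) (an (Nat.blt u 256) (an (Nat.blt (d t u) 256)
      (an (bit A t) (an (bit A u) (an (bit A (d t u)) (cyc d R t u 6 u (d t u)))))))
  | .cj t u v => an (bit R (pc t u)) (an (bit R (pc t v)) (an (bit R (pc u v))
      (an (bit R (pc (d t u) v)) (an (Nat.beq (d (d t v) (d u v)) (d (d t u) v))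
      (an (Nat.blt t 256) (an (Nat.blt u 256) (an (Nat.blt v 256) (an (Nat.blt (d t v) 256)
      (an (Nat.blt (d u v) 256) (an (Nat.blt (d t u) 256) (Nat.blt (d (d t u) v) 256)))))))))))
  | .ck t u v => an (bit R (pc (d t v) (d u v))) (an (bit R (pc t v)) (an (bit R (pc u v))
      (an (bit R (pc (d t u) v)) (an (Nat.beq (d (d t v) (d u v)) (d (d t u) v))
      (an (Nat.blt t 256) (an (Nat.blt u 256) (an (Nat.blt v 256) (an (Nat.blt (d t v) 256)
      (an (Nat.blt (d u v) 256) (an (Nat.blt (d t u) 256) (Nat.blt (d (d t u) v) 256)))))))))))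
  | .ce t u v => an (bit R (pc t u)) (an (bit R (pc t v)) (an (bit R (pc u v))
      (an (bit R (pc (d t v) (d u v))) (an (Nat.beq (d (d t v) (d u v)) (d (d t u) v))
      (an (Nat.blt t 256) (an (Nat.blt u 256) (an (Nat.blt v 256) (an (Nat.blt (d t v) 256)
      (an (Nat.blt (d u v) 256) (an (Nat.blt (d t u) 256) (Nat.blt (d (d t u) v) 256)))))))))))
  | .ct t u v => an (bit R (pc t u)) (an (bit R (pc u v)) (an (bit R (pc (d t u) v))
      (an (bit R (pc (d t v) (d u v))) (an (Nat.beq (d (d t v) (d u v)) (d (d t u) v))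
      (an (Nat.blt t 256) (an (Nat.blt u 256) (an (Nat.blt v 256) (an (Nat.blt (d t v) 256)
      (an (Nat.blt (d u v) 256) (an (Nat.blt (d t u) 256) (Nat.blt (d (d t u) v) 256)))))))))))

/-- the atoms after a step -/
def nxA (A : ℕ) : Stp → ℕ
  | .dr t u => ins A (d t u)
  | .dl t _ => ins A t
  | _ => A

/-- the relations after a step -/
def nxR (R : ℕ) : Stp → ℕ
  | .dr t u => ins R (pc t u)
  | .dl t u => ins R (pc t u)
  | .bs i j m => cond (Nat.beq m 2) (ins R (pc i j))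
      (cond (Nat.beq m 3) (ins R (pc j (d i j)))
        (cond (Nat.beq m 4) (ins R (pc (d i j) (d j (d i j))))
          (ins R (pc (d j (d i j)) (d (d i j) (d j (d i j)))))))
  | .cl t u => ins R (pc t u)
  | .cj t u v => ins R (pc (d t v) (d u v))
  | .ck t u _ => ins R (pc t u)
  | .ce t u v => ins R (pc (d t u) v)
  | .ct t _ v => ins R (pc t v)

/-- run a list of steps and compare the final masks with `A1`, `R1` -/
def run (A1 R1 : ℕ) : List Stp → ℕ → ℕ → Bool
  | [], A, R => an (Nat.beq A A1) (Nat.beq R R1)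
  | s :: l, A, R => an (tst d cox A0 A R s) (run A1 R1 l (nxA d A s) (nxR d R s))

/-- braid relation of length `m` -/
def Br {G : Type*} [Group G] (m : ℕ) (x y : G) : Prop :=
  (m = 2 → x * y = y * x) ∧ (m = 3 → x * y * x = y * x * y) ∧
    (m = 4 → x * y * x * y = y * x * y * x) ∧
    (m = 5 → x * y * x * y * x = y * x * y * x * y)

/-- the meaning of the masks -/
def Inv {G : Type*} [Group G] (ga : ℕ → G) (A R : ℕ) : Prop :=
  ∀ t u, t < 256 → u < 256 → bit R (pc t u) = true →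
    bit A t = true ∧ bit A u = true ∧ bit A (d t u) = true ∧ ga t * ga u = ga u * ga (d t u)

variable {d cox A0} {G : Type*} [Group G]

theorem an_spec {a b : Bool} (h : an a b = true) : a = true ∧ b = true := by
  cases a with
  | false => exact absurd h (by simp [an])
  | true =>
    cases b with
    | false => exact absurd h (by simp [an])
    | true => exact ⟨rfl, rfl⟩

theorem pc_inj {t u t' u' : ℕ} (h1 : u < 256) (h2 : u' < 256) (h : pc t u = pc t' u') :
    t = t' ∧ u = u' := by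
  unfold pc at h
  omega

/-- a closed cycle: every pair in it, hence `ga t0 * ga u0`, has the product `ga t * ga u` -/
theorem cyc_sound {ga : ℕ → G} {A R t0 u0 n t u : ℕ} (h : Inv d ga A R)
    (hc : cyc d R t0 u0 n t u = true) : ga t * ga u = ga t0 * ga u0 := by
  induction n generalizing t u with
  | zero => exact absurd hc (by simp [cyc])
  | succ n ih =>
    unfold cyc at hc
    cases h0 : an (Nat.beq t t0) (Nat.beq u u0) with
    | true =>
      obtain ⟨h1, h2⟩ := an_spec h0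
      rw [Nat.eq_of_beq_eq_true h1, Nat.eq_of_beq_eq_true h2]
    | false =>
      rw [h0] at hc
      obtain ⟨h1, hc⟩ := an_spec hc
      obtain ⟨h2, hc⟩ := an_spec hc
      obtain ⟨h3, hc⟩ := an_spec hc
      have h4 := (h t u (Nat.le_of_ble_eq_true h1) (Nat.le_of_ble_eq_true h2) h3).2.2.2
      rw [h4, ih hc]

private theorem inv_ins {ga : ℕ → G} {A R x y : ℕ} (h : Inv d ga A R) (hy : y < 256)
    (hn : x < 256 → bit A x = true ∧ bit A y = true ∧ bit A (d x y) = true ∧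
      ga x * ga y = ga y * ga (d x y)) : Inv d ga A (ins R (pc x y)) := by
  intro t u ht hu hb
  rcases bit_ins.1 hb with e | e
  · obtain ⟨rfl, rfl⟩ := pc_inj hy hu e
    exact hn ht
  · exact h t u ht hu e

private theorem br_three {a b c : G} (r1 : a * b = b * c) (hb : a * b * a = b * a * b) :
    b * c = c * a := by
  apply mul_left_cancel (a := b)
  calc b * (b * c) = b * (a * b) := by rw [r1]
    _ = a * b * a := by rw [hb, mul_assoc]
    _ = b * c * a := by rw [r1]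
    _ = b * (c * a) := by rw [mul_assoc]

private theorem br_four {a b c e : G} (r1 : a * b = b * c) (r2 : b * c = c * e)
    (hb : a * b * a * b = b * a * b * a) : c * e = e * a := by
  have r3 : c * e = a * b := by rw [r1, r2]
  apply mul_left_cancel (a := a * b)
  calc a * b * (c * e) = a * b * (a * b) := by rw [r3]
    _ = b * a * b * a := by rw [← hb]; simp only [mul_assoc]
    _ = b * (a * b) * a := by simp only [mul_assoc]
    _ = b * (c * e) * a := by rw [r3]
    _ = b * c * e * a := by simp only [mul_assoc]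
    _ = a * b * (e * a) := by rw [← r1]; simp only [mul_assoc]

private theorem br_five {a b c e f : G} (r1 : a * b = b * c) (r2 : b * c = c * e)
    (r3 : c * e = e * f) (hb : a * b * a * b * a = b * a * b * a * b) : e * f = f * a := by
  have q2 : c * e = a * b := by rw [r1, r2]
  have q3 : e * f = a * b := by rw [← r3, q2]
  have w1 : a * b * c = a * (a * b) := by rw [mul_assoc, ← r1]
  have w3 : a * b * f = c * (a * b) := by rw [← q2, mul_assoc, q3, q2]
  apply mul_left_cancel (a := a * b * (a * b))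
  calc a * b * (a * b) * (e * f) = a * b * (a * b) * (a * b) := by rw [q3]
    _ = a * (b * a * b * a * b) := by simp only [mul_assoc]
    _ = a * (a * b * a * b * a) := by rw [hb]
    _ = a * (a * b) * (a * b) * a := by simp only [mul_assoc]
    _ = a * b * c * (a * b) * a := by rw [w1]
    _ = a * b * (c * (a * b)) * a := by simp only [mul_assoc]
    _ = a * b * (a * b * f) * a := by rw [w3]
    _ = a * b * (a * b) * (f * a) := by simp only [mul_assoc]

/-- Let `x0 = i`, `x1 = j`, `x2 = d x0 x1`, `x3 = d x1 x2`, ... .  The marked relations say that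
the products `x0 x1 = x1 x2 = ... = x(m-2) x(m-1)` are equal, `= w`, so `x(k+1) = xk⁻¹ w`, and the
braid relation of `x0`, `x1` gives `x(m-1) x0 = w`; the step checks `x0 = d x(m-2) x(m-1)`. -/
theorem bs_sound {ga : ℕ → G} {A R : ℕ} {i j m : ℕ} (h : Inv d ga A R)
    (hb : ∀ i j, bit A0 i = true → bit A0 j = true → Br (cox i j) (ga i) (ga j))
    (ht : tst d cox A0 A R (.bs i j m) = true) : Inv d ga A (nxR d R (.bs i j m)) := by
  obtain ⟨a1, ht⟩ := an_spec (show an (Nat.blt i 256) _ = true from ht)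
  obtain ⟨a2, ht⟩ := an_spec ht
  obtain ⟨a3, ht⟩ := an_spec ht
  obtain ⟨a4, ht⟩ := an_spec ht
  obtain ⟨a5, ht⟩ := an_spec ht
  obtain ⟨a6, ht⟩ := an_spec ht
  obtain ⟨a7, ht⟩ := an_spec ht
  have hi : i < 256 := (Nat.blt_eq ▸ a1)
  have hj : j < 256 := (Nat.blt_eq ▸ a2)
  have hm : m = cox i j := Nat.eq_of_beq_eq_true a7
  have hB := hb i j a3 a4
  rw [← hm] at hB
  obtain ⟨B2, B3, B4, B5⟩ := hB
  by_cases hm2 : m = 2
  · subst hm2
    have e : d i j = i := Nat.eq_of_beq_eq_true ht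
    change Inv d ga A (ins R (pc i j))
    refine inv_ins h hj fun _ => ⟨a5, a6, ?_, ?_⟩
    · rw [e]; exact a5
    · rw [e]; exact B2 rfl
  by_cases hm3 : m = 3
  · subst hm3
    have ht' : an (Nat.blt (d i j) 256) (an (bit R (pc i j)) (Nat.beq (d j (d i j)) i)) = true := ht
    obtain ⟨b1, ht'⟩ := an_spec ht'
    obtain ⟨b2, b3⟩ := an_spec ht'
    have e : d j (d i j) = i := Nat.eq_of_beq_eq_true b3
    obtain ⟨-, -, c3, c4⟩ := h i j hi hj b2
    change Inv d ga A (ins R (pc j (d i j)))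
    refine inv_ins h ((Nat.blt_eq ▸ b1)) fun _ => ⟨a6, c3, ?_, ?_⟩
    · rw [e]; exact a5
    · rw [e]; exact br_three c4 (B3 rfl)
  by_cases hm4 : m = 4
  · subst hm4
    have ht' : an (Nat.blt (d j (d i j)) 256) (an (bit R (pc i j))
        (an (bit R (pc j (d i j))) (Nat.beq (d (d i j) (d j (d i j))) i))) = true := ht
    obtain ⟨b1, ht'⟩ := an_spec ht'
    obtain ⟨b2, ht'⟩ := an_spec ht'
    obtain ⟨b3, b4⟩ := an_spec ht'
    have e : d (d i j) (d j (d i j)) = i := Nat.eq_of_beq_eq_true b4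
    obtain ⟨-, -, c3, c4⟩ := h i j hi hj b2
    change Inv d ga A (ins R (pc (d i j) (d j (d i j))))
    refine inv_ins h ((Nat.blt_eq ▸ b1)) fun h2 => ?_
    obtain ⟨-, -, g3, g4⟩ := h j (d i j) hj h2 b3
    refine ⟨c3, g3, ?_, ?_⟩
    · rw [e]; exact a5
    · rw [e]; exact br_four c4 g4 (B4 rfl)
  by_cases hm5 : m = 5
  · subst hm5
    have ht' : an (Nat.beq 5 5) (an (Nat.blt (d i j) 256)
        (an (Nat.blt (d (d i j) (d j (d i j))) 256) (an (bit R (pc i j))
        (an (bit R (pc j (d i j))) (an (bit R (pc (d i j) (d j (d i j))))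
          (Nat.beq (d (d j (d i j)) (d (d i j) (d j (d i j)))) i)))))) = true := ht
    obtain ⟨-, ht'⟩ := an_spec ht'
    obtain ⟨b0, ht'⟩ := an_spec ht'
    obtain ⟨b1, ht'⟩ := an_spec ht'
    obtain ⟨b2, ht'⟩ := an_spec ht'
    obtain ⟨b3, ht'⟩ := an_spec ht'
    obtain ⟨b4, b5⟩ := an_spec ht'
    have e : d (d j (d i j)) (d (d i j) (d j (d i j))) = i := Nat.eq_of_beq_eq_true b5
    have h2 : d i j < 256 := (Nat.blt_eq ▸ b0)
    obtain ⟨-, -, c3, c4⟩ := h i j hi hj b2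
    obtain ⟨-, -, g3, g4⟩ := h j (d i j) hj h2 b3
    change Inv d ga A (ins R (pc (d j (d i j)) (d (d i j) (d j (d i j)))))
    refine inv_ins h ((Nat.blt_eq ▸ b1)) fun h3 => ?_
    obtain ⟨-, -, k3, k4⟩ := h (d i j) (d j (d i j)) h2 h3 b4
    refine ⟨g3, k3, ?_, ?_⟩
    · rw [e]; exact a5
    · rw [e]; exact br_five c4 g4 k4 (B5 rfl)
  exfalso
  have f2 : Nat.beq m 2 = false := Bool.eq_false_iff.2 fun q => hm2 (Nat.eq_of_beq_eq_true q)
  have f3 : Nat.beq m 3 = false := Bool.eq_false_iff.2 fun q => hm3 (Nat.eq_of_beq_eq_true q)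
  have f4 : Nat.beq m 4 = false := Bool.eq_false_iff.2 fun q => hm4 (Nat.eq_of_beq_eq_true q)
  rw [f2, f3, f4] at ht
  have ht' : an (Nat.beq m 5) _ = true := ht
  exact hm5 (Nat.eq_of_beq_eq_true (an_spec ht').1)

/-- for `dr`, `dl` change the value of `ga` at the new atom (no marked relation contains it) -/
theorem dr_sound {ga : ℕ → G} {A R : ℕ} {t u : ℕ} (h : Inv d ga A R)
    (ht : tst d cox A0 A R (.dr t u) = true) :
    ∃ ga' : ℕ → G, (∀ i, bit A i = true → ga' i = ga i) ∧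
      Inv d ga' (nxA d A (.dr t u)) (nxR d R (.dr t u)) := by
  obtain ⟨h1, h2⟩ := an_spec ht
  obtain ⟨h3, h4⟩ := an_spec h2
  obtain ⟨h5, h6⟩ := an_spec h4
  obtain ⟨h7, h8⟩ := an_spec h6
  obtain ⟨h9, h10⟩ := an_spec h8
  have hu : u < 256 := by simpa using h3
  have hn : bit A (d t u) ≠ true := by
    intro hh
    rw [hh] at h10
    exact Bool.noConfusion h10
  have hA : ∀ i, bit A i = true →
      Function.update ga (d t u) ((ga u)⁻¹ * ga t * ga u) i = ga i := by
    intro i hi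
    rw [Function.update_of_ne]
    rintro rfl
    exact hn hi
  refine ⟨Function.update ga (d t u) ((ga u)⁻¹ * ga t * ga u), hA, ?_⟩
  intro t1 u1 ht1 hu1 hb
  rcases bit_ins.1 hb with hb' | hb'
  · obtain ⟨e1, e2⟩ := pc_inj hu hu1 hb'
    subst e1
    subst e2
    refine ⟨bit_ins.2 (Or.inr h7), bit_ins.2 (Or.inr h9), bit_ins.2 (Or.inl rfl), ?_⟩
    rw [hA _ h7, hA _ h9, Function.update_self]
    group
  · obtain ⟨k1, k2, k3, k4⟩ := h t1 u1 ht1 hu1 hb'
    refine ⟨bit_ins.2 (Or.inr k1), bit_ins.2 (Or.inr k2), bit_ins.2 (Or.inr k3), ?_⟩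
    rw [hA _ k1, hA _ k2, hA _ k3]
    exact k4

theorem dl_sound {ga : ℕ → G} {A R : ℕ} {t u : ℕ} (h : Inv d ga A R)
    (ht : tst d cox A0 A R (.dl t u) = true) :
    ∃ ga' : ℕ → G, (∀ i, bit A i = true → ga' i = ga i) ∧
      Inv d ga' (nxA d A (.dl t u)) (nxR d R (.dl t u)) := by
  obtain ⟨h1, h2⟩ := an_spec ht
  obtain ⟨h3, h4⟩ := an_spec h2
  obtain ⟨h5, h6⟩ := an_spec h4
  obtain ⟨h7, h8⟩ := an_spec h6
  obtain ⟨h9, h10⟩ := an_spec h8
  have hu : u < 256 := by simpa using h3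
  have hn : bit A t ≠ true := by
    intro hh
    rw [hh] at h10
    exact Bool.noConfusion h10
  have hA : ∀ i, bit A i = true →
      Function.update ga t (ga u * ga (d t u) * (ga u)⁻¹) i = ga i := by
    intro i hi
    rw [Function.update_of_ne]
    rintro rfl
    exact hn hi
  refine ⟨Function.update ga t (ga u * ga (d t u) * (ga u)⁻¹), hA, ?_⟩
  intro t1 u1 ht1 hu1 hb
  rcases bit_ins.1 hb with hb' | hb'
  · obtain ⟨e1, e2⟩ := pc_inj hu hu1 hb'
    subst e1
    subst e2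
    refine ⟨bit_ins.2 (Or.inl rfl), bit_ins.2 (Or.inr h7), bit_ins.2 (Or.inr h9), ?_⟩
    rw [hA _ h7, hA _ h9, Function.update_self]
    group
  · obtain ⟨k1, k2, k3, k4⟩ := h t1 u1 ht1 hu1 hb'
    refine ⟨bit_ins.2 (Or.inr k1), bit_ins.2 (Or.inr k2), bit_ins.2 (Or.inr k3), ?_⟩
    rw [hA _ k1, hA _ k2, hA _ k3]
    exact k4

theorem cl_sound {ga : ℕ → G} {A R : ℕ} {t u : ℕ} (h : Inv d ga A R)
    (ht : tst d cox A0 A R (.cl t u) = true) : Inv d ga A (nxR d R (.cl t u)) := by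
  unfold tst at ht
  obtain ⟨h1, ht⟩ := an_spec ht
  obtain ⟨h2, ht⟩ := an_spec ht
  obtain ⟨h3, ht⟩ := an_spec ht
  obtain ⟨h4, ht⟩ := an_spec ht
  obtain ⟨h5, ht⟩ := an_spec ht
  obtain ⟨h6, ht⟩ := an_spec ht
  intro t' u' ht' hu' hb
  rcases bit_ins.1 hb with e | e
  · obtain ⟨rfl, rfl⟩ := pc_inj (Nat.le_of_ble_eq_true h2) hu' e
    exact ⟨h4, h5, h6, (cyc_sound h ht).symm⟩
  · exact h t' u' ht' hu' e

private lemma cd4_lt {a b : ℕ} (h : Nat.blt a b = true) : a < b := by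
  simpa [Nat.blt_eq] using h

private lemma cd4_eq {a b : ℕ} (h : Nat.beq a b = true) : a = b := Nat.eq_of_beq_eq_true h

private lemma cd4_ins {ga : ℕ → G} {A R t u : ℕ} (h : Inv d ga A R) (hu : u < 256)
    (h1 : bit A t = true) (h2 : bit A u = true) (h3 : bit A (d t u) = true)
    (h4 : ga t * ga u = ga u * ga (d t u)) : Inv d ga A (ins R (pc t u)) := by
  intro t' u' ht' hu' hb
  rcases bit_ins.1 hb with h5 | h5
  · obtain ⟨rfl, rfl⟩ := pc_inj hu hu' h5
    exact ⟨h1, h2, h3, h4⟩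
  · exact h t' u' ht' hu' h5

/-- from `t u = u e`, `t v = v t1`, `u v = v u1`, `e v = v e1`: `t1 u1 = u1 e1` -/
theorem cj_sound {ga : ℕ → G} {A R : ℕ} {t u v : ℕ} (h : Inv d ga A R)
    (ht : tst d cox A0 A R (.cj t u v) = true) : Inv d ga A (nxR d R (.cj t u v)) := by
  obtain ⟨p1, ht⟩ := an_spec ht
  obtain ⟨p2, ht⟩ := an_spec ht
  obtain ⟨p3, ht⟩ := an_spec ht
  obtain ⟨p4, ht⟩ := an_spec ht
  obtain ⟨p5, ht⟩ := an_spec ht
  obtain ⟨lt, ht⟩ := an_spec ht
  obtain ⟨lu, ht⟩ := an_spec ht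
  obtain ⟨lv, ht⟩ := an_spec ht
  obtain ⟨lt1, ht⟩ := an_spec ht
  obtain ⟨lu1, ht⟩ := an_spec ht
  obtain ⟨le, le1⟩ := an_spec ht
  have p5' := cd4_eq p5
  obtain ⟨-, -, -, q1⟩ := h t u (cd4_lt lt) (cd4_lt lu) p1
  obtain ⟨-, -, b2, q2⟩ := h t v (cd4_lt lt) (cd4_lt lv) p2
  obtain ⟨-, -, b3, q3⟩ := h u v (cd4_lt lu) (cd4_lt lv) p3
  obtain ⟨-, -, b4, q4⟩ := h (d t u) v (cd4_lt le) (cd4_lt lv) p4
  refine cd4_ins h (cd4_lt lu1) b2 b3 (by rw [p5']; exact b4) ?_
  rw [p5']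
  apply mul_left_cancel (a := ga v)
  rw [← mul_assoc, ← q2, mul_assoc, ← q3, ← mul_assoc, q1, mul_assoc, q4, ← mul_assoc, q3,
    mul_assoc]

theorem ck_sound {ga : ℕ → G} {A R : ℕ} {t u v : ℕ} (h : Inv d ga A R)
    (ht : tst d cox A0 A R (.ck t u v) = true) : Inv d ga A (nxR d R (.ck t u v)) := by
  obtain ⟨p1, ht⟩ := an_spec ht
  obtain ⟨p2, ht⟩ := an_spec ht
  obtain ⟨p3, ht⟩ := an_spec ht
  obtain ⟨p4, ht⟩ := an_spec ht
  obtain ⟨p5, ht⟩ := an_spec ht
  obtain ⟨lt, ht⟩ := an_spec ht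
  obtain ⟨lu, ht⟩ := an_spec ht
  obtain ⟨lv, ht⟩ := an_spec ht
  obtain ⟨lt1, ht⟩ := an_spec ht
  obtain ⟨lu1, ht⟩ := an_spec ht
  obtain ⟨le, le1⟩ := an_spec ht
  have p5' := cd4_eq p5
  obtain ⟨-, -, -, q1⟩ := h (d t v) (d u v) (cd4_lt lt1) (cd4_lt lu1) p1
  obtain ⟨b2, -, -, q2⟩ := h t v (cd4_lt lt) (cd4_lt lv) p2
  obtain ⟨b3, -, -, q3⟩ := h u v (cd4_lt lu) (cd4_lt lv) p3
  obtain ⟨b4, -, -, q4⟩ := h (d t u) v (cd4_lt le) (cd4_lt lv) p4
  rw [p5'] at q1
  refine cd4_ins h (cd4_lt lu) b2 b3 b4 ?_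
  apply mul_right_cancel (b := ga v)
  rw [mul_assoc, q3, ← mul_assoc, q2, mul_assoc, q1, ← mul_assoc, ← q3, mul_assoc, ← q4,
    ← mul_assoc]

/-- from `t u = u e`, `t v = v t1`, `u v = v u1`, `t1 u1 = u1 e1`: `e v = v e1` -/
theorem ce_sound {ga : ℕ → G} {A R : ℕ} {t u v : ℕ} (h : Inv d ga A R)
    (ht : tst d cox A0 A R (.ce t u v) = true) : Inv d ga A (nxR d R (.ce t u v)) := by
  obtain ⟨p1, ht⟩ := an_spec ht
  obtain ⟨p2, ht⟩ := an_spec ht
  obtain ⟨p3, ht⟩ := an_spec ht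
  obtain ⟨p4, ht⟩ := an_spec ht
  obtain ⟨p5, ht⟩ := an_spec ht
  obtain ⟨lt, ht⟩ := an_spec ht
  obtain ⟨lu, ht⟩ := an_spec ht
  obtain ⟨lv, ht⟩ := an_spec ht
  obtain ⟨lt1, ht⟩ := an_spec ht
  obtain ⟨lu1, ht⟩ := an_spec ht
  obtain ⟨le, le1⟩ := an_spec ht
  have p5' := cd4_eq p5
  obtain ⟨-, -, b1, q1⟩ := h t u (cd4_lt lt) (cd4_lt lu) p1
  obtain ⟨-, c2, -, q2⟩ := h t v (cd4_lt lt) (cd4_lt lv) p2
  obtain ⟨-, -, -, q3⟩ := h u v (cd4_lt lu) (cd4_lt lv) p3
  obtain ⟨-, -, b4, q4⟩ := h (d t v) (d u v) (cd4_lt lt1) (cd4_lt lu1) p4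
  rw [p5'] at q4 b4
  refine cd4_ins h (cd4_lt lv) b1 c2 b4 ?_
  apply mul_left_cancel (a := ga u)
  rw [← mul_assoc, ← q1, mul_assoc, q3, ← mul_assoc, q2, mul_assoc, q4, ← mul_assoc, ← q3,
    mul_assoc]

/-- from `t u = u e`, `u v = v u1`, `e v = v e1`, `t1 u1 = u1 e1`: `t v = v t1` -/
theorem ct_sound {ga : ℕ → G} {A R : ℕ} {t u v : ℕ} (h : Inv d ga A R)
    (ht : tst d cox A0 A R (.ct t u v) = true) : Inv d ga A (nxR d R (.ct t u v)) := by
  obtain ⟨p1, ht⟩ := an_spec ht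
  obtain ⟨p2, ht⟩ := an_spec ht
  obtain ⟨p3, ht⟩ := an_spec ht
  obtain ⟨p4, ht⟩ := an_spec ht
  obtain ⟨p5, ht⟩ := an_spec ht
  obtain ⟨lt, ht⟩ := an_spec ht
  obtain ⟨lu, ht⟩ := an_spec ht
  obtain ⟨lv, ht⟩ := an_spec ht
  obtain ⟨lt1, ht⟩ := an_spec ht
  obtain ⟨lu1, ht⟩ := an_spec ht
  obtain ⟨le, le1⟩ := an_spec ht
  have p5' := cd4_eq p5
  obtain ⟨c1, -, -, q1⟩ := h t u (cd4_lt lt) (cd4_lt lu) p1
  obtain ⟨-, c2, -, q2⟩ := h u v (cd4_lt lu) (cd4_lt lv) p2
  obtain ⟨-, -, -, q3⟩ := h (d t u) v (cd4_lt le) (cd4_lt lv) p3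
  obtain ⟨b4, -, -, q4⟩ := h (d t v) (d u v) (cd4_lt lt1) (cd4_lt lu1) p4
  rw [p5'] at q4
  refine cd4_ins h (cd4_lt lv) c1 c2 b4 ?_
  apply mul_right_cancel (b := ga (d u v))
  rw [mul_assoc, ← q2, ← mul_assoc, q1, mul_assoc, q3, ← mul_assoc, q2, mul_assoc, ← q4,
    ← mul_assoc]

/-- one step; `hb` for the atoms in `A0` is preserved because `ga'` agrees with `ga` on `A`, which
contains `A0` -/
theorem step_sound {ga : ℕ → G} {A R : ℕ} {s : Stp} (h : Inv d ga A R)
    (hA : ∀ i, bit A0 i = true → bit A i = true)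
    (hb : ∀ i j, bit A0 i = true → bit A0 j = true → Br (cox i j) (ga i) (ga j))
    (ht : tst d cox A0 A R s = true) :
    ∃ ga' : ℕ → G, (∀ i, bit A i = true → ga' i = ga i) ∧ Inv d ga' (nxA d A s) (nxR d R s) := by
  cases s with
  | dr t u => exact dr_sound h ht
  | dl t u => exact dl_sound h ht
  | bs i j m => exact ⟨ga, fun _ _ => rfl, bs_sound h hb ht⟩
  | cl t u => exact ⟨ga, fun _ _ => rfl, cl_sound h ht⟩
  | cj t u v => exact ⟨ga, fun _ _ => rfl, cj_sound h ht⟩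
  | ck t u v => exact ⟨ga, fun _ _ => rfl, ck_sound h ht⟩
  | ce t u v => exact ⟨ga, fun _ _ => rfl, ce_sound h ht⟩
  | ct t u v => exact ⟨ga, fun _ _ => rfl, ct_sound h ht⟩

private theorem bit_nxA {A : ℕ} {s : Stp} {i : ℕ} (h : bit A i = true) :
    bit (nxA d A s) i = true := by
  cases s with
  | dr t u => exact bit_ins.mpr (Or.inr h)
  | dl t u => exact bit_ins.mpr (Or.inr h)
  | bs i j m => exact h
  | cl t u => exact h
  | cj t u v => exact h
  | ck t u v => exact h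
  | ce t u v => exact h
  | ct t u v => exact h

private theorem run_aux {A1 R1 : ℕ} {s : ℕ → G}
    (hb : ∀ i j, bit A0 i = true → bit A0 j = true → Br (cox i j) (s i) (s j)) :
    ∀ (l : List Stp) (A R : ℕ) (ga : ℕ → G), Inv d ga A R →
      (∀ i, bit A0 i = true → bit A i = true) → (∀ i, bit A0 i = true → ga i = s i) →
      run d cox A0 A1 R1 l A R = true →
      ∃ ga' : ℕ → G, (∀ i, bit A0 i = true → ga' i = s i) ∧ Inv d ga' A1 R1 := by
  intro l
  induction l with
  | nil =>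
    intro A R ga hI _ hs hr
    obtain ⟨h1, h2⟩ := an_spec hr
    have e1 : A = A1 := Nat.eq_of_beq_eq_true h1
    have e2 : R = R1 := Nat.eq_of_beq_eq_true h2
    subst e1 e2
    exact ⟨ga, hs, hI⟩
  | cons st l ih =>
    intro A R ga hI hA hs hr
    obtain ⟨h1, h2⟩ := an_spec hr
    have hb' : ∀ i j, bit A0 i = true → bit A0 j = true → Br (cox i j) (ga i) (ga j) := by
      intro i j hi hj
      rw [hs i hi, hs j hj]
      exact hb i j hi hj
    obtain ⟨ga1, hg, hI1⟩ := step_sound hI hA hb' h1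
    exact ih _ _ ga1 hI1 (fun i hi => bit_nxA (hA i hi))
      (fun i hi => (hg i (hA i hi)).trans (hs i hi)) h2

/-- induction on the list of steps -/
theorem run_sound {l : List Stp} {A1 R1 : ℕ} {s : ℕ → G}
    (hb : ∀ i j, bit A0 i = true → bit A0 j = true → Br (cox i j) (s i) (s j))
    (h : run d cox A0 A1 R1 l A0 0 = true) :
    ∃ ga : ℕ → G, (∀ i, bit A0 i = true → ga i = s i) ∧ Inv d ga A1 R1 := by
  refine run_aux hb l A0 0 s ?_ (fun _ h => h) (fun _ _ => rfl) h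
  intro t u _ _ hb0
  rw [bit_zero] at hb0
  exact absurd hb0 (by simp)

end CD

end Pool.Agent.SPH
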