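import Pool.Agent.SPH.CD

/-!
# Project SPH, piece SPH-CD6: more about the certificates of `CD.lean`
-/

namespace Pool.Agent.SPH.CD

variable {d cox : ℕ → ℕ → ℕ} {A0 : ℕ} {G : Type*} [Group G]

private theorem cj_mono {A : ℕ} {s : Stp} {i : ℕ} (h : bit A i = true) :
    bit (nxA d A s) i = true := by
  cases s with
  | dr t u => exact bit_ins.mpr (Or.inr h)
  | dl t u => exact bit_ins.mpr (Or.inr h)
  | _ => exact h

private theorem cj_blt {a b : ℕ} (h : Nat.blt a b = true) : a < b := Nat.le_of_ble_eq_true h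

/-- one step with the conjugacy invariant -/
private theorem cj_step {ga s : ℕ → G} {A R : ℕ} {st : Stp} (h : Inv d ga A R)
    (hA : ∀ i, bit A0 i = true → bit A i = true)
    (hb : ∀ i j, bit A0 i = true → bit A0 j = true → Br (cox i j) (ga i) (ga j))
    (hc : ∀ t, bit A t = true → ∃ i, bit A0 i = true ∧ IsConj (s i) (ga t))
    (ht : tst d cox A0 A R st = true) :
    ∃ ga' : ℕ → G, (∀ i, bit A i = true → ga' i = ga i) ∧
      Inv d ga' (nxA d A st) (nxR d R st) ∧
      ∀ t, bit (nxA d A st) t = true → ∃ i, bit A0 i = true ∧ IsConj (s i) (ga' t) := by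
  obtain ⟨ga', h1, h2⟩ := step_sound h hA hb ht
  refine ⟨ga', h1, h2, ?_⟩
  have hold : ∀ t, bit A t = true → ∃ i, bit A0 i = true ∧ IsConj (s i) (ga' t) := by
    intro t hta
    rw [h1 t hta]
    exact hc t hta
  cases st with
  | dr t u =>
    intro j hj
    rcases bit_ins.mp hj with rfl | hj'
    · obtain ⟨t1, ht⟩ := an_spec ht
      obtain ⟨t2, ht⟩ := an_spec ht
      obtain ⟨t3, ht⟩ := an_spec ht
      obtain ⟨t4, ht⟩ := an_spec ht
      obtain ⟨_, _, _, hrel⟩ := h2 t u (cj_blt t1) (cj_blt t2) (bit_ins.mpr (Or.inl rfl))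
      obtain ⟨i, hi, hi'⟩ := hold t t4
      refine ⟨i, hi, hi'.trans ?_⟩
      rw [isConj_iff]
      exact ⟨(ga' u)⁻¹, by rw [inv_inv, mul_assoc, hrel, inv_mul_cancel_left]⟩
    · exact hold j hj'
  | dl t u =>
    intro j hj
    rcases bit_ins.mp hj with rfl | hj'
    · obtain ⟨t1, ht⟩ := an_spec ht
      obtain ⟨t2, ht⟩ := an_spec ht
      obtain ⟨t3, ht⟩ := an_spec ht
      obtain ⟨t4, ht⟩ := an_spec ht
      obtain ⟨t5, ht⟩ := an_spec ht
      obtain ⟨_, _, _, hrel⟩ := h2 t u (cj_blt t1) (cj_blt t2) (bit_ins.mpr (Or.inl rfl))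
      obtain ⟨i, hi, hi'⟩ := hold (d t u) t5
      refine ⟨i, hi, hi'.trans ?_⟩
      rw [isConj_iff]
      exact ⟨ga' u, by rw [← hrel, mul_inv_cancel_right]⟩
    · exact hold j hj'
  | _ => exact hold

private theorem cj_aux {A1 R1 : ℕ} {s : ℕ → G}
    (hb : ∀ i j, bit A0 i = true → bit A0 j = true → Br (cox i j) (s i) (s j)) :
    ∀ (l : List Stp) (A R : ℕ) (ga : ℕ → G), Inv d ga A R →
      (∀ i, bit A0 i = true → bit A i = true) → (∀ i, bit A0 i = true → ga i = s i) →
      (∀ t, bit A t = true → ∃ i, bit A0 i = true ∧ IsConj (s i) (ga t)) →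
      run d cox A0 A1 R1 l A R = true →
      ∃ ga' : ℕ → G, (∀ i, bit A0 i = true → ga' i = s i) ∧ Inv d ga' A1 R1 ∧
        ∀ t, bit A1 t = true → ∃ i, bit A0 i = true ∧ IsConj (s i) (ga' t) := by
  intro l
  induction l with
  | nil =>
    intro A R ga hI _ hs hc hr
    obtain ⟨h1, h2⟩ := an_spec hr
    have e1 : A = A1 := Nat.eq_of_beq_eq_true h1
    have e2 : R = R1 := Nat.eq_of_beq_eq_true h2
    subst e1 e2
    exact ⟨ga, hs, hI, hc⟩
  | cons st l ih =>
    intro A R ga hI hA hs hc hr
    obtain ⟨h1, h2⟩ := an_spec hr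
    have hb' : ∀ i j, bit A0 i = true → bit A0 j = true → Br (cox i j) (ga i) (ga j) := by
      intro i j hi hj
      rw [hs i hi, hs j hj]
      exact hb i j hi hj
    obtain ⟨ga1, hg, hI1, hc1⟩ := cj_step hI hA hb' hc h1
    exact ih _ _ ga1 hI1 (fun i hi => cj_mono (hA i hi))
      (fun i hi => (hg i (hA i hi)).trans (hs i hi)) hc1 h2

/-- `run_sound` with more information: every `ga t` is conjugate to one of the `s i`.  (Repeat the
induction of `run_sound` with this additional invariant: in the steps `dr t u` and `dl t u` the new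
relation `ga' t * ga' u = ga' u * ga' (d t u)` of `Inv` says that `ga' t` and `ga' (d t u)` are
conjugate, one of them is the new atom, the other one is old; the other steps do not change `A`.) -/
theorem run_conj {l : List Stp} {A1 R1 : ℕ} {s : ℕ → G}
    (hb : ∀ i j, bit A0 i = true → bit A0 j = true → Br (cox i j) (s i) (s j))
    (h : run d cox A0 A1 R1 l A0 0 = true) :
    ∃ ga : ℕ → G, (∀ i, bit A0 i = true → ga i = s i) ∧ Inv d ga A1 R1 ∧
      ∀ t, bit A1 t = true → ∃ i, bit A0 i = true ∧ IsConj (s i) (ga t) := by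
  refine cj_aux hb l A0 0 s ?_ (fun _ h => h) (fun _ _ => rfl) (fun t ht => ⟨t, ht, IsConj.refl _⟩) h
  intro t u _ _ hb0
  rw [bit_zero] at hb0
  exact absurd hb0 (by simp)

private theorem rm_bitA {A : ℕ} {s : Stp} {i : ℕ} (h : bit A i = true) :
    bit (nxA d A s) i = true := by
  cases s with
  | dr t u => exact bit_ins.mpr (Or.inr h)
  | dl t u => exact bit_ins.mpr (Or.inr h)
  | bs i j m => exact h
  | cl t u => exact h
  | cj t u v => exact h
  | ck t u v => exact h
  | ce t u v => exact h
  | ct t u v => exact h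

private theorem rm_bitR {R : ℕ} {s : Stp} {i : ℕ} (h : bit R i = true) :
    bit (nxR d R s) i = true := by
  cases s with
  | dr t u => exact bit_ins.mpr (Or.inr h)
  | dl t u => exact bit_ins.mpr (Or.inr h)
  | bs i j m =>
    change bit (cond (Nat.beq m 2) (ins R (pc i j))
      (cond (Nat.beq m 3) (ins R (pc j (d i j)))
        (cond (Nat.beq m 4) (ins R (pc (d i j) (d j (d i j))))
          (ins R (pc (d j (d i j)) (d (d i j) (d j (d i j)))))))) _ = true
    cases Nat.beq m 2 with
    | true => exact bit_ins.mpr (Or.inr h)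
    | false =>
      cases Nat.beq m 3 with
      | true => exact bit_ins.mpr (Or.inr h)
      | false =>
        cases Nat.beq m 4 with
        | true => exact bit_ins.mpr (Or.inr h)
        | false => exact bit_ins.mpr (Or.inr h)
  | cl t u => exact bit_ins.mpr (Or.inr h)
  | cj t u v => exact bit_ins.mpr (Or.inr h)
  | ck t u v => exact bit_ins.mpr (Or.inr h)
  | ce t u v => exact bit_ins.mpr (Or.inr h)
  | ct t u v => exact bit_ins.mpr (Or.inr h)

/-- The masks only grow. -/
theorem run_mono {l : List Stp} {A1 R1 A R : ℕ} (h : run d cox A0 A1 R1 l A R = true) :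
    (∀ i, bit A i = true → bit A1 i = true) ∧ ∀ i, bit R i = true → bit R1 i = true := by
  induction l generalizing A R with
  | nil =>
    obtain ⟨h1, h2⟩ := an_spec h
    have e1 : A = A1 := Nat.eq_of_beq_eq_true h1
    have e2 : R = R1 := Nat.eq_of_beq_eq_true h2
    subst e1 e2
    exact ⟨fun _ q => q, fun _ q => q⟩
  | cons st l ih =>
    obtain ⟨h1, h2⟩ := an_spec h
    obtain ⟨k1, k2⟩ := ih h2
    exact ⟨fun i q => k1 i (rm_bitA q), fun i q => k2 i (rm_bitR q)⟩

/-- Two families `X`, `Y` which satisfy all the relations in `R1` and agree on `A0` agree on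
`A1`: induction on the list of steps (for a general start `A`, `R`), the new atom of a step `dr` or
`dl` is determined by the new relation, which is in `R1` by `run_mono`. -/
theorem run_unique {l : List Stp} {A1 R1 A R : ℕ} {X Y : ℕ → G}
    (h : run d cox A0 A1 R1 l A R = true)
    (hX : ∀ t u, t < 256 → u < 256 → bit R1 (pc t u) = true → X t * X u = X u * X (d t u))
    (hY : ∀ t u, t < 256 → u < 256 → bit R1 (pc t u) = true → Y t * Y u = Y u * Y (d t u))
    (h0 : ∀ i, bit A i = true → X i = Y i) : ∀ i, bit A1 i = true → X i = Y i := by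
  induction l generalizing A R with
  | nil =>
    obtain ⟨h1, h2⟩ := an_spec h
    have e1 : A = A1 := Nat.eq_of_beq_eq_true h1
    subst e1
    exact h0
  | cons st l ih =>
    obtain ⟨h1, h2⟩ := an_spec h
    refine ih h2 ?_
    obtain ⟨k1, k2⟩ := run_mono h2
    cases st with
    | dr t u =>
      obtain ⟨a1, b1⟩ := an_spec h1
      obtain ⟨a2, b2⟩ := an_spec b1
      obtain ⟨a3, b3⟩ := an_spec b2
      obtain ⟨a4, b4⟩ := an_spec b3
      obtain ⟨a5, b5⟩ := an_spec b4
      have ht : t < 256 := by simpa using a1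
      have hu : u < 256 := by simpa using a2
      have hR : bit R1 (pc t u) = true := k2 _ (bit_ins.mpr (Or.inl rfl))
      intro i hi
      rcases bit_ins.1 hi with e | e
      · subst e
        have e1 := hX t u ht hu hR
        have e2 := hY t u ht hu hR
        rw [h0 t a4, h0 u a5] at e1
        exact mul_left_cancel (e1.symm.trans e2)
      · exact h0 i e
    | dl t u =>
      obtain ⟨a1, b1⟩ := an_spec h1
      obtain ⟨a2, b2⟩ := an_spec b1
      obtain ⟨a3, b3⟩ := an_spec b2
      obtain ⟨a4, b4⟩ := an_spec b3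
      obtain ⟨a5, b5⟩ := an_spec b4
      have ht : t < 256 := by simpa using a1
      have hu : u < 256 := by simpa using a2
      have hR : bit R1 (pc t u) = true := k2 _ (bit_ins.mpr (Or.inl rfl))
      intro i hi
      rcases bit_ins.1 hi with e | e
      · subst e
        have e1 := hX t u ht hu hR
        have e2 := hY t u ht hu hR
        rw [h0 u a4, h0 (d t u) a5] at e1
        exact mul_right_cancel (e1.trans e2.symm)
      · exact h0 i e
    | bs i j m => exact h0
    | cl t u => exact h0
    | cj t u v => exact h0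
    | ck t u v => exact h0
    | ce t u v => exact h0
    | ct t u v => exact h0

/-- the test for the braid relation of length `m` of the atoms `i`, `j`: with `x0 = i`, `x1 = j`,
`x(k+2) = d xk x(k+1)` the pairs `x0 x1`, ..., `x(m-2) x(m-1)` are in `R` and `xm = x0` -/
def brc (d : ℕ → ℕ → ℕ) (R : ℕ) (m i j : ℕ) : Bool :=
  an (Nat.blt i 256) (an (Nat.blt j 256) (an (Nat.blt (d i j) 256)
  (an (Nat.blt (d j (d i j)) 256) (an (Nat.blt (d (d i j) (d j (d i j))) 256)
  (an (bit R (pc i j)) (cond (Nat.beq m 2) (Nat.beq (d i j) i)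
    (an (bit R (pc j (d i j))) (cond (Nat.beq m 3) (Nat.beq (d j (d i j)) i)
      (an (bit R (pc (d i j) (d j (d i j))))
        (cond (Nat.beq m 4) (Nat.beq (d (d i j) (d j (d i j))) i)
          (an (bit R (pc (d j (d i j)) (d (d i j) (d j (d i j)))))
            (an (Nat.beq m 5)
              (Nat.beq (d (d j (d i j)) (d (d i j) (d j (d i j)))) i)))))))))))))

/-- all products `x0 x1 = x1 x2 = ... = x(m-1) x0` are equal, so for `m = 3`:
`x0 x1 x0 = x1 x2 x0 = x1 x0 x1`, and similarly for `m = 4`, `5` -/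
theorem brc_sound {R m i j : ℕ} {X : ℕ → G} (h : brc d R m i j = true)
    (hX : ∀ t u, t < 256 → u < 256 → bit R (pc t u) = true → X t * X u = X u * X (d t u)) :
    Br m (X i) (X j) := by
  have hlt : ∀ {a b : ℕ}, Nat.blt a b = true → a < b := fun h => Eq.mp Nat.blt_eq h
  unfold brc at h
  obtain ⟨hi, h⟩ := an_spec h
  obtain ⟨hj, h⟩ := an_spec h
  obtain ⟨h2, h⟩ := an_spec h
  obtain ⟨h3, h⟩ := an_spec h
  obtain ⟨h4, h⟩ := an_spec h
  obtain ⟨b0, h⟩ := an_spec h
  have r0 := hX i j (hlt hi) (hlt hj) b0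
  by_cases m2 : m = 2
  · subst m2
    have e : d i j = i := Nat.eq_of_beq_eq_true h
    rw [e] at r0
    exact ⟨fun _ => r0, fun h => by omega, fun h => by omega, fun h => by omega⟩
  have n2 : Nat.beq m 2 = false := by
    rw [← Bool.not_eq_true]
    exact fun h' => m2 (Nat.eq_of_beq_eq_true h')
  rw [n2] at h
  change an _ _ = true at h
  obtain ⟨b1, h⟩ := an_spec h
  have r1 := hX j (d i j) (hlt hj) (hlt h2) b1
  by_cases m3 : m = 3
  · subst m3
    have e : d j (d i j) = i := Nat.eq_of_beq_eq_true h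
    rw [e] at r1
    refine ⟨fun h => by omega, fun _ => ?_, fun h => by omega, fun h => by omega⟩
    calc X i * X j * X i = X j * X (d i j) * X i := by rw [r0]
      _ = X j * (X (d i j) * X i) := by rw [mul_assoc]
      _ = X j * (X i * X j) := by rw [← r1, ← r0]
      _ = X j * X i * X j := by rw [mul_assoc]
  have n3 : Nat.beq m 3 = false := by
    rw [← Bool.not_eq_true]
    exact fun h' => m3 (Nat.eq_of_beq_eq_true h')
  rw [n3] at h
  change an _ _ = true at h
  obtain ⟨b2, h⟩ := an_spec h
  have r2 := hX (d i j) (d j (d i j)) (hlt h2) (hlt h3) b2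
  by_cases m4 : m = 4
  · subst m4
    have e : d (d i j) (d j (d i j)) = i := Nat.eq_of_beq_eq_true h
    rw [e] at r2
    refine ⟨fun h => by omega, fun h => by omega, fun _ => ?_, fun h => by omega⟩
    calc X i * X j * X i * X j = (X i * X j) * (X i * X j) := by simp only [mul_assoc]
      _ = (X j * X (d i j)) * (X (d j (d i j)) * X i) := by rw [← r2, ← r1, ← r0]
      _ = X j * (X (d i j) * X (d j (d i j))) * X i := by simp only [mul_assoc]
      _ = X j * (X i * X j) * X i := by rw [← r1, ← r0]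
      _ = X j * X i * X j * X i := by simp only [mul_assoc]
  have n4 : Nat.beq m 4 = false := by
    rw [← Bool.not_eq_true]
    exact fun h' => m4 (Nat.eq_of_beq_eq_true h')
  rw [n4] at h
  change an _ _ = true at h
  obtain ⟨b3, h⟩ := an_spec h
  have r3 := hX (d j (d i j)) (d (d i j) (d j (d i j))) (hlt h3) (hlt h4) b3
  obtain ⟨m5, h⟩ := an_spec h
  have m5' : m = 5 := Nat.eq_of_beq_eq_true m5
  subst m5'
  have e : d (d j (d i j)) (d (d i j) (d j (d i j))) = i := Nat.eq_of_beq_eq_true h
  rw [e] at r3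
  refine ⟨fun h => by omega, fun h => by omega, fun h => by omega, fun _ => ?_⟩
  calc X i * X j * X i * X j * X i = (X i * X j) * (X i * X j) * X i := by
        simp only [mul_assoc]
    _ = (X j * X (d i j)) * (X (d j (d i j)) * X (d (d i j) (d j (d i j)))) * X i := by
        rw [← r2, ← r1, ← r0]
    _ = X j * (X (d i j) * X (d j (d i j))) * (X (d (d i j) (d j (d i j))) * X i) := by
        simp only [mul_assoc]
    _ = X j * (X i * X j) * (X i * X j) := by rw [← r3, ← r2, ← r1, ← r0]
    _ = X j * X i * X j * X i * X j := by simp only [mul_assoc]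

theorem Br.symm {m : ℕ} {x y : G} (h : Br m x y) : Br m y x :=
  ⟨fun e => (h.1 e).symm, fun e => (h.2.1 e).symm, fun e => (h.2.2.1 e).symm,
    fun e => (h.2.2.2 e).symm⟩

end Pool.Agent.SPH.CD
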