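import Pool.Agent.SPH.Germ1

/-!
# Project SPH, piece SPH-A2: the twist and left weighted products
-/

namespace Pool.Agent.SPH.Germ

variable {S : Type*} [Lattice S] [BoundedOrder S] (E : Germ S)

private lemma aux_K {x y : S} (h : x ≤ y) :
    E.K y ≤ E.K (E.q x y) ∧ E.q (E.K y) (E.K (E.q x y)) = E.tau x := by
  have h1 := E.q_le_K h
  have h2 := E.q_K h
  refine ⟨?_, ?_⟩
  · rw [← h2]
    exact E.q_mono h1 le_top
  · rw [← h2]
    exact E.q_q h1 le_top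

/-- Let `x ≤ y`, `t = q x y`.  Then `q t (K x) = K y` (`q_K`) and `q_mono` for `t ≤ K x ≤ ⊤` gives
`K y ≤ K t`; `q_q` for `t ≤ K x ≤ ⊤` gives `q (K y) (K t) = q (K x) ⊤ = tau x`.  Apply `q_mono`
to `K y ≤ K t ≤ ⊤`: `tau x = q (K y) (K t) ≤ q (K y) ⊤ = tau y`. -/
theorem tau_mono {x y : S} (h : x ≤ y) : E.tau x ≤ E.tau y := by
  obtain ⟨h1, h2⟩ := aux_K E h
  rw [← h2]
  exact E.q_mono h1 le_top

/-- With the notation of `tau_mono`: `q_q` for `K y ≤ K t ≤ ⊤` is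
`q (tau x) (tau y) = q (K t) ⊤ = tau t`. -/
theorem tau_q {x y : S} (h : x ≤ y) : E.tau (E.q x y) = E.q (E.tau x) (E.tau y) := by
  obtain ⟨h1, h2⟩ := aux_K E h
  rw [← h2]
  exact (E.q_q h1 le_top).symm

/-- `tau_mono` and `tau^[m] = id`. -/
theorem tau_le_iff {x y : S} : E.tau x ≤ E.tau y ↔ x ≤ y := by
  refine ⟨fun h => ?_, E.tau_mono⟩
  have hm : Monotone E.tau := fun _ _ h => E.tau_mono h
  obtain ⟨n, hn⟩ : ∃ n, E.m = n + 1 := ⟨E.m - 1, by have := E.m_pos; omega⟩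
  rw [← E.tau_pow x, ← E.tau_pow y, hn, Function.iterate_succ_apply, Function.iterate_succ_apply]
  exact hm.iterate n h

theorem tau_K (x : S) : E.tau (E.K x) = E.K (E.tau x) := rfl

theorem tau_inf (x y : S) : E.tau (x ⊓ y) = E.tau x ⊓ E.tau y := by
  apply le_antisymm
  · exact le_inf (E.tau_mono inf_le_left) (E.tau_mono inf_le_right)
  · obtain ⟨w, hw⟩ := E.tau_bij.surjective (E.tau x ⊓ E.tau y)
    rw [← hw, E.tau_le_iff]
    apply le_inf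
    · rw [← E.tau_le_iff, hw]
      exact inf_le_left
    · rw [← E.tau_le_iff, hw]
      exact inf_le_right

theorem tau_sup (x y : S) : E.tau (x ⊔ y) = E.tau x ⊔ E.tau y := by
  apply le_antisymm
  · obtain ⟨w, hw⟩ := E.tau_bij.surjective (E.tau x ⊔ E.tau y)
    rw [← hw, E.tau_le_iff]
    apply sup_le
    · rw [← E.tau_le_iff, hw]
      exact le_sup_left
    · rw [← E.tau_le_iff, hw]
      exact le_sup_right
  · exact sup_le (E.tau_mono le_sup_left) (E.tau_mono le_sup_right)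

theorem tau_mul {x t : S} (h : t ≤ E.K x) : E.tau (E.mul x t) = E.mul (E.tau x) (E.tau t) := by
  have h1 : E.tau t ≤ E.K (E.tau x) := E.tau_mono h
  refine ((E.mul_eq_iff h1).2 ⟨E.tau_mono (E.le_mul h), ?_⟩).symm
  rw [← E.tau_q (E.le_mul h), E.q_mul h]

/-- `rk x + rk (K x) = rk ⊤`, twice. -/
theorem rk_tau (x : S) : E.rk (E.tau x) = E.rk x := by
  have h1 : E.rk ⊤ = E.rk x + E.rk (E.K x) := E.rk_q le_top
  have h2 : E.rk ⊤ = E.rk (E.K x) + E.rk (E.tau x) := E.rk_q le_top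
  omega

/-- There is `t` with `t s = δ`: `K` is surjective, `K t = s`. -/
theorem exists_left (s : S) : ∃ t, s ≤ E.K t ∧ E.mul t s = ⊤ := by
  obtain ⟨t, rfl⟩ := E.K_bij.surjective s
  exact ⟨t, le_rfl, E.mul_K t⟩

/-- right cancellation: `q (q x z) (K x) = K z = q (q y z) (K y)`, so `K x = K y` by `q_inj`
if `q x z = q y z`. -/
theorem q_right_inj {x y z : S} (h1 : x ≤ z) (h2 : y ≤ z) (h : E.q x z = E.q y z) : x = y := by
  have e1 := E.q_K h1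
  have e2 := E.q_K h2
  have l1 := E.q_le_K h1
  have l2 := E.q_le_K h2
  rw [← h] at e2 l2
  exact E.K_bij.injective (E.q_inj l1 l2 (e1.trans e2.symm))

/-- `mul x (tl s x) ...`: `x = (K s ⊓ x) (tl s x)` -/
theorem mul_tl (s x : S) : E.mul (E.K s ⊓ x) (E.tl s x) = x := by
  exact E.mul_q inf_le_right

theorem tl_le (s x : S) : E.tl s x ≤ E.K (E.K s ⊓ x) := by
  exact E.q_le_K inf_le_right

theorem le_hd (s x : S) : s ≤ E.hd s x := by
  exact E.le_mul inf_le_left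

/-- `K (hd s x) = q m (K s)`, `tl s x = q m x` with `m = K s ⊓ x`; `q_inf`. -/
theorem weighted (s x : S) : E.K (E.hd s x) ⊓ E.tl s x = ⊥ := by
  have hm : E.K s ⊓ x ≤ E.K s := inf_le_left
  have h1 : E.K (E.hd s x) = E.q (E.K s ⊓ x) (E.K s) := E.K_mul hm
  have h2 : E.tl s x = E.q (E.K s ⊓ x) x := rfl
  rw [h1, h2, ← E.q_inf inf_le_left inf_le_right]
  exact E.q_self _

theorem hd_bot (x : S) : E.hd ⊥ x = x := by
  have h : E.hd ⊥ x = E.mul ⊥ (E.K ⊥ ⊓ x) := rfl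
  rw [h, E.K_bot, top_inf_eq, E.bot_mul]

theorem tl_bot (x : S) : E.tl ⊥ x = ⊥ := by
  have h : E.tl ⊥ x = E.q (E.K ⊥ ⊓ x) x := rfl
  rw [h, E.K_bot, top_inf_eq, E.q_self]

theorem hd_top (s : S) : E.hd s ⊤ = ⊤ := by
  have h : E.hd s ⊤ = E.mul s (E.K s ⊓ ⊤) := rfl
  rw [h, inf_top_eq, E.mul_K]

/-- `tl s ⊤ = q (K s) ⊤ = tau s` -/
theorem tl_top (s : S) : E.tl s ⊤ = E.tau s := by
  have h : E.tl s ⊤ = E.q (E.K s ⊓ ⊤) ⊤ := rfl
  rw [h, inf_top_eq]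
  rfl

theorem hd_of_weighted {x y : S} (h : E.K x ⊓ y = ⊥) : E.hd x y = x := by
  have h1 : E.hd x y = E.mul x (E.K x ⊓ y) := rfl
  rw [h1, h, E.mul_bot]

theorem tl_of_weighted {x y : S} (h : E.K x ⊓ y = ⊥) : E.tl x y = y := by
  have h1 : E.tl x y = E.q (E.K x ⊓ y) y := rfl
  rw [h1, h, E.q_bot]

theorem hd_of_le {s t : S} (h : t ≤ E.K s) : E.hd s t = E.mul s t := by
  have h1 : E.hd s t = E.mul s (E.K s ⊓ t) := rfl
  rw [h1, inf_eq_right.2 h]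

theorem tl_of_le {s t : S} (h : t ≤ E.K s) : E.tl s t = ⊥ := by
  have h1 : E.tl s t = E.q (E.K s ⊓ t) t := rfl
  rw [h1, inf_eq_right.2 h, E.q_self]

/-- `s ≤ hd s x`, and if `s = ⊥` then `hd s x = x`. -/
theorem hd_ne_bot {s x : S} (h : x ≠ ⊥) : E.hd s x ≠ ⊥ := by
  intro h1
  have h2 : s ≤ ⊥ := by
    rw [← h1]
    exact E.le_hd s x
  have h3 : s = ⊥ := le_bot_iff.1 h2
  subst h3
  rw [E.hd_bot] at h1
  exact h h1

/-- THE DOMINO RULE.  Let `m = K s ⊓ x`, `u = hd s x = s m`, `t = tl s x` (so `x = m t`),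
`n = K t ⊓ y` and `z = K u ⊓ (t n)`.  To show: `z = ⊥`.  `K u = q m (K s)`, `K u ⊓ t = ⊥`
(`weighted`).  `z ⊔ t ≤ t n`, so `q t (z ⊔ t) ≤ n ≤ y` (`q_le_iff`, `q_mul`).  `z ≤ K u ≤ K m`
and `t ≤ K m` (`tl_le`), so `z ⊔ t ≤ K m`; put `w = m (z ⊔ t) ≥ m t = x`; by `q_q` applied to
`m ≤ x ≤ w`: `q x w = q (q m x) (q m w) = q t (z ⊔ t)`, so `q t (z ⊔ t) ≤ K x` (`q_le_K`).
So `q t (z ⊔ t) ≤ K x ⊓ y = ⊥`, `z ⊔ t = t` (`q_eq_bot`), `z ≤ t`, `z ≤ K u ⊓ t = ⊥`. -/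
theorem domino (s : S) {x y : S} (h : E.K x ⊓ y = ⊥) :
    E.K (E.hd s x) ⊓ E.hd (E.tl s x) y = ⊥ := by
  obtain ⟨m, hm⟩ : ∃ m, m = E.K s ⊓ x := ⟨_, rfl⟩
  obtain ⟨t, ht⟩ : ∃ t, t = E.tl s x := ⟨_, rfl⟩
  obtain ⟨u, hu⟩ : ∃ u, u = E.hd s x := ⟨_, rfl⟩
  have hmK : m ≤ E.K s := by rw [hm]; exact inf_le_left
  have hmx : m ≤ x := by rw [hm]; exact inf_le_right
  have htm : t = E.q m x := by rw [ht, hm]; rfl
  have hum : u = E.mul s m := by rw [hu, hm]; rfl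
  have hKu : E.K u = E.q m (E.K s) := by rw [hum]; exact E.K_mul hmK
  have hw : E.K u ⊓ t = ⊥ := by rw [hu, ht]; exact E.weighted s x
  have htK : t ≤ E.K m := by rw [htm]; exact E.q_le_K hmx
  have hKuK : E.K u ≤ E.K m := by rw [hKu]; exact E.q_le_K hmK
  rw [← ht, ← hu]
  have hn : E.K t ⊓ y ≤ E.K t := inf_le_left
  have hd1 : E.hd t y = E.mul t (E.K t ⊓ y) := rfl
  rw [hd1]
  obtain ⟨z, hz⟩ : ∃ z, z = E.K u ⊓ E.mul t (E.K t ⊓ y) := ⟨_, rfl⟩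
  rw [← hz]
  have hzu : z ≤ E.K u := by rw [hz]; exact inf_le_left
  have hzn : z ≤ E.mul t (E.K t ⊓ y) := by rw [hz]; exact inf_le_right
  have htn : t ≤ E.mul t (E.K t ⊓ y) := E.le_mul hn
  have hzt : z ⊔ t ≤ E.mul t (E.K t ⊓ y) := sup_le hzn htn
  have h1 : E.q t (z ⊔ t) ≤ y := by
    have h2 : E.q t (z ⊔ t) ≤ E.q t (E.mul t (E.K t ⊓ y)) :=
      (E.q_le_iff le_sup_right htn).2 hzt
    rw [E.q_mul hn] at h2
    exact h2.trans inf_le_right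
  have hztm : z ⊔ t ≤ E.K m := sup_le (hzu.trans hKuK) htK
  have h3 : E.mul m t = x := by rw [htm]; exact E.mul_q hmx
  have hxw : x ≤ E.mul m (z ⊔ t) := by
    rw [← h3]
    exact (E.mul_le_mul htK hztm).2 le_sup_right
  have h4 : E.q t (z ⊔ t) ≤ E.K x := by
    have h5 := E.q_q hmx hxw
    rw [← htm, E.q_mul hztm] at h5
    rw [h5]
    exact E.q_le_K hxw
  have h6 : E.q t (z ⊔ t) = ⊥ := by
    have h7 : E.q t (z ⊔ t) ≤ E.K x ⊓ y := le_inf h4 h1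
    rw [h] at h7
    exact le_bot_iff.1 h7
  have h8 : t = z ⊔ t := E.q_eq_bot le_sup_right h6
  have h9 : z ≤ t := by
    rw [h8]
    exact le_sup_left
  have h10 : z ≤ E.K u ⊓ t := le_inf hzu h9
  rw [hw] at h10
  exact le_bot_iff.1 h10

/-- with `t ≤ K s`: `K s ⊓ hd t x = t (K (s t) ⊓ x)` -/
private theorem key_inf {s t : S} (h : t ≤ E.K s) (x : S) :
    E.K s ⊓ E.hd t x = E.mul t (E.K (E.mul s t) ⊓ x) := by
  have hKu : E.K (E.mul s t) = E.q t (E.K s) := E.K_mul h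
  have hKuK : E.K (E.mul s t) ≤ E.K t := by rw [hKu]; exact E.q_le_K h
  have hm : E.K t ⊓ x ≤ E.K t := inf_le_left
  have hm' : E.K (E.mul s t) ⊓ x ≤ E.K t := inf_le_left.trans hKuK
  have h1 : E.hd t x = E.mul t (E.K t ⊓ x) := rfl
  have h2 : t ≤ E.mul t (E.K t ⊓ x) := E.le_mul hm
  rw [h1]
  refine E.q_inj (le_inf h h2) (E.le_mul hm') ?_
  rw [E.q_inf h h2, E.q_mul hm, E.q_mul hm', ← hKu, ← inf_assoc, inf_eq_left.2 hKuK]

/-- ASSOCIATIVITY.  `t ≤ K s`, `u = s t`, so `K u = q t (K s) ≤ K t`.  Let `m = K t ⊓ x`,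
`h = hd t x = t m`.  `K s ⊓ t m = t (K u ⊓ m) = t (K u ⊓ x)` (`q_inf` with `q t`), so
`hd s h = s (t (K u ⊓ x)) = u (K u ⊓ x)` (`mul_assoc''`). -/
theorem hd_hd {s t : S} (h : t ≤ E.K s) (x : S) :
    E.hd s (E.hd t x) = E.hd (E.mul s t) x := by
  have hKu : E.K (E.mul s t) = E.q t (E.K s) := E.K_mul h
  have hKuK : E.K (E.mul s t) ≤ E.K t := by rw [hKu]; exact E.q_le_K h
  have hm' : E.K (E.mul s t) ⊓ x ≤ E.K (E.mul s t) := inf_le_left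
  have key := E.key_inf h x
  have h1 : E.hd s (E.hd t x) = E.mul s (E.K s ⊓ E.hd t x) := rfl
  have h2 : E.hd (E.mul s t) x = E.mul (E.mul s t) (E.K (E.mul s t) ⊓ x) := rfl
  rw [h1, h2, key]
  exact (E.mul_assoc' h hm').2.2

/-- With the notation of `hd_hd` and `m' = K u ⊓ x ≤ m`: `tl s h = q (t m') (t m) = q m' m`
(`q_q`), `tl t x = q m x`, `tl u x = q m' x`, and `q m' m ≤ q m' x`, `q (q m' m) (q m' x) = q m x`
(`q_q`), so `(q m' m) (q m x) = q m' x` (`mul_q`). -/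
theorem tl_tl {s t : S} (h : t ≤ E.K s) (x : S) :
    E.tl t x ≤ E.K (E.tl s (E.hd t x)) ∧
      E.mul (E.tl s (E.hd t x)) (E.tl t x) = E.tl (E.mul s t) x := by
  have hKu : E.K (E.mul s t) = E.q t (E.K s) := E.K_mul h
  have hKuK : E.K (E.mul s t) ≤ E.K t := by rw [hKu]; exact E.q_le_K h
  have key := E.key_inf h x
  obtain ⟨m, hm⟩ : ∃ m, m = E.K t ⊓ x := ⟨_, rfl⟩
  obtain ⟨m', hm'⟩ : ∃ m', m' = E.K (E.mul s t) ⊓ x := ⟨_, rfl⟩
  have hmm : m' ≤ m := by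
    rw [hm, hm']
    exact inf_le_inf_right x hKuK
  have hmK : m ≤ E.K t := by rw [hm]; exact inf_le_left
  have hm'K : m' ≤ E.K t := hmm.trans hmK
  have hmx : m ≤ x := by rw [hm]; exact inf_le_right
  have hm'x : m' ≤ x := hmm.trans hmx
  have h1 : E.tl t x = E.q m x := by rw [hm]; rfl
  have h2 : E.tl (E.mul s t) x = E.q m' x := by rw [hm']; rfl
  have h3 : E.hd t x = E.mul t m := by rw [hm]; rfl
  have h4 : E.tl s (E.hd t x) = E.q m' m := by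
    have h5 : E.tl s (E.hd t x) = E.q (E.K s ⊓ E.hd t x) (E.hd t x) := rfl
    rw [h5, key, ← hm', h3]
    have h6 := E.q_q (E.le_mul hm'K) ((E.mul_le_mul hm'K hmK).2 hmm)
    rw [E.q_mul hm'K, E.q_mul hmK] at h6
    exact h6.symm
  rw [h4, h1, h2]
  have h7 := E.q_q hmm hmx
  have h8 : E.q m' m ≤ E.q m' x := E.q_mono hmm hmx
  constructor
  · rw [← h7]
    exact E.q_le_K h8
  · rw [← h7]
    exact E.mul_q h8

end Pool.Agent.SPH.Germ
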