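import Pool.Agent.SPH.Frame
import Pool.Agent.SPH.Germ2

/-!
# Project SPH, piece SPH-Z: the centralisers of the powers of the Garside element

The centraliser of `δ ^ k` is generated by the simple elements which are fixed by `τ ^ k`.
-/

namespace Pool.Agent.SPH.Frame

variable {S : Type*} [Lattice S] [BoundedOrder S] {E : Germ S} {G : Type*} [Group G] [Lattice G]
  (F : Frame E G)

/-- induction from `g_tau` -/
theorem g_tau_iter (x : S) (k : ℕ) :
    F.g (E.tau^[k] x) = (F.δ ^ k)⁻¹ * F.g x * F.δ ^ k := by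
  induction k with
  | zero => simp
  | succ k ih =>
    rw [Function.iterate_succ_apply', F.g_tau, ih, pow_succ]
    group

/-- the same with an integer exponent: `shz k` is `tau^[(k % m).toNat]`, `tau_pow` -/
theorem g_shz (x : S) (k : ℤ) :
    F.g (E.shz k x) = F.δ ^ (-k) * F.g x * F.δ ^ k := by
  induction k using Int.induction_on with
  | zero => simp [E.shz_zero]
  | succ j ih =>
    rw [E.shz_succ, F.g_tau, ih]
    group
  | pred j ih =>
    have h1 := F.g_tau (E.shz (-(j : ℤ) - 1) x)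
    rw [← E.shz_succ, show -(j : ℤ) - 1 + 1 = -(j : ℤ) by ring, ih] at h1
    have h2 : F.g (E.shz (-(j : ℤ) - 1) x) = F.δ *
        (F.δ⁻¹ * F.g (E.shz (-(j : ℤ) - 1) x) * F.δ) * F.δ⁻¹ := by group
    rw [h2, ← h1]
    group

theorem comm_iff (x : S) (k : ℕ) :
    F.g x * F.δ ^ k = F.δ ^ k * F.g x ↔ E.tau^[k] x = x := by
  rw [← F.g_inj.eq_iff, F.g_tau_iter, mul_assoc, inv_mul_eq_iff_eq_mul]

/-- `comm_iff`, `tau_pow` and `gen` -/
theorem comm_pow_m (u : G) : u * F.δ ^ E.m = F.δ ^ E.m * u := by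
  have h1 : u ∈ Subgroup.closure (Set.range F.g) := by
    rw [F.gen]
    exact Subgroup.mem_top u
  have h2 : Subgroup.closure (Set.range F.g) ≤ Subgroup.centralizer {F.δ ^ E.m} := by
    rw [Subgroup.closure_le]
    rintro _ ⟨x, rfl⟩
    rw [SetLike.mem_coe, Subgroup.mem_centralizer_singleton_iff]
    exact (F.comm_iff x E.m).2 (E.tau_pow x)
  exact Subgroup.mem_centralizer_singleton_iff.1 (h2 h1)

/-- conjugation by `δ ^ k` preserves the order (`mulδ_le`, `mul_le`), hence the meets -/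
theorem conj_inf_δ {u : G} {k : ℕ} (h : u * F.δ ^ k = F.δ ^ k * u) :
    (u ⊓ F.δ) * F.δ ^ k = F.δ ^ k * (u ⊓ F.δ) := by
  have h1 := F.toGar.inf_mul_zpow u F.δ (k : ℤ)
  rw [zpow_natCast] at h1
  rw [h1, F.toGar.mul_inf, h, ← pow_succ, ← pow_succ']

private theorem cent_aux {k : ℕ} (n : ℕ) : ∀ u : G, 1 ≤ u → u * F.δ ^ k = F.δ ^ k * u →
    F.len u ≤ n → u ∈ Subgroup.closure (F.g '' {x | E.tau^[k] x = x}) := by
  induction n with
  | zero =>
    intro u h1 _ hn
    rcases h1.eq_or_lt with h2 | h2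
    · rw [← h2]
      exact one_mem _
    · have h3 := F.len_lt _ _ h2
      rw [F.toGar.len_one] at h3
      rw [Nat.cast_zero] at hn
      omega
  | succ n ih =>
    intro u h1 h hn
    rcases h1.eq_or_lt with h2 | h2
    · rw [← h2]
      exact one_mem _
    · have hs1 := F.pos u h2
      obtain ⟨x, hx⟩ := F.g_surj (u ⊓ F.δ) hs1.le inf_le_right
      have hc := F.conj_inf_δ h
      have hmem : u ⊓ F.δ ∈ Subgroup.closure (F.g '' {x | E.tau^[k] x = x}) := by
        rw [← hx] at hc ⊢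
        exact Subgroup.subset_closure ⟨x, (F.comm_iff x k).1 hc, rfl⟩
      have h3 : 1 ≤ (u ⊓ F.δ)⁻¹ * u := by
        have h4 := F.mul_le (u ⊓ F.δ)⁻¹ _ _ (inf_le_left : u ⊓ F.δ ≤ u)
        rwa [inv_mul_cancel] at h4
      have h5 : ((u ⊓ F.δ)⁻¹ * u) * F.δ ^ k = F.δ ^ k * ((u ⊓ F.δ)⁻¹ * u) := by
        have h6 : Commute (u ⊓ F.δ) (F.δ ^ k) := hc
        have h7 : Commute u (F.δ ^ k) := h
        exact h6.inv_left.mul_left h7
      have h8 : F.len ((u ⊓ F.δ)⁻¹ * u) ≤ n := by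
        have h9 := F.len_lt _ _ hs1
        rw [F.toGar.len_one] at h9
        rw [F.len_mul, F.toGar.len_inv]
        push_cast at hn
        omega
      have h10 := ih _ h3 h5 h8
      have h11 := mul_mem hmem h10
      rwa [mul_inv_cancel_left] at h11

/-- for `1 ≤ u`: induction on `len u`.  If `u = 1` there is nothing to do; otherwise
`s = u ⊓ δ` is `g x` with `x ≠ ⊥` (`pos`, `g_surj`), it commutes with `δ ^ k` (`conj_inf_δ`), so
`x` is fixed by `τ ^ k`, and `s⁻¹ u` is again `≥ 1`, commutes with `δ ^ k` and is shorter. -/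
theorem cent_pos {u : G} {k : ℕ} (h1 : 1 ≤ u) (h : u * F.δ ^ k = F.δ ^ k * u) :
    u ∈ Subgroup.closure (F.g '' {x | E.tau^[k] x = x}) :=
  F.cent_aux (F.len u).toNat u h1 h (Int.self_le_toNat _)

/-- `δ ^ j u ≥ 1` for some `j` (`arch`), and `δ = g ⊤` -/
theorem cent {u : G} {k : ℕ} (h : u * F.δ ^ k = F.δ ^ k * u) :
    u ∈ Subgroup.closure (F.g '' {x | E.tau^[k] x = x}) := by
  obtain ⟨j, hj, -⟩ := F.arch u
  have h1 : 1 ≤ F.δ ^ j * u := by
    have h2 := F.mul_le (F.δ ^ j) _ _ hj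
    rwa [← zpow_add, add_neg_cancel, zpow_zero] at h2
  have h3 : (F.δ ^ j * u) * F.δ ^ k = F.δ ^ k * (F.δ ^ j * u) := by
    have h4 : Commute u (F.δ ^ k) := h
    have h5 : Commute (F.δ ^ j) (F.δ ^ k) := by
      have h6 : Commute (F.δ ^ j) (F.δ ^ (k : ℤ)) := Commute.zpow_zpow_self F.δ j k
      rwa [zpow_natCast] at h6
    exact h5.mul_left h4
  have h6 := F.cent_pos h1 h3
  have h7 : F.δ ∈ Subgroup.closure (F.g '' {x | E.tau^[k] x = x}) := by
    rw [← F.g_top]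
    exact Subgroup.subset_closure ⟨⊤, Function.iterate_fixed E.tau_top k, rfl⟩
  have h8 := mul_mem (zpow_mem h7 (-j)) h6
  rwa [← mul_assoc, ← zpow_add, neg_add_cancel, zpow_zero, one_mul] at h8

/-- `cent` for `k = 1` -/
theorem cent_one (h1 : ∀ x, E.tau x = x → x = ⊥ ∨ x = ⊤) {u : G} (h : u * F.δ = F.δ * u) :
    ∃ j : ℤ, u = F.δ ^ j := by
  have h2 : u * F.δ ^ 1 = F.δ ^ 1 * u := by rwa [pow_one]
  have h3 := F.cent h2
  have h4 : Subgroup.closure (F.g '' {x | E.tau^[1] x = x}) ≤ Subgroup.zpowers F.δ := by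
    rw [Subgroup.closure_le]
    rintro _ ⟨x, hx, rfl⟩
    rcases h1 x hx with rfl | rfl
    · rw [F.g_bot]
      exact one_mem _
    · rw [F.g_top]
      exact Subgroup.mem_zpowers _
  obtain ⟨j, hj⟩ := Subgroup.mem_zpowers_iff.1 (h4 h3)
  exact ⟨j, hj.symm⟩

/-- `cent_one`, `comm_pow_m`; if `δ ^ j` is central then so is `δ ^ r`, `r = j % m`, so
`tau^[r] x = x` for all `x` by `comm_iff`, hence `r = 0` -/
theorem center_eq (h1 : ∀ x, E.tau x = x → x = ⊥ ∨ x = ⊤)
    (hm : ∀ j, 0 < j → j < E.m → ∃ x, E.tau^[j] x ≠ x) :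
    Subgroup.center G = Subgroup.zpowers (F.δ ^ E.m) := by
  have hmc : F.δ ^ E.m ∈ Subgroup.center G :=
    Subgroup.mem_center_iff.2 fun u => F.comm_pow_m u
  apply le_antisymm
  · intro u hu
    rw [Subgroup.mem_center_iff] at hu
    obtain ⟨j, rfl⟩ := F.cent_one h1 (hu F.δ).symm
    have hmpos : (0 : ℤ) < E.m := by exact_mod_cast E.m_pos
    have hr0 : 0 ≤ j % (E.m : ℤ) := Int.emod_nonneg _ hmpos.ne'
    have hr1 : j % (E.m : ℤ) < E.m := Int.emod_lt_of_pos _ hmpos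
    obtain ⟨r, hr⟩ := Int.eq_ofNat_of_zero_le hr0
    have hj : j = (E.m : ℤ) * (j / (E.m : ℤ)) + r := by
      rw [← hr]
      exact (Int.mul_ediv_add_emod j (E.m : ℤ)).symm
    have hpow : F.δ ^ j = (F.δ ^ E.m) ^ (j / (E.m : ℤ)) * F.δ ^ r := by
      conv_lhs => rw [hj]
      rw [zpow_add, zpow_mul, zpow_natCast, zpow_natCast]
    have hrc : F.δ ^ r ∈ Subgroup.center G := by
      have h2 : F.δ ^ j ∈ Subgroup.center G := Subgroup.mem_center_iff.2 hu
      have h3 := mul_mem (inv_mem (zpow_mem hmc (j / (E.m : ℤ)))) h2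
      rwa [hpow, inv_mul_cancel_left] at h3
    have hfix : ∀ x, E.tau^[r] x = x := fun x =>
      (F.comm_iff x r).1 (Subgroup.mem_center_iff.1 hrc (F.g x))
    have hr2 : r = 0 := by
      by_contra h4
      obtain ⟨x, hx⟩ := hm r (Nat.pos_of_ne_zero h4) (by rw [hr] at hr1; exact_mod_cast hr1)
      exact hx (hfix x)
    rw [hpow, hr2, pow_zero, mul_one]
    exact zpow_mem (Subgroup.mem_zpowers _) _
  · rw [Subgroup.zpowers_le]
    exact hmc

end Pool.Agent.SPH.Frame
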