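import Pool.Agent.SPH.TD

/-!
# Project SPH, piece SPH-K: the finite checks of a table

Boolean versions of the checks `TD.Ok`, arranged so that the kernel can evaluate them: the loops
run over the pairs `i ≤ j` and the triples `i ≤ j ≤ k` only.
-/

namespace Pool.Agent.SPH

/-- `p i` for all `i < n` -/
def allB (n : ℕ) (p : ℕ → Bool) : Bool :=
  Nat.rec true (fun i r => cond (p i) r false) n

theorem allB_spec {n : ℕ} {p : ℕ → Bool} (h : allB n p = true) : ∀ i < n, p i = true := by
  induction n with
  | zero => intro i hi; omega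
  | succ n ih =>
    have h' : cond (p n) (allB n p) false = true := h
    cases hp : p n with
    | false => rw [hp] at h'; exact absurd h' (by simp)
    | true =>
      rw [hp] at h'
      have h2 : allB n p = true := h'
      intro i hi
      rcases Nat.lt_succ_iff_lt_or_eq.1 hi with h3 | h3
      · exact ih h2 i h3
      · rw [h3]; exact hp

/-- the list of the `i < n` with `p i` -/
def upB (n : ℕ) (p : ℕ → Bool) : List ℕ :=
  Nat.rec [] (fun i r => cond (p i) (i :: r) r) n

theorem mem_upB {n : ℕ} {p : ℕ → Bool} {i : ℕ} (h1 : i < n) (h2 : p i = true) :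
    i ∈ upB n p := by
  induction n with
  | zero => omega
  | succ n ih =>
    change i ∈ cond (p n) (n :: upB n p) (upB n p)
    rcases Nat.lt_succ_iff_lt_or_eq.1 h1 with h3 | h3
    · have h4 := ih h3
      cases p n with
      | false => exact h4
      | true => exact List.mem_cons_of_mem _ h4
    · subst h3
      rw [h2]
      exact List.mem_cons_self

/-- `p i` for all `i` in a list -/
def allL (l : List ℕ) (p : ℕ → Bool) : Bool :=
  List.rec true (fun i _ r => cond (p i) r false) l

theorem allL_spec {l : List ℕ} {p : ℕ → Bool} (h : allL l p = true) : ∀ i ∈ l, p i = true := by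
  induction l with
  | nil => intro i hi; exact absurd hi (List.not_mem_nil)
  | cons a l ih =>
    have h' : cond (p a) (allL l p) false = true := h
    cases hp : p a with
    | false => rw [hp] at h'; exact absurd h' (by simp)
    | true =>
      rw [hp] at h'
      have h2 : allL l p = true := h'
      intro i hi
      rcases List.mem_cons.1 hi with h3 | h3
      · rw [h3]; exact hp
      · exact ih h2 i h3

/-- conjunction -/
def an (a b : Bool) : Bool := cond a b false

theorem an_spec {a b : Bool} (h : an a b = true) : a = true ∧ b = true := by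
  cases a with
  | false => exact absurd h (by simp [an])
  | true => exact ⟨rfl, h⟩

/-- iteration -/
def itN (f : ℕ → ℕ) (n i : ℕ) : ℕ := Nat.rec i (fun _ r => f r) n

theorem itN_eq (f : ℕ → ℕ) (n i : ℕ) : itN f n i = f^[n] i := by
  induction n with
  | zero => rfl
  | succ n ih =>
    rw [Function.iterate_succ_apply', ← ih]
    rfl

namespace TD

variable (D : TD)

/-- the elements above `i` -/
def up (i : ℕ) : List ℕ := upB D.N (fun j => D.le i j)

/-- the elements below `i` -/
def dn (i : ℕ) : List ℕ := upB D.N (fun j => D.le j i)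

/-- global checks -/
def chk0 : Bool := an (Nat.ble 2 D.N) (Nat.ble 1 D.m)

/-- the checks of a single element -/
def chkA (i : ℕ) : Bool :=
  an (D.le 0 i) (an (D.le i (D.N - 1)) (an (Nat.blt (D.ki i) D.N) (an (Nat.beq (D.K (D.ki i)) i)
    (an (Nat.beq (D.ki (D.K i)) i) (an (Nat.beq (D.q 0 i) i)
      (an (Nat.beq (itN D.K (2 * D.m) i) i) (an (cond (Nat.beq i 0) true (Nat.ble 1 (D.rk i)))
        (cond (Nat.beq (i + 1) D.N) true (cond (Nat.blt (D.rk i) (D.rk (i + 1))) true
          (an (Nat.beq (D.rk i) (D.rk (i + 1))) (Nat.blt (D.msk i) (D.msk (i + 1)))))))))))))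

/-- the checks of the meets of `i` -/
def chkB (i : ℕ) : Bool :=
  allB D.N fun j => an (Nat.blt (D.mt i j) D.N)
    (Nat.beq (D.msk (D.mt i j)) (Nat.land (D.msk i) (D.msk j)))

/-- the checks of the pairs `i ≤ j` -/
def chkC (i : ℕ) : Bool :=
  allL (D.up i) fun j => an (Nat.blt (D.q i j) D.N) (an (D.le (D.K j) (D.K i))
    (Nat.beq (D.rk j) (D.rk i + D.rk (D.q i j))))

/-- the checks of the pairs `i`, `j ≤ K i` -/
def chkS (i : ℕ) : Bool :=
  allL (D.dn (D.K i)) fun j => an (Nat.blt (D.tm i j) D.N) (an (D.le i (D.tm i j))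
    (Nat.beq (D.q i (D.tm i j)) j))

/-- the checks of the triples `i ≤ j ≤ k` -/
def chkT (i : ℕ) : Bool :=
  allL (D.up i) fun j => allL (D.up j) fun k => an (D.le (D.q i j) (D.q i k))
    (Nat.beq (D.q (D.q i j) (D.q i k)) (D.q j k))

variable {D}

private theorem blt_spec {a b : ℕ} (h : Nat.blt a b = true) : a < b :=
  Nat.le_of_ble_eq_true h

private theorem ble_spec {a b : ℕ} (h : Nat.ble a b = true) : a ≤ b :=
  Nat.le_of_ble_eq_true h

private theorem beq_spec {a b : ℕ} (h : Nat.beq a b = true) : a = b :=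
  Nat.eq_of_beq_eq_true h

private theorem le_iff1 {i j : ℕ} : D.le i j = true ↔ D.msk i &&& D.msk j = D.msk i := by
  unfold TD.le
  constructor
  · intro e
    exact Nat.eq_of_beq_eq_true e
  · intro e
    change Nat.beq (D.msk i &&& D.msk j) (D.msk i) = true
    rw [e]
    exact Nat.beq_refl _

private theorem le_tr1 {i j k : ℕ} (a : D.le i j = true) (b : D.le j k = true) :
    D.le i k = true := by
  rw [le_iff1] at *
  calc D.msk i &&& D.msk k = (D.msk i &&& D.msk j) &&& D.msk k := by rw [a]
    _ = D.msk i &&& (D.msk j &&& D.msk k) := Nat.and_assoc _ _ _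
    _ = D.msk i := by rw [b, a]

/-- By `chkA`, `rk` is weakly increasing, and for `i < j < N` with `rk i = rk j` we have
`msk i < msk j`. -/
theorem msk_lt (hA : ∀ i < D.N, D.chkA i = true) {i j : ℕ} (h1 : i < j) (h2 : j < D.N) :
    D.rk i < D.rk j ∨ (D.rk i = D.rk j ∧ D.msk i < D.msk j) := by
  have step : ∀ i, i + 1 < D.N →
      D.rk i < D.rk (i + 1) ∨ (D.rk i = D.rk (i + 1) ∧ D.msk i < D.msk (i + 1)) := by
    intro i hi
    have h := an_spec (hA i (by omega))
    have h := an_spec h.2
    have h := an_spec h.2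
    have h := an_spec h.2
    have h := an_spec h.2
    have h := an_spec h.2
    have h := an_spec h.2
    have h := an_spec h.2
    have h := h.2
    have e : Nat.beq (i + 1) D.N = false := by
      cases hb : Nat.beq (i + 1) D.N with
      | false => rfl
      | true => have := Nat.eq_of_beq_eq_true hb; omega
    rw [e] at h
    cases hc : Nat.blt (D.rk i) (D.rk (i + 1)) with
    | true => exact Or.inl (blt_spec hc)
    | false =>
      rw [hc] at h
      have h' := an_spec h
      exact Or.inr ⟨beq_spec h'.1, blt_spec h'.2⟩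
  induction j with
  | zero => omega
  | succ j ih =>
    rcases Nat.lt_succ_iff_lt_or_eq.1 h1 with h3 | h3
    · have h4 := ih h3 (by omega)
      have h5 := step j h2
      omega
    · rw [h3]; exact step j h2

/-- If `msk i = msk j` then `le i j` and `le j i`, so `rk i = rk j` by `chkC`, and `msk_lt`. -/
theorem msk_inj (hA : ∀ i < D.N, D.chkA i = true) (hC : ∀ i < D.N, D.chkC i = true) {i j : ℕ}
    (h1 : i < D.N) (h2 : j < D.N) (h : D.msk i = D.msk j) : i = j := by
  have key : ∀ i j, i < D.N → j < D.N → D.msk i = D.msk j → D.rk i ≤ D.rk j := by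
    intro i j h1 h2 h
    have e : D.le i j = true := by
      unfold TD.le
      rw [← h]
      have : Nat.land (D.msk i) (D.msk i) = D.msk i := Nat.and_self _
      rw [this]
      exact Nat.beq_refl _
    have h3 := beq_spec (an_spec (an_spec (allL_spec (hC i h1) j (mem_upB h2 e))).2).2
    omega
  have r1 := key i j h1 h2 h
  have r2 := key j i h2 h1 h.symm
  rcases lt_trichotomy i j with h3 | h3 | h3
  · have := msk_lt hA h3 h2; omega
  · exact h3
  · have := msk_lt hA h3 h1; omega

/-- All fields but `q_emb` are direct translations.  `q_emb`: let `i ≤ j`, `i ≤ k` and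
`t = q i j ≤ u = q i k`.  Injectivity: if `x ≤ y`, `x ≤ z`, `q x y = q x z` then
`K y = q (q x y) (K x) = q (q x z) (K x) = K z` (`q_q` with the last element `N - 1`), so `y = z`
as `ki (K y) = y`.  Now `K j = q t (K i)` and `v = q t u ≤ q t (K i) = K j` by `q_mono`
(`t ≤ u ≤ K i`), so by `q_surj` there is `y ≥ j` with `q j y = v`.  Then
`q t (q i y) = q j y = q t u`, so `q i y = u = q i k` and `y = k` by injectivity.  Hence
`j ≤ y = k`.  (The order is transitive because it is inclusion of masks.) -/
theorem ok_of_chk (h0 : D.chk0 = true) (hA : ∀ i < D.N, D.chkA i = true)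
    (hB : ∀ i < D.N, D.chkB i = true) (hC : ∀ i < D.N, D.chkC i = true)
    (hS : ∀ i < D.N, D.chkS i = true) (hT : ∀ i < D.N, D.chkT i = true) : D.Ok := by
  have hN : 2 ≤ D.N := ble_spec (an_spec h0).1
  have hm : 0 < D.m := ble_spec (an_spec h0).2
  have a1 : ∀ i < D.N, D.le 0 i = true := fun i hi => (an_spec (hA i hi)).1
  have a2 : ∀ i < D.N, D.le i (D.N - 1) = true := fun i hi => (an_spec (an_spec (hA i hi)).2).1
  have a3 : ∀ i < D.N, D.ki i < D.N := fun i hi =>
    blt_spec (an_spec (an_spec (an_spec (hA i hi)).2).2).1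
  have a4 : ∀ i < D.N, D.K (D.ki i) = i := fun i hi =>
    beq_spec (an_spec (an_spec (an_spec (an_spec (hA i hi)).2).2).2).1
  have a5 : ∀ i < D.N, D.ki (D.K i) = i := fun i hi =>
    beq_spec (an_spec (an_spec (an_spec (an_spec (an_spec (hA i hi)).2).2).2).2).1
  have a6 : ∀ i < D.N, D.q 0 i = i := fun i hi =>
    beq_spec (an_spec (an_spec (an_spec (an_spec (an_spec (an_spec (hA i hi)).2).2).2).2).2).1
  have a7 : ∀ i < D.N, D.K^[2 * D.m] i = i := by
    intro i hi
    rw [← itN_eq]
    exact beq_spec (an_spec (an_spec (an_spec (an_spec (an_spec (an_spec (an_spec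
      (hA i hi)).2).2).2).2).2).2).1
  have a8 : ∀ i < D.N, i ≠ 0 → 0 < D.rk i := by
    intro i hi hi0
    have h := (an_spec (an_spec (an_spec (an_spec (an_spec (an_spec (an_spec (an_spec
      (hA i hi)).2).2).2).2).2).2).2).1
    have e : Nat.beq i 0 = false := by
      cases hb : Nat.beq i 0 with
      | false => rfl
      | true => exact absurd (beq_spec hb) hi0
    rw [e] at h
    exact ble_spec h
  have b1 : ∀ i < D.N, ∀ j < D.N, D.mt i j < D.N := fun i hi j hj =>
    blt_spec (an_spec (allB_spec (hB i hi) j hj)).1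
  have b2 : ∀ i < D.N, ∀ j < D.N, D.msk (D.mt i j) = Nat.land (D.msk i) (D.msk j) :=
    fun i hi j hj => beq_spec (an_spec (allB_spec (hB i hi) j hj)).2
  have up : ∀ i j, j < D.N → D.le i j = true → j ∈ D.up i := fun i j hj e => mem_upB hj e
  have c1 : ∀ i < D.N, ∀ j < D.N, D.le i j = true → D.q i j < D.N := fun i hi j hj e =>
    blt_spec (an_spec (allL_spec (hC i hi) j (up i j hj e))).1
  have c2 : ∀ i < D.N, ∀ j < D.N, D.le i j = true → D.le (D.K j) (D.K i) = true :=
    fun i hi j hj e => (an_spec (an_spec (allL_spec (hC i hi) j (up i j hj e))).2).1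
  have c3 : ∀ i < D.N, ∀ j < D.N, D.le i j = true → D.rk j = D.rk i + D.rk (D.q i j) :=
    fun i hi j hj e => beq_spec (an_spec (an_spec (allL_spec (hC i hi) j (up i j hj e))).2).2
  have s1 : ∀ i < D.N, ∀ j < D.N, D.le j (D.K i) = true →
      D.tm i j < D.N ∧ D.le i (D.tm i j) = true ∧ D.q i (D.tm i j) = j := by
    intro i hi j hj e
    have h := an_spec (allL_spec (hS i hi) j (mem_upB hj e))
    have h' := an_spec h.2
    exact ⟨blt_spec h.1, h'.1, beq_spec h'.2⟩
  have t1 : ∀ i < D.N, ∀ j < D.N, D.le i j = true → ∀ k < D.N, D.le j k = true →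
      D.le (D.q i j) (D.q i k) = true := fun i hi j hj e k hk e' =>
    (an_spec (allL_spec (allL_spec (hT i hi) j (up i j hj e)) k (up j k hk e'))).1
  have t2 : ∀ i < D.N, ∀ j < D.N, D.le i j = true → ∀ k < D.N, D.le j k = true →
      D.q (D.q i j) (D.q i k) = D.q j k := fun i hi j hj e k hk e' =>
    beq_spec (an_spec (allL_spec (allL_spec (hT i hi) j (up i j hj e)) k (up j k hk e'))).2
  have hl : D.N - 1 < D.N := by omega
  have hK : ∀ i < D.N, D.K i < D.N := fun i hi => c1 i hi _ hl (a2 i hi)
  have inj : ∀ x < D.N, ∀ y < D.N, ∀ z < D.N, D.le x y = true → D.le x z = true →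
      D.q x y = D.q x z → y = z := by
    intro x hx y hy z hz e1 e2 e
    have h1 : D.q (D.q x y) (D.K x) = D.K y := t2 x hx y hy e1 _ hl (a2 y hy)
    have h2 : D.q (D.q x z) (D.K x) = D.K z := t2 x hx z hz e2 _ hl (a2 z hz)
    rw [e, h2] at h1
    rw [← a5 y hy, ← a5 z hz, h1]
  refine ⟨hN, hm, ?_, a1, a2, b1, b2, c1, a3, a4, a5, c2, a6, t1, t2, ?_, s1, a7, c3, a8⟩
  · intro i hi j hj e
    exact msk_inj hA hC hi hj e
  · intro i hi j hj e1 k hk e2 e3
    have hu : D.le (D.q i k) (D.K i) = true := t1 i hi k hk e2 _ hl (a2 k hk)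
    have hKj : D.q (D.q i j) (D.K i) = D.K j := t2 i hi j hj e1 _ hl (a2 j hj)
    have ht := c1 i hi j hj e1
    have hu' := c1 i hi k hk e2
    have hv : D.le (D.q (D.q i j) (D.q i k)) (D.K j) = true := by
      rw [← hKj]
      exact t1 _ ht _ hu' e3 _ (hK i hi) hu
    obtain ⟨y1, y2, y3⟩ := s1 j hj _ (c1 _ ht _ hu' e3) hv
    set y := D.tm j (D.q (D.q i j) (D.q i k)) with hy
    have e4 : D.le i y = true := le_tr1 e1 y2
    have h5 : D.q (D.q i j) (D.q i y) = D.q j y := t2 i hi j hj e1 y y1 y2
    have h6 : D.le (D.q i j) (D.q i y) = true := t1 i hi j hj e1 y y1 y2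
    have h7 : D.q i y = D.q i k :=
      inj _ ht _ (c1 i hi y y1 e4) _ hu' h6 e3 (h5.trans y3)
    have h8 : y = k := inj i hi y y1 k hk e4 e2 h7
    rw [← h8]
    exact y2

end TD

end Pool.Agent.SPH
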