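import Pool.Agent.SPH.AdChk

/-!
# Project SPH: a faster form of the check of the triples

The list of the elements above `j` is taken from the list of the elements above `i`, and `i = 0`
is skipped.
-/

namespace Pool.Agent.SPH

/-- the members of a list with `p` -/
def flt (l : List ℕ) (p : ℕ → Bool) : List ℕ :=
  List.rec [] (fun i _ r => cond (p i) (i :: r) r) l

theorem mem_flt {l : List ℕ} {p : ℕ → Bool} {i : ℕ} (h1 : i ∈ l) (h2 : p i = true) :
    i ∈ flt l p := by
  induction l with
  | nil => exact absurd h1 List.not_mem_nil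
  | cons a l ih =>
    change i ∈ cond (p a) (a :: flt l p) (flt l p)
    rcases List.mem_cons.1 h1 with h3 | h3
    · rw [← h3, h2]
      exact List.mem_cons_self
    · have h4 := ih h3
      cases p a with
      | false => exact h4
      | true => exact List.mem_cons_of_mem _ h4

theorem allL_intro {l : List ℕ} {p : ℕ → Bool} (h : ∀ i ∈ l, p i = true) :
    allL l p = true := by
  induction l with
  | nil => rfl
  | cons a l ih =>
    change cond (p a) (allL l p) false = true
    rw [h a List.mem_cons_self, ih fun i hi => h i (List.mem_cons_of_mem _ hi)]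
    rfl

/-- a check for all `i` with `a ≤ i < a + n`, in the form `i = N - 1 - k` -/
def rngB (N a n : ℕ) (p : ℕ → Bool) : Bool :=
  allL (upB N fun i => an (Nat.ble a i) (Nat.blt i (a + n))) p

theorem rngB_spec {N a n : ℕ} {p : ℕ → Bool} (h : rngB N a n p = true) {i : ℕ} (h0 : i < N)
    (h1 : a ≤ i) (h2 : i < a + n) : p i = true := by
  refine allL_spec h i (mem_upB h0 ?_)
  have e1 : Nat.ble a i = true := Nat.ble_eq_true_of_le h1
  have e2 : Nat.blt i (a + n) = true := Nat.ble_eq_true_of_le h2
  rw [e1, e2]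
  rfl

/-- `p i` for all `i < n` -/
def UpTo (n : ℕ) (p : ℕ → Bool) : Prop := ∀ i < n, p i = true

theorem upTo_zero (p : ℕ → Bool) : UpTo 0 p := fun _ h => absurd h (Nat.not_lt_zero _)

theorem UpTo.add {N a n : ℕ} {p : ℕ → Bool} (h : UpTo a p) (h1 : rngB N a n p = true)
    (h2 : a + n ≤ N) : UpTo (a + n) p := by
  intro i hi
  rcases Nat.lt_or_ge i a with h3 | h3
  · exact h i h3
  · exact rngB_spec h1 (by omega) h3 hi

namespace TD

variable (D : TD)

/-- the checks of the triples `i ≤ j ≤ k` with `0 < i` -/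
def chkT' (i : ℕ) : Bool := cond (Nat.beq i 0) true
  (allL (D.up i) fun j => allL (flt (D.up i) fun k => D.le j k) fun k =>
    an (D.le (D.q i j) (D.q i k)) (Nat.beq (D.q (D.q i j) (D.q i k)) (D.q j k)))

variable {D}

theorem chkT_of (hA : ∀ i < D.N, D.chkA i = true) {i : ℕ} (h : D.chkT' i = true) :
    D.chkT i = true := by
  have tr : ∀ {i j k : ℕ}, D.le i j = true → D.le j k = true → D.le i k = true := by
    intro i j k a b
    have a' : D.msk i &&& D.msk j = D.msk i := Nat.eq_of_beq_eq_true a
    have b' : D.msk j &&& D.msk k = D.msk j := Nat.eq_of_beq_eq_true b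
    have c' : D.msk i &&& D.msk k = D.msk i := by
      calc D.msk i &&& D.msk k = (D.msk i &&& D.msk j) &&& D.msk k := by rw [a']
        _ = D.msk i &&& (D.msk j &&& D.msk k) := Nat.and_assoc _ _ _
        _ = D.msk i := by rw [b', a']
    change Nat.beq (D.msk i &&& D.msk k) (D.msk i) = true
    rw [c']
    exact Nat.beq_refl _
  have q0 : ∀ i < D.N, D.q 0 i = i := fun i hi =>
    Nat.eq_of_beq_eq_true (an_spec (an_spec (an_spec (an_spec (an_spec (an_spec
      (hA i hi)).2).2).2).2).2).1
  refine allL_intro fun j hj => allL_intro fun k hk => ?_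
  obtain ⟨hj1, hj2⟩ := mem_upB_iff.1 hj
  obtain ⟨hk1, hk2⟩ := mem_upB_iff.1 hk
  rcases Nat.eq_zero_or_pos i with h0 | h0
  · subst h0
    rw [q0 j hj1, q0 k hk1, hk2, Nat.beq_refl]
    rfl
  · have e : Nat.beq i 0 = false := by
      rw [← Bool.not_eq_true]
      intro e
      have := Nat.eq_of_beq_eq_true e
      omega
    have h1 : cond (Nat.beq i 0) true
      (allL (D.up i) fun j => allL (flt (D.up i) fun k => D.le j k) fun k =>
        an (D.le (D.q i j) (D.q i k)) (Nat.beq (D.q (D.q i j) (D.q i k)) (D.q j k))) = true := h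
    rw [e] at h1
    exact allL_spec (allL_spec h1 j hj) k (mem_flt (mem_upB hk1 (tr hj2 hk2)) hk2)

end TD

end Pool.Agent.SPH
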