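import Mathlib

/-!
# Project SPH: three commuting elements which are permuted cyclically

`s1`, `s2`, `s3` commute and `d` permutes them cyclically.  An automorphism which fixes `d` and
`s1 s2 s3` and sends `s1` to an element `s1 ^ x s2 ^ y s3 ^ z d ^ l` permutes the three elements:
the units of the group ring of the cyclic group of order `3` are trivial.
-/

namespace Pool.Agent.SPH

/-- the units of `ℤ[C₃]` of augmentation `1` -/
theorem cy3_units {x y z x' y' z' : ℤ} (h : x + y + z = 1)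
    (e1 : x * x' + z * y' + y * z' = 1) (e2 : y * x' + x * y' + z * z' = 0)
    (e3 : z * x' + y * y' + x * z' = 0) :
    (x = 1 ∧ y = 0 ∧ z = 0) ∨ (x = 0 ∧ y = 1 ∧ z = 0) ∨ (x = 0 ∧ y = 0 ∧ z = 1) := by
  have h1 : (x ^ 2 + y ^ 2 + z ^ 2 - x * y - y * z - z * x) *
      (x' ^ 2 + y' ^ 2 + z' ^ 2 - x' * y' - y' * z' - z' * x') = 1 := by
    have e : (x ^ 2 + y ^ 2 + z ^ 2 - x * y - y * z - z * x) *
        (x' ^ 2 + y' ^ 2 + z' ^ 2 - x' * y' - y' * z' - z' * x') =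
        (x * x' + z * y' + y * z') ^ 2 + (y * x' + x * y' + z * z') ^ 2 +
          (z * x' + y * y' + x * z') ^ 2 -
        (x * x' + z * y' + y * z') * (y * x' + x * y' + z * z') -
        (y * x' + x * y' + z * z') * (z * x' + y * y' + x * z') -
        (z * x' + y * y' + x * z') * (x * x' + z * y' + y * z') := by ring
    rw [e, e1, e2, e3]
    norm_num
  have h2 : 0 ≤ x ^ 2 + y ^ 2 + z ^ 2 - x * y - y * z - z * x := by
    nlinarith [sq_nonneg (x - y), sq_nonneg (y - z), sq_nonneg (z - x)]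
  have h3 : x ^ 2 + y ^ 2 + z ^ 2 - x * y - y * z - z * x = 1 := by
    rcases Int.mul_eq_one_iff_eq_one_or_neg_one.1 h1 with ⟨h4, -⟩ | ⟨h4, -⟩
    · exact h4
    · rw [h4] at h2
      norm_num at h2
  have h4 : z = 1 - x - y := by linarith
  have h5 : x ^ 2 + y ^ 2 + z ^ 2 = 1 := by
    rw [h4] at h3 ⊢
    nlinarith
  have hx1 : x ≤ 1 := by nlinarith [sq_nonneg y, sq_nonneg z, sq_nonneg (x - 1)]
  have hx2 : -1 ≤ x := by nlinarith [sq_nonneg y, sq_nonneg z, sq_nonneg (x + 1)]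
  have hy1 : y ≤ 1 := by nlinarith [sq_nonneg x, sq_nonneg z, sq_nonneg (y - 1)]
  have hy2 : -1 ≤ y := by nlinarith [sq_nonneg x, sq_nonneg z, sq_nonneg (y + 1)]
  have hz1 : z ≤ 1 := by nlinarith [sq_nonneg x, sq_nonneg y, sq_nonneg (z - 1)]
  have hz2 : -1 ≤ z := by nlinarith [sq_nonneg x, sq_nonneg y, sq_nonneg (z + 1)]
  clear h1 h2 h3 e1 e2 e3
  have h6 : x = -1 ∨ x = 0 ∨ x = 1 := by omega
  have h7 : y = -1 ∨ y = 0 ∨ y = 1 := by omega
  rcases h6 with rfl | rfl | rfl <;> rcases h7 with rfl | rfl | rfl <;> subst h4 <;>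
    first
    | exact Or.inl ⟨rfl, rfl, rfl⟩
    | exact Or.inr (Or.inl ⟨rfl, rfl, rfl⟩)
    | exact Or.inr (Or.inr ⟨rfl, rfl, rfl⟩)
    | (exfalso; norm_num at h5)

variable {G : Type*} [Group G]

/-- three commuting elements which are permuted cyclically by `d` -/
structure Cy3 (d s1 s2 s3 : G) : Prop where
  e1 : d⁻¹ * s1 * d = s2
  e2 : d⁻¹ * s2 * d = s3
  e3 : d⁻¹ * s3 * d = s1
  c12 : Commute s1 s2

namespace Cy3

variable {d s1 s2 s3 : G} (H : Cy3 d s1 s2 s3)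

/-- the elements of the subgroup generated by `s1`, `s2`, `s3` -/
def v (s1 s2 s3 : G) (x y z : ℤ) : G := s1 ^ x * s2 ^ y * s3 ^ z

include H

theorem c23 : Commute s2 s3 := by
  have h := H.c12.map (MulAut.conj d⁻¹)
  have e : ∀ u, MulAut.conj d⁻¹ u = d⁻¹ * u * d := by
    intro u
    rw [MulAut.conj_apply, inv_inv]
  rwa [e, e, H.e1, H.e2] at h

theorem c31 : Commute s3 s1 := by
  have h := H.c23.map (MulAut.conj d⁻¹)
  have e : ∀ u, MulAut.conj d⁻¹ u = d⁻¹ * u * d := by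
    intro u
    rw [MulAut.conj_apply, inv_inv]
  rwa [e, e, H.e2, H.e3] at h

theorem v_mul (x y z x' y' z' : ℤ) :
    v s1 s2 s3 x y z * v s1 s2 s3 x' y' z' = v s1 s2 s3 (x + x') (y + y') (z + z') := by
  unfold v
  have h1 : Commute (s2 ^ y * s3 ^ z) (s1 ^ x') :=
    (H.c12.symm.zpow_zpow y x').mul_left (H.c31.zpow_zpow z x')
  have h2 : Commute (s3 ^ z) (s2 ^ y') := H.c23.symm.zpow_zpow z y'
  calc s1 ^ x * s2 ^ y * s3 ^ z * (s1 ^ x' * s2 ^ y' * s3 ^ z')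
      = s1 ^ x * (s2 ^ y * s3 ^ z * s1 ^ x') * s2 ^ y' * s3 ^ z' := by simp only [mul_assoc]
    _ = s1 ^ x * (s1 ^ x' * (s2 ^ y * s3 ^ z)) * s2 ^ y' * s3 ^ z' := by rw [h1.eq]
    _ = s1 ^ x * s1 ^ x' * s2 ^ y * (s3 ^ z * s2 ^ y') * s3 ^ z' := by simp only [mul_assoc]
    _ = s1 ^ x * s1 ^ x' * s2 ^ y * (s2 ^ y' * s3 ^ z) * s3 ^ z' := by rw [h2.eq]
    _ = s1 ^ (x + x') * s2 ^ (y + y') * s3 ^ (z + z') := by
      rw [zpow_add, zpow_add, zpow_add]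
      simp only [mul_assoc]

omit H in
theorem v_zero : v s1 s2 s3 0 0 0 = 1 := by
  unfold v
  rw [zpow_zero, zpow_zero, zpow_zero, one_mul, one_mul]

theorem v_inv (x y z : ℤ) : (v s1 s2 s3 x y z)⁻¹ = v s1 s2 s3 (-x) (-y) (-z) := by
  rw [inv_eq_iff_mul_eq_one, H.v_mul, add_neg_cancel, add_neg_cancel, add_neg_cancel, v_zero]

theorem v_zpow (x y z n : ℤ) : v s1 s2 s3 x y z ^ n = v s1 s2 s3 (x * n) (y * n) (z * n) := by
  induction n using Int.induction_on with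
  | zero => rw [zpow_zero, mul_zero, mul_zero, mul_zero, v_zero]
  | succ n ih => rw [zpow_add_one, ih, H.v_mul]; congr 1 <;> ring
  | pred n ih => rw [zpow_sub_one, ih, H.v_inv, H.v_mul]; congr 1 <;> ring

theorem conj_v (x y z : ℤ) : d⁻¹ * v s1 s2 s3 x y z * d = v s1 s2 s3 z x y := by
  have e : ∀ u, MulAut.conj d⁻¹ u = d⁻¹ * u * d := by
    intro u
    rw [MulAut.conj_apply, inv_inv]
  rw [← e]
  unfold v
  rw [map_mul, map_mul, map_zpow, map_zpow, map_zpow, e, e, e, H.e1, H.e2, H.e3]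
  have h1 : Commute (s2 ^ x * s3 ^ y) (s1 ^ z) :=
    (H.c12.symm.zpow_zpow x z).mul_left (H.c31.zpow_zpow y z)
  rw [h1.eq, ← mul_assoc]

theorem conj_v' (x y z : ℤ) : d * v s1 s2 s3 x y z * d⁻¹ = v s1 s2 s3 y z x := by
  rw [← H.conj_v y z x]
  group

theorem conj_vz (m : ℤ) (x y z : ℤ) : ∃ x' y' z' : ℤ, x' + y' + z' = x + y + z ∧
    d ^ m * v s1 s2 s3 x y z * d ^ (-m) = v s1 s2 s3 x' y' z' := by
  induction m using Int.induction_on with
  | zero => exact ⟨x, y, z, rfl, by rw [neg_zero, zpow_zero, one_mul, mul_one]⟩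
  | succ m ih =>
    obtain ⟨x', y', z', h1, h2⟩ := ih
    refine ⟨y', z', x', by linarith, ?_⟩
    rw [← H.conj_v' x' y' z', ← h2]
    group
  | pred m ih =>
    obtain ⟨x', y', z', h1, h2⟩ := ih
    refine ⟨z', x', y', by linarith, ?_⟩
    rw [← H.conj_v x' y' z', ← h2]
    group

theorem comm_d3 (x y z : ℤ) (l : ℤ) : Commute (d ^ (3 * l)) (v s1 s2 s3 x y z) := by
  have h1 : Commute (d ^ (3 : ℤ)) (v s1 s2 s3 x y z) := by
    have h2 : d ^ (3 : ℤ) * v s1 s2 s3 x y z * (d ^ (3 : ℤ))⁻¹ = v s1 s2 s3 x y z := by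
      have h3 := H.conj_v' z x y
      rw [← H.conj_v' y z x, ← H.conj_v' x y z] at h3
      have e : d ^ (3 : ℤ) = d * d * d := by
        rw [zpow_ofNat, pow_succ, pow_two]
      have h4 : d ^ (3 : ℤ) * v s1 s2 s3 x y z * (d ^ (3 : ℤ))⁻¹ =
          d * (d * (d * v s1 s2 s3 x y z * d⁻¹) * d⁻¹) * d⁻¹ := by
        rw [e]
        group
      rw [h4, h3]
    exact mul_inv_eq_iff_eq_mul.1 h2
  rw [zpow_mul]
  exact h1.zpow_left l

theorem fact_cube (x y z l : ℤ) : ∃ x' y' z' : ℤ, x' + y' + z' = 3 * (x + y + z) ∧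
    (v s1 s2 s3 x y z * d ^ l) ^ 3 = v s1 s2 s3 x' y' z' * d ^ (3 * l) := by
  obtain ⟨x1, y1, z1, h1, h2⟩ := H.conj_vz l x y z
  obtain ⟨x2, y2, z2, h3, h4⟩ := H.conj_vz (2 * l) x y z
  refine ⟨x + x1 + x2, y + y1 + y2, z + z1 + z2, by linarith, ?_⟩
  rw [← H.v_mul, ← H.v_mul, ← h2, ← h4, pow_succ, pow_two]
  group

variable {φ : MulAut G} (hd : φ d = d)

/-- the images of `s2`, `s3` -/
theorem map_s (hd : φ d = d) : φ s2 = d⁻¹ * φ s1 * d ∧ φ s3 = d⁻¹ * φ s2 * d := by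
  constructor
  · rw [← H.e1, map_mul, map_mul, map_inv, hd]
  · rw [← H.e2, map_mul, map_mul, map_inv, hd]

/-- the first step: `l = 0` and `x + y + z = 1` -/
theorem step1 (hd : φ d = d) (hinf : ∀ k : ℤ, d ^ k = 1 → k = 0)
    (hpow : ∀ n k : ℤ, (s1 * s2 * s3) ^ n = d ^ k → n = 0)
    (ha : φ (s1 * s2 * s3) = s1 * s2 * s3) {x y z l : ℤ} (h : φ s1 = v s1 s2 s3 x y z * d ^ l) :
    l = 0 ∧ x + y + z = 1 := by
  obtain ⟨h2, h3⟩ := H.map_s hd
  obtain ⟨x', y', z', h4, h5⟩ := H.fact_cube x y z l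
  have k1 : φ s1 ^ 3 = v s1 s2 s3 x' y' z' * d ^ (3 * l) := by rw [h, h5]
  have cube : ∀ u w : G, (d⁻¹ * u * d) ^ 3 = d⁻¹ * u ^ 3 * d := by
    intro u w
    rw [pow_succ, pow_two, pow_succ, pow_two]
    group
  have k2 : φ s2 ^ 3 = v s1 s2 s3 z' x' y' * d ^ (3 * l) := by
    rw [h2, cube _ 1, k1, ← H.conj_v x' y' z']
    group
  have k3 : φ s3 ^ 3 = v s1 s2 s3 y' z' x' * d ^ (3 * l) := by
    rw [h3, cube _ 1, k2, ← H.conj_v z' x' y']
    group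
  have ea : s1 * s2 * s3 = v s1 s2 s3 1 1 1 := by
    unfold v
    rw [zpow_one, zpow_one, zpow_one]
  have e3 : v s1 s2 s3 3 3 3 = s1 ^ 3 * s2 ^ 3 * s3 ^ 3 := by
    unfold v
    norm_cast
  have h6 : φ (v s1 s2 s3 3 3 3) = v s1 s2 s3 3 3 3 := by
    have e : v s1 s2 s3 3 3 3 = (s1 * s2 * s3) ^ (3 : ℤ) := by
      rw [ea, H.v_zpow]
      norm_num
    rw [e, map_zpow, ha]
  rw [e3, map_mul, map_mul, map_pow, map_pow, map_pow, k1, k2, k3, ← e3] at h6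
  have c1 := H.comm_d3 z' x' y' l
  have c2 := H.comm_d3 y' z' x' l
  have h7 : v s1 s2 s3 x' y' z' * d ^ (3 * l) * (v s1 s2 s3 z' x' y' * d ^ (3 * l)) *
      (v s1 s2 s3 y' z' x' * d ^ (3 * l)) =
      v s1 s2 s3 (x' + y' + z') (x' + y' + z') (x' + y' + z') * d ^ (9 * l) := by
    have e : v s1 s2 s3 (x' + y' + z') (x' + y' + z') (x' + y' + z') =
        v s1 s2 s3 x' y' z' * v s1 s2 s3 z' x' y' * v s1 s2 s3 y' z' x' := by
      rw [H.v_mul, H.v_mul]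
      congr 1 <;> ring
    have e2 : d ^ (9 * l) = d ^ (3 * l) * d ^ (3 * l) * d ^ (3 * l) := by
      rw [← zpow_add, ← zpow_add]
      congr 1
      ring
    rw [e, e2]
    have c3 : d ^ (3 * l) * d ^ (3 * l) * v s1 s2 s3 y' z' x' =
        v s1 s2 s3 y' z' x' * (d ^ (3 * l) * d ^ (3 * l)) := (c2.mul_left c2).eq
    calc v s1 s2 s3 x' y' z' * d ^ (3 * l) * (v s1 s2 s3 z' x' y' * d ^ (3 * l)) *
        (v s1 s2 s3 y' z' x' * d ^ (3 * l))
        = v s1 s2 s3 x' y' z' * (d ^ (3 * l) * v s1 s2 s3 z' x' y') * d ^ (3 * l) *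
          (v s1 s2 s3 y' z' x' * d ^ (3 * l)) := by simp only [mul_assoc]
      _ = v s1 s2 s3 x' y' z' * (v s1 s2 s3 z' x' y' * d ^ (3 * l)) * d ^ (3 * l) *
          (v s1 s2 s3 y' z' x' * d ^ (3 * l)) := by rw [c1.eq]
      _ = v s1 s2 s3 x' y' z' * v s1 s2 s3 z' x' y' * (d ^ (3 * l) * d ^ (3 * l) *
          v s1 s2 s3 y' z' x') * d ^ (3 * l) := by simp only [mul_assoc]
      _ = v s1 s2 s3 x' y' z' * v s1 s2 s3 z' x' y' * v s1 s2 s3 y' z' x' *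
          (d ^ (3 * l) * d ^ (3 * l) * d ^ (3 * l)) := by
        rw [c3]
        simp only [mul_assoc]
  rw [h7] at h6
  set n := x' + y' + z' with hn
  have h8 : (s1 * s2 * s3) ^ (3 - n) = d ^ (9 * l) := by
    rw [ea, H.v_zpow, one_mul]
    have e : v s1 s2 s3 (3 - n) (3 - n) (3 - n) = (v s1 s2 s3 n n n)⁻¹ * v s1 s2 s3 3 3 3 := by
      rw [H.v_inv, H.v_mul, neg_add_eq_sub]
    rw [e, ← h6, inv_mul_cancel_left]
  have h9 := hpow _ _ h8
  rw [h9, zpow_zero] at h8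
  have h10 := hinf _ h8.symm
  constructor
  · omega
  · omega

theorem v_inj (hind : ∀ x y z : ℤ, v s1 s2 s3 x y z = 1 → x = 0 ∧ y = 0 ∧ z = 0)
    {x y z x' y' z' : ℤ} (h : v s1 s2 s3 x y z = v s1 s2 s3 x' y' z') :
    x = x' ∧ y = y' ∧ z = z' := by
  have h1 : v s1 s2 s3 (x + -x') (y + -y') (z + -z') = 1 := by
    rw [← H.v_mul, ← H.v_inv, h, mul_inv_cancel]
  obtain ⟨h2, h3, h4⟩ := hind _ _ _ h1
  exact ⟨by omega, by omega, by omega⟩

/-- an automorphism as in the header permutes the three elements -/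
theorem permutes (hd : φ d = d) (hinf : ∀ k : ℤ, d ^ k = 1 → k = 0)
    (hpow : ∀ n k : ℤ, (s1 * s2 * s3) ^ n = d ^ k → n = 0)
    (hind : ∀ x y z : ℤ, v s1 s2 s3 x y z = 1 → x = 0 ∧ y = 0 ∧ z = 0)
    (ha : φ (s1 * s2 * s3) = s1 * s2 * s3)
    (h : ∃ x y z l : ℤ, φ s1 = v s1 s2 s3 x y z * d ^ l)
    (h' : ∃ x y z l : ℤ, φ⁻¹ s1 = v s1 s2 s3 x y z * d ^ l) :
    φ s1 = s1 ∨ φ s1 = s2 ∨ φ s1 = s3 := by
  obtain ⟨x, y, z, l, h⟩ := h
  obtain ⟨x', y', z', l', h'⟩ := h'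
  have hd' : φ⁻¹ d = d := by
    rw [MulAut.inv_apply, MulEquiv.symm_apply_eq, hd]
  have ha' : φ⁻¹ (s1 * s2 * s3) = s1 * s2 * s3 := by
    rw [MulAut.inv_apply, MulEquiv.symm_apply_eq, ha]
  obtain ⟨rfl, h1⟩ := H.step1 hd hinf hpow ha h
  obtain ⟨rfl, h1'⟩ := H.step1 hd' hinf hpow ha' h'
  rw [zpow_zero, mul_one] at h h'
  obtain ⟨h2, h3⟩ := H.map_s hd
  rw [h, H.conj_v] at h2
  rw [h2, H.conj_v] at h3
  have h4 : φ (φ⁻¹ s1) = s1 := by
    rw [← MulAut.mul_apply, mul_inv_cancel, MulAut.one_apply]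
  have h5 : φ (v s1 s2 s3 x' y' z') = v s1 s2 s3 (x * x' + z * y' + y * z')
      (y * x' + x * y' + z * z') (z * x' + y * y' + x * z') := by
    conv_lhs => unfold v
    rw [map_mul, map_mul, map_zpow, map_zpow, map_zpow, h, h2, h3, H.v_zpow, H.v_zpow, H.v_zpow,
      H.v_mul, H.v_mul]
  rw [h', h5] at h4
  have h6 : v s1 s2 s3 1 0 0 = s1 := by
    unfold v
    rw [zpow_one, zpow_zero, zpow_zero, mul_one, mul_one]
  have h7 : v s1 s2 s3 (x * x' + z * y' + y * z') (y * x' + x * y' + z * z')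
      (z * x' + y * y' + x * z') = v s1 s2 s3 1 0 0 := by rw [h4, h6]
  obtain ⟨e1, e2, e3⟩ := H.v_inj hind h7
  rcases cy3_units h1 e1 e2 e3 with ⟨rfl, rfl, rfl⟩ | ⟨rfl, rfl, rfl⟩ | ⟨rfl, rfl, rfl⟩
  · left
    rw [h, h6]
  · right; left
    rw [h]
    unfold v
    rw [zpow_one, zpow_zero, zpow_zero, mul_one, one_mul]
  · right; right
    rw [h]
    unfold v
    rw [zpow_one, zpow_zero, zpow_zero, one_mul, one_mul]

end Cy3

end Pool.Agent.SPH
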