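import Pool.Agent.SPH.Cent

/-!
# Project SPH, piece SPH-D: directions

`N u = up u - lw u` is the width of `u`, `dir u` is the simple element with `g (dir u) = hi u`.
Let `E.Two n` hold: the simple elements fixed by `τ ^ n` other than `⊥`, `⊤` form an antichain
`E.T n` (so the germ of the centraliser `Cn n` of `δ ^ n` has height two).  For `u`, `v` in
`Cn n` of positive width `lo u = hi u = g (dir u)`, and

* if `dir u⁻¹ ≠ dir v` then `N (u v) = N u + N v`, `dir (u v) = dir u`,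
  `dir (u v)⁻¹ = dir v⁻¹`;
* `u = g (dir u) v` with `v` in `Cn n`, `N v = N u - 1`, and `dir v ≠ K (dir u)` if `N v > 0`.
-/

namespace Pool.Agent.SPH

/-- the width -/
noncomputable def Gar.N {G : Type*} [Group G] [Lattice G] (H : Gar G) (u : G) : ℤ :=
  H.up u - H.lw u

/-- the simple elements other than `1` and `δ` which are fixed by `τ ^ n` -/
def Germ.T {S : Type*} [Lattice S] [BoundedOrder S] (E : Germ S) (n : ℕ) : Set S :=
  {x | E.tau^[n] x = x ∧ x ≠ ⊥ ∧ x ≠ ⊤}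

/-- they form an antichain -/
def Germ.Two {S : Type*} [Lattice S] [BoundedOrder S] (E : Germ S) (n : ℕ) : Prop :=
  ∀ x ∈ E.T n, ∀ y ∈ E.T n, x ≤ y → x = y

namespace Gar

variable {G : Type*} [Group G] [Lattice G] (H : Gar G)

theorem N_nonneg (u : G) : 0 ≤ H.N u := by
  have := H.lw_le_up u
  unfold N
  omega

theorem eq_zpow_of_N {u : G} (h : H.N u = 0) : u = H.δ ^ H.lw u := by
  apply H.eq_zpow_of_up_le
  unfold N at h
  omega

theorem N_zpow (k : ℤ) : H.N (H.δ ^ k) = 0 := by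
  unfold N
  rw [H.up_zpow, H.lw_zpow, sub_self]

theorem N_inv (u : G) : H.N u⁻¹ = H.N u := by
  unfold N
  rw [H.up_inv, H.lw_inv]
  omega

theorem N_mul_zpow (u : G) (k : ℤ) : H.N (u * H.δ ^ k) = H.N u := by
  unfold N
  rw [H.up_mul_zpow, H.lw_mul_zpow]
  omega

theorem N_zpow_mul (u : G) (k : ℤ) : H.N (H.δ ^ k * u) = H.N u := by
  unfold N
  rw [H.up_zpow_mul, H.lw_zpow_mul]
  omega

theorem N_mul_le (u v : G) : H.N (u * v) ≤ H.N u + H.N v := by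
  have h1 := H.up_mul_le u v
  have h2 := H.lw_mul_le u v
  unfold N
  omega

end Gar

namespace Frame

variable {S : Type*} [Lattice S] [BoundedOrder S] {E : Germ S} {G : Type*} [Group G] [Lattice G]
  (F : Frame E G)

/-- the centraliser of `δ ^ n` -/
def Cn (n : ℕ) : Subgroup G := Subgroup.centralizer {F.δ ^ n}

theorem mem_Cn {n : ℕ} {u : G} : u ∈ F.Cn n ↔ u * F.δ ^ n = F.δ ^ n * u := by
  unfold Cn
  rw [Subgroup.mem_centralizer_singleton_iff]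

theorem δ_mem_Cn (n : ℕ) : F.δ ∈ F.Cn n := by
  rw [F.mem_Cn]
  exact ((Commute.refl F.δ).pow_right n).eq

/-- `comm_iff` -/
theorem g_mem_Cn {n : ℕ} {x : S} : F.g x ∈ F.Cn n ↔ E.tau^[n] x = x := by
  rw [F.mem_Cn, F.comm_iff]

theorem exists_dir (u : G) : ∃ x, F.g x = F.hi u := by
  refine F.g_surj _ ?_ (F.hi_le_δ u)
  refine le_inf ?_ F.one_le_δ
  have h := (F.zpow_le_iff_le_lw (u * F.δ ^ (-F.lw u)) 0).2 (by rw [F.lw_mul_zpow]; omega)
  rwa [zpow_zero] at h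

/-- the direction of `u` -/
noncomputable def dir (u : G) : S := (F.exists_dir u).choose

theorem g_dir (u : G) : F.g (F.dir u) = F.hi u := (F.exists_dir u).choose_spec

theorem dir_mul_zpow (u : G) (k : ℤ) : F.dir (u * F.δ ^ k) = F.dir u := by
  apply F.g_inj
  rw [F.g_dir, F.g_dir, F.hi_mul_zpow]

/-- `hi_zpow_mul`, `g_shz`, `g_inj` -/
theorem dir_zpow_mul (u : G) (k : ℤ) : F.dir (F.δ ^ k * u) = E.shz (-k) (F.dir u) := by
  apply F.g_inj
  rw [F.g_dir, F.g_shz, F.g_dir, F.hi_zpow_mul, neg_neg]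

private theorem one_lt_g {x : S} (h1 : x ≠ ⊥) : 1 < F.g x := by
  refine lt_of_le_of_ne ?_ fun h => h1 (F.g_inj ?_)
  · rw [← F.g_bot, F.g_le]
    exact bot_le
  · rw [F.g_bot]
    exact h.symm

private theorem g_lt_δ {x : S} (h2 : x ≠ ⊤) : F.g x < F.δ := by
  refine lt_of_le_of_ne ?_ fun h => h2 (F.g_inj ?_)
  · rw [← F.g_top, F.g_le]
    exact le_top
  · rw [F.g_top]
    exact h

theorem N_g {x : S} (h1 : x ≠ ⊥) (h2 : x ≠ ⊤) : F.N (F.g x) = 1 := by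
  unfold Gar.N
  rw [F.up_simple _ (F.one_lt_g h1) (F.g_lt_δ h2), F.lw_simple _ (F.one_lt_g h1) (F.g_lt_δ h2)]
  rfl

theorem dir_g {x : S} (h1 : x ≠ ⊥) (h2 : x ≠ ⊤) : F.dir (F.g x) = x := by
  apply F.g_inj
  rw [F.g_dir, F.hi_simple _ (F.one_lt_g h1) (F.g_lt_δ h2)]

/-- `hi_inv_simple` -/
theorem dir_g_inv {x : S} (h1 : x ≠ ⊥) (h2 : x ≠ ⊤) : F.dir (F.g x)⁻¹ = E.K x := by
  apply F.g_inj
  rw [F.g_dir, F.hi_inv_simple _ (F.one_lt_g h1) (F.g_lt_δ h2), inv_mul_eq_iff_eq_mul, F.g_K]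

/-- `K` maps `T n` to itself -/
theorem K_mem_T {n : ℕ} {x : S} (h : x ∈ E.T n) : E.K x ∈ E.T n := by
  obtain ⟨h1, h2, h3⟩ := h
  have hc : Function.Commute E.tau E.K := fun y => E.tau_K y
  refine ⟨?_, ?_, ?_⟩
  · rw [hc.iterate_left n x, h1]
  · intro h4
    exact h3 (E.K_bij.1 (h4.trans E.K_top.symm))
  · intro h4
    exact h2 (E.K_bij.1 (h4.trans E.K_bot.symm))

/-- `shz k` maps `T n` to itself -/
theorem shz_mem_T {n : ℕ} {x : S} (h : x ∈ E.T n) (k : ℤ) : E.shz k x ∈ E.T n := by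
  obtain ⟨h1, h2, h3⟩ := h
  have hinj : ∀ y : S, E.shz k x = E.shz k y → x = y := by
    intro y hy
    exact le_antisymm ((E.shz_le_iff k).1 hy.le) ((E.shz_le_iff k).1 hy.ge)
  refine ⟨?_, ?_, ?_⟩
  · unfold Germ.shz
    rw [(Function.Commute.iterate_iterate_self E.tau n (k % (E.m : ℤ)).toNat) x, h1]
  · intro h4
    exact h2 (hinj ⊥ (h4.trans (E.shz_bot k).symm))
  · intro h4
    exact h3 (hinj ⊤ (h4.trans (E.shz_top k).symm))

/-- `lw`, `up` and hence `hi`, `lo` are invariant under conjugation by `δ ^ n` (use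
`hi_zpow_mul`, `hi_mul_zpow`) -/
theorem dir_mem_T {n : ℕ} {u : G} (hu : u ∈ F.Cn n) (h : 0 < F.N u) : F.dir u ∈ E.T n := by
  have hlt : F.lw u < F.up u := by
    unfold Gar.N at h
    omega
  have h1 : F.hi u ∈ F.Cn n := by
    rw [F.mem_Cn] at hu ⊢
    have h2 := F.hi_zpow_mul u (n : ℤ)
    have h3 := F.hi_mul_zpow u (n : ℤ)
    rw [zpow_natCast] at h2 h3
    rw [hu, h2, zpow_neg, zpow_natCast] at h3
    exact (mul_inv_eq_iff_eq_mul.1 h3).symm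
  refine ⟨F.g_mem_Cn.1 ?_, ?_, ?_⟩
  · rw [F.g_dir]
    exact h1
  · intro h2
    have h3 := F.g_dir u
    rw [h2, F.g_bot] at h3
    exact (F.one_lt_hi u hlt).ne h3
  · intro h2
    have h3 := F.g_dir u
    rw [h2, F.g_top] at h3
    exact (F.hi_lt_δ u).ne h3.symm

/-- `lo u` is also a simple element `g y`, `y` in `T n`, and `lo u ≤ hi u`; `Two` -/
theorem lo_eq {n : ℕ} (h2 : E.Two n) {u : G} (hu : u ∈ F.Cn n) (h : 0 < F.N u) :
    F.lo u = F.g (F.dir u) := by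
  have hlt : F.lw u < F.up u := by
    unfold Gar.N at h
    omega
  have h1 : F.lo u ∈ F.Cn n := by
    rw [F.mem_Cn] at hu ⊢
    have h2 := F.lo_zpow_mul u (n : ℤ)
    have h3 := F.lo_mul_zpow u (n : ℤ)
    rw [zpow_natCast] at h2 h3
    rw [hu, h2, zpow_neg, zpow_natCast] at h3
    exact (mul_inv_eq_iff_eq_mul.1 h3).symm
  obtain ⟨y, hy⟩ := F.g_surj (F.lo u) (F.one_le_lo u) (F.lo_lt_δ u hlt).le
  have hyT : y ∈ E.T n := by
    refine ⟨F.g_mem_Cn.1 ?_, ?_, ?_⟩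
    · rw [hy]
      exact h1
    · intro h3
      rw [h3, F.g_bot] at hy
      exact (F.one_lt_lo u).ne hy
    · intro h3
      rw [h3, F.g_top] at hy
      exact (F.lo_lt_δ u hlt).ne hy.symm
  have hle : y ≤ F.dir u := by
    rw [← F.g_le, hy, F.g_dir]
    exact F.lo_le_hi u hlt
  rw [← hy, h2 y hyT (F.dir u) (dir_mem_T F hu h) hle]

/-- `crit_lw`, `crit_up`: the criteria are `g (dir u⁻¹) ≤ g (dir v)` and
`g (dir v) ≤ g (dir u⁻¹)` -/
theorem N_mul {n : ℕ} (h2 : E.Two n) {u v : G} (hu : u ∈ F.Cn n) (hv : v ∈ F.Cn n)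
    (h3 : 0 < F.N u) (h4 : 0 < F.N v) (h : F.dir u⁻¹ ≠ F.dir v) :
    F.N (u * v) = F.N u + F.N v := by
  have hui : u⁻¹ ∈ F.Cn n := inv_mem hu
  have hNi : 0 < F.N u⁻¹ := by rw [F.N_inv]; exact h3
  have t1 := F.dir_mem_T hui hNi
  have t2 := F.dir_mem_T hv h4
  have e1 : F.lw (u * v) = F.lw u + F.lw v := by
    apply F.lw_mul_of
    rw [F.lo_eq h2 hui hNi, ← F.g_dir v, F.g_le]
    exact fun hh => h (h2 _ t1 _ t2 hh)
  have e2 : F.up (u * v) = F.up u + F.up v := by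
    apply F.up_mul_of
    rw [F.lo_eq h2 hv h4, ← F.g_dir u⁻¹, F.g_le]
    exact fun hh => h (h2 _ t2 _ t1 hh).symm
  unfold Gar.N
  rw [e1, e2]
  ring

/-- `hi_le_of_lw` and `Two` -/
theorem dir_mul {n : ℕ} (h2 : E.Two n) {u v : G} (hu : u ∈ F.Cn n) (hv : v ∈ F.Cn n)
    (h3 : 0 < F.N u) (h4 : 0 < F.N v) (h : F.dir u⁻¹ ≠ F.dir v) :
    F.dir (u * v) = F.dir u := by
  have hui : u⁻¹ ∈ F.Cn n := inv_mem hu
  have hNi : 0 < F.N u⁻¹ := by rw [F.N_inv]; exact h3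
  have t1 := F.dir_mem_T hui hNi
  have t2 := F.dir_mem_T hv h4
  have e1 : F.lw (u * v) = F.lw u + F.lw v := by
    apply F.lw_mul_of
    rw [F.lo_eq h2 hui hNi, ← F.g_dir v, F.g_le]
    exact fun hh => h (h2 _ t1 _ t2 hh)
  have huv : u * v ∈ F.Cn n := mul_mem hu hv
  have hN : 0 < F.N (u * v) := by
    rw [F.N_mul h2 hu hv h3 h4 h]
    omega
  have e3 := F.hi_le_of_lw u v e1
  rw [← F.g_dir u, ← F.g_dir (u * v), F.g_le] at e3
  exact (h2 _ (F.dir_mem_T hu h3) _ (F.dir_mem_T huv hN) e3).symm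

/-- `dir_mul` for `v⁻¹ * u⁻¹` -/
theorem dir_mul_inv {n : ℕ} (h2 : E.Two n) {u v : G} (hu : u ∈ F.Cn n) (hv : v ∈ F.Cn n)
    (h3 : 0 < F.N u) (h4 : 0 < F.N v) (h : F.dir u⁻¹ ≠ F.dir v) :
    F.dir (u * v)⁻¹ = F.dir v⁻¹ := by
  rw [mul_inv_rev]
  apply F.dir_mul h2 (inv_mem hv) (inv_mem hu)
  · rw [F.N_inv]
    exact h4
  · rw [F.N_inv]
    exact h3
  · rw [inv_inv]
    exact fun hh => h hh.symm

/-- `crit_lw`, `crit_up` -/
theorem N_mul_lt {n : ℕ} (h2 : E.Two n) {u v : G} (hu : u ∈ F.Cn n) (hv : v ∈ F.Cn n)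
    (h3 : 0 < F.N u) (h4 : 0 < F.N v) (h : F.dir u⁻¹ = F.dir v) :
    F.N (u * v) + 2 ≤ F.N u + F.N v := by
  have hui : u⁻¹ ∈ F.Cn n := inv_mem hu
  have hNi : 0 < F.N u⁻¹ := by rw [F.N_inv]; exact h3
  have e1 : F.lw u + F.lw v < F.lw (u * v) := by
    rw [F.crit_lw, F.lo_eq h2 hui hNi, h, F.g_dir]
  have e2 : F.up (u * v) < F.up u + F.up v := by
    rw [F.crit_up, F.lo_eq h2 hv h4, ← h, F.g_dir]
  unfold Gar.N
  omega

/-- `v = (g (dir u))⁻¹ u`; `lw_peel`, `up_peel` with `s = g (dir u)`; the last part from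
`N_mul_lt` and `dir_g_inv`... for `u = g (dir u) * v` -/
theorem exists_peel {n : ℕ} (h2 : E.Two n) {u : G} (hu : u ∈ F.Cn n) (h : 0 < F.N u) :
    ∃ v ∈ F.Cn n, u = F.g (F.dir u) * v ∧ F.N v = F.N u - 1 ∧
      (0 < F.N v → F.dir v ≠ E.K (F.dir u)) := by
  have hT := F.dir_mem_T hu h
  have hg : F.g (F.dir u) ∈ F.Cn n := F.g_mem_Cn.2 hT.1
  have hlt : F.lw u < F.up u := by
    have h' := h
    unfold Gar.N at h'
    omega
  have h5 : F.lo u ≤ F.g (F.dir u) := (F.lo_eq h2 hu h).le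
  have h6 : F.g (F.dir u) ≤ F.hi u := (F.g_dir u).le
  have e1 := F.lw_peel u (F.g (F.dir u)) hlt h5 h6
  have e2 := F.up_peel u (F.g (F.dir u)) hlt h5 h6
  have hv : (F.g (F.dir u))⁻¹ * u ∈ F.Cn n := mul_mem (inv_mem hg) hu
  have hN : F.N ((F.g (F.dir u))⁻¹ * u) = F.N u - 1 := by
    unfold Gar.N
    rw [e1, e2]
    ring
  refine ⟨(F.g (F.dir u))⁻¹ * u, hv, (mul_inv_cancel_left _ _).symm, hN, fun h0 h7 => ?_⟩
  have h8 : F.N (F.g (F.dir u)) = 1 := F.N_g hT.2.1 hT.2.2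
  have h9 := F.N_mul_lt h2 hg hv (by rw [h8]; exact one_pos) h0
    (by rw [F.dir_g_inv hT.2.1 hT.2.2, h7])
  rw [mul_inv_cancel_left, h8, hN] at h9
  omega

end Frame

end Pool.Agent.SPH
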