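import Pool.Agent.SPH.Idx

/-!
# Project SPH: a generation certificate with two masks for `Cn n1 ⊔ Cn n2 = ⊤`

As `gen_one`, but the second mask starts with a generator `s`, so that it is the set of the simple
elements `x` with `g x * s⁻¹ ∈ U`.
-/

namespace Pool.Agent.SPH.AD

open Pool.Agent.Helper7.AG

variable {A : AD} (h : A.Ok)

open Classical in
/-- the element of the group with a given number -/
noncomputable def gE [Lattice (Artin A.M)] (F : Frame (EE h) (Artin A.M)) (i : ℕ) :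
    Artin A.M := if hi : i < A.D.N then F.g ⟨i, hi⟩ else 1

theorem gE_eq [Lattice (Artin A.M)] (F : Frame (EE h) (Artin A.M)) {i : ℕ}
    (hi : i < A.D.N) : gE h F i = F.g ⟨i, hi⟩ := dif_pos hi

theorem gE_mul [Lattice (Artin A.M)] (F : Frame (EE h) (Artin A.M)) (x : ℕ)
    (hx : x < A.D.N) (q : ℕ) (hq : q < A.D.N) (e : A.D.le q (A.D.K x) = true) :
    gE h F (A.D.tm x q) = gE h F x * gE h F q := by
  have h1 : (⟨q, hq⟩ : SS h) ≤ (EE h).K ⟨x, hx⟩ := by
    rw [TD.El.le_def, TD.El.K_i]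
    exact e
  have h2 : ((EE h).mul ⟨x, hx⟩ ⟨q, hq⟩ : SS h).i = A.D.tm x q := TD.El.mul_i h1
  have h3 : A.D.tm x q < A.D.N := by
    rw [← h2]
    exact ((EE h).mul ⟨x, hx⟩ ⟨q, hq⟩ : SS h).lt
  have h4 : (⟨A.D.tm x q, h3⟩ : SS h) = (EE h).mul ⟨x, hx⟩ ⟨q, hq⟩ := TD.El.ext' h2.symm
  rw [gE_eq h F h3, gE_eq h F hx, gE_eq h F hq, h4, F.g_mul' h1]

theorem gE_fx2 [Lattice (Artin A.M)] (F : Frame (EE h) (Artin A.M)) (n1 n2 x : ℕ)
    (hx : x < A.D.N) (e : A.D.fx2 n1 n2 x = true) : gE h F x ∈ F.Cn n1 ⊔ F.Cn n2 := by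
  have key : ∀ n, Nat.beq (itN A.D.tau n x) x = true → gE h F x ∈ F.Cn n := by
    intro n hn
    rw [gE_eq h F hx]
    refine F.g_mem_Cn.2 ?_
    apply TD.El.ext'
    rw [TD.El.tau_iter, ← itN_eq]
    exact Nat.eq_of_beq_eq_true hn
  cases hc : Nat.beq (itN A.D.tau n1 x) x with
  | true => exact (le_sup_left : F.Cn n1 ≤ F.Cn n1 ⊔ F.Cn n2) (key n1 hc)
  | false =>
    have e' : cond (Nat.beq (itN A.D.tau n1 x) x) true (Nat.beq (itN A.D.tau n2 x) x) = true := e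
    rw [hc] at e'
    exact (le_sup_right : F.Cn n2 ≤ F.Cn n1 ⊔ F.Cn n2) (key n2 e')

theorem gE_gi [Lattice (Artin A.M)] (F : Frame (EE h) (Artin A.M))
    (hg : ∀ (k : Fin A.n) (x : SS h), x.i = A.gi k → F.g x = PresentedGroup.of k)
    (k : Fin A.n) : gE h F (A.gi k) = PresentedGroup.of k := by
  have h1 : A.gi k < A.D.N := lt_of_le_of_lt (h.gi_atom k).2 h.T_N
  rw [gE_eq h F h1]
  exact hg k _ rfl

/-- all generators are in the first mask at the end -/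
theorem gen_top [Lattice (Artin A.M)] (F : Frame (EE h) (Artin A.M))
    (hg : ∀ (k : Fin A.n) (x : SS h), x.i = A.gi k → F.g x = PresentedGroup.of k)
    {n1 n2 Z0 Z1 : ℕ} {k0 : Fin A.n} {l : List Gen.Stp}
    (hr : Gen.run A.D.N A.D.K A.D.le A.D.tm (A.D.fx2 n1 n2) Z0 Z1 l 0
      (CD.ins 0 (A.gi k0)) = true)
    (hz : (allL (List.ofFn A.gi) fun i => CD.bit Z0 i) = true) : F.Cn n1 ⊔ F.Cn n2 = ⊤ := by
  have hI : Gen.Inv (F.Cn n1 ⊔ F.Cn n2) (PresentedGroup.of k0 : Artin A.M) (gE h F) Z0 Z1 := by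
    refine Gen.run_sound (gE_mul h F) (gE_fx2 h F n1 n2) ⟨?_, ?_⟩ hr
    · intro x hx
      rw [CD.bit_zero] at hx
      exact absurd hx (by simp)
    · intro x hx
      rcases CD.bit_ins.1 hx with e | e
      · rw [← e, gE_gi h F hg, mul_inv_cancel]
        exact Subgroup.one_mem _
      · rw [CD.bit_zero] at e
        exact absurd e (by simp)
  have hcl : Subgroup.closure
      (Set.range fun k : Fin A.n => (PresentedGroup.of k : Artin A.M)) = ⊤ :=
    PresentedGroup.closure_range_of _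
  rw [eq_top_iff, ← hcl, Subgroup.closure_le]
  rintro _ ⟨k, rfl⟩
  have h1 := hI.1 _ (allL_spec hz (A.gi k) ((List.mem_ofFn' A.gi _).2 ⟨k, rfl⟩))
  rwa [gE_gi h F hg] at h1

end Pool.Agent.SPH.AD
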