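import Pool.Agent.SPH.Idx1
import Pool.Agent.SPH.Four

/-!
# Project SPH, type E6: the hypotheses `Blk4` from finite checks
-/

namespace Pool.Agent.SPH

namespace TD

variable (D : TD)

/-- the list of the elements which are fixed by `τ ^ 4` -/
def ls4 : List ℕ := upB D.N fun i => Nat.beq (itN D.tau 4 i) i

/-- the test of `loops` -/
def lpc (u b b' t : ℕ) : Bool :=
  cond (Nat.beq t 0) true (cond (D.le (D.q u (D.jn u t)) t)
    (cond (D.le (D.q (D.K u) (D.jn (D.K u) t)) (D.tau t))
      (cond (D.le b t) true (cond (D.le b' t) true (D.le (D.K u) t))) true) true)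

/-- the test of `fix4` for one exponent -/
def f4c (a b t k : ℕ) : Bool :=
  cond (Nat.beq t (itN D.tau k b)) true (cond (Nat.beq t (D.K (itN D.tau k b))) true
    (cond (Nat.beq t (itN D.tau k a)) true (Nat.beq t (D.K (itN D.tau k a)))))

/-- the finite checks for `Blk4` -/
structure B4c (D : TD) (a u b b' : ℕ) : Prop where
  two : D.twoc 2 = true
  mem : D.inT 2 a = true
  K_a : D.K a = u
  rk_a : (allL (D.lsT 2) fun y => cond (Nat.beq (D.rk y) (D.rk a))
    (cond (Nat.beq y a) true (Nat.beq y (D.tau a))) true) = true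
  tau_u : D.tau u ≠ u
  uK : D.mt (D.K u) u = 0
  bK : D.mt (D.K b) b = 0
  bK' : D.mt (D.K b') b' = 0
  b_bot : b ≠ 0
  b_ne : b ≠ b'
  b_le : D.le b u = true
  b_le' : D.le b' u = true
  q_b : D.q b u = b'
  q_b' : D.q b' u = b
  tau_b : D.tau (D.tau b) = b'
  tau_b' : D.tau (D.tau b') = b
  loops : allL D.ls4 (D.lpc u b b') = true
  fix4 : (allL D.ls4 fun t => cond (Nat.beq t 0) true (cond (Nat.beq (t + 1) D.N) true
    (exL [0, 1, 2, 3] (D.f4c a b t)))) = true
  a_le : D.le (D.tau b) (D.K (D.tau (D.tau (D.tau b)))) = true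
  a_eq : D.q (D.tau b) (D.K (D.tau (D.tau (D.tau b)))) = a

variable {D} {h : D.Ok}

private theorem f4_beq {a b : ℕ} (h : a = b) : Nat.beq a b = true := by
  subst h
  exact Nat.beq_refl a

private theorem f4_or {a b : Bool} (h : cond a true b = true) : a = true ∨ b = true := by
  cases a with
  | true => exact Or.inl rfl
  | false => exact Or.inr h

private theorem f4_imp {a b : Bool} (h : cond a b true = true) (ha : a = true) : b = true := by
  subst ha
  exact h

private theorem f4_ls {t : El h} (e : (El.germ h).tau^[4] t = t) : t.i ∈ D.ls4 := by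
  refine mem_upB t.lt (f4_beq ?_)
  rw [itN_eq, ← El.tau_iter, e]

private theorem f4_bot {x : El h} : x = ⊥ ↔ x.i = 0 :=
  ⟨fun e => by rw [e, El.bot_i], fun e => El.ext' (e.trans El.bot_i.symm)⟩

private theorem f4_q {x y : El h} (e : x ≤ y) : ((El.germ h).q x y).i = D.q x.i y.i := El.q_i e

theorem blk4_of {a u b b' : ℕ} (c : D.B4c a u b b') {xa xu xb xb' : El h} (ha : xa.i = a)
    (hu : xu.i = u) (hb : xb.i = b) (hb' : xb'.i = b') : Blk4 (El.germ h) xa xu xb xb' := by
  subst ha hu hb hb'
  have le1 : xb ≤ xu := c.b_le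
  have le2 : xb' ≤ xu := c.b_le'
  refine
    { two := two_of c.two, kt := kt_of c.two, mem := mem_T_iff.2 c.mem, K_a := ?_, rk_a := ?_,
      tau_u := ?_, uK := ?_, bK := ?_, bK' := ?_, b_bot := ?_, b_ne := ?_, b_le := le1,
      b_le' := le2, q_b := ?_, q_b' := ?_, tau_b := ?_, tau_b' := ?_, loops := ?_, fix4 := ?_,
      a_eq := ?_ }
  · apply El.ext'
    rw [El.K_i, c.K_a]
  · intro y hy hr
    have h1 := f4_imp (allL_spec c.rk_a y.i (mem_upB y.lt (mem_T_iff.1 hy))) (f4_beq hr)
    rcases f4_or h1 with h2 | h2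
    · exact Or.inl (El.ext' (Nat.eq_of_beq_eq_true h2))
    · right
      apply El.ext'
      rw [El.tau_i]
      exact Nat.eq_of_beq_eq_true h2
  · intro e
    apply c.tau_u
    rw [← El.tau_i, e]
  · rw [f4_bot, El.inf_i, El.K_i, c.uK]
  · rw [f4_bot, El.inf_i, El.K_i, c.bK]
  · rw [f4_bot, El.inf_i, El.K_i, c.bK']
  · intro e
    exact c.b_bot (f4_bot.1 e)
  · intro e
    exact c.b_ne (by rw [e])
  · apply El.ext'
    rw [f4_q le1, c.q_b]
  · apply El.ext'
    rw [f4_q le2, c.q_b']
  · apply El.ext'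
    rw [El.tau_iter, Function.iterate_succ_apply', Function.iterate_one]
    exact c.tau_b
  · apply El.ext'
    rw [El.tau_iter, Function.iterate_succ_apply', Function.iterate_one]
    exact c.tau_b'
  · intro t h4 h0 h1 h2
    have h3 := allL_spec c.loops t.i (f4_ls h4)
    rcases f4_or h3 with h5 | h5
    · exact absurd (f4_bot.2 (Nat.eq_of_beq_eq_true h5)) h0
    have e1 : D.le (D.q xu.i (D.jn xu.i t.i)) t.i = true := by
      have h6 : D.le ((El.germ h).q xu (xu ⊔ t)).i t.i = true := h1
      rwa [f4_q le_sup_left, El.sup_i] at h6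
    have e2 : D.le (D.q (D.K xu.i) (D.jn (D.K xu.i) t.i)) (D.tau t.i) = true := by
      have h6 : D.le ((El.germ h).q ((El.germ h).K xu) ((El.germ h).K xu ⊔ t)).i
        ((El.germ h).tau t).i = true := h2
      rwa [f4_q le_sup_left, El.sup_i, El.K_i, El.tau_i] at h6
    rcases f4_or (f4_imp (f4_imp h5 e1) e2) with h6 | h6
    · exact Or.inl h6
    · rcases f4_or h6 with h7 | h7
      · exact Or.inr (Or.inl h7)
      · right; right
        show D.le ((El.germ h).K xu).i t.i = true
        rw [El.K_i]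
        exact h7
  · intro x hx
    have h3 := allL_spec c.fix4 x.i (f4_ls hx)
    rcases f4_or h3 with h5 | h5
    · exact Or.inl (f4_bot.2 (Nat.eq_of_beq_eq_true h5))
    right
    rcases f4_or h5 with h6 | h6
    · left
      apply El.ext'
      rw [El.top_i]
      have := Nat.eq_of_beq_eq_true h6
      omega
    right
    obtain ⟨k, -, h7⟩ := exL_spec h6
    refine ⟨k, ?_⟩
    have e1 : ∀ y : El h, itN D.tau k y.i = ((El.germ h).tau^[k] y).i := by
      intro y
      rw [itN_eq, El.tau_iter]
    rcases f4_or h7 with h8 | h8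
    · left
      apply El.ext'
      rw [← e1]
      exact Nat.eq_of_beq_eq_true h8
    rcases f4_or h8 with h9 | h9
    · right; left
      apply El.ext'
      rw [El.K_i, ← e1]
      exact Nat.eq_of_beq_eq_true h9
    rcases f4_or h9 with h10 | h10
    · right; right; left
      apply El.ext'
      rw [← e1]
      exact Nat.eq_of_beq_eq_true h10
    · right; right; right
      apply El.ext'
      rw [El.K_i, ← e1]
      exact Nat.eq_of_beq_eq_true h10
  · refine ⟨1, 3, ?_⟩
    have e1 : ((El.germ h).tau^[1] xb).i = D.tau xb.i := by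
      rw [El.tau_iter, Function.iterate_one]
    have e2 : ((El.germ h).K ((El.germ h).tau^[3] xb)).i =
        D.K (D.tau (D.tau (D.tau xb.i))) := by
      rw [El.K_i, El.tau_iter]
      rfl
    have e3 : (El.germ h).tau^[1] xb ≤ (El.germ h).K ((El.germ h).tau^[3] xb) := by
      show D.le ((El.germ h).tau^[1] xb).i ((El.germ h).K ((El.germ h).tau^[3] xb)).i = true
      rw [e1, e2]
      exact c.a_le
    refine ⟨e3, ?_⟩
    apply El.ext'
    rw [f4_q e3, e1, e2]
    exact c.a_eq

end TD

end Pool.Agent.SPH
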