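import Pool.Agent.SPH.Art1

/-!
# Project SPH: additive functions on an Artin group
-/

namespace Pool.Agent.SPH

open Pool.Agent.Helper7.AG

variable {T : Type*} {M : CoxeterMatrix T}

/-- an additive function has the same value on two generators with the label three -/
theorem add_three {L : Artin M → ℤ} (hL : ∀ u v, L (u * v) = L u + L v) {s t : T}
    (h : M s t = 3) : L (PresentedGroup.of s) = L (PresentedGroup.of t) := by
  have h1 := congrArg L ((br_of (M := M) s t).2.1 h)
  simp only [hL] at h1
  omega

/-- two additive functions which agree on the generators are equal -/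
theorem add_ext {L L' : Artin M → ℤ} (hL : ∀ u v, L (u * v) = L u + L v)
    (hL' : ∀ u v, L' (u * v) = L' u + L' v)
    (h : ∀ s, L (PresentedGroup.of s) = L' (PresentedGroup.of s)) (u : Artin M) :
    L u = L' u := by
  have z : ∀ {K : Artin M → ℤ}, (∀ u v, K (u * v) = K u + K v) → K 1 = 0 := by
    intro K hK
    have h1 := hK 1 1
    rw [mul_one] at h1
    omega
  let f : Artin M →* Multiplicative ℤ :=
    { toFun := fun v => Multiplicative.ofAdd (L v)
      map_one' := by rw [z hL]; rfl
      map_mul' := fun v w => by rw [hL]; rfl }
  let f' : Artin M →* Multiplicative ℤ :=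
    { toFun := fun v => Multiplicative.ofAdd (L' v)
      map_one' := by rw [z hL']; rfl
      map_mul' := fun v w => by rw [hL']; rfl }
  have h2 : f = f' := by
    apply hom_ext
    intro s
    change Multiplicative.ofAdd (L (PresentedGroup.of s)) =
      Multiplicative.ofAdd (L' (PresentedGroup.of s))
    rw [h]
  exact Multiplicative.ofAdd.injective (DFunLike.congr_fun h2 u)

/-- the value of an additive function on a product -/
theorem add_prod {L : Artin M → ℤ} (hL : ∀ u v, L (u * v) = L u + L v) (l : List (Artin M)) :
    L l.prod = (l.map L).sum := by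
  induction l with
  | nil =>
    have h1 := hL 1 1
    rw [mul_one] at h1
    rw [List.prod_nil, List.map_nil, List.sum_nil]
    omega
  | cons a l ih => rw [List.prod_cons, List.map_cons, List.sum_cons, hL, ih]

/-- Let all generators have the same value under every additive function.  An automorphism which
fixes the product of the generators preserves the length. -/
theorem len_fix {n : ℕ} (hn : 0 < n) {M : CoxeterMatrix (Fin n)} {L : Artin M → ℤ}
    (hL : ∀ u v, L (u * v) = L u + L v) (h1 : ∀ s, L (PresentedGroup.of s) = 1)
    (hc : ∀ K : Artin M → ℤ, (∀ u v, K (u * v) = K u + K v) →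
      ∀ s t, K (PresentedGroup.of s) = K (PresentedGroup.of t))
    {φ : MulAut (Artin M)} {d : Artin M}
    (hd : d = (List.ofFn fun k : Fin n => (PresentedGroup.of k : Artin M)).prod)
    (hφ : φ d = d) (u : Artin M) : L (φ u) = L u := by
  have hK : ∀ u v, L (φ (u * v)) = L (φ u) + L (φ v) := fun u v => by rw [map_mul, hL]
  refine add_ext (L := fun v => L (φ v)) hK hL (fun s => ?_) u
  have h2 := add_prod (L := fun v => L (φ v)) hK (List.ofFn fun k : Fin n => (PresentedGroup.of k : Artin M))
  have h3 := add_prod hL (List.ofFn fun k : Fin n => (PresentedGroup.of k : Artin M))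
  rw [← hd, hφ] at h2
  rw [← hd] at h3
  have e1 : ((List.ofFn fun k : Fin n => (PresentedGroup.of k : Artin M)).map
      fun v => L (φ v)).sum = n * L (φ (PresentedGroup.of s)) := by
    rw [List.map_ofFn, List.sum_ofFn]
    refine (Finset.sum_congr rfl fun k _ => hc (fun v => L (φ v)) hK k s).trans ?_
    simp
  have e2 : ((List.ofFn fun k : Fin n => (PresentedGroup.of k : Artin M)).map L).sum = n := by
    rw [List.map_ofFn, List.sum_ofFn]
    refine (Finset.sum_congr rfl fun k _ => h1 k).trans ?_
    simp
  have e3 : (n : ℤ) * L (φ (PresentedGroup.of s)) = n := by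
    rw [← e1, ← h2, h3, e2]
  have hn' : (n : ℤ) ≠ 0 := by exact_mod_cast hn.ne'
  show L (φ (PresentedGroup.of s)) = L (PresentedGroup.of s)
  rw [h1]
  exact mul_left_cancel₀ hn' (by rw [e3, mul_one])

end Pool.Agent.SPH
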