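import Pool.Agent.SPH.Four
import Pool.Agent.SPH.Cyc3

/-!
# Project SPH: a centraliser with three commuting atoms (type `E7`)

`s1`, `s2`, `s3` are three commuting simple elements which are permuted cyclically by `τ³`; the
centraliser of two elements `e`, `h` of the centraliser of `δ³` consists of the elements
`s1 ^ x s2 ^ y s3 ^ z δ ^ l`.  So an automorphism which is the identity on the centraliser of `δ³`
sends `s1` to `s1`, `s2` or `s3`.
-/

namespace Pool.Agent.SPH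

variable {S : Type*} [Lattice S] [BoundedOrder S]

/-- the operators `t ↦ u⁻¹ (u ⊔ t)`, one after the other -/
def Germ.fs (E : Germ S) (us : List S) (t : S) : S :=
  us.foldl (fun x u => E.q u (u ⊔ x)) t

namespace Frame

variable {E : Germ S} {G : Type*} [Group G] [Lattice G] (F : Frame E G)

include F in
theorem one_le_mul {x y : G} (hx : 1 ≤ x) (hy : 1 ≤ y) : 1 ≤ x * y := by
  have h := F.mul_le x _ _ hy
  rw [mul_one] at h
  exact hx.trans h

theorem one_le_prod (us : List S) : 1 ≤ (us.map F.g).prod := by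
  induction us with
  | nil => rw [List.map_nil, List.prod_nil]
  | cons u us ih =>
    rw [List.map_cons, List.prod_cons]
    exact F.one_le_mul (F.one_le_g u) ih

theorem fs_le (us : List S) {x : S} {Y : G} (hY : 1 ≤ Y)
    (h : F.g x ≤ (us.map F.g).prod * Y) : F.g (E.fs us x) ≤ Y := by
  induction us generalizing x with
  | nil =>
    rw [List.map_nil, List.prod_nil, one_mul] at h
    exact h
  | cons u us ih =>
    rw [List.map_cons, List.prod_cons, mul_assoc] at h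
    have h1 : 1 ≤ (us.map F.g).prod * Y := F.one_le_mul (F.one_le_prod us) hY
    have h2 : F.g (u ⊔ x) ≤ F.g u * ((us.map F.g).prod * Y) := by
      rw [F.g_sup]
      refine sup_le ?_ h
      have h3 := F.mul_le (F.g u) _ _ h1
      rwa [mul_one] at h3
    have h3 : F.g (E.q u (u ⊔ x)) ≤ (us.map F.g).prod * Y := by
      rw [← F.mul_le_iff (F.g u), F.g_mul le_sup_left]
      exact h2
    exact ih h3

theorem one_le_conj (k : ℤ) {Z : G} (hZ : 1 ≤ Z) : 1 ≤ F.δ ^ (-k) * Z * F.δ ^ k := by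
  have h1 := (F.mul_zpow_le_iff _ _ k).2 (F.mul_le (F.δ ^ (-k)) _ _ hZ)
  rwa [mul_one, ← zpow_add, neg_add_cancel, zpow_zero] at h1

/-- the conditions for `x = X ⊓ δ`, if `X δ ^ (-i)` commutes with `δ ^ p us δ ^ (-r)` -/
theorem fs_cond {us : List S} {p r : ℕ} {X : G} {i : ℤ} (hX : 1 ≤ X) {x : S}
    (hx : F.g x = X ⊓ F.δ)
    (hc : Commute (X * F.δ ^ (-i)) (F.δ ^ (p : ℤ) * (us.map F.g).prod * F.δ ^ (-(r : ℤ)))) :
    E.fs us (E.tau^[p] x) ≤ E.tau^[r] x := by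
  have ht : ∀ k : ℕ, F.g (E.tau^[k] x) = F.δ ^ (-(k : ℤ)) * X * F.δ ^ (k : ℤ) ⊓ F.δ := by
    intro k
    rw [F.g_tau_iter, hx, F.toGar.mul_inf, ← zpow_natCast, F.toGar.inf_mul_zpow]
    congr 1
    · group
    · group
  set P := (us.map F.g).prod with hP
  have e : P * (F.δ ^ (-(r : ℤ)) * X * F.δ ^ (r : ℤ)) =
      F.δ ^ (-(p : ℤ)) * X * F.δ ^ (p : ℤ) * (F.δ ^ (-i) * P * F.δ ^ i) := by
    have h := hc.eq
    calc P * (F.δ ^ (-(r : ℤ)) * X * F.δ ^ (r : ℤ))
        = F.δ ^ (-(p : ℤ)) * (F.δ ^ (p : ℤ) * P * F.δ ^ (-(r : ℤ)) * (X * F.δ ^ (-i))) *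
          F.δ ^ i * F.δ ^ (r : ℤ) := by group
      _ = F.δ ^ (-(p : ℤ)) * (X * F.δ ^ (-i) * (F.δ ^ (p : ℤ) * P * F.δ ^ (-(r : ℤ)))) *
          F.δ ^ i * F.δ ^ (r : ℤ) := by rw [h]
      _ = F.δ ^ (-(p : ℤ)) * X * F.δ ^ (p : ℤ) * (F.δ ^ (-i) * P * F.δ ^ i) := by group
  have h1 : F.δ ^ (-(p : ℤ)) * X * F.δ ^ (p : ℤ) ≤
      P * (F.δ ^ (-(r : ℤ)) * X * F.δ ^ (r : ℤ)) := by
    rw [e]
    have h2 := F.mul_le (F.δ ^ (-(p : ℤ)) * X * F.δ ^ (p : ℤ)) _ _
      (F.one_le_conj i (F.one_le_prod us))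
    rwa [mul_one] at h2
  rw [← F.g_le, ht r]
  refine le_inf (F.fs_le us (F.one_le_conj r hX) ?_) (F.g_le_δ _)
  rw [ht p]
  exact inf_le_left.trans h1

/-- the second element -/
def hh (F : Frame E G) (y1 y2 y3 : S) : G := F.g y1 * F.g y2 * F.g y3 * F.δ⁻¹

/-- the data of the three commuting atoms -/
structure Bk7 (F : Frame E G) (s1 s2 s3 a b e y1 y2 y3 : S) : Prop where
  t1 : E.tau^[3] s1 = s2
  t2 : E.tau^[3] s2 = s3
  t3 : E.tau^[3] s3 = s1
  ta : E.tau^[3] a = a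
  te : E.tau^[3] e = e
  te' : E.tau e ≠ e
  ty1 : E.tau^[3] y1 = y1
  ty2 : E.tau^[3] y2 = y2
  ty3 : E.tau^[3] y3 = y3
  c12 : Commute (F.g s1) (F.g s2)
  prod : F.g s1 * F.g s2 * F.g s3 = F.g a
  ce : Commute (F.g s1) (F.g e)
  ch : Commute (F.g s1) (F.hh y1 y2 y3)
  Ka : E.K a ⊓ a = ⊥
  a0 : a ≠ ⊥
  a1 : a ≠ ⊤
  s0 : s1 ≠ ⊥
  pb : F.g s1 * F.g s2 = F.g b
  Kb : E.K b ⊓ b = ⊥
  ab : ¬ a ≤ b
  loops : ∀ x, x ≠ ⊥ → E.fs [e] x ≤ x → E.fs [E.K e] x ≤ E.tau x →
    E.fs [y1, y2, y3] x ≤ E.tau x →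
    E.fs [E.K y3, E.tau (E.K y2), E.tau^[2] (E.K y1)] (E.tau x) ≤ E.tau^[3] x →
    s1 ≤ x ∨ s2 ≤ x ∨ s3 ≤ x ∨ E.K a ≤ x

section

variable {F} {s1 s2 s3 a b e y1 y2 y3 : S} (B : Bk7 F s1 s2 s3 a b e y1 y2 y3)

open Cy3 (v)

include B

theorem bk7_cy : Cy3 (F.δ ^ 3) (F.g s1) (F.g s2) (F.g s3) where
  e1 := by rw [← F.g_tau_iter, B.t1]
  e2 := by rw [← F.g_tau_iter, B.t2]
  e3 := by rw [← F.g_tau_iter, B.t3]
  c12 := B.c12

/-- `δ³` commutes with the two elements -/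
theorem bk7_d3 : Commute (F.δ ^ 3) (F.g e) ∧ Commute (F.δ ^ 3) (F.hh y1 y2 y3) := by
  have h1 : ∀ {x : S}, E.tau^[3] x = x → Commute (F.δ ^ 3) (F.g x) := fun hx =>
    ((F.comm_iff _ 3).2 hx).symm
  refine ⟨h1 B.te, ?_⟩
  exact (((h1 B.ty1).mul_right (h1 B.ty2)).mul_right (h1 B.ty3)).mul_right
    ((Commute.refl F.δ).pow_left 3).inv_right

/-- the elements which commute with the two elements -/
theorem bk7_s : (Commute (F.g s1) (F.g e) ∧ Commute (F.g s1) (F.hh y1 y2 y3)) ∧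
    (Commute (F.g s2) (F.g e) ∧ Commute (F.g s2) (F.hh y1 y2 y3)) ∧
      (Commute (F.g s3) (F.g e) ∧ Commute (F.g s3) (F.hh y1 y2 y3)) := by
  have key : ∀ {x y w : G}, (F.δ ^ 3)⁻¹ * x * F.δ ^ 3 = y → Commute (F.δ ^ 3) w →
      Commute x w → Commute y w := by
    intro x y w h1 h2 h3
    rw [← h1]
    exact (h2.inv_left.mul_left h3).mul_left h2
  have hC := bk7_cy B
  obtain ⟨d1, d2⟩ := bk7_d3 B
  have k1 := key hC.e1 d1 B.ce
  have k2 := key hC.e1 d2 B.ch
  exact ⟨⟨B.ce, B.ch⟩, ⟨k1, k2⟩, ⟨key hC.e2 d1 k1, key hC.e2 d2 k2⟩⟩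

/-- the element `δ ^ l` commutes with `e` only if `3 ∣ l` -/
theorem bk7_dvd {l : ℤ} (h : Commute (F.δ ^ l) (F.g e)) : ∃ k : ℤ, l = 3 * k := by
  have h1 : ∀ k : ℤ, Commute (F.δ ^ (3 * k)) (F.g e) := by
    intro k
    have e1 : F.δ ^ (3 * k) = (F.δ ^ 3) ^ k := by
      rw [zpow_mul, zpow_ofNat]
    rw [e1]
    exact (bk7_d3 B).1.zpow_left k
  have h2 : ¬ Commute F.δ (F.g e) := by
    intro h3
    apply B.te'
    have h4 : F.g e * F.δ ^ 1 = F.δ ^ 1 * F.g e := by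
      rw [pow_one]
      exact h3.symm.eq
    exact (F.comm_iff e 1).1 h4
  obtain ⟨k, hk⟩ : ∃ k, l = 3 * k ∨ l = 3 * k + 1 ∨ l = 3 * k + 2 := ⟨l / 3, by omega⟩
  rcases hk with hk | hk | hk
  · exact ⟨k, hk⟩
  · exfalso
    apply h2
    have h3 := h.mul_left (h1 (-k))
    have e1 : F.δ ^ l * F.δ ^ (3 * -k) = F.δ := by
      rw [← zpow_add, hk]
      have : 3 * k + 1 + 3 * -k = 1 := by ring
      rw [this, zpow_one]
    rwa [e1] at h3
  · exfalso
    apply h2
    have h3 := (h1 (k + 1)).mul_left h.inv_left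
    have e1 : F.δ ^ (3 * (k + 1)) * (F.δ ^ l)⁻¹ = F.δ := by
      rw [← zpow_neg, ← zpow_add, hk]
      have : 3 * (k + 1) + -(3 * k + 2) = 1 := by ring
      rw [this, zpow_one]
    rwa [e1] at h3

omit B in
private theorem p7_len {x : S} (hx : x ≠ ⊥) {z : G} : F.len ((F.g x)⁻¹ * z) < F.len z := by
  have h1 : 1 < F.g x := by
    refine lt_of_le_of_ne (F.one_le_g x) fun h => hx (F.g_inj ?_)
    rw [F.g_bot]
    exact h.symm
  have h2 := F.len_lt _ _ h1
  rw [F.toGar.len_one] at h2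
  rw [F.len_mul, F.toGar.len_inv]
  linarith

omit B in
private theorem p7_pos {x y : S} {z : G} (hx : F.g x = z ⊓ F.δ) (h : y ≤ x) :
    1 ≤ (F.g y)⁻¹ * z := by
  have h1 : F.g y ≤ z := (F.g_le.2 h).trans (by rw [hx]; exact inf_le_left)
  have h2 := F.mul_le (F.g y)⁻¹ _ _ h1
  rwa [inv_mul_cancel] at h2

omit B in
/-- the inverse of the second element -/
private theorem p7_inv (y1 y2 y3 : S) : F.δ ^ ((1 : ℕ) : ℤ) *
    (([E.K y3, E.tau (E.K y2), E.tau^[2] (E.K y1)] : List S).map F.g).prod *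
      F.δ ^ (-((3 : ℕ) : ℤ)) = (F.hh y1 y2 y3)⁻¹ := by
  have k : ∀ y : S, F.g (E.K y) = (F.g y)⁻¹ * F.δ := by
    intro y
    rw [← F.g_K y, inv_mul_cancel_left]
  have e2 : F.g (E.tau^[2] (E.K y1)) = F.δ⁻¹ * (F.δ⁻¹ * F.g (E.K y1) * F.δ) * F.δ := by
    rw [Function.iterate_succ_apply', Function.iterate_one, F.g_tau, F.g_tau]
  rw [List.map_cons, List.map_cons, List.map_cons, List.map_nil, List.prod_cons, List.prod_cons,
    List.prod_cons, List.prod_nil, e2, F.g_tau, k, k, k]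
  unfold hh
  push_cast
  group

/-- the elements `X δ ^ (-i)`, `X ≥ 1`, which commute with the two elements -/
theorem bk7_aux (n : ℕ) : ∀ (X : G) (i : ℤ), 1 ≤ X → F.len X ≤ n →
    Commute (X * F.δ ^ (-i)) (F.g e) → Commute (X * F.δ ^ (-i)) (F.hh y1 y2 y3) →
    ∃ x y z l : ℤ, X * F.δ ^ (-i) = v (F.g s1) (F.g s2) (F.g s3) x y z * F.δ ^ l := by
  have hC := bk7_cy B
  obtain ⟨⟨se1, sh1⟩, ⟨se2, sh2⟩, se3, sh3⟩ := bk7_s B
  induction n with
  | zero =>
    intro X i hX hn _ _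
    rcases hX.eq_or_lt with h1 | h1
    · exact ⟨0, 0, 0, -i, by rw [← h1, Cy3.v_zero, one_mul]⟩
    · have h2 := F.len_lt _ _ h1
      rw [F.toGar.len_one] at h2
      rw [Nat.cast_zero] at hn
      omega
  | succ n ih =>
    intro X i hX hn he hh'
    rcases hX.eq_or_lt with h1 | h1
    · exact ⟨0, 0, 0, -i, by rw [← h1, Cy3.v_zero, one_mul]⟩
    obtain ⟨x, hx⟩ := F.g_surj (X ⊓ F.δ) (le_inf hX F.one_le_δ) inf_le_right
    have hx0 : x ≠ ⊥ := by
      intro h2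
      have h3 := F.pos X h1
      rw [← hx, h2, F.g_bot] at h3
      exact lt_irrefl _ h3
    have hn' : F.len X ≤ n + 1 := by exact_mod_cast hn
    have c1 : E.fs [e] x ≤ x := by
      have h2 := F.fs_cond (us := [e]) (p := 0) (r := 0) (i := i) hX hx (by
        rw [List.map_cons, List.map_nil, List.prod_cons, List.prod_nil, mul_one, Nat.cast_zero,
          neg_zero, zpow_zero, one_mul, mul_one]
        exact he)
      exact h2
    have c2 : E.fs [E.K e] x ≤ E.tau x := by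
      have h2 := F.fs_cond (us := [E.K e]) (p := 0) (r := 1) (i := i) hX hx (by
        have e1 : F.δ ^ ((0 : ℕ) : ℤ) * (([E.K e] : List S).map F.g).prod *
            F.δ ^ (-((1 : ℕ) : ℤ)) = (F.g e)⁻¹ := by
          have e2 : F.g (E.K e) = (F.g e)⁻¹ * F.δ := by
            rw [← F.g_K e, inv_mul_cancel_left]
          rw [List.map_cons, List.map_nil, List.prod_cons, List.prod_nil, e2]
          push_cast
          group
        rw [e1]
        exact he.inv_right)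
      exact h2
    have c3 : E.fs [y1, y2, y3] x ≤ E.tau x := by
      have h2 := F.fs_cond (us := [y1, y2, y3]) (p := 0) (r := 1) (i := i) hX hx (by
        have e1 : F.δ ^ ((0 : ℕ) : ℤ) * (([y1, y2, y3] : List S).map F.g).prod *
            F.δ ^ (-((1 : ℕ) : ℤ)) = F.hh y1 y2 y3 := by
          rw [List.map_cons, List.map_cons, List.map_cons, List.map_nil, List.prod_cons,
            List.prod_cons, List.prod_cons, List.prod_nil]
          unfold hh
          push_cast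
          group
        rw [e1]
        exact hh')
      exact h2
    have c4 : E.fs [E.K y3, E.tau (E.K y2), E.tau^[2] (E.K y1)] (E.tau x) ≤ E.tau^[3] x := by
      have h2 := F.fs_cond (us := [E.K y3, E.tau (E.K y2), E.tau^[2] (E.K y1)]) (p := 1) (r := 3)
        (i := i) hX hx (by
        rw [p7_inv]
        exact hh'.inv_right)
      exact h2
    -- the step for one of the three elements
    have step : ∀ (s : S) (p q r : ℤ), F.g s = v (F.g s1) (F.g s2) (F.g s3) p q r → s ≠ ⊥ →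
        Commute (F.g s) (F.g e) → Commute (F.g s) (F.hh y1 y2 y3) → s ≤ x →
        ∃ x y z l : ℤ, X * F.δ ^ (-i) = v (F.g s1) (F.g s2) (F.g s3) x y z * F.δ ^ l := by
      intro s p q r hs hs0 hse hsh hsx
      obtain ⟨x', y', z', l, h3⟩ := ih ((F.g s)⁻¹ * X) i (p7_pos hx hsx)
        (by have := p7_len (F := F) (z := X) hs0; omega)
        (by rw [mul_assoc]; exact hse.inv_left.mul_left he)
        (by rw [mul_assoc]; exact hsh.inv_left.mul_left hh')
      refine ⟨p + x', q + y', r + z', l, ?_⟩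
      rw [← hC.v_mul, ← hs, mul_assoc (F.g s), ← h3]
      group
    have hs2 : s2 ≠ ⊥ := by
      intro h
      apply B.s0
      have h3 : E.tau^[3] s2 = ⊥ := by
        rw [h]
        exact Function.iterate_fixed E.tau_bot 3
      rw [← B.t3, ← B.t2, h3]
      exact Function.iterate_fixed E.tau_bot 3
    have hs3 : s3 ≠ ⊥ := by
      intro h
      apply B.s0
      rw [← B.t3, h]
      exact Function.iterate_fixed E.tau_bot 3
    rcases B.loops x hx0 c1 c2 c3 c4 with h2 | h2 | h2 | h2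
    · refine step s1 1 0 0 ?_ B.s0 se1 sh1 h2
      unfold v
      rw [zpow_one, zpow_zero, zpow_zero, mul_one, mul_one]
    · refine step s2 0 1 0 ?_ hs2 se2 sh2 h2
      unfold v
      rw [zpow_one, zpow_zero, zpow_zero, mul_one, one_mul]
    · refine step s3 0 0 1 ?_ hs3 se3 sh3 h2
      unfold v
      rw [zpow_one, zpow_zero, zpow_zero, one_mul, one_mul]
    · have hK0 : E.K a ≠ ⊥ := fun h => B.a1 (E.K_bij.1 (h.trans E.K_top.symm))
      have ea : F.g a = v (F.g s1) (F.g s2) (F.g s3) 1 1 1 := by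
        unfold v
        rw [zpow_one, zpow_one, zpow_one, B.prod]
      have hae : Commute (F.g a) (F.g e) := by
        rw [← B.prod]
        exact (se1.mul_left se2).mul_left se3
      have hah : Commute (F.g a) (F.hh y1 y2 y3) := by
        rw [← B.prod]
        exact (sh1.mul_left sh2).mul_left sh3
      have hpos := p7_pos hx h2
      have h5 : F.δ * ((F.g (E.K a))⁻¹ * X) * F.δ⁻¹ * F.δ ^ (-(i - 1)) =
          F.g a * (X * F.δ ^ (-i)) := by
        have e1 : F.δ = F.g a * F.g (E.K a) := (F.g_K a).symm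
        have e2 : F.δ * (F.g (E.K a))⁻¹ = F.g a := by
          rw [mul_inv_eq_iff_eq_mul]
          exact e1
        calc F.δ * ((F.g (E.K a))⁻¹ * X) * F.δ⁻¹ * F.δ ^ (-(i - 1))
            = F.δ * (F.g (E.K a))⁻¹ * (X * F.δ ^ (-i)) := by group
          _ = F.g a * (X * F.δ ^ (-i)) := by rw [e2]
      obtain ⟨x', y', z', l, h3⟩ := ih (F.δ * ((F.g (E.K a))⁻¹ * X) * F.δ⁻¹) (i - 1)
        (by
          have h6 := F.mulδi_le _ _ (F.mul_le F.δ _ _ hpos)
          rwa [mul_one, mul_inv_cancel] at h6)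
        (by
          have h6 := p7_len (F := F) (z := X) hK0
          rw [F.len_mul, F.len_mul, F.toGar.len_inv]
          omega)
        (by
          rw [h5]
          exact hae.mul_left he)
        (by
          rw [h5]
          exact hah.mul_left hh')
      rw [h5] at h3
      refine ⟨-1 + x', -1 + y', -1 + z', l, ?_⟩
      rw [← hC.v_mul, ← hC.v_inv, ← ea, mul_assoc (F.g a)⁻¹, ← h3, inv_mul_cancel_left]

/-- the centraliser of the two elements -/
theorem bk7_cent {w : G} (he : Commute w (F.g e)) (hh' : Commute w (F.hh y1 y2 y3)) :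
    ∃ x y z l : ℤ, w = v (F.g s1) (F.g s2) (F.g s3) x y z * (F.δ ^ 3) ^ l := by
  obtain ⟨k, hk, -⟩ := F.arch w
  have h1 : 1 ≤ w * F.δ ^ k := by
    have h2 := (F.mul_zpow_le_iff _ _ k).2 hk
    rwa [← zpow_add, neg_add_cancel, zpow_zero] at h2
  have e1 : w * F.δ ^ k * F.δ ^ (-k) = w := by group
  obtain ⟨x, y, z, l, h3⟩ := bk7_aux B (F.len (w * F.δ ^ k)).toNat (w * F.δ ^ k) k h1
    (Int.self_le_toNat _) (by rw [e1]; exact he) (by rw [e1]; exact hh')
  rw [e1] at h3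
  obtain ⟨⟨se1, sh1⟩, ⟨se2, sh2⟩, se3, sh3⟩ := bk7_s B
  have h4 : Commute (v (F.g s1) (F.g s2) (F.g s3) x y z) (F.g e) :=
    ((se1.zpow_left x).mul_left (se2.zpow_left y)).mul_left (se3.zpow_left z)
  have h5 : Commute (F.δ ^ l) (F.g e) := by
    have h6 : F.δ ^ l = (v (F.g s1) (F.g s2) (F.g s3) x y z)⁻¹ * w := by
      rw [h3, inv_mul_cancel_left]
    rw [h6]
    exact h4.inv_left.mul_left he
  obtain ⟨k', rfl⟩ := bk7_dvd B h5
  refine ⟨x, y, z, k', ?_⟩
  rw [h3, zpow_mul, zpow_ofNat]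

/-- `s1 ^ p s2 ^ q = a ^ n` with `p, q ≥ 0` only for `p = q = n = 0` -/
theorem bk7_two {p q : ℕ} {n : ℤ}
    (h : v (F.g s1) (F.g s2) (F.g s3) p q 0 = F.g a ^ n) : p = 0 ∧ q = 0 ∧ n = 0 := by
  have h' : F.g s1 ^ p * F.g s2 ^ q = F.g a ^ n := by
    unfold v at h
    rw [zpow_zero, mul_one, zpow_natCast, zpow_natCast] at h
    exact h
  have ge : ∀ {x : S} (k : ℕ), 1 ≤ F.g x ^ k := by
    intro x k
    induction k with
    | zero => rw [pow_zero]
    | succ k ih =>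
      rw [pow_succ]
      exact F.one_le_mul ih (F.one_le_g x)
  rcases le_or_gt n 0 with hn | hn
  · obtain ⟨m, rfl⟩ : ∃ m : ℕ, n = -m := ⟨(-n).toNat, by omega⟩
    have h1 : 1 ≤ F.g s1 ^ p * F.g s2 ^ q := F.one_le_mul (ge p) (ge q)
    have h2 : F.g a ^ (-(m : ℤ)) = 1 := by
      rw [h', zpow_neg, zpow_natCast] at h1
      have h3 := F.mul_le (F.g a ^ m) _ _ h1
      rw [mul_one, mul_inv_cancel] at h3
      have h4 := le_antisymm h3 (ge (x := a) m)
      rw [zpow_neg, zpow_natCast, h4, inv_one]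
    have h3 : (-(m : ℤ)) = 0 := F.pow_ne_zpow B.Ka B.a0 B.a1 (k := 0) (by rw [h2, zpow_zero])
    rw [h2] at h'
    have l0 : 0 < F.len (F.g s1) := by
      have h4 : (1 : G) < F.g s1 := by
        refine lt_of_le_of_ne (F.one_le_g s1) fun h => B.s0 (F.g_inj ?_)
        rw [F.g_bot]
        exact h.symm
      have h5 := F.len_lt _ _ h4
      rwa [F.toGar.len_one] at h5
    have l2 : F.len (F.g s2) = F.len (F.g s1) := by
      rw [← (bk7_cy B).e1, F.len_mul, F.len_mul, F.toGar.len_inv]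
      ring
    have lp : ∀ (x : G) (k : ℕ), F.len (x ^ k) = k * F.len x := by
      intro x k
      induction k with
      | zero => rw [pow_zero, F.toGar.len_one, Nat.cast_zero, zero_mul]
      | succ k ih =>
        rw [pow_succ, F.len_mul, ih]
        push_cast
        ring
    have h4 := congrArg F.len h'
    rw [F.len_mul, lp, lp, l2, F.toGar.len_one, ← add_mul] at h4
    have h5 : (p : ℤ) + q = 0 := by
      rcases mul_eq_zero.1 h4 with h6 | h6
      · exact h6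
      · omega
    exact ⟨by omega, by omega, h3⟩
  · exfalso
    obtain ⟨m, rfl⟩ : ∃ m : ℕ, n = m + 1 := ⟨(n - 1).toNat, by omega⟩
    apply B.ab
    have h1 : F.g a ≤ F.g b ^ (p + q + 1) := by
      have h2 : F.g a ≤ F.g a ^ ((m : ℤ) + 1) := by
        have h3 := F.mul_le (F.g a) _ _ (ge (x := a) m)
        rwa [mul_one, ← zpow_natCast, ← zpow_one_add, add_comm] at h3
      refine h2.trans ?_
      rw [← h', ← B.pb, B.c12.mul_pow]
      have h3 : F.g s1 ^ (p + q + 1) * F.g s2 ^ (p + q + 1) =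
          F.g s1 ^ p * F.g s2 ^ q * (F.g s1 ^ (q + 1) * F.g s2 ^ (p + 1)) := by
        have c : Commute (F.g s2 ^ q) (F.g s1 ^ (q + 1)) := (B.c12.pow_pow _ _).symm
        have e1 : p + q + 1 = p + (q + 1) := by ring
        have e2 : F.g s2 ^ (p + q + 1) = F.g s2 ^ q * F.g s2 ^ (p + 1) := by
          rw [← pow_add]
          congr 1
          ring
        rw [e2, e1, pow_add]
        calc F.g s1 ^ p * F.g s1 ^ (q + 1) * (F.g s2 ^ q * F.g s2 ^ (p + 1))
            = F.g s1 ^ p * (F.g s1 ^ (q + 1) * F.g s2 ^ q) * F.g s2 ^ (p + 1) := by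
              simp only [mul_assoc]
          _ = F.g s1 ^ p * (F.g s2 ^ q * F.g s1 ^ (q + 1)) * F.g s2 ^ (p + 1) := by rw [c.eq]
          _ = F.g s1 ^ p * F.g s2 ^ q * (F.g s1 ^ (q + 1) * F.g s2 ^ (p + 1)) := by
              simp only [mul_assoc]
      rw [h3]
      have h4 := F.mul_le (F.g s1 ^ p * F.g s2 ^ q) _ _
        (F.one_le_mul (ge (x := s1) (q + 1)) (ge (x := s2) (p + 1)))
      rwa [mul_one] at h4
    have h2 := F.pow_inf_δ B.Kb (p + q)
    rw [← F.g_le, ← h2]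
    exact le_inf h1 (F.g_le_δ a)

theorem bk7_ind (x y z : ℤ) (h : v (F.g s1) (F.g s2) (F.g s3) x y z = 1) :
    x = 0 ∧ y = 0 ∧ z = 0 := by
  have hC := bk7_cy B
  have ea : ∀ n : ℤ, F.g a ^ n = v (F.g s1) (F.g s2) (F.g s3) n n n := by
    intro n
    have e1 : F.g a = v (F.g s1) (F.g s2) (F.g s3) 1 1 1 := by
      unfold v
      rw [zpow_one, zpow_one, zpow_one, B.prod]
    rw [e1, hC.v_zpow, one_mul]
  have key : ∀ x y z : ℤ, z ≤ x → z ≤ y → v (F.g s1) (F.g s2) (F.g s3) x y z = 1 →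
      x = 0 ∧ y = 0 ∧ z = 0 := by
    intro x y z h1 h2 h3
    obtain ⟨p, hp⟩ : ∃ p : ℕ, x = z + p := ⟨(x - z).toNat, by omega⟩
    obtain ⟨q, hq⟩ : ∃ q : ℕ, y = z + q := ⟨(y - z).toNat, by omega⟩
    have h4 : v (F.g s1) (F.g s2) (F.g s3) p q 0 = F.g a ^ (-z) := by
      have e1 : v (F.g s1) (F.g s2) (F.g s3) p q 0 =
          v (F.g s1) (F.g s2) (F.g s3) (-z) (-z) (-z) *
            v (F.g s1) (F.g s2) (F.g s3) x y z := by
        rw [hC.v_mul, hp, hq]
        congr 1 <;> ring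
      rw [e1, h3, mul_one, ea]
    obtain ⟨h5, h6, h7⟩ := bk7_two B h4
    omega
  have h1 : v (F.g s1) (F.g s2) (F.g s3) z x y = 1 := by
    rw [← hC.conj_v, h, mul_one, inv_mul_cancel]
  have h2 : v (F.g s1) (F.g s2) (F.g s3) y z x = 1 := by
    rw [← hC.conj_v, h1, mul_one, inv_mul_cancel]
  rcases le_total x y with h3 | h3
  · rcases le_total x z with h4 | h4
    · obtain ⟨h5, h6, h7⟩ := key _ _ _ (by omega) (by omega) h2
      exact ⟨h7, h5, h6⟩
    · exact key _ _ _ (by omega) (by omega) h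
  · rcases le_total y z with h4 | h4
    · obtain ⟨h5, h6, h7⟩ := key _ _ _ (by omega) (by omega) h1
      exact ⟨h6, h7, h5⟩
    · exact key _ _ _ (by omega) (by omega) h

/-- an automorphism which is the identity on the centraliser of `δ³` permutes the three elements -/
theorem bk7_image {φ : MulAut G} (hc : ∀ w ∈ F.Cn 3, φ w = w) :
    φ (F.g s1) = F.g s1 ∨ φ (F.g s1) = F.g s2 ∨ φ (F.g s1) = F.g s3 := by
  have hC := bk7_cy B
  have hmem : ∀ {x : S}, E.tau^[3] x = x → F.g x ∈ F.Cn 3 := fun hx => F.g_mem_Cn.2 hx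
  have m1 : F.hh y1 y2 y3 ∈ F.Cn 3 :=
    mul_mem (mul_mem (mul_mem (hmem B.ty1) (hmem B.ty2)) (hmem B.ty3))
      (inv_mem (F.δ_mem_Cn 3))
  have hinv : ∀ w ∈ F.Cn 3, φ⁻¹ w = w := by
    intro w hw
    rw [MulAut.inv_apply, MulEquiv.symm_apply_eq, hc w hw]
  have key : ∀ ψ : MulAut G, (∀ w ∈ F.Cn 3, ψ w = w) → ∃ x y z l : ℤ,
      ψ (F.g s1) = v (F.g s1) (F.g s2) (F.g s3) x y z * (F.δ ^ 3) ^ l := by
    intro ψ hψ
    apply bk7_cent B
    · have h1 := B.ce.map ψ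
      rwa [hψ _ (hmem B.te)] at h1
    · have h1 := B.ch.map ψ
      rwa [hψ _ m1] at h1
  refine hC.permutes (hc _ (pow_mem (F.δ_mem_Cn 3) 3)) ?_ ?_ (bk7_ind B) ?_ (key φ hc)
    (key φ⁻¹ hinv)
  · intro k hk
    have e1 : F.δ ^ (3 * k) = F.δ ^ (0 : ℤ) := by
      rw [zpow_mul, zpow_ofNat, hk, zpow_zero]
    have h1 := F.zpow_δ_inj e1
    omega
  · intro n k hk
    rw [B.prod] at hk
    refine F.pow_ne_zpow B.Ka B.a0 B.a1 (k := 3 * k) ?_
    rw [hk, zpow_mul, zpow_ofNat]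
  · rw [B.prod]
    exact hc _ (hmem B.ta)

/-- an automorphism which is conjugation by a power of `δ` on the centraliser of `δ³` is
conjugation by a power of `δ` -/
theorem bk7_final (hU : F.Cn 3 ⊔ Subgroup.closure {F.g s1} = ⊤) {φ : MulAut G}
    (hc : ∃ i : ℤ, ∀ w ∈ F.Cn 3, φ w = F.δ ^ i * w * (F.δ ^ i)⁻¹) :
    ∃ j : ℤ, φ = MulAut.conj (F.δ ^ j) := by
  obtain ⟨i, hi⟩ := hc
  have h1 : ∀ w ∈ F.Cn 3, (MulAut.conj (F.δ ^ (-i)) * φ) w = w := by
    intro w hw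
    rw [MulAut.mul_apply, hi w hw, MulAut.conj_apply]
    group
  have hC := bk7_cy B
  have hfin : ∀ j : ℤ, (MulAut.conj (F.δ ^ (3 * j)) * (MulAut.conj (F.δ ^ (-i)) * φ)) (F.g s1) =
      F.g s1 → ∃ j : ℤ, φ = MulAut.conj (F.δ ^ j) := by
    intro j hj
    set ψ := MulAut.conj (F.δ ^ (3 * j)) * (MulAut.conj (F.δ ^ (-i)) * φ) with hψ
    have h2 : ∀ w ∈ F.Cn 3, ψ w = w := by
      intro w hw
      rw [hψ, MulAut.mul_apply, h1 w hw, MulAut.conj_apply]
      have h3 : Commute (F.δ ^ (3 * j)) w := by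
        have e1 : F.δ ^ (3 * j) = (F.δ ^ 3) ^ j := by
          rw [zpow_mul, zpow_ofNat]
        rw [e1]
        have h4 : Commute w (F.δ ^ 3) := F.mem_Cn.1 hw
        exact h4.symm.zpow_left j
      rw [h3.eq, mul_inv_cancel_right]
    have h3 : F.Cn 3 ⊔ Subgroup.closure {F.g s1} ≤
        ψ.toMonoidHom.eqLocus (MonoidHom.id G) := by
      refine sup_le (fun w hw => h2 w hw) ?_
      rw [Subgroup.closure_le]
      rintro w rfl
      exact hj
    have h4 : ψ = 1 := by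
      ext w
      rw [hU] at h3
      exact h3 (Subgroup.mem_top w)
    refine ⟨i - 3 * j, ?_⟩
    have h5 : φ = (MulAut.conj (F.δ ^ (3 * j)) * MulAut.conj (F.δ ^ (-i)))⁻¹ := by
      refine eq_inv_of_mul_eq_one_right ?_
      rw [mul_assoc, ← hψ, h4]
    rw [h5, ← map_mul, ← map_inv, ← zpow_add, ← zpow_neg]
    congr 2
    ring
  rcases bk7_image B h1 with h2 | h2 | h2
  · refine hfin 0 ?_
    rw [mul_zero, zpow_zero, map_one, one_mul, h2]
  · refine hfin 1 ?_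
    rw [MulAut.mul_apply, h2, MulAut.conj_apply, mul_one, ← hC.e1]
    rw [zpow_ofNat]
    group
  · refine hfin 2 ?_
    rw [MulAut.mul_apply, h2, MulAut.conj_apply, ← hC.e2, ← hC.e1]
    have e1 : F.δ ^ (3 * 2 : ℤ) = F.δ ^ 3 * F.δ ^ 3 := by
      rw [← pow_add]
      norm_cast
    rw [e1]
    group

end

end Frame

end Pool.Agent.SPH
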