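import Pool.Agent.SPH.Nf
import Pool.Agent.SPH.G4

/-!
# Project SPH (MP_2ec7a7_al): the frame of a dual Garside group

`Frame E G`: the group `G` with its lattice order and Garside element, together with the simple
elements `g x`, `x : S`, of a germ `E`.
-/

namespace Pool.Agent.SPH

/-- a group with a dual Garside structure with the germ `E` -/
structure Frame {S : Type*} [Lattice S] [BoundedOrder S] (E : Germ S) (G : Type*) [Group G]
    [Lattice G] extends Gar G where
  /-- the simple elements -/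
  g : S → G
  g_bot : g ⊥ = 1
  g_top : g ⊤ = δ
  g_mul : ∀ {x y : S}, x ≤ y → g x * g (E.q x y) = g y
  g_le : ∀ {x y : S}, g x ≤ g y ↔ x ≤ y
  g_surj : ∀ u : G, 1 ≤ u → u ≤ δ → ∃ x, g x = u
  len_g : ∀ x, len (g x) = E.rk x
  gen : Subgroup.closure (Set.range g) = ⊤

namespace Frame

variable {S : Type*} [Lattice S] [BoundedOrder S] {E : Germ S} {G : Type*} [Group G] [Lattice G]
  (F : Frame E G)

theorem g_inj : Function.Injective F.g := by
  intro x y h
  exact le_antisymm (F.g_le.1 h.le) (F.g_le.1 h.ge)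

theorem g_mul' {x t : S} (h : t ≤ E.K x) : F.g x * F.g t = F.g (E.mul x t) := by
  have h1 := F.g_mul (E.le_mul h)
  rwa [E.q_mul h] at h1

theorem g_K (x : S) : F.g x * F.g (E.K x) = F.δ := by
  rw [← F.g_top]
  exact F.g_mul le_top

theorem g_tau (x : S) : F.g (E.tau x) = F.δ⁻¹ * F.g x * F.δ := by
  have h1 := F.g_K x
  have h2 := F.g_K (E.K x)
  show F.g (E.K (E.K x)) = F.δ⁻¹ * F.g x * F.δ
  rw [eq_inv_mul_of_mul_eq h2]
  nth_rewrite 2 [← h1]
  group

end Frame

end Pool.Agent.SPH
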