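import Pool.Agent.SPH.Gar

/-!
# Project SPH, piece G1: elementary rules
-/

namespace Pool.Agent.SPH

namespace Gar

variable {G : Type*} [Group G] [Lattice G] (H : Gar G)

include H

theorem mul_le_iff (u g h : G) : u * g ≤ u * h ↔ g ≤ h := by
  constructor
  · intro hh
    have h1 := H.mul_le u⁻¹ _ _ hh
    simpa using h1
  · exact H.mul_le u g h

theorem mul_lt_iff (u g h : G) : u * g < u * h ↔ g < h := by
  rw [lt_iff_le_not_ge, lt_iff_le_not_ge, H.mul_le_iff, H.mul_le_iff]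

private theorem mul_npow_le (g h : G) (hgh : g ≤ h) (n : ℕ) : g * H.δ ^ n ≤ h * H.δ ^ n := by
  induction n with
  | zero => simpa using hgh
  | succ n ih =>
    have := H.mulδ_le _ _ ih
    rw [pow_succ, ← mul_assoc, ← mul_assoc]
    exact this

private theorem mul_npowi_le (g h : G) (hgh : g ≤ h) (n : ℕ) :
    g * (H.δ ^ n)⁻¹ ≤ h * (H.δ ^ n)⁻¹ := by
  induction n with
  | zero => simpa using hgh
  | succ n ih =>
    have := H.mulδi_le _ _ ih
    have e : ∀ x : G, x * (H.δ ^ (n + 1))⁻¹ = x * (H.δ ^ n)⁻¹ * H.δ⁻¹ := by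
      intro x
      rw [mul_assoc, ← mul_inv_rev, ← pow_succ']
    rw [e g, e h]
    exact this

private theorem mul_zpow_le (g h : G) (k : ℤ) (hgh : g ≤ h) : g * H.δ ^ k ≤ h * H.δ ^ k := by
  obtain ⟨n, rfl | rfl⟩ := k.eq_nat_or_neg
  · simpa using H.mul_npow_le g h hgh n
  · simpa using H.mul_npowi_le g h hgh n

theorem mul_zpow_le_iff (g h : G) (k : ℤ) : g * H.δ ^ k ≤ h * H.δ ^ k ↔ g ≤ h := by
  constructor
  · intro hh
    have h1 := H.mul_zpow_le _ _ (-k) hh
    simpa using h1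
  · exact H.mul_zpow_le g h k

theorem mul_sup (u g h : G) : u * (g ⊔ h) = u * g ⊔ u * h := by
  apply le_antisymm
  · rw [← H.mul_le_iff u⁻¹]
    rw [inv_mul_cancel_left]
    apply sup_le
    · rw [← H.mul_le_iff u, mul_inv_cancel_left]
      exact le_sup_left
    · rw [← H.mul_le_iff u, mul_inv_cancel_left]
      exact le_sup_right
  · exact sup_le (H.mul_le _ _ _ le_sup_left) (H.mul_le _ _ _ le_sup_right)

theorem mul_inf (u g h : G) : u * (g ⊓ h) = u * g ⊓ u * h := by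
  apply le_antisymm
  · exact le_inf (H.mul_le _ _ _ inf_le_left) (H.mul_le _ _ _ inf_le_right)
  · rw [← H.mul_le_iff u⁻¹]
    rw [inv_mul_cancel_left]
    apply le_inf
    · rw [← H.mul_le_iff u, mul_inv_cancel_left]
      exact inf_le_left
    · rw [← H.mul_le_iff u, mul_inv_cancel_left]
      exact inf_le_right

theorem sup_mul_zpow (g h : G) (k : ℤ) : (g ⊔ h) * H.δ ^ k = g * H.δ ^ k ⊔ h * H.δ ^ k := by
  apply le_antisymm
  · rw [← H.mul_zpow_le_iff _ _ (-k)]
    rw [mul_assoc, ← zpow_add, add_neg_cancel, zpow_zero, mul_one]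
    apply sup_le
    · rw [← H.mul_zpow_le_iff _ _ k, mul_assoc, ← zpow_add, neg_add_cancel, zpow_zero, mul_one]
      exact le_sup_left
    · rw [← H.mul_zpow_le_iff _ _ k, mul_assoc, ← zpow_add, neg_add_cancel, zpow_zero, mul_one]
      exact le_sup_right
  · exact sup_le (H.mul_zpow_le _ _ _ le_sup_left) (H.mul_zpow_le _ _ _ le_sup_right)

theorem inf_mul_zpow (g h : G) (k : ℤ) : (g ⊓ h) * H.δ ^ k = g * H.δ ^ k ⊓ h * H.δ ^ k := by
  apply le_antisymm
  · exact le_inf (H.mul_zpow_le _ _ _ inf_le_left) (H.mul_zpow_le _ _ _ inf_le_right)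
  · rw [← H.mul_zpow_le_iff _ _ (-k)]
    rw [mul_assoc (g ⊓ h), ← zpow_add, add_neg_cancel, zpow_zero, mul_one]
    apply le_inf
    · rw [← H.mul_zpow_le_iff _ _ k, mul_assoc, ← zpow_add, neg_add_cancel, zpow_zero, mul_one]
      exact inf_le_left
    · rw [← H.mul_zpow_le_iff _ _ k, mul_assoc, ← zpow_add, neg_add_cancel, zpow_zero, mul_one]
      exact inf_le_right

theorem len_one : H.len 1 = 0 := by
  have h := H.len_mul 1 1
  rw [mul_one] at h
  linarith

theorem len_inv (g : G) : H.len g⁻¹ = -H.len g := by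
  have h := H.len_mul g g⁻¹
  rw [mul_inv_cancel, H.len_one] at h
  linarith

private theorem len_npow (n : ℕ) : H.len (H.δ ^ n) = H.len H.δ * n := by
  induction n with
  | zero => simp [H.len_one]
  | succ n ih =>
    rw [pow_succ, H.len_mul, ih]
    push_cast
    ring

theorem len_zpow (k : ℤ) : H.len (H.δ ^ k) = H.len H.δ * k := by
  obtain ⟨n, rfl | rfl⟩ := k.eq_nat_or_neg
  · simpa using H.len_npow n
  · rw [zpow_neg, H.len_inv, zpow_natCast, H.len_npow]
    ring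

theorem len_le (g h : G) (hgh : g ≤ h) : H.len g ≤ H.len h := by
  rcases hgh.eq_or_lt with rfl | hlt
  · exact le_rfl
  · exact (H.len_lt _ _ hlt).le

/-- `1 ≤ δ`, and `1 ≠ δ` by the length. -/
theorem one_lt_δ : 1 < H.δ := by
  refine lt_of_le_of_ne H.one_le_δ ?_
  intro h
  have h1 := H.len_δ
  rw [← h, H.len_one] at h1
  omega

private theorem one_le_npow (n : ℕ) : 1 ≤ H.δ ^ n := by
  induction n with
  | zero => simp
  | succ n ih =>
    calc (1 : G) ≤ H.δ ^ n := ih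
      _ = H.δ ^ n * 1 := (mul_one _).symm
      _ ≤ H.δ ^ n * H.δ := H.mul_le _ _ _ H.one_le_δ
      _ = H.δ ^ (n + 1) := (pow_succ _ _).symm

/-- Powers of an element `> 1`: for `a ≤ b`, `δ^b = δ^a δ^(b-a)` and `1 ≤ δ^n` for natural `n`. -/
theorem zpow_le_iff (a b : ℤ) : H.δ ^ a ≤ H.δ ^ b ↔ a ≤ b := by
  constructor
  · intro h
    have h1 := H.len_le _ _ h
    rw [H.len_zpow, H.len_zpow] at h1
    exact le_of_mul_le_mul_left h1 H.len_δ
  · intro h
    obtain ⟨n, hn⟩ := Int.le.dest h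
    rw [← hn, zpow_add, zpow_natCast]
    calc H.δ ^ a = H.δ ^ a * 1 := (mul_one _).symm
      _ ≤ H.δ ^ a * H.δ ^ n := H.mul_le _ _ _ (H.one_le_npow n)

/-- Use `arch` and `zpow_le_iff`: the set `{k | δ ^ k ≤ g}` is nonempty and bounded above, and it
is closed downwards; `Int.csSup_mem` and `le_csSup`. -/
theorem zpow_le_iff_le_lw (g : G) (k : ℤ) : H.δ ^ k ≤ g ↔ k ≤ H.lw g := by
  obtain ⟨m, hm1, hm2⟩ := H.arch g
  have hne : {k : ℤ | H.δ ^ k ≤ g}.Nonempty := ⟨-m, hm1⟩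
  have hbd : BddAbove {k : ℤ | H.δ ^ k ≤ g} := by
    refine ⟨m, ?_⟩
    intro j hj
    exact (H.zpow_le_iff j m).1 (le_trans hj hm2)
  constructor
  · intro h
    exact le_csSup hbd h
  · intro h
    have h1 : H.δ ^ (H.lw g) ≤ g := Int.csSup_mem hne hbd
    exact le_trans ((H.zpow_le_iff _ _).2 h) h1

/-- As `zpow_le_iff_le_lw`. -/
theorem le_zpow_iff_up_le (g : G) (k : ℤ) : g ≤ H.δ ^ k ↔ H.up g ≤ k := by
  obtain ⟨m, hm1, hm2⟩ := H.arch g
  have hne : {k : ℤ | g ≤ H.δ ^ k}.Nonempty := ⟨m, hm2⟩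
  have hbd : BddBelow {k : ℤ | g ≤ H.δ ^ k} := by
    refine ⟨-m, ?_⟩
    intro j hj
    exact (H.zpow_le_iff (-m) j).1 (le_trans hm1 hj)
  constructor
  · intro h
    exact csInf_le hbd h
  · intro h
    have h1 : g ≤ H.δ ^ (H.up g) := Int.csInf_mem hne hbd
    exact le_trans h1 ((H.zpow_le_iff _ _).2 h)

end Gar

end Pool.Agent.SPH
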