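import Mathlib

/-!
# Project SPH (MP_2ec7a7_al): dual Garside germs

`Germ S` is the structure of the set `S` of simple elements of a dual Garside structure: a bounded
lattice (divisibility order; `⊥` stands for `1` and `⊤` for `δ`) with the left quotient
`q x y = x⁻¹ y`, which is meaningful for `x ≤ y`.  `K x = x⁻¹ δ`, `tau x = δ⁻¹ x δ`, `mul x t`
is the product `x t`, meaningful for `t ≤ K x`; `hd s x`, `tl s x` are the two factors of the left
weighted form of `s x`.
-/

namespace Pool.Agent.SPH

/-- the simple elements of a dual Garside structure -/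
structure Germ (S : Type*) [Lattice S] [BoundedOrder S] where
  /-- the left quotient `x⁻¹ y` (for `x ≤ y`) -/
  q : S → S → S
  /-- the order of `tau` divides `m` -/
  m : ℕ
  m_pos : 0 < m
  q_bot : ∀ y, q ⊥ y = y
  q_mono : ∀ {x y z}, x ≤ y → y ≤ z → q x y ≤ q x z
  q_q : ∀ {x y z}, x ≤ y → y ≤ z → q (q x y) (q x z) = q y z
  q_surj : ∀ {x t}, t ≤ q x ⊤ → ∃ y, x ≤ y ∧ q x y = t
  q_emb : ∀ {x y z}, x ≤ y → x ≤ z → q x y ≤ q x z → y ≤ z
  K_pow : ∀ x, (fun x => q x ⊤)^[2 * m] x = x
  /-- the length -/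
  rk : S → ℕ
  rk_q : ∀ {x y}, x ≤ y → rk y = rk x + rk (q x y)
  rk_pos : ∀ {x}, x ≠ ⊥ → 0 < rk x

namespace Germ

variable {S : Type*} [Lattice S] [BoundedOrder S] (E : Germ S)

/-- the complement `x⁻¹ δ` -/
def K (x : S) : S := E.q x ⊤

/-- `δ⁻¹ x δ` -/
def tau (x : S) : S := E.K (E.K x)

open Classical in
/-- the product `x t`, for `t ≤ K x` -/
noncomputable def mul (x t : S) : S := if h : t ≤ E.q x ⊤ then (E.q_surj h).choose else ⊥

/-- the first factor of the left weighted form of `s x` -/
noncomputable def hd (s x : S) : S := E.mul s (E.K s ⊓ x)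

/-- the second factor of the left weighted form of `s x` -/
noncomputable def tl (s x : S) : S := E.q (E.K s ⊓ x) x

end Germ

end Pool.Agent.SPH
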