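import Pool.Agent.SPH.Germ

/-!
# Project SPH, piece SPH-A1: first rules for germs
-/

namespace Pool.Agent.SPH.Germ

variable {S : Type*} [Lattice S] [BoundedOrder S] (E : Germ S)

/-- `q_surj` with `t = ⊥` gives `y ≥ x` with `q x y = ⊥ ≤ q x x`, so `y ≤ x` by `q_emb`. -/
theorem q_self (x : S) : E.q x x = ⊥ := by
  obtain ⟨y, h1, h2⟩ := E.q_surj (x := x) (t := ⊥) bot_le
  have h3 : y ≤ x := E.q_emb h1 le_rfl (by rw [h2]; exact bot_le)
  rw [le_antisymm h3 h1] at h2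
  exact h2

theorem q_eq_bot {x y : S} (h : x ≤ y) (h1 : E.q x y = ⊥) : x = y := by
  exact le_antisymm h (E.q_emb h le_rfl (by rw [h1]; exact bot_le))

theorem q_inj {x y z : S} (h1 : x ≤ y) (h2 : x ≤ z) (h : E.q x y = E.q x z) : y = z := by
  exact le_antisymm (E.q_emb h1 h2 h.le) (E.q_emb h2 h1 h.ge)

theorem q_le_iff {x y z : S} (h1 : x ≤ y) (h2 : x ≤ z) : E.q x y ≤ E.q x z ↔ y ≤ z := by
  exact ⟨E.q_emb h1 h2, E.q_mono h1⟩

theorem q_le_K {x y : S} (h : x ≤ y) : E.q x y ≤ E.K x := by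
  exact E.q_mono h le_top

/-- `q (q x y) (K x) = K y` -/
theorem q_K {x y : S} (h : x ≤ y) : E.q (E.q x y) (E.K x) = E.K y := by
  exact E.q_q h le_top

theorem K_bot : E.K ⊥ = ⊤ := by
  exact E.q_bot ⊤

theorem K_top : E.K ⊤ = ⊥ := by
  exact E.q_self ⊤

/-- `K` composed `2 m` times is the identity. -/
theorem K_bij : Function.Bijective E.K := by
  have h : ∀ x, E.K^[2 * E.m] x = x := E.K_pow
  have hm : 2 * E.m = (2 * E.m - 1) + 1 := by have := E.m_pos; omega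
  constructor
  · intro x y hxy
    rw [← h x, ← h y, hm, Function.iterate_succ_apply, Function.iterate_succ_apply, hxy]
  · intro x
    refine ⟨E.K^[2 * E.m - 1] x, ?_⟩
    rw [← Function.iterate_succ_apply' E.K, Nat.succ_eq_add_one, ← hm]
    exact h x

theorem tau_bij : Function.Bijective E.tau := by
  exact E.K_bij.comp E.K_bij

/-- `tau^[m] = id` -/
theorem tau_pow (x : S) : E.tau^[E.m] x = x := by
  have h : E.tau = E.K^[2] := rfl
  rw [h, ← Function.iterate_mul]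
  exact E.K_pow x

theorem tau_bot : E.tau ⊥ = ⊥ := by
  rw [tau, K_bot, K_top]

theorem tau_top : E.tau ⊤ = ⊤ := by
  rw [tau, K_top, K_bot]

theorem le_mul {x t : S} (h : t ≤ E.K x) : x ≤ E.mul x t := by
  have h' : t ≤ E.q x ⊤ := h
  rw [mul, dif_pos h']
  exact (E.q_surj h').choose_spec.1

theorem q_mul {x t : S} (h : t ≤ E.K x) : E.q x (E.mul x t) = t := by
  have h' : t ≤ E.q x ⊤ := h
  rw [mul, dif_pos h']
  exact (E.q_surj h').choose_spec.2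

theorem mul_q {x y : S} (h : x ≤ y) : E.mul x (E.q x y) = y := by
  exact E.q_inj (E.le_mul (E.q_le_K h)) h (E.q_mul (E.q_le_K h))

/-- characterisation of the product -/
theorem mul_eq_iff {x t y : S} (h : t ≤ E.K x) : E.mul x t = y ↔ x ≤ y ∧ E.q x y = t := by
  constructor
  · rintro rfl
    exact ⟨E.le_mul h, E.q_mul h⟩
  · rintro ⟨h1, h2⟩
    rw [← h2]
    exact E.mul_q h1

theorem mul_K (x : S) : E.mul x (E.K x) = ⊤ := by
  exact E.mul_q le_top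

theorem mul_bot (x : S) : E.mul x ⊥ = x := by
  exact (E.mul_eq_iff bot_le).2 ⟨le_rfl, E.q_self x⟩

theorem bot_mul (x : S) : E.mul ⊥ x = x := by
  exact (E.mul_eq_iff (by rw [K_bot]; exact le_top)).2 ⟨bot_le, E.q_bot x⟩

/-- `K (x t) = q t (K x)` (`q_K`) -/
theorem K_mul {x t : S} (h : t ≤ E.K x) : E.K (E.mul x t) = E.q t (E.K x) := by
  rw [← E.q_K (E.le_mul h), E.q_mul h]

theorem mul_le_mul {x t u : S} (h1 : t ≤ E.K x) (h2 : u ≤ E.K x) :
    E.mul x t ≤ E.mul x u ↔ t ≤ u := by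
  rw [← E.q_le_iff (E.le_mul h1) (E.le_mul h2), E.q_mul h1, E.q_mul h2]

/-- `v ≤ K (s t) = q t (K s) ≤ K t`, and `t v ≤ t q t (K s) = K s`.  By `q_q` the quotient of
`s (t v)` by `s t` is `v`. -/
theorem mul_assoc' {s t v : S} (h1 : t ≤ E.K s) (h2 : v ≤ E.K (E.mul s t)) :
    v ≤ E.K t ∧ E.mul t v ≤ E.K s ∧ E.mul s (E.mul t v) = E.mul (E.mul s t) v := by
  have h3 : v ≤ E.q t (E.K s) := by rw [← E.K_mul h1]; exact h2
  have h4 : v ≤ E.K t := h3.trans (E.q_mono h1 le_top)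
  have h5 : E.mul t v ≤ E.K s := E.q_emb (E.le_mul h4) h1 (by rw [E.q_mul h4]; exact h3)
  refine ⟨h4, h5, ?_⟩
  have h6 : E.mul s t ≤ E.mul s (E.mul t v) := (E.mul_le_mul h1 h5).2 (E.le_mul h4)
  refine ((E.mul_eq_iff h2).2 ⟨h6, ?_⟩).symm
  rw [← E.q_q (E.le_mul h1) h6, E.q_mul h1, E.q_mul h5, E.q_mul h4]

/-- the other direction of `mul_assoc'` -/
theorem mul_assoc'' {s t v : S} (h1 : v ≤ E.K t) (h2 : E.mul t v ≤ E.K s) :
    t ≤ E.K s ∧ v ≤ E.K (E.mul s t) ∧ E.mul s (E.mul t v) = E.mul (E.mul s t) v := by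
  have h3 : t ≤ E.K s := (E.le_mul h1).trans h2
  have h4 : v ≤ E.K (E.mul s t) := by
    rw [E.K_mul h3]
    calc v = E.q t (E.mul t v) := (E.q_mul h1).symm
      _ ≤ E.q t (E.K s) := E.q_mono (E.le_mul h1) h2
  exact ⟨h3, h4, (E.mul_assoc' h3 h4).2.2⟩

/-- `q x` is an order isomorphism of `[x, ⊤]` onto `[⊥, K x]`, so it preserves meets: if
`t = q x y ⊓ q x z ≤ K x` then `t = q x w` with `w ≤ y`, `w ≤ z`. -/
theorem q_inf {x y z : S} (h1 : x ≤ y) (h2 : x ≤ z) : E.q x (y ⊓ z) = E.q x y ⊓ E.q x z := by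
  refine le_antisymm (le_inf (E.q_mono (le_inf h1 h2) inf_le_left)
    (E.q_mono (le_inf h1 h2) inf_le_right)) ?_
  obtain ⟨w, hw, hw'⟩ := E.q_surj (x := x) (t := E.q x y ⊓ E.q x z)
    (inf_le_left.trans (E.q_le_K h1))
  rw [← hw']
  refine E.q_mono hw (le_inf ?_ ?_)
  · exact E.q_emb hw h1 (by rw [hw']; exact inf_le_left)
  · exact E.q_emb hw h2 (by rw [hw']; exact inf_le_right)

theorem q_sup {x y z : S} (h1 : x ≤ y) (h2 : x ≤ z) : E.q x (y ⊔ z) = E.q x y ⊔ E.q x z := by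
  refine le_antisymm ?_ (sup_le (E.q_mono h1 le_sup_left) (E.q_mono h2 le_sup_right))
  obtain ⟨w, hw, hw'⟩ := E.q_surj (x := x) (t := E.q x y ⊔ E.q x z)
    (sup_le (E.q_le_K h1) (E.q_le_K h2))
  rw [← hw']
  refine E.q_mono (h1.trans le_sup_left) (sup_le ?_ ?_)
  · exact E.q_emb h1 hw (by rw [hw']; exact le_sup_left)
  · exact E.q_emb h2 hw (by rw [hw']; exact le_sup_right)

theorem rk_bot : E.rk ⊥ = 0 := by
  have h := E.rk_q (x := ⊥) (y := ⊥) le_rfl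
  rw [E.q_bot] at h
  omega

theorem rk_le {x y : S} (h : x ≤ y) : E.rk x ≤ E.rk y := by
  rw [E.rk_q h]
  exact Nat.le_add_right _ _

theorem rk_lt {x y : S} (h : x < y) : E.rk x < E.rk y := by
  rw [E.rk_q h.le]
  have h1 : E.q x y ≠ ⊥ := fun h2 => h.ne (E.q_eq_bot h.le h2)
  have := E.rk_pos h1
  omega

theorem rk_mul {x t : S} (h : t ≤ E.K x) : E.rk (E.mul x t) = E.rk x + E.rk t := by
  rw [E.rk_q (E.le_mul h), E.q_mul h]

end Pool.Agent.SPH.Germ
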