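import Pool.Agent.SPH.Germ2

/-!
# Project SPH, pieces SPH-B1, SPH-B2: normal forms

Left weighted sequences of simple elements and the left multiplication by a simple element; the
space `XX` of pairs `(k, l)`, `k` an integer and `l` a left weighted sequence which does not begin
with `⊤`; `(k, l)` stands for `δ^k l`.  Everything is the abstract version of
`Pool/Agent/HT/C3.lean` and `Pool/Agent/HT/C4.lean` (copy the proofs; the tables are replaced by
the theorems of `Germ1.lean`, `Germ2.lean`).
-/

namespace Pool.Agent.SPH.Germ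

variable {S : Type*} [Lattice S] [BoundedOrder S] (E : Germ S)

open Classical in
/-- left multiplication of a left weighted sequence by a simple element -/
noncomputable def act : S → List S → List S
  | s, [] => if s = ⊥ then [] else [s]
  | s, x :: l => E.hd s x :: act (E.tl s x) l

/-- left weighted sequences: the entries are not `⊥`, and `K x ⊓ y = ⊥` for consecutive entries
`x, y` -/
def Nf : List S → Prop
  | [] => True
  | [x] => x ≠ ⊥
  | x :: y :: l => x ≠ ⊥ ∧ E.K x ⊓ y = ⊥ ∧ Nf (y :: l)

theorem Nf.tail {E : Germ S} {x : S} {l : List S} (h : E.Nf (x :: l)) : E.Nf l := by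
  cases l with
  | nil => exact trivial
  | cons y l => exact h.2.2

theorem Nf.head {E : Germ S} {x : S} {l : List S} (h : E.Nf (x :: l)) : x ≠ ⊥ := by
  cases l with
  | nil => exact h
  | cons y l => exact h.1

private theorem b1_nil_bot : E.act ⊥ [] = [] := by
  unfold act
  exact if_pos rfl

private theorem b1_nil {s : S} (h : s ≠ ⊥) : E.act s [] = [s] := by
  unfold act
  exact if_neg h

/-- `hd_bot`, `tl_bot` -/
theorem act_bot {l : List S} (h : E.Nf l) : E.act ⊥ l = l := by
  induction l with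
  | nil => exact b1_nil_bot E
  | cons x l ih =>
    show E.hd ⊥ x :: E.act (E.tl ⊥ x) l = x :: l
    rw [E.hd_bot, E.tl_bot, ih h.tail]

/-- `hd_of_weighted`, `tl_of_weighted` -/
theorem act_cons {x : S} {l : List S} (h : E.Nf (x :: l)) : E.act x l = x :: l := by
  induction l generalizing x with
  | nil => exact b1_nil E h.head
  | cons y l ih =>
    show E.hd x y :: E.act (E.tl x y) l = x :: y :: l
    rw [E.hd_of_weighted h.2.1, E.tl_of_weighted h.2.1, ih h.tail]

/-- `K ⊤ = ⊥`, so `⊤ :: l` is left weighted -/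
theorem act_top {l : List S} (h : E.Nf l) (h1 : (⊤ : S) ≠ ⊥) : E.act ⊤ l = ⊤ :: l := by
  apply E.act_cons
  cases l with
  | nil => exact h1
  | cons x l => exact ⟨h1, by rw [E.K_top]; exact bot_inf_eq x, h⟩

/-- `domino`, `weighted`, `hd_ne_bot` -/
theorem act_nf (s : S) {l : List S} (h : E.Nf l) : E.Nf (E.act s l) := by
  induction l generalizing s with
  | nil =>
    by_cases h0 : s = ⊥
    · rw [h0, b1_nil_bot]
      exact trivial
    · rw [b1_nil E h0]
      exact h0
  | cons x l ih =>
    have h7 : E.hd s x ≠ ⊥ := E.hd_ne_bot h.head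
    have h8 := ih (E.tl s x) h.tail
    show E.Nf (E.hd s x :: E.act (E.tl s x) l)
    cases l with
    | nil =>
      by_cases h0 : E.tl s x = ⊥
      · rw [h0, b1_nil_bot]
        exact h7
      · rw [b1_nil E h0]
        exact ⟨h7, E.weighted s x, h0⟩
    | cons y l => exact ⟨h7, E.domino s h.2.1, h8⟩

/-- Induction on `l`: `hd_hd`, `tl_tl`, and for the empty sequence `hd_of_le`, `tl_of_le` are not
needed: `act s [t] = [s t]` if `t ≠ ⊥`, by `hd_of_le`, `tl_of_le`; `s t ≠ ⊥` since `s ≤ s t`,
and `t ≤ K s`, `t = ⊥` if `s t = ⊥`. -/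
theorem act_act {s t : S} (h : t ≤ E.K s) {l : List S} (hl : E.Nf l) :
    E.act s (E.act t l) = E.act (E.mul s t) l := by
  induction l generalizing s t with
  | nil =>
    by_cases h0 : t = ⊥
    · rw [h0, b1_nil_bot, E.mul_bot]
    · have h1 : E.mul s t ≠ ⊥ := by
        intro h2
        have h3 : s = ⊥ := le_bot_iff.1 (h2 ▸ E.le_mul h)
        rw [h3, E.bot_mul] at h2
        exact h0 h2
      rw [b1_nil E h0, b1_nil E h1]
      show E.hd s t :: E.act (E.tl s t) [] = [E.mul s t]
      rw [E.hd_of_le h, E.tl_of_le h, b1_nil_bot]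
  | cons x l ih =>
    obtain ⟨h3, h4⟩ := E.tl_tl h x
    show E.hd s (E.hd t x) :: E.act (E.tl s (E.hd t x)) (E.act (E.tl t x) l) =
      E.hd (E.mul s t) x :: E.act (E.tl (E.mul s t) x) l
    rw [E.hd_hd h, ih h3 hl.tail, h4]

/-- the power `τ^k s` for an integer `k` -/
def shz (k : ℤ) (s : S) : S := E.tau^[(k % E.m).toNat] s

open Classical in
/-- move the leading `⊤`'s of a sequence to the exponent -/
noncomputable def strip : ℤ → List S → ℤ × List S
  | k, [] => (k, [])
  | k, x :: l => if x = ⊤ then strip (k + 1) l else (k, x :: l)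

/-- the normal forms -/
def XX : Type _ := {p : ℤ × List S // E.Nf p.2 ∧ p.2.head? ≠ some ⊤}

theorem strip_of_head (k : ℤ) {l : List S} (h : l.head? ≠ some ⊤) : strip k l = (k, l) := by
  cases l with
  | nil => rfl
  | cons x l =>
    have hx : x ≠ ⊤ := fun e => h (by rw [e]; rfl)
    simp [strip, hx]

theorem strip_spec (k : ℤ) {l : List S} (h : E.Nf l) :
    E.Nf (strip k l).2 ∧ (strip k l).2.head? ≠ some ⊤ := by
  induction l generalizing k with
  | nil => exact ⟨trivial, by simp [strip]⟩
  | cons x l ih =>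
    by_cases hx : x = ⊤
    · have e : strip k (x :: l) = strip (k + 1) l := by simp [strip, hx]
      rw [e]
      exact ih (k + 1) h.tail
    · have e : strip k (x :: l) = (k, x :: l) := by simp [strip, hx]
      rw [e]
      exact ⟨h, by simp [hx]⟩

theorem le_strip (k : ℤ) (l : List S) : k ≤ (strip k l).1 := by
  induction l generalizing k with
  | nil => exact le_rfl
  | cons x l ih =>
    by_cases hx : x = ⊤
    · have e : strip k (x :: l) = strip (k + 1) l := by simp [strip, hx]
      rw [e]
      exact le_trans (by omega) (ih (k + 1))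
    · have e : strip k (x :: l) = (k, x :: l) := by simp [strip, hx]
      rw [e]

/-- `tau^[m] = id` -/
theorem shz_succ (k : ℤ) (s : S) : E.shz (k + 1) s = E.tau (E.shz k s) := by
  unfold shz
  rw [← Function.iterate_succ_apply' E.tau]
  have hm : (0 : ℤ) < E.m := by exact_mod_cast E.m_pos
  have h0 : 0 ≤ k % (E.m : ℤ) := Int.emod_nonneg k hm.ne'
  have h1 : k % (E.m : ℤ) < E.m := Int.emod_lt_of_pos k hm
  have h2 : (k + 1) % (E.m : ℤ) = (k % (E.m : ℤ) + 1) % (E.m : ℤ) := by
    rw [Int.emod_add_emod]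
  rw [h2]
  by_cases h : k % (E.m : ℤ) + 1 < E.m
  · rw [Int.emod_eq_of_lt (by omega) h]
    congr 1
    omega
  · have h3 : k % (E.m : ℤ) + 1 = E.m := by omega
    have h4 : (k % (E.m : ℤ)).toNat.succ = E.m := by omega
    rw [h3, Int.emod_self, h4, E.tau_pow]
    rfl

theorem shz_zero (s : S) : E.shz 0 s = s := by
  unfold shz
  rw [Int.zero_emod]
  rfl

theorem shz_add (j k : ℤ) (s : S) : E.shz (j + k) s = E.shz j (E.shz k s) := by
  induction j using Int.induction_on with
  | zero => rw [zero_add, E.shz_zero]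
  | succ j ih =>
    have e : (j : ℤ) + 1 + k = (j : ℤ) + k + 1 := by ring
    rw [e, E.shz_succ, ih, E.shz_succ]
  | pred j ih =>
    apply E.tau_bij.1
    have e : -(j : ℤ) - 1 + k + 1 = -(j : ℤ) + k := by ring
    have e' : -(j : ℤ) - 1 + 1 = -(j : ℤ) := by ring
    rw [← E.shz_succ, ← E.shz_succ, e, e', ih]

theorem shz_top (k : ℤ) : E.shz k ⊤ = ⊤ := by
  unfold shz
  exact Function.iterate_fixed E.tau_top _

theorem shz_bot (k : ℤ) : E.shz k ⊥ = ⊥ := by
  unfold shz
  exact Function.iterate_fixed E.tau_bot _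

theorem shz_le_iff (k : ℤ) {s t : S} : E.shz k s ≤ E.shz k t ↔ s ≤ t := by
  unfold shz
  generalize (k % (E.m : ℤ)).toNat = n
  induction n with
  | zero => rfl
  | succ n ih => rw [Function.iterate_succ_apply', Function.iterate_succ_apply', E.tau_le_iff, ih]

theorem shz_K (k : ℤ) (s : S) : E.shz k (E.K s) = E.K (E.shz k s) := by
  unfold shz
  generalize (k % (E.m : ℤ)).toNat = n
  induction n with
  | zero => rfl
  | succ n ih =>
    rw [Function.iterate_succ_apply', Function.iterate_succ_apply', ih, E.tau_K]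

/-- `tau_mul` -/
theorem shz_mul (k : ℤ) {s t : S} (h : t ≤ E.K s) :
    E.shz k (E.mul s t) = E.mul (E.shz k s) (E.shz k t) := by
  have h1 : ∀ j : ℤ, E.shz j t ≤ E.K (E.shz j s) := by
    intro j
    rw [← E.shz_K, E.shz_le_iff]
    exact h
  induction k using Int.induction_on with
  | zero => rw [E.shz_zero, E.shz_zero, E.shz_zero]
  | succ j ih => rw [E.shz_succ, E.shz_succ, E.shz_succ, ih, E.tau_mul (h1 _)]
  | pred j ih =>
    apply E.tau_bij.1
    have e' : -(j : ℤ) - 1 + 1 = -(j : ℤ) := by ring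
    rw [E.tau_mul (h1 _), ← E.shz_succ, ← E.shz_succ, ← E.shz_succ, e', ih]

/-- Induction on `l` (for all `k`): if `l = ⊤ :: l'` then `hd s' ⊤ = ⊤`, `tl s' ⊤ = tau s'`, so
`strip k (act s' l) = strip (k + 1) (act (tau s') l')`. -/
theorem strip_act (k : ℤ) (s : S) {l : List S} (h : E.Nf l) :
    strip (strip k l).1 (E.act (E.shz (strip k l).1 s) (strip k l).2) =
      strip k (E.act (E.shz k s) l) := by
  induction l generalizing k with
  | nil => rfl
  | cons x l ih =>
    by_cases hx : x = ⊤
    · have e : strip k (x :: l) = strip (k + 1) l := by simp [strip, hx]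
      rw [e, ih (k + 1) h.tail, hx]
      have e2 : E.act (E.shz k s) (⊤ :: l) =
        E.hd (E.shz k s) ⊤ :: E.act (E.tl (E.shz k s) ⊤) l := rfl
      rw [e2, E.hd_top, E.tl_top, E.shz_succ]
      simp [strip]
    · have e : strip k (x :: l) = (k, x :: l) := by simp [strip, hx]
      rw [e]

/-- left multiplication by `s` on the normal forms -/
noncomputable def actX (s : S) (p : E.XX) : E.XX :=
  ⟨strip p.1.1 (E.act (E.shz p.1.1 s) p.1.2), E.strip_spec _ (E.act_nf _ p.2.1)⟩

/-- `strip_act`, `act_act`, `shz_mul` -/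
theorem actX_mul {s t : S} (h : t ≤ E.K s) (p : E.XX) :
    E.actX s (E.actX t p) = E.actX (E.mul s t) p := by
  apply Subtype.ext
  show strip (strip p.1.1 (E.act (E.shz p.1.1 t) p.1.2)).1
      (E.act (E.shz (strip p.1.1 (E.act (E.shz p.1.1 t) p.1.2)).1 s)
        (strip p.1.1 (E.act (E.shz p.1.1 t) p.1.2)).2) =
    strip p.1.1 (E.act (E.shz p.1.1 (E.mul s t)) p.1.2)
  have h1 : E.shz p.1.1 t ≤ E.K (E.shz p.1.1 s) := by
    rw [← E.shz_K, E.shz_le_iff]
    exact h
  rw [E.strip_act _ _ (E.act_nf _ p.2.1), E.act_act h1 p.2.1, E.shz_mul _ h]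

theorem actX_bot (p : E.XX) : E.actX ⊥ p = p := by
  apply Subtype.ext
  show strip p.1.1 (E.act (E.shz p.1.1 ⊥) p.1.2) = p.1
  rw [E.shz_bot, E.act_bot p.2.1, strip_of_head _ p.2.2]

/-- `act ⊤ l = ⊤ :: l` and `l` does not begin with `⊤` -/
theorem actX_top (h1 : (⊤ : S) ≠ ⊥) (p : E.XX) : (E.actX ⊤ p).1 = (p.1.1 + 1, p.1.2) := by
  show strip p.1.1 (E.act (E.shz p.1.1 ⊤) p.1.2) = (p.1.1 + 1, p.1.2)
  rw [E.shz_top, E.act_top p.2.1 h1, ← strip_of_head (p.1.1 + 1) p.2.2]
  simp [strip]

private theorem actX_top_bij (h0 : (⊤ : S) ≠ ⊥) : Function.Bijective (E.actX ⊤) := by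
  constructor
  · intro p q h
    have h1 := congrArg Subtype.val h
    rw [E.actX_top h0, E.actX_top h0] at h1
    apply Subtype.ext
    have h2 := congrArg Prod.fst h1
    have h3 := congrArg Prod.snd h1
    apply Prod.ext
    · have : p.1.1 + 1 = q.1.1 + 1 := h2
      omega
    · exact h3
  · intro p
    refine ⟨⟨(p.1.1 - 1, p.1.2), p.2⟩, ?_⟩
    apply Subtype.ext
    rw [E.actX_top h0]
    apply Prod.ext
    · show p.1.1 - 1 + 1 = p.1.1
      omega
    · rfl

/-- `s (K s) = ⊤`, `t s = ⊤` for some `t` (`exists_left`), and `actX ⊤` is bijective by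
`actX_top` (if `⊤ = ⊥` then `S` has one element and `actX_bot` applies). -/
theorem actX_bij (s : S) : Function.Bijective (E.actX s) := by
  by_cases h0 : (⊤ : S) = ⊥
  · have hs : s = ⊥ := le_bot_iff.1 (le_top.trans h0.le)
    have h1 : E.actX s = id := by
      funext p
      rw [hs, E.actX_bot]
      rfl
    rw [h1]
    exact Function.bijective_id
  · obtain ⟨t, h3, h4⟩ := E.exists_left s
    have e1 : E.actX s ∘ E.actX (E.K s) = E.actX ⊤ := by
      funext p
      show E.actX s (E.actX (E.K s) p) = E.actX ⊤ p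
      rw [E.actX_mul le_rfl, E.mul_K]
    have e2 : E.actX t ∘ E.actX s = E.actX ⊤ := by
      funext p
      show E.actX t (E.actX s p) = E.actX ⊤ p
      rw [E.actX_mul h3, h4]
    constructor
    · have h5 : Function.Injective (E.actX t ∘ E.actX s) := by
        rw [e2]
        exact (E.actX_top_bij h0).1
      exact h5.of_comp
    · have h5 : Function.Surjective (E.actX s ∘ E.actX (E.K s)) := by
        rw [e1]
        exact (E.actX_top_bij h0).2
      exact h5.of_comp

/-- the permutation of the normal forms given by a simple element -/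
noncomputable def pX (s : S) : Equiv.Perm E.XX := Equiv.ofBijective _ (E.actX_bij s)

theorem pX_mul {s t : S} (h : t ≤ E.K s) : E.pX s * E.pX t = E.pX (E.mul s t) := by
  ext1 p
  exact E.actX_mul h p

theorem pX_bot : E.pX ⊥ = 1 := by
  ext1 p
  exact E.actX_bot p

/-- the base point -/
def x0 : E.XX := ⟨(0, []), trivial, by simp⟩

/-- the largest simple element below a normal form -/
noncomputable def al (p : E.XX) : S := if 0 < p.1.1 then ⊤ else p.1.2.headD ⊥

end Pool.Agent.SPH.Germ
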