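import Pool.Agent.SPH.Pre

/-!
# Project SPH, pieces SPH-C1, SPH-C2: evaluation of normal forms, positive elements
-/

namespace Pool.Agent.SPH.Pre

variable {S : Type*} [Lattice S] [BoundedOrder S] {E : Germ S} {G : Type*} [Group G]
  (P : Pre E G)

theorem g_mul' {x t : S} (h : t ≤ E.K x) : P.g x * P.g t = P.g (E.mul x t) := by
  have h1 := P.g_mul (E.le_mul h)
  rwa [E.q_mul h] at h1

theorem g_K (x : S) : P.g x * P.g (E.K x) = P.g ⊤ := by
  rw [P.g_mul' le_rfl, E.mul_K]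

theorem g_tau (x : S) : P.g (E.tau x) = (P.g ⊤)⁻¹ * P.g x * P.g ⊤ := by
  have e1 := P.g_K x
  have e2 : P.g (E.K x) * P.g (E.tau x) = P.g ⊤ := P.g_K (E.K x)
  have e3 : P.g ⊤ * P.g (E.tau x) = P.g x * P.g ⊤ := by
    conv_lhs => rw [← e1]
    rw [mul_assoc, e2]
  rw [mul_assoc, ← e3, inv_mul_cancel_left]

private theorem g_tau_iter (n : ℕ) (x : S) :
    P.g (E.tau^[n] x) = (P.g ⊤ ^ n)⁻¹ * P.g x * P.g ⊤ ^ n := by
  induction n with
  | zero => simp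
  | succ n ih =>
    rw [Function.iterate_succ_apply', P.g_tau, ih, pow_succ]
    group

/-- `tau^[m] = id`, so `g ⊤ ^ m` commutes with every `g x` -/
theorem top_pow_comm (u : G) : u * P.g ⊤ ^ E.m = P.g ⊤ ^ E.m * u := by
  have hu : u ∈ Subgroup.closure (Set.range P.g) := by
    rw [P.gen]
    exact Subgroup.mem_top u
  induction hu using Subgroup.closure_induction with
  | mem x hx =>
    obtain ⟨s, rfl⟩ := hx
    have h1 := P.g_tau_iter E.m s
    rw [E.tau_pow, mul_assoc, eq_inv_mul_iff_mul_eq] at h1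
    exact h1.symm
  | one => rw [one_mul, mul_one]
  | mul x y _ _ hx hy => rw [mul_assoc, hy, ← mul_assoc, hx, mul_assoc]
  | inv x _ hx => rw [inv_mul_eq_iff_eq_mul, ← mul_assoc, hx, mul_inv_cancel_right]

theorem g_mul_zpow (s : S) (k : ℤ) : P.g s * P.g ⊤ ^ k = P.g ⊤ ^ k * P.g (E.shz k s) := by
  have hm : (0 : ℤ) < (E.m : ℤ) := by
    have := E.m_pos
    omega
  have h0 : 0 ≤ k % (E.m : ℤ) := Int.emod_nonneg k hm.ne'
  have h1 : (((k % (E.m : ℤ)).toNat : ℕ) : ℤ) = k % (E.m : ℤ) := Int.toNat_of_nonneg h0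
  have h2 : (E.m : ℤ) * (k / (E.m : ℤ)) + k % (E.m : ℤ) = k := Int.mul_ediv_add_emod k (E.m : ℤ)
  have h3 : Commute (P.g s) (P.g ⊤ ^ ((E.m : ℤ) * (k / (E.m : ℤ)))) := by
    rw [zpow_mul, zpow_natCast]
    apply Commute.zpow_right
    exact P.top_pow_comm (P.g s)
  have h4 : P.g ⊤ ^ k = P.g ⊤ ^ ((E.m : ℤ) * (k / (E.m : ℤ))) * P.g ⊤ ^ (k % (E.m : ℤ)) := by
    rw [← zpow_add, h2]
  have h5 : P.g (E.shz k s) = (P.g ⊤ ^ (k % (E.m : ℤ)))⁻¹ * P.g s * P.g ⊤ ^ (k % (E.m : ℤ)) := by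
    unfold Germ.shz
    rw [P.g_tau_iter, ← zpow_natCast, h1]
  rw [h5, h4, ← mul_assoc (P.g s), h3.eq]
  simp only [mul_assoc, mul_inv_cancel_left]

private theorem g_hd_tl (s x : S) : P.g (E.hd s x) * P.g (E.tl s x) = P.g s * P.g x := by
  have h1 : P.g (E.hd s x) = P.g s * P.g (E.K s ⊓ x) := (P.g_mul' inf_le_left).symm
  have h2 : P.g (E.K s ⊓ x) * P.g (E.tl s x) = P.g x := P.g_mul inf_le_right
  rw [h1, mul_assoc, h2]

/-- `g (hd s x) * g (tl s x) = g s * g x` (`mul_tl`, `g_mul'`); induction on `l` -/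
theorem act_prod (s : S) {l : List S} (h : E.Nf l) :
    ((E.act s l).map P.g).prod = P.g s * (l.map P.g).prod := by
  clear h
  induction l generalizing s with
  | nil =>
    rw [Germ.act]
    split_ifs with h0
    · rw [h0, P.g_bot]
      simp
    · simp
  | cons x l ih =>
    rw [Germ.act, List.map_cons, List.prod_cons, ih, List.map_cons, List.prod_cons, ← mul_assoc,
      P.g_hd_tl, mul_assoc]

theorem strip_prod (k : ℤ) (l : List S) :
    P.g ⊤ ^ (Germ.strip k l).1 * ((Germ.strip k l).2.map P.g).prod =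
      P.g ⊤ ^ k * (l.map P.g).prod := by
  induction l generalizing k with
  | nil => rfl
  | cons x l ih =>
    by_cases hx : x = ⊤
    · have e : Germ.strip k (x :: l) = Germ.strip (k + 1) l := by
        rw [Germ.strip, if_pos hx]
      rw [e, ih, hx, List.map_cons, List.prod_cons, zpow_add_one, mul_assoc]
    · have e : Germ.strip k (x :: l) = (k, x :: l) := by
        rw [Germ.strip, if_neg hx]
      rw [e]

theorem ev_actX (s : S) (p : E.XX) : P.ev (E.actX s p) = P.g s * P.ev p := by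
  show P.g ⊤ ^ (Germ.strip p.1.1 (E.act (E.shz p.1.1 s) p.1.2)).1 *
      ((Germ.strip p.1.1 (E.act (E.shz p.1.1 s) p.1.2)).2.map P.g).prod =
    P.g s * (P.g ⊤ ^ p.1.1 * (p.1.2.map P.g).prod)
  rw [P.strip_prod, P.act_prod _ p.2.1, ← mul_assoc, ← mul_assoc, P.g_mul_zpow]

private theorem ev_f_g (s : S) (p : E.XX) : P.ev (P.f (P.g s) p) = P.g s * P.ev p := by
  rw [P.f_g]
  exact P.ev_actX s p

/-- `Subgroup.closure_induction` with `gen` -/
theorem ev_f (u : G) (p : E.XX) : P.ev (P.f u p) = u * P.ev p := by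
  have hu : u ∈ Subgroup.closure (Set.range P.g) := by
    rw [P.gen]
    exact Subgroup.mem_top u
  induction hu using Subgroup.closure_induction generalizing p with
  | mem x hx =>
    obtain ⟨s, rfl⟩ := hx
    exact P.ev_f_g s p
  | one => rw [map_one, Equiv.Perm.one_apply, one_mul]
  | mul x y _ _ hx hy => rw [map_mul, Equiv.Perm.mul_apply, hx, hy, mul_assoc]
  | inv x _ hx =>
    have h1 := hx (P.f x⁻¹ p)
    rw [← Equiv.Perm.mul_apply, ← map_mul, mul_inv_cancel, map_one, Equiv.Perm.one_apply] at h1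
    rw [h1, inv_mul_cancel_left]

theorem ev_f_x0 (u : G) : P.ev (P.f u E.x0) = u := by
  rw [P.ev_f]
  have h : P.ev E.x0 = 1 := by
    show P.g ⊤ ^ (0 : ℤ) * (([] : List S).map P.g).prod = 1
    simp
  rw [h, mul_one]

theorem f_g_x0 {s : S} (h1 : s ≠ ⊥) (h2 : s ≠ ⊤) : (P.f (P.g s) E.x0).1 = (0, [s]) := by
  rw [P.f_g]
  show Germ.strip 0 (E.act (E.shz 0 s) []) = (0, [s])
  rw [E.shz_zero, Germ.act, if_neg h1, Germ.strip, if_neg h2]

theorem g_mem (s : S) : P.g s ∈ P.PP := Submonoid.subset_closure ⟨s, rfl⟩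

theorem g_inv_top_mem (s : S) : (P.g s)⁻¹ * P.g ⊤ ∈ P.PP := by
  rw [← P.g_K s, inv_mul_cancel_left]
  exact P.g_mem _

theorem top_g_inv_mem (s : S) : P.g ⊤ * (P.g s)⁻¹ ∈ P.PP := by
  obtain ⟨t, h1, h2⟩ := E.exists_left s
  rw [← h2, ← P.g_mul' h1, mul_inv_cancel_right]
  exact P.g_mem _

theorem conj_mem {u : G} (hu : u ∈ P.PP) : (P.g ⊤)⁻¹ * u * P.g ⊤ ∈ P.PP := by
  refine Submonoid.closure_induction (motive := fun u _ => (P.g ⊤)⁻¹ * u * P.g ⊤ ∈ P.PP)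
    ?_ ?_ ?_ hu
  · rintro x ⟨s, rfl⟩
    rw [← P.g_tau]
    exact P.g_mem _
  · rw [mul_one, inv_mul_cancel]
    exact P.PP.one_mem
  · intro x y _ _ hx hy
    have h := P.PP.mul_mem hx hy
    have e : (P.g ⊤)⁻¹ * (x * y) * P.g ⊤ =
        (P.g ⊤)⁻¹ * x * P.g ⊤ * ((P.g ⊤)⁻¹ * y * P.g ⊤) := by group
    rw [e]
    exact h

private theorem conj_pow {u : G} (hu : u ∈ P.PP) (n : ℕ) :
    (P.g ⊤ ^ n)⁻¹ * u * P.g ⊤ ^ n ∈ P.PP := by
  induction n with
  | zero => simpa using hu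
  | succ n ih =>
    have h := P.conj_mem ih
    have e : (P.g ⊤ ^ (n + 1))⁻¹ * u * P.g ⊤ ^ (n + 1) =
        (P.g ⊤)⁻¹ * ((P.g ⊤ ^ n)⁻¹ * u * P.g ⊤ ^ n) * P.g ⊤ := by
      rw [pow_succ, mul_inv_rev]
      simp only [mul_assoc]
    rw [e]
    exact h

/-- `conj_mem` `m - 1` times, and `top_pow_comm` -/
theorem conj_mem' {u : G} (hu : u ∈ P.PP) : P.g ⊤ * u * (P.g ⊤)⁻¹ ∈ P.PP := by
  obtain ⟨n, hn⟩ : ∃ n, E.m = n + 1 := ⟨E.m - 1, by have := E.m_pos; omega⟩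
  have h := P.conj_pow hu n
  have h5 := P.top_pow_comm u
  rw [hn] at h5
  have e : P.g ⊤ * u * (P.g ⊤)⁻¹ = (P.g ⊤ ^ n)⁻¹ * u * P.g ⊤ ^ n := by
    calc P.g ⊤ * u * (P.g ⊤)⁻¹ = (P.g ⊤ ^ n)⁻¹ * (P.g ⊤ ^ (n + 1) * u) * (P.g ⊤)⁻¹ := by
          rw [pow_succ]; group
      _ = (P.g ⊤ ^ n)⁻¹ * (u * P.g ⊤ ^ (n + 1)) * (P.g ⊤)⁻¹ := by rw [h5]
      _ = (P.g ⊤ ^ n)⁻¹ * u * P.g ⊤ ^ n := by rw [pow_succ]; group
  rw [e]
  exact h

private theorem conj_pow' {u : G} (hu : u ∈ P.PP) (n : ℕ) :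
    P.g ⊤ ^ n * u * (P.g ⊤ ^ n)⁻¹ ∈ P.PP := by
  induction n with
  | zero => simpa using hu
  | succ n ih =>
    have h := P.conj_mem' ih
    have e : P.g ⊤ ^ (n + 1) * u * (P.g ⊤ ^ (n + 1))⁻¹ =
        P.g ⊤ * (P.g ⊤ ^ n * u * (P.g ⊤ ^ n)⁻¹) * (P.g ⊤)⁻¹ := by
      rw [pow_succ', mul_inv_rev]
      simp only [mul_assoc]
    rw [e]
    exact h

private theorem C2_ln {u : G} (hu : u ∈ P.PP) : 0 ≤ P.ln u ∧ (P.ln u ≤ 0 → u = 1) := by
  refine Submonoid.closure_induction (motive := fun u _ => 0 ≤ P.ln u ∧ (P.ln u ≤ 0 → u = 1))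
    ?_ ?_ ?_ hu
  · rintro x ⟨s, rfl⟩
    rw [P.ln_g]
    refine ⟨by positivity, fun h => ?_⟩
    have h1 : E.rk s = 0 := by omega
    have h2 : s = ⊥ := by
      by_contra h3
      have h4 := E.rk_pos h3
      omega
    rw [h2, P.g_bot]
  · refine ⟨?_, fun _ => rfl⟩
    have h := P.ln_mul 1 1
    rw [mul_one] at h
    omega
  · rintro x y _ _ ⟨hx1, hx2⟩ ⟨hy1, hy2⟩
    rw [P.ln_mul]
    refine ⟨by omega, fun h => ?_⟩
    rw [hx2 (by omega), hy2 (by omega), mul_one]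

theorem ln_nonneg {u : G} (hu : u ∈ P.PP) : 0 ≤ P.ln u := (P.C2_ln hu).1

theorem eq_one_of_ln {u : G} (hu : u ∈ P.PP) (h : P.ln u ≤ 0) : u = 1 := (P.C2_ln hu).2 h

theorem exists_first {u : G} (hu : u ∈ P.PP) (h : u ≠ 1) :
    ∃ s, s ≠ ⊥ ∧ (P.g s)⁻¹ * u ∈ P.PP := by
  revert h
  refine Submonoid.closure_induction_left
    (motive := fun u _ => u ≠ 1 → ∃ s, s ≠ ⊥ ∧ (P.g s)⁻¹ * u ∈ P.PP) ?_ ?_ hu
  · intro h
    exact absurd rfl h
  · rintro x ⟨s, rfl⟩ y hy ih h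
    by_cases h0 : s = ⊥
    · rw [h0, P.g_bot, one_mul] at h ⊢
      exact ih h
    · refine ⟨s, h0, ?_⟩
      rw [inv_mul_cancel_left]
      exact hy

theorem exists_last {u : G} (hu : u ∈ P.PP) (h : u ≠ 1) :
    ∃ s, s ≠ ⊥ ∧ u * (P.g s)⁻¹ ∈ P.PP := by
  revert h
  refine Submonoid.closure_induction_right
    (motive := fun u _ => u ≠ 1 → ∃ s, s ≠ ⊥ ∧ u * (P.g s)⁻¹ ∈ P.PP) ?_ ?_ hu
  · intro h
    exact absurd rfl h
  · rintro x hx y ⟨s, rfl⟩ ih h
    by_cases h0 : s = ⊥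
    · rw [h0, P.g_bot, mul_one] at h ⊢
      exact ih h
    · refine ⟨s, h0, ?_⟩
      rw [mul_inv_cancel_right]
      exact hx

/-- `Subgroup.closure_induction` with `gen` -/
theorem exists_zpow (u : G) : ∃ n : ℕ, P.g ⊤ ^ n * u ∈ P.PP ∧ u⁻¹ * P.g ⊤ ^ n ∈ P.PP := by
  have hu : u ∈ Subgroup.closure (Set.range P.g) := by
    rw [P.gen]
    exact Subgroup.mem_top u
  refine Subgroup.closure_induction
    (p := fun u _ => ∃ n : ℕ, P.g ⊤ ^ n * u ∈ P.PP ∧ u⁻¹ * P.g ⊤ ^ n ∈ P.PP) ?_ ?_ ?_ ?_ hu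
  · rintro x ⟨s, rfl⟩
    refine ⟨1, ?_, ?_⟩
    · rw [pow_one]
      exact P.PP.mul_mem (P.g_mem _) (P.g_mem _)
    · rw [pow_one]
      exact P.g_inv_top_mem s
  · exact ⟨0, by simp [P.PP.one_mem], by simp [P.PP.one_mem]⟩
  · rintro x y _ _ ⟨n, hx1, hx2⟩ ⟨m, hy1, hy2⟩
    refine ⟨n + m, ?_, ?_⟩
    · have h := P.PP.mul_mem (P.conj_pow' hx1 m) hy1
      have e : P.g ⊤ ^ (n + m) * (x * y) =
          P.g ⊤ ^ m * (P.g ⊤ ^ n * x) * (P.g ⊤ ^ m)⁻¹ * (P.g ⊤ ^ m * y) := by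
        rw [Nat.add_comm, pow_add]
        group
      rw [e]
      exact h
    · have h := P.PP.mul_mem hy2 (P.conj_pow hx2 m)
      have e : (x * y)⁻¹ * P.g ⊤ ^ (n + m) =
          y⁻¹ * P.g ⊤ ^ m * ((P.g ⊤ ^ m)⁻¹ * (x⁻¹ * P.g ⊤ ^ n) * P.g ⊤ ^ m) := by
        rw [pow_add]
        group
      rw [e]
      exact h
  · rintro x _ ⟨n, hx1, hx2⟩
    refine ⟨n, ?_, ?_⟩
    · have h := P.conj_pow' hx2 n
      have e : P.g ⊤ ^ n * x⁻¹ = P.g ⊤ ^ n * (x⁻¹ * P.g ⊤ ^ n) * (P.g ⊤ ^ n)⁻¹ := by group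
      rw [e]
      exact h
    · have h := P.conj_pow hx1 n
      have e : x⁻¹⁻¹ * P.g ⊤ ^ n = (P.g ⊤ ^ n)⁻¹ * (P.g ⊤ ^ n * x) * P.g ⊤ ^ n := by group
      rw [e]
      exact h

private theorem f_g_mul (s : S) (u : G) :
    (P.f (P.g s * u) E.x0).1 = Germ.strip (P.f u E.x0).1.1
      (E.act (E.shz (P.f u E.x0).1.1 s) (P.f u E.x0).1.2) := by
  rw [map_mul, Equiv.Perm.mul_apply, P.f_g]
  rfl

theorem f_nonneg {u : G} (hu : u ∈ P.PP) : 0 ≤ (P.f u E.x0).1.1 := by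
  refine Submonoid.closure_induction_left
    (motive := fun u _ => 0 ≤ (P.f u E.x0).1.1) ?_ ?_ hu
  · rw [map_one]
    exact le_refl (0 : ℤ)
  · rintro x ⟨s, rfl⟩ y hy ih
    rw [P.f_g_mul]
    exact le_trans ih (Germ.le_strip _ _)

/-- `g s ≤ u` implies `s ≤ al`: `u = g s * v`, and the normal form of `u` is `actX s` of the one
of `v`; `le_hd` -/
theorem le_al {u : G} {s : S} (h : (P.g s)⁻¹ * u ∈ P.PP) : s ≤ E.al (P.f u E.x0) := by
  classical
  have h0 := P.f_nonneg h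
  have h1 := P.f_g_mul s ((P.g s)⁻¹ * u)
  rw [mul_inv_cancel_left] at h1
  generalize P.f ((P.g s)⁻¹ * u) E.x0 = p at h0 h1
  obtain ⟨⟨k, l⟩, h2, h3⟩ := p
  simp only at h0 h1 h2 h3
  have key : s ≤ (if 0 < (Germ.strip k (E.act (E.shz k s) l)).1 then ⊤ else
      (Germ.strip k (E.act (E.shz k s) l)).2.headD ⊥) := by
    rcases h0.lt_or_eq with hk | hk
    · rw [if_pos (lt_of_lt_of_le hk (Germ.le_strip _ _))]
      exact le_top
    · subst hk
      rw [E.shz_zero]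
      cases l with
      | nil =>
        have h4 : E.act s [] = if s = ⊥ then [] else [s] := by
          rw [Germ.act]
        rw [h4]
        by_cases hi0 : s = ⊥
        · rw [hi0]
          exact bot_le
        · rw [if_neg hi0]
          have h5 : Germ.strip 0 [s] = if s = ⊤ then Germ.strip (0 + 1) [] else (0, [s]) := rfl
          rw [h5]
          by_cases hi1 : s = ⊤
          · rw [if_pos hi1, if_pos]
            · exact le_top
            · have h8 := Germ.le_strip (S := S) (0 + 1) []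
              omega
          · rw [if_neg hi1]
            simp
      | cons x l =>
        have h4 : E.act s (x :: l) = E.hd s x :: E.act (E.tl s x) l := by
          rw [Germ.act]
        have h5 := E.le_hd s x
        have h6 : Germ.strip 0 (E.hd s x :: E.act (E.tl s x) l) =
            if E.hd s x = ⊤ then Germ.strip (0 + 1) (E.act (E.tl s x) l) else
              (0, E.hd s x :: E.act (E.tl s x) l) := by
          rw [Germ.strip]
        rw [h4, h6]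
        by_cases h7 : E.hd s x = ⊤
        · rw [if_pos h7, if_pos]
          · exact le_top
          · have h8 := Germ.le_strip (0 + 1) (E.act (E.tl s x) l)
            omega
        · rw [if_neg h7]
          simpa using h5
  rw [Germ.al, h1]
  exact key

private theorem prod_mem (l : List S) : (l.map P.g).prod ∈ P.PP := by
  apply Submonoid.list_prod_mem
  intro x hx
  obtain ⟨i, -, rfl⟩ := List.mem_map.1 hx
  exact P.g_mem i

theorem mem_of_le_al {u : G} (hu : u ∈ P.PP) {s : S} (h : s ≤ E.al (P.f u E.x0)) :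
    (P.g s)⁻¹ * u ∈ P.PP := by
  have h0 := P.f_nonneg hu
  have h1 := P.ev_f_x0 u
  rw [ev] at h1
  rw [Germ.al] at h
  generalize P.f u E.x0 = p at h0 h1 h
  obtain ⟨⟨k, l⟩, h2, h3⟩ := p
  simp only at h0 h1 h2 h3 h
  rw [← h1]
  rcases h0.lt_or_eq with hk | hk
  · obtain ⟨n, rfl⟩ : ∃ n : ℕ, k = (n : ℤ) + 1 := ⟨(k - 1).toNat, by omega⟩
    have h4 : (P.g s)⁻¹ * (P.g ⊤ ^ ((n : ℤ) + 1) * (l.map P.g).prod) =
        (P.g s)⁻¹ * P.g ⊤ * (P.g ⊤ ^ n * (l.map P.g).prod) := by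
      rw [add_comm, zpow_add, zpow_one, zpow_natCast]
      simp only [mul_assoc]
    rw [h4]
    exact mul_mem (P.g_inv_top_mem s) (mul_mem (pow_mem (P.g_mem ⊤) n) (P.prod_mem l))
  · subst hk
    rw [if_neg (lt_irrefl _)] at h
    cases l with
    | nil =>
      have h4 : s = ⊥ := le_bot_iff.1 h
      rw [h4, P.g_bot]
      simp
    | cons x l =>
      have h5 : s ≤ x := h
      have h6 := P.g_mul h5
      have h7 : (P.g s)⁻¹ * (P.g ⊤ ^ (0 : ℤ) * ((x :: l).map P.g).prod) =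
          P.g (E.q s x) * (l.map P.g).prod := by
        rw [zpow_zero, one_mul, List.map_cons, List.prod_cons, ← h6]
        group
      rw [h7]
      exact mul_mem (P.g_mem _) (P.prod_mem l)

end Pool.Agent.SPH.Pre
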