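import Pool.Agent.SPH.Dir

/-!
# Project SPH, piece SPH-E: automorphisms which fix `δ`, first part

`φ` is an automorphism with `φ δ = δ`, `n` is such that the germ of the centraliser of `δ ^ n` has
height two (`Two n`) and `K` acts transitively on the set `T n` of its atoms (`KT n`).
`D φ x = dir (φ (g x))`.  If `D φ` and `D φ⁻¹` are injective on `T n`, then `φ` multiplies the
widths of the elements of the centraliser by a constant, which must be `1`.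
-/

namespace Pool.Agent.SPH

/-- `K` acts transitively on `T n` -/
def Germ.KT {S : Type*} [Lattice S] [BoundedOrder S] (E : Germ S) (n : ℕ) : Prop :=
  ∀ x ∈ E.T n, ∀ y ∈ E.T n, ∃ i : ℕ, y = E.K^[i] x

namespace Frame

variable {S : Type*} [Lattice S] [BoundedOrder S] {E : Germ S} {G : Type*} [Group G] [Lattice G]
  (F : Frame E G)

/-- the direction of the image of a simple element -/
noncomputable def D (φ : MulAut G) (x : S) : S := F.dir (φ (F.g x))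

variable {φ : MulAut G}

theorem map_δ_zpow (hφ : φ F.δ = F.δ) (k : ℤ) : φ (F.δ ^ k) = F.δ ^ k := by
  rw [map_zpow, hφ]

theorem symm_δ (hφ : φ F.δ = F.δ) : φ⁻¹ F.δ = F.δ := by
  conv_lhs => rw [← hφ]
  exact φ.symm_apply_apply F.δ

theorem map_mem_Cn (hφ : φ F.δ = F.δ) {n : ℕ} {u : G} (hu : u ∈ F.Cn n) : φ u ∈ F.Cn n := by
  rw [F.mem_Cn] at hu ⊢
  have h1 : φ (F.δ ^ n) = F.δ ^ n := by rw [map_pow, hφ]
  rw [← h1, ← map_mul, hu, map_mul]

/-- if `N (φ u) = 0` then `φ u = δ ^ k = φ (δ ^ k)` -/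
theorem N_map_pos (hφ : φ F.δ = F.δ) {u : G} (h : 0 < F.N u) : 0 < F.N (φ u) := by
  by_contra h1
  have h2 : F.N (φ u) = 0 := le_antisymm (not_lt.1 h1) (F.N_nonneg _)
  have h3 := F.eq_zpow_of_N h2
  rw [← F.map_δ_zpow hφ] at h3
  have h4 := φ.injective h3
  rw [h4, F.N_zpow] at h
  exact lt_irrefl _ h

theorem D_mem_T (hφ : φ F.δ = F.δ) {n : ℕ} {x : S} (hx : x ∈ E.T n) : F.D φ x ∈ E.T n := by
  apply F.dir_mem_T
  · exact F.map_mem_Cn hφ (F.g_mem_Cn.2 hx.1)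
  · apply F.N_map_pos hφ
    rw [F.N_g hx.2.1 hx.2.2]
    exact one_pos

/-- `g (shz k x) = δ ^ (-k) * g x * δ ^ k` (`g_shz`), `dir_mul_zpow`, `dir_zpow_mul` -/
theorem D_shz (hφ : φ F.δ = F.δ) (x : S) (k : ℤ) :
    F.D φ (E.shz k x) = E.shz k (F.D φ x) := by
  unfold D
  rw [F.g_shz, map_mul, map_mul, F.map_δ_zpow hφ, F.map_δ_zpow hφ, F.dir_mul_zpow,
    F.dir_zpow_mul, neg_neg]

private theorem E1_map_K (hφ : φ F.δ = F.δ) (x : S) :
    φ (F.g (E.K x)) = (φ (F.g x))⁻¹ * F.δ ^ (1 : ℤ) := by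
  have h1 : F.g (E.K x) = (F.g x)⁻¹ * F.δ := by
    rw [eq_inv_mul_iff_mul_eq]
    exact F.g_K x
  rw [h1, map_mul, map_inv, hφ, zpow_one]

/-- `g (K x) = (g x)⁻¹ * δ` -/
theorem dir_map_inv (hφ : φ F.δ = F.δ) (x : S) : F.dir (φ (F.g x))⁻¹ = F.D φ (E.K x) := by
  rw [D, F.E1_map_K hφ, F.dir_mul_zpow]

theorem N_map_K (hφ : φ F.δ = F.δ) (x : S) : F.N (φ (F.g (E.K x))) = F.N (φ (F.g x)) := by
  rw [F.E1_map_K hφ, F.N_mul_zpow, F.N_inv]

theorem N_map_eq (hφ : φ F.δ = F.δ) {n : ℕ} (hK : E.KT n) {x y : S} (hx : x ∈ E.T n)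
    (hy : y ∈ E.T n) : F.N (φ (F.g y)) = F.N (φ (F.g x)) := by
  obtain ⟨i, rfl⟩ := hK x hx y hy
  clear hy
  induction i with
  | zero => rfl
  | succ i ih => rw [Function.iterate_succ_apply', F.N_map_K hφ, ih]

/-- Induction on `N u` (as a natural number).  If `N u = 0` then `u = δ ^ k`.  Otherwise
`u = g x * v`, `x = dir u`, as in `exists_peel`.  If `N v = 0` then `v = δ ^ k` and
`φ u = φ (g x) δ ^ k`.  If `N v > 0` then `dir v ≠ K x`, so
`dir (φ v) = D φ (dir v) ≠ D φ (K x) = dir (φ (g x))⁻¹` and `N_mul`, `dir_mul` apply. -/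
theorem map_linear {n : ℕ} (h2 : E.Two n) (hK : E.KT n) (hφ : φ F.δ = F.δ)
    (hD : ∀ x ∈ E.T n, ∀ y ∈ E.T n, F.D φ x = F.D φ y → x = y) {a : S} (ha : a ∈ E.T n)
    {u : G} (hu : u ∈ F.Cn n) :
    F.N (φ u) = F.N (φ (F.g a)) * F.N u ∧ (0 < F.N u → F.dir (φ u) = F.D φ (F.dir u)) := by
  obtain ⟨k, hk⟩ : ∃ k : ℕ, F.N u = k := ⟨(F.N u).toNat, (Int.toNat_of_nonneg (F.N_nonneg u)).symm⟩
  induction k generalizing u with
  | zero =>
    have h0 : F.N u = 0 := by rw [hk]; rfl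
    have h1 := F.eq_zpow_of_N h0
    refine ⟨?_, fun h => absurd h0 h.ne'⟩
    rw [h0, mul_zero, h1, F.map_δ_zpow hφ, F.N_zpow]
  | succ k ih =>
    have hpos : 0 < F.N u := by rw [hk]; positivity
    have hx := F.dir_mem_T hu hpos
    obtain ⟨v, hv, huv, hNv, hdv⟩ := F.exists_peel h2 hu hpos
    have hNx : F.N (φ (F.g (F.dir u))) = F.N (φ (F.g a)) := F.N_map_eq hφ hK ha hx
    have hNg : F.N (F.g (F.dir u)) = 1 := F.N_g hx.2.1 hx.2.2
    have hgC : F.g (F.dir u) ∈ F.Cn n := F.g_mem_Cn.2 hx.1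
    have hφu : φ u = φ (F.g (F.dir u)) * φ v := by
      conv_lhs => rw [huv]
      rw [map_mul]
    have hNvk : F.N v = k := by
      rw [hNv, hk]
      push_cast
      ring
    rcases (F.N_nonneg v).eq_or_lt with h0 | h0
    · have h1 := F.eq_zpow_of_N h0.symm
      have h3 : φ u = φ (F.g (F.dir u)) * F.δ ^ F.lw v := by
        rw [hφu]
        conv_lhs => rw [h1]
        rw [F.map_δ_zpow hφ]
      have h4 : F.N u = 1 := by omega
      refine ⟨?_, fun _ => ?_⟩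
      · rw [h4, mul_one, h3, F.N_mul_zpow, hNx]
      · rw [h3, F.dir_mul_zpow]
        rfl
    · obtain ⟨i1, i2⟩ := ih hv hNvk
      have hne : F.dir (φ (F.g (F.dir u)))⁻¹ ≠ F.dir (φ v) := by
        rw [F.dir_map_inv hφ, i2 h0]
        intro h
        exact hdv h0 (hD _ (K_mem_T hx) _ (F.dir_mem_T hv h0) h).symm
      have c1 := F.map_mem_Cn hφ hgC
      have c2 := F.map_mem_Cn hφ hv
      have p1 : 0 < F.N (φ (F.g (F.dir u))) := F.N_map_pos hφ (by rw [hNg]; exact one_pos)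
      have p2 : 0 < F.N (φ v) := F.N_map_pos hφ h0
      refine ⟨?_, fun _ => ?_⟩
      · rw [hφu, F.N_mul h2 c1 c2 p1 p2 hne, hNx, i1, hNv]
        ring
      · rw [hφu, F.dir_mul h2 c1 c2 p1 p2 hne]
        rfl

/-- `1 = N (g a) = N (φ (φ⁻¹ (g a))) = N (φ (g a)) * N (φ⁻¹ (g a))`, so `N (φ (g a)) = 1`; then
`exists_peel` -/
theorem rt_of_inj {n : ℕ} (h2 : E.Two n) (hK : E.KT n) (hφ : φ F.δ = F.δ)
    (hD : ∀ x ∈ E.T n, ∀ y ∈ E.T n, F.D φ x = F.D φ y → x = y)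
    (hD' : ∀ x ∈ E.T n, ∀ y ∈ E.T n, F.D φ⁻¹ x = F.D φ⁻¹ y → x = y) {a : S}
    (ha : a ∈ E.T n) :
    ∃ y ∈ E.T n, ∃ k : ℤ, φ (F.g a) = F.g y * F.δ ^ k := by
  have hNa : F.N (F.g a) = 1 := F.N_g ha.2.1 ha.2.2
  have haC : F.g a ∈ F.Cn n := F.g_mem_Cn.2 ha.1
  have h1 := (F.map_linear h2 hK hφ hD ha (F.map_mem_Cn (F.symm_δ hφ) haC)).1
  rw [MulAut.apply_inv_self, hNa] at h1
  have hpos : 0 < F.N (φ (F.g a)) := F.N_map_pos hφ (by rw [hNa]; exact one_pos)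
  have hc : F.N (φ (F.g a)) = 1 := by
    rcases Int.isUnit_iff.1 (isUnit_iff_exists_inv.2 ⟨_, h1.symm⟩) with h | h
    · exact h
    · omega
  have hφC := F.map_mem_Cn hφ haC
  obtain ⟨v, hv, huv, hNv, -⟩ := F.exists_peel h2 hφC hpos
  rw [hc, sub_self] at hNv
  refine ⟨F.dir (φ (F.g a)), F.dir_mem_T hφC hpos, F.lw v, ?_⟩
  rw [← F.eq_zpow_of_N hNv]
  exact huv

end Frame

end Pool.Agent.SPH
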