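import Pool.Agent.SPH.RT1

/-!
# Project SPH, piece SPH-E: automorphisms which fix `δ`, second part

Elements `X` of the centraliser of `δ ^ n` with `dir X⁻¹ = dir X`.
-/

namespace Pool.Agent.SPH

namespace Germ

variable {S : Type*} [Lattice S] [BoundedOrder S] {E : Germ S}

/-- `x` and `K x` are not in the same orbit of `τ`, for `x` in `T n` -/
def Ko (E : Germ S) (n : ℕ) : Prop := ∀ x ∈ E.T n, ∀ k : ℤ, E.shz k (E.K x) ≠ x

/-- `y = K^[i] x` with `i = 2 j` or `i = 2 j + 1`; `τ = K ∘ K`, `tau^[j] = shz j` -/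
theorem exists_shz_or {n : ℕ} (hK : E.KT n) {x y : S} (hx : x ∈ E.T n) (hy : y ∈ E.T n) :
    (∃ k : ℤ, y = E.shz k x) ∨ ∃ k : ℤ, y = E.shz k (E.K x) := by
  obtain ⟨i, rfl⟩ := hK x hx y hy
  clear hy
  induction i with
  | zero => exact Or.inl ⟨0, (E.shz_zero x).symm⟩
  | succ i ih =>
    rw [Function.iterate_succ_apply']
    rcases ih with ⟨k, hk⟩ | ⟨k, hk⟩
    · refine Or.inr ⟨k, ?_⟩
      rw [hk, E.shz_K]
    · refine Or.inl ⟨k + 1, ?_⟩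
      rw [hk, ← E.shz_K, E.shz_add]
      congr 1
      have h1 := E.shz_succ 0 x
      rw [zero_add, E.shz_zero] at h1
      exact h1.symm

/-- `shz_K` and `KT` -/
theorem shz_stab {n : ℕ} (hK : E.KT n) {x y : S} (hx : x ∈ E.T n) (hy : y ∈ E.T n) {k : ℤ}
    (h : E.shz k x = x) : E.shz k y = y := by
  rcases exists_shz_or hK hx hy with ⟨j, rfl⟩ | ⟨j, rfl⟩
  · rw [← E.shz_add, add_comm, E.shz_add, h]
  · rw [← E.shz_add, add_comm, E.shz_add, E.shz_K k x, h]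

end Germ

namespace Frame

variable {S : Type*} [Lattice S] [BoundedOrder S] {E : Germ S} {G : Type*} [Group G] [Lattice G]
  (F : Frame E G)

/-- `shz_stab`, `cent`, `g_shz` -/
theorem comm_of_shz {n : ℕ} (hK : E.KT n) {x : S} (hx : x ∈ E.T n) {k : ℤ}
    (h : E.shz k x = x) {u : G} (hu : u ∈ F.Cn n) : u * F.δ ^ k = F.δ ^ k * u := by
  have h1 : Subgroup.closure (F.g '' {y | E.tau^[n] y = y}) ≤
      Subgroup.centralizer {F.δ ^ k} := by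
    rw [Subgroup.closure_le]
    rintro _ ⟨y, hy, rfl⟩
    rw [SetLike.mem_coe, Subgroup.mem_centralizer_singleton_iff]
    have h2 : E.shz k y = y := by
      by_cases h3 : y = ⊥
      · rw [h3, E.shz_bot]
      · by_cases h4 : y = ⊤
        · rw [h4, E.shz_top]
        · exact Germ.shz_stab hK hx ⟨hy, h3, h4⟩ h
    have h5 := F.g_shz y k
    rw [h2] at h5
    conv_rhs => rw [h5]
    group
  exact Subgroup.mem_centralizer_singleton_iff.1 (h1 (F.cent (F.mem_Cn.1 hu)))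

/-- `(g x δ ^ k)⁻¹ = δ ^ (-k) (g x)⁻¹` has the direction `shz k (K x) ≠ x`; induction -/
theorem N_pow_gen {n : ℕ} (h2 : E.Two n) (hk : E.Ko n) {x : S} (hx : x ∈ E.T n) (k : ℤ)
    (r : ℕ) : F.N ((F.g x * F.δ ^ k) ^ (r + 1)) = r + 1 ∧
      F.dir ((F.g x * F.δ ^ k) ^ (r + 1)) = x := by
  have hP : F.g x * F.δ ^ k ∈ F.Cn n :=
    mul_mem (F.g_mem_Cn.2 hx.1) (zpow_mem (F.δ_mem_Cn n) k)
  have h1 : F.N (F.g x * F.δ ^ k) = 1 := by
    rw [F.N_mul_zpow, F.N_g hx.2.1 hx.2.2]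
  have h3 : F.dir (F.g x * F.δ ^ k) = x := by
    rw [F.dir_mul_zpow, F.dir_g hx.2.1 hx.2.2]
  have h4 : F.dir (F.g x * F.δ ^ k)⁻¹ ≠ x := by
    rw [mul_inv_rev, ← zpow_neg, F.dir_zpow_mul, neg_neg, F.dir_g_inv hx.2.1 hx.2.2]
    exact hk x hx k
  induction r with
  | zero =>
    rw [zero_add, pow_one]
    exact ⟨by rw [h1]; norm_num, h3⟩
  | succ r ih =>
    obtain ⟨i1, i2⟩ := ih
    have h5 : 0 < F.N (F.g x * F.δ ^ k) := by rw [h1]; exact one_pos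
    have h6 : 0 < F.N ((F.g x * F.δ ^ k) ^ (r + 1)) := by
      rw [i1]
      positivity
    have h7 : F.dir (F.g x * F.δ ^ k)⁻¹ ≠ F.dir ((F.g x * F.δ ^ k) ^ (r + 1)) := by
      rw [i2]
      exact h4
    rw [pow_succ' (F.g x * F.δ ^ k) (r + 1)]
    refine ⟨?_, ?_⟩
    · rw [F.N_mul h2 hP (pow_mem hP _) h5 h6 h7, h1, i1]
      push_cast
      ring
    · rw [F.dir_mul h2 hP (pow_mem hP _) h5 h6 h7, h3]

/-- One step of the cyclic reduction.  Let `d = dir X` and `X = g d * V` (`exists_peel`).  If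
`N X = 1` then `V = δ ^ k` and `dir X⁻¹ = shz k (K d) ≠ d`.  So `N V = N X - 1 > 0`, and
`dir V⁻¹ = dir X⁻¹ = d` (`dir_mul_inv`), so `N_mul_lt` applies to `Y = V * g d`:
`N Y ≤ N X - 2`.  And `X = g d * Y * (g d)⁻¹` gives `N X ≤ N Y + 2` (`N_mul_le`).  Finally, if
`N Y > 0` and `dir Y = K d = dir (g d)⁻¹` then `N (g d * Y) ≤ N Y - 1` and `N X ≤ N Y`, a
contradiction. -/
theorem exists_cyc_step {n : ℕ} (h2 : E.Two n) (hk : E.Ko n) {X : G} (hX : X ∈ F.Cn n)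
    (h0 : 0 < F.N X) (h : F.dir X⁻¹ = F.dir X) :
    ∃ Y ∈ F.Cn n, X = F.g (F.dir X) * Y * (F.g (F.dir X))⁻¹ ∧ F.N X = F.N Y + 2 ∧
      (0 < F.N Y → F.dir Y ≠ E.K (F.dir X)) := by
  have hT := F.dir_mem_T hX h0
  obtain ⟨V, hV, hXV, hNV, hVK⟩ := F.exists_peel h2 hX h0
  have hg : F.g (F.dir X) ∈ F.Cn n := F.g_mem_Cn.2 hT.1
  have hN1 : F.N (F.g (F.dir X)) = 1 := F.N_g hT.2.1 hT.2.2
  have hd1 : F.dir (F.g (F.dir X)) = F.dir X := F.dir_g hT.2.1 hT.2.2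
  have hd2 : F.dir (F.g (F.dir X))⁻¹ = E.K (F.dir X) := F.dir_g_inv hT.2.1 hT.2.2
  have hV0 := F.N_nonneg V
  rcases hV0.eq_or_lt with hz | hpos
  · exfalso
    have e1 : V = F.δ ^ F.lw V := F.eq_zpow_of_N hz.symm
    have e2 : X⁻¹ = F.δ ^ (-F.lw V) * (F.g (F.dir X))⁻¹ := by
      nth_rewrite 1 [hXV]
      rw [mul_inv_rev]
      congr 1
      nth_rewrite 1 [e1]
      rw [zpow_neg]
    have e3 : F.dir X⁻¹ = E.shz (F.lw V) (E.K (F.dir X)) := by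
      rw [e2, F.dir_zpow_mul, neg_neg, hd2]
    exact hk (F.dir X) hT (F.lw V) (e3.symm.trans h)
  · have e1 : F.dir V⁻¹ = F.dir X := by
      have := F.dir_mul_inv h2 hg hV (by rw [hN1]; exact one_pos) hpos
        (by rw [hd2]; exact fun hh => hVK hpos hh.symm)
      rw [← hXV] at this
      exact this.symm.trans h
    have e2 := F.N_mul_lt h2 hV hg hpos (by rw [hN1]; exact one_pos) (e1.trans hd1.symm)
    have e3 : X = F.g (F.dir X) * (V * F.g (F.dir X)) * (F.g (F.dir X))⁻¹ := by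
      rw [mul_assoc, mul_assoc, mul_inv_cancel, mul_one]
      exact hXV
    have e4 : F.N X ≤ F.N (F.g (F.dir X) * (V * F.g (F.dir X))) + 1 := by
      have := F.N_mul_le (F.g (F.dir X) * (V * F.g (F.dir X))) (F.g (F.dir X))⁻¹
      rw [← e3, F.N_inv, hN1] at this
      exact this
    have e5 := F.N_mul_le (F.g (F.dir X)) (V * F.g (F.dir X))
    have hY : V * F.g (F.dir X) ∈ F.Cn n := mul_mem hV hg
    refine ⟨V * F.g (F.dir X), hY, e3, by omega, fun hYp hc => ?_⟩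
    have e6 := F.N_mul_lt h2 hg hY (by rw [hN1]; exact one_pos) hYp (hd2.trans hc.symm)
    omega

/-- Induction on `N X` with `exists_cyc_step`: if `N Y = 0` or `dir Y⁻¹ ≠ dir Y` take
`h = g (dir X)`, `Z = Y`; otherwise `Y = h' Z h'⁻¹` and `h = g (dir X) h'`, where
`dir (g (dir X))⁻¹ = K (dir X) ≠ dir Y = dir h'`, so `N h = 1 + N h'` and `dir h = dir X`. -/
theorem exists_cyc {n : ℕ} (h2 : E.Two n) (hk : E.Ko n) {X : G} (hX : X ∈ F.Cn n)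
    (h0 : 0 < F.N X) (h : F.dir X⁻¹ = F.dir X) :
    ∃ w ∈ F.Cn n, ∃ Z ∈ F.Cn n, 0 < F.N w ∧ X = w * Z * w⁻¹ ∧ F.dir w = F.dir X ∧
      F.N X = 2 * F.N w + F.N Z ∧ (0 < F.N Z → F.dir Z⁻¹ ≠ F.dir Z) := by
  obtain ⟨m, hm⟩ : ∃ m : ℕ, F.N X ≤ m := ⟨(F.N X).toNat, Int.self_le_toNat _⟩
  induction m generalizing X with
  | zero => omega
  | succ m ih =>
    have hT := F.dir_mem_T hX h0
    have hg : F.g (F.dir X) ∈ F.Cn n := F.g_mem_Cn.2 hT.1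
    have hN1 : F.N (F.g (F.dir X)) = 1 := F.N_g hT.2.1 hT.2.2
    have hd1 : F.dir (F.g (F.dir X)) = F.dir X := F.dir_g hT.2.1 hT.2.2
    have hd2 : F.dir (F.g (F.dir X))⁻¹ = E.K (F.dir X) := F.dir_g_inv hT.2.1 hT.2.2
    obtain ⟨Y, hY, hXY, hN, hK⟩ := F.exists_cyc_step h2 hk hX h0 h
    by_cases hc : 0 < F.N Y ∧ F.dir Y⁻¹ = F.dir Y
    · obtain ⟨w, hw, Z, hZ, hw0, hYw, hdw, hNY, hZd⟩ := ih hY hc.1 hc.2 (by omega)
      have e1 := F.N_mul h2 hg hw (by rw [hN1]; exact one_pos) hw0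
        (by rw [hd2, hdw]; exact fun hh => hK hc.1 hh.symm)
      have e2 := F.dir_mul h2 hg hw (by rw [hN1]; exact one_pos) hw0
        (by rw [hd2, hdw]; exact fun hh => hK hc.1 hh.symm)
      refine ⟨F.g (F.dir X) * w, mul_mem hg hw, Z, hZ, by omega, ?_, e2.trans hd1, by omega, hZd⟩
      rw [hYw] at hXY
      nth_rewrite 1 [hXY]
      rw [mul_inv_rev]
      simp only [mul_assoc]
    · refine ⟨F.g (F.dir X), hg, Y, hY, by omega, hXY, hd1, by omega, fun h1 h3 => hc ⟨h1, h3⟩⟩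

/-- induction on `r`; `dir_mul`, `dir_mul_inv` for `Z ^ (r + 1) * Z` -/
theorem N_pow_red {n : ℕ} (h2 : E.Two n) {Z : G} (hZ : Z ∈ F.Cn n) (h0 : 0 < F.N Z)
    (h : F.dir Z⁻¹ ≠ F.dir Z) (r : ℕ) :
    0 < F.N (Z ^ (r + 1)) ∧ F.dir (Z ^ (r + 1)) = F.dir Z ∧
      F.dir (Z ^ (r + 1))⁻¹ = F.dir Z⁻¹ := by
  induction r with
  | zero =>
    rw [zero_add, pow_one]
    exact ⟨h0, rfl, rfl⟩
  | succ r ih =>
    obtain ⟨i1, i2, i3⟩ := ih
    have h5 : F.dir (Z ^ (r + 1))⁻¹ ≠ F.dir Z := by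
      rw [i3]
      exact h
    have hP : Z ^ (r + 1) ∈ F.Cn n := pow_mem hZ _
    rw [pow_succ Z (r + 1)]
    refine ⟨?_, ?_, ?_⟩
    · rw [F.N_mul h2 hP hZ i1 h0 h5]
      omega
    · rw [F.dir_mul h2 hP hZ i1 h0 h5, i2]
    · rw [F.dir_mul_inv h2 hP hZ i1 h0 h5]

/-- Let `N X = 2 N w + N Z` with `X = w Z w⁻¹`.  Then `dir w⁻¹ ≠ dir Z` and `dir w⁻¹ ≠ dir Z⁻¹`
(otherwise `N X` is smaller, by `N_mul_lt` and `N_mul_le`), so the products `w * Z ^ e` and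
`(w * Z ^ e) * w⁻¹` are reduced for `e ≠ 0` (`N_pow_red`; for negative `e` exchange `Z` and
`Z⁻¹`). -/
theorem dir_zpow_X {n : ℕ} (h2 : E.Two n) {X w Z : G} (hw : w ∈ F.Cn n) (hZ : Z ∈ F.Cn n)
    (h0 : 0 < F.N w) (h1 : 0 < F.N Z) (hX : X = w * Z * w⁻¹)
    (h3 : F.N X = 2 * F.N w + F.N Z) (h4 : F.dir Z⁻¹ ≠ F.dir Z) {e : ℤ} (he : e ≠ 0) :
    0 < F.N (X ^ e) ∧ F.dir (X ^ e) = F.dir w := by
  have hwi : w⁻¹ ∈ F.Cn n := inv_mem hw
  have hNwi : F.N w⁻¹ = F.N w := F.N_inv w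
  have hA : F.dir w⁻¹ ≠ F.dir Z := by
    intro h
    have h5 := F.N_mul_lt h2 hw hZ h0 h1 h
    have h6 := F.N_mul_le (w * Z) w⁻¹
    rw [← hX, hNwi] at h6
    omega
  have hB : F.dir w⁻¹ ≠ F.dir Z⁻¹ := by
    intro h
    have h5 := F.N_mul_lt h2 hZ hwi h1 (by rw [hNwi]; exact h0) h.symm
    have h6 := F.N_mul_le w (Z * w⁻¹)
    rw [← mul_assoc, ← hX] at h6
    rw [hNwi] at h5
    omega
  have key : ∀ P ∈ F.Cn n, 0 < F.N P → F.dir w⁻¹ ≠ F.dir P → F.dir w⁻¹ ≠ F.dir P⁻¹ →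
      0 < F.N (w * P * w⁻¹) ∧ F.dir (w * P * w⁻¹) = F.dir w := by
    intro P hP hNP h5 h6
    have h7 := F.N_mul h2 hw hP h0 hNP h5
    have h8 := F.dir_mul h2 hw hP h0 hNP h5
    have h9 := F.dir_mul_inv h2 hw hP h0 hNP h5
    have hwP : w * P ∈ F.Cn n := mul_mem hw hP
    have h10 : 0 < F.N (w * P) := by omega
    have h11 : 0 < F.N w⁻¹ := by rw [hNwi]; exact h0
    have h12 : F.dir (w * P)⁻¹ ≠ F.dir w⁻¹ := by
      rw [h9]
      exact h6.symm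
    have h13 := F.N_mul h2 hwP hwi h10 h11 h12
    have h14 := F.dir_mul h2 hwP hwi h10 h11 h12
    exact ⟨by omega, h14.trans h8⟩
  rw [hX, conj_zpow]
  rcases lt_or_gt_of_ne he with h | h
  · obtain ⟨r, hr⟩ : ∃ r : ℕ, e = -((r + 1 : ℕ) : ℤ) := ⟨(-e - 1).toNat, by omega⟩
    obtain ⟨g1, g2, g3⟩ := F.N_pow_red h2 hZ h1 h4 r
    rw [hr, zpow_neg, zpow_natCast]
    refine key _ (inv_mem (pow_mem hZ _)) (by rw [F.N_inv]; exact g1) ?_ ?_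
    · rw [g3]
      exact hB
    · rw [inv_inv, g2]
      exact hA
  · obtain ⟨r, hr⟩ : ∃ r : ℕ, e = ((r + 1 : ℕ) : ℤ) := ⟨(e - 1).toNat, by omega⟩
    obtain ⟨g1, g2, g3⟩ := F.N_pow_red h2 hZ h1 h4 r
    rw [hr, zpow_natCast]
    refine key _ (pow_mem hZ _) g1 ?_ ?_
    · rw [g2]
      exact hA
    · rw [g3]
      exact hB

end Frame

end Pool.Agent.SPH
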