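import Pool.Agent.SPH.RT2

/-!
# Project SPH, piece SPH-E: automorphisms which fix `δ`, third part

The theorem `rt`: an automorphism which fixes `δ` maps `g a`, `a` in `T n`, to `g y * δ ^ k` with
`y` in `T n` (under `Two n` and `KT n`); and `rt_one`: if `K a` is in the orbit of `a` under `τ`
then `k = 0` and `y` is in the orbit of `a`.
-/

namespace Pool.Agent.SPH.Frame

variable {S : Type*} [Lattice S] [BoundedOrder S] {E : Germ S} {G : Type*} [Group G] [Lattice G]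
  (F : Frame E G)

/-- the products of powers of `δ` and powers of `X` in which two consecutive powers of `X` do not
merge; `d` is the direction of all `X ^ e`, `e ≠ 0` -/
inductive RR (X : G) (d : S) : G → Prop
  | pow (j : ℤ) : RR X d (F.δ ^ j)
  | last (i e j : ℤ) (he : e ≠ 0) : RR X d (F.δ ^ i * X ^ e * F.δ ^ j)
  | cons (i e : ℤ) (v : G) (he : e ≠ 0) (hv : RR X d v) (h0 : 0 < F.N v)
      (h1 : F.dir v ≠ d) : RR X d (F.δ ^ i * X ^ e * v)

/-- the hypotheses on `X` -/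
structure HX (n : ℕ) (X : G) (d : S) : Prop where
  mem : X ∈ F.Cn n
  d_mem : d ∈ E.T n
  N_pos : ∀ e : ℤ, e ≠ 0 → 0 < F.N (X ^ e)
  dir_eq : ∀ e : ℤ, e ≠ 0 → F.dir (X ^ e) = d

variable {n : ℕ} {X : G} {d : S}

private theorem RR_spec_last (h : F.HX n X d) {e : ℤ} (he : e ≠ 0) (i j : ℤ) :
    F.δ ^ i * X ^ e * F.δ ^ j ∈ F.Cn n ∧ ((∃ k : ℤ, F.δ ^ i * X ^ e * F.δ ^ j = F.δ ^ k) ∨
      (0 < F.N (F.δ ^ i * X ^ e * F.δ ^ j) ∧
        ∃ k : ℤ, F.dir (F.δ ^ i * X ^ e * F.δ ^ j) = E.shz k d)) := by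
  refine ⟨mul_mem (mul_mem (zpow_mem (F.δ_mem_Cn n) i) (zpow_mem h.mem e))
    (zpow_mem (F.δ_mem_Cn n) j), Or.inr ⟨?_, -i, ?_⟩⟩
  · rw [F.N_mul_zpow, F.N_zpow_mul]
    exact h.N_pos e he
  · rw [F.dir_mul_zpow, F.dir_zpow_mul, h.dir_eq e he]

private theorem RR_spec_cons (h2 : E.Two n) (h : F.HX n X d) {e : ℤ} (he : e ≠ 0) (i : ℤ) {v : G}
    (hv : v ∈ F.Cn n) (h0 : 0 < F.N v) (h1 : F.dir v ≠ d) :
    F.δ ^ i * X ^ e * v ∈ F.Cn n ∧ ((∃ k : ℤ, F.δ ^ i * X ^ e * v = F.δ ^ k) ∨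
      (0 < F.N (F.δ ^ i * X ^ e * v) ∧ ∃ k : ℤ, F.dir (F.δ ^ i * X ^ e * v) = E.shz k d)) := by
  have hX : X ^ e ∈ F.Cn n := zpow_mem h.mem e
  have h3 : F.dir (X ^ e)⁻¹ ≠ F.dir v := by
    rw [← zpow_neg, h.dir_eq (-e) (neg_ne_zero.2 he)]
    exact h1.symm
  refine ⟨mul_mem (mul_mem (zpow_mem (F.δ_mem_Cn n) i) hX) hv, Or.inr ⟨?_, -i, ?_⟩⟩
  · rw [mul_assoc, F.N_zpow_mul, F.N_mul h2 hX hv (h.N_pos e he) h0 h3]
    have := h.N_pos e he
    omega
  · rw [mul_assoc, F.dir_zpow_mul, F.dir_mul h2 hX hv (h.N_pos e he) h0 h3, h.dir_eq e he]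

/-- `N_zpow_mul`, `N_mul`, `dir_mul`, `dir_zpow_mul`: for `w = δ ^ i X ^ e v` the direction is
`shz (-i) d` -/
theorem RR_spec (h2 : E.Two n) (h : F.HX n X d) {w : G} (hw : F.RR X d w) :
    w ∈ F.Cn n ∧ ((∃ j : ℤ, w = F.δ ^ j) ∨ (0 < F.N w ∧ ∃ k : ℤ, F.dir w = E.shz k d)) := by
  induction hw with
  | pow j => exact ⟨zpow_mem (F.δ_mem_Cn n) j, Or.inl ⟨j, rfl⟩⟩
  | last i e j he => exact F.RR_spec_last h he i j
  | cons i e v he hv h0 h1 ih => exact F.RR_spec_cons h2 h he i ih.1 h0 h1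

theorem RR_δ {w : G} (hw : F.RR X d w) (k : ℤ) : F.RR X d (F.δ ^ k * w) := by
  cases hw with
  | pow j =>
    rw [← zpow_add]
    exact RR.pow _
  | last i e j he =>
    have e1 : F.δ ^ k * (F.δ ^ i * X ^ e * F.δ ^ j) = F.δ ^ (k + i) * X ^ e * F.δ ^ j := by
      rw [zpow_add]
      group
    rw [e1]
    exact RR.last _ _ _ he
  | cons i e v he hv h0 h1 =>
    have e1 : F.δ ^ k * (F.δ ^ i * X ^ e * v) = F.δ ^ (k + i) * X ^ e * v := by
      rw [zpow_add, mul_assoc, mul_assoc, mul_assoc]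
    rw [e1]
    exact RR.cons _ _ _ he hv h0 h1

/-- If `w = δ ^ i X ^ f v` and `shz (-i) d = d` then `δ ^ i` commutes with `X` (`comm_of_shz`), and
`X ^ e w = δ ^ i X ^ (e + f) v`; if `shz (-i) d ≠ d` then `dir w = shz (-i) d ≠ d` and `RR.cons`
applies with the first exponent `0`. -/
theorem RR_X (h2 : E.Two n) (hK : E.KT n) (h : F.HX n X d) {w : G} (hw : F.RR X d w) (e : ℤ) :
    F.RR X d (X ^ e * w) := by
  rcases eq_or_ne e 0 with rfl | he
  · rw [zpow_zero, one_mul]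
    exact hw
  have hcomm : ∀ i : ℤ, E.shz (-i) d = d → ∀ f : ℤ,
      X ^ e * (F.δ ^ i * X ^ f) = F.δ ^ i * X ^ (e + f) := by
    intro i hi f
    have h3 : X * F.δ ^ (-i) = F.δ ^ (-i) * X := F.comm_of_shz hK h.d_mem hi h.mem
    have h4 : Commute X (F.δ ^ i) := by
      have h5 : Commute X (F.δ ^ (-i)) := h3
      rw [zpow_neg] at h5
      exact Commute.inv_right_iff.1 h5
    have h6 : X ^ e * F.δ ^ i = F.δ ^ i * X ^ e := h4.zpow_left e
    rw [← mul_assoc, h6, mul_assoc, ← zpow_add]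
  cases hw with
  | pow j =>
    have e1 : X ^ e * F.δ ^ j = F.δ ^ (0 : ℤ) * X ^ e * F.δ ^ j := by
      rw [zpow_zero, one_mul]
    rw [e1]
    exact RR.last _ _ _ he
  | last i f j hf =>
    by_cases hi : E.shz (-i) d = d
    · have e1 : X ^ e * (F.δ ^ i * X ^ f * F.δ ^ j) = F.δ ^ i * X ^ (e + f) * F.δ ^ j := by
        rw [← mul_assoc, hcomm i hi f]
      rw [e1]
      rcases eq_or_ne (e + f) 0 with h0 | h0
      · rw [h0, zpow_zero, mul_one, ← zpow_add]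
        exact RR.pow _
      · exact RR.last _ _ _ h0
    · have e1 : X ^ e * (F.δ ^ i * X ^ f * F.δ ^ j) =
          F.δ ^ (0 : ℤ) * X ^ e * (F.δ ^ i * X ^ f * F.δ ^ j) := by
        rw [zpow_zero, one_mul]
      rw [e1]
      refine RR.cons _ _ _ he (RR.last _ _ _ hf) ?_ ?_
      · rw [F.N_mul_zpow, F.N_zpow_mul]
        exact h.N_pos f hf
      · rw [F.dir_mul_zpow, F.dir_zpow_mul, h.dir_eq f hf]
        exact hi
  | cons i f v hf hv h0 h1 =>
    have hX : X ^ f ∈ F.Cn n := zpow_mem h.mem f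
    have hvC : v ∈ F.Cn n := (F.RR_spec h2 h hv).1
    have h3 : F.dir (X ^ f)⁻¹ ≠ F.dir v := by
      rw [← zpow_neg, h.dir_eq (-f) (neg_ne_zero.2 hf)]
      exact h1.symm
    by_cases hi : E.shz (-i) d = d
    · have e1 : X ^ e * (F.δ ^ i * X ^ f * v) = F.δ ^ i * X ^ (e + f) * v := by
        rw [← mul_assoc, hcomm i hi f]
      rw [e1]
      rcases eq_or_ne (e + f) 0 with h4 | h4
      · rw [h4, zpow_zero, mul_one]
        exact F.RR_δ hv i
      · exact RR.cons _ _ _ h4 hv h0 h1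
    · have e1 : X ^ e * (F.δ ^ i * X ^ f * v) =
          F.δ ^ (0 : ℤ) * X ^ e * (F.δ ^ i * X ^ f * v) := by
        rw [zpow_zero, one_mul]
      rw [e1]
      refine RR.cons _ _ _ he (RR.cons _ _ _ hf hv h0 h1) ?_ ?_
      · rw [mul_assoc, F.N_zpow_mul, F.N_mul h2 hX hvC (h.N_pos f hf) h0 h3]
        have := h.N_pos f hf
        omega
      · rw [mul_assoc, F.dir_zpow_mul, F.dir_mul h2 hX hvC (h.N_pos f hf) h0 h3, h.dir_eq f hf]
        exact hi

/-- `Subgroup.closure_induction_left` -/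
theorem RR_all (h2 : E.Two n) (hK : E.KT n) (h : F.HX n X d) {w : G}
    (hw : w ∈ Subgroup.closure ({X, F.δ} : Set G)) : F.RR X d w := by
  induction hw using Subgroup.closure_induction_left with
  | one =>
    have h3 := RR.pow (F := F) (X := X) (d := d) 0
    rwa [zpow_zero] at h3
  | mul_left x hx y hy ih =>
    rcases hx with rfl | hx
    · have h3 := F.RR_X h2 hK h ih 1
      rwa [zpow_one] at h3
    · rw [Set.mem_singleton_iff] at hx
      subst hx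
      have h3 := F.RR_δ ih 1
      rwa [zpow_one] at h3
  | inv_mul_cancel x hx y hy ih =>
    rcases hx with rfl | hx
    · have h3 := F.RR_X h2 hK h ih (-1)
      rwa [zpow_neg_one] at h3
    · rw [Set.mem_singleton_iff] at hx
      subst hx
      have h3 := F.RR_δ ih (-1)
      rwa [zpow_neg_one] at h3

/-- `cent` for `δ ^ n`, `KT n` and `g (K x) = (g x)⁻¹ δ` -/
theorem Cn_le {a : S} (hK : E.KT n) (ha : a ∈ E.T n) :
    F.Cn n ≤ Subgroup.closure ({F.g a, F.δ} : Set G) := by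
  have hga : F.g a ∈ Subgroup.closure ({F.g a, F.δ} : Set G) :=
    Subgroup.subset_closure (Set.mem_insert _ _)
  have hδ : F.δ ∈ Subgroup.closure ({F.g a, F.δ} : Set G) :=
    Subgroup.subset_closure (Set.mem_insert_of_mem _ rfl)
  have hKi : ∀ i : ℕ, F.g (E.K^[i] a) ∈ Subgroup.closure ({F.g a, F.δ} : Set G) := by
    intro i
    induction i with
    | zero => exact hga
    | succ i ih =>
      rw [Function.iterate_succ_apply']
      have h1 := F.g_K (E.K^[i] a)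
      rw [← eq_inv_mul_iff_mul_eq] at h1
      rw [h1]
      exact mul_mem (inv_mem ih) hδ
  intro u hu
  have h2 := F.cent (F.mem_Cn.1 hu)
  refine (Subgroup.closure_le _).2 ?_ h2
  rintro _ ⟨x, hx, rfl⟩
  by_cases hb : x = ⊥
  · rw [hb, F.g_bot]
    exact one_mem _
  by_cases ht : x = ⊤
  · rw [ht, F.g_top]
    exact hδ
  · obtain ⟨i, rfl⟩ := hK a ha x ⟨hx, hb, ht⟩
    exact hKi i

/-- Suppose `D φ (K x) = shz (-k) (D φ x)` with `x ∈ T n`, and let `X = φ (g x) δ ^ k`,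
`d = dir X = D φ x`; `dir X⁻¹ = shz k (dir (φ (g x))⁻¹) = shz k (D φ (K x)) = d`.  Take `w`, `Z` as
in `exists_cyc`.

If `N Z = 0` then `Z = δ ^ i` and `X ^ m = δ ^ (i m)` (`comm_pow_m`), so
`(g x δ ^ k) ^ m = δ ^ (i m)` (apply `φ⁻¹`), against `N_pow_gen` (`m > 0`).

Otherwise `HX n X d` by `dir_zpow_X`.  The element `g (K d)` is in `Cn n`, so it is `φ u` with
`u ∈ Cn n`, `u ∈ closure {g x, δ}` (`Cn_le`), and so `g (K d) ∈ closure {X, δ}`.  By `RR_all` and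
`RR_spec`, `K d = dir (g (K d)) = shz j d` for some `j`, against `Ko n`. -/
theorem not_coll (h2 : E.Two n) (hK : E.KT n) (hk : E.Ko n) {φ : MulAut G}
    (hφ : φ F.δ = F.δ) {x : S} (hx : x ∈ E.T n) (k : ℤ) :
    F.D φ (E.K x) ≠ E.shz (-k) (F.D φ x) := by
  intro hcoll
  have hmap : ∀ j : ℤ, φ (F.δ ^ j) = F.δ ^ j := F.map_δ_zpow hφ
  have hXd : F.dir (φ (F.g x) * F.δ ^ k) = F.D φ x := F.dir_mul_zpow _ _
  have hXi : F.dir (φ (F.g x) * F.δ ^ k)⁻¹ = F.D φ x := by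
    rw [mul_inv_rev, ← zpow_neg, F.dir_zpow_mul, neg_neg, F.dir_map_inv hφ, hcoll, ← E.shz_add,
      add_neg_cancel, E.shz_zero]
  have hgx : 0 < F.N (F.g x) := by
    rw [F.N_g hx.2.1 hx.2.2]
    exact one_pos
  have hX0 : 0 < F.N (φ (F.g x) * F.δ ^ k) := by
    rw [F.N_mul_zpow]
    exact F.N_map_pos hφ hgx
  have hgC : F.g x ∈ F.Cn n := F.g_mem_Cn.2 hx.1
  have hXC : φ (F.g x) * F.δ ^ k ∈ F.Cn n :=
    mul_mem (F.map_mem_Cn hφ hgC) (zpow_mem (F.δ_mem_Cn n) k)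
  have hXdir : F.dir (φ (F.g x) * F.δ ^ k)⁻¹ = F.dir (φ (F.g x) * F.δ ^ k) := by
    rw [hXi, hXd]
  obtain ⟨w, hw, Z, hZ, hNw, hXeq, hdw, hNX, hZdir⟩ := F.exists_cyc h2 hk hXC hX0 hXdir
  have hdT : F.D φ x ∈ E.T n := F.D_mem_T hφ hx
  rcases (F.N_nonneg Z).eq_or_lt with hZ0 | hZ0
  · -- `Z` is a power of `δ`
    have hZi := F.eq_zpow_of_N hZ0.symm
    generalize F.lw Z = i at hZi
    have hc : Commute w (F.δ ^ E.m) := F.comm_pow_m w
    have hpow : (φ (F.g x) * F.δ ^ k) ^ E.m = (F.δ ^ E.m) ^ i := by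
      rw [hXeq, hZi, conj_pow]
      have h3 : (F.δ ^ i) ^ E.m = (F.δ ^ E.m) ^ i := by
        rw [← zpow_natCast, ← zpow_mul, mul_comm, zpow_mul, zpow_natCast]
      rw [h3, (hc.zpow_right i).eq, mul_inv_cancel_right]
    have hpow2 : (F.g x * F.δ ^ k) ^ E.m = (F.δ ^ E.m) ^ i := by
      apply φ.injective
      have h4 : φ ((F.δ ^ E.m) ^ i) = (F.δ ^ E.m) ^ i := by
        rw [map_zpow, map_pow, hφ]
      rw [h4, map_pow, map_mul, hmap, hpow]
    obtain ⟨r, hr⟩ : ∃ r, E.m = r + 1 := ⟨E.m - 1, by have := E.m_pos; omega⟩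
    have h5 := (F.N_pow_gen h2 hk hx k r).1
    rw [← hr, hpow2] at h5
    have h6 : F.N ((F.δ ^ E.m) ^ i) = 0 := by
      rw [← zpow_natCast, ← zpow_mul]
      exact F.N_zpow _
    omega
  · -- the powers of `X` have the direction `D φ x`
    have hne := hZdir hZ0
    have hHX : F.HX n (φ (F.g x) * F.δ ^ k) (F.D φ x) :=
      { mem := hXC
        d_mem := hdT
        N_pos := fun e he => (F.dir_zpow_X h2 hw hZ hNw hZ0 hXeq hNX hne he).1
        dir_eq := fun e he => by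
          rw [(F.dir_zpow_X h2 hw hZ hNw hZ0 hXeq hNX hne he).2, hdw, hXd] }
    have hKd : E.K (F.D φ x) ∈ E.T n := K_mem_T hdT
    have hgK : F.g (E.K (F.D φ x)) ∈ F.Cn n := F.g_mem_Cn.2 hKd.1
    have hu : φ⁻¹ (F.g (E.K (F.D φ x))) ∈ F.Cn n := F.map_mem_Cn (F.symm_δ hφ) hgK
    have hu2 := F.Cn_le hK hx hu
    have hu3 : F.g (E.K (F.D φ x)) ∈
        Subgroup.closure ({φ (F.g x) * F.δ ^ k, F.δ} : Set G) := by
      have h7 : φ (φ⁻¹ (F.g (E.K (F.D φ x)))) = F.g (E.K (F.D φ x)) :=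
        MulAut.apply_inv_self _ _ _
      have hδm : F.δ ∈ Subgroup.closure ({φ (F.g x) * F.δ ^ k, F.δ} : Set G) :=
        Subgroup.subset_closure (Set.mem_insert_of_mem _ rfl)
      have hXm : φ (F.g x) * F.δ ^ k ∈
          Subgroup.closure ({φ (F.g x) * F.δ ^ k, F.δ} : Set G) :=
        Subgroup.subset_closure (Set.mem_insert _ _)
      have hle : Subgroup.closure ({F.g x, F.δ} : Set G) ≤
          (Subgroup.closure ({φ (F.g x) * F.δ ^ k, F.δ} : Set G)).comap φ.toMonoidHom := by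
        rw [Subgroup.closure_le]
        rintro y (rfl | hy)
        · change φ (F.g x) ∈ Subgroup.closure ({φ (F.g x) * F.δ ^ k, F.δ} : Set G)
          have h8 := mul_mem hXm (inv_mem (zpow_mem hδm k))
          rwa [mul_inv_cancel_right] at h8
        · rw [Set.mem_singleton_iff] at hy
          rw [hy]
          change φ F.δ ∈ Subgroup.closure ({φ (F.g x) * F.δ ^ k, F.δ} : Set G)
          rw [hφ]
          exact hδm
      have h9 := hle hu2
      rw [← h7]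
      exact h9
    have hRR := F.RR_all h2 hK hHX hu3
    rcases (F.RR_spec h2 hHX hRR).2 with ⟨j, hj⟩ | ⟨-, j, hj⟩
    · have h10 := F.N_g hKd.2.1 hKd.2.2
      rw [hj, F.N_zpow] at h10
      omega
    · rw [F.dir_g hKd.2.1 hKd.2.2] at hj
      apply hk (F.D φ x) hdT (-j)
      rw [hj, ← E.shz_add, neg_add_cancel, E.shz_zero]

/-- `exists_shz_or`.  If `y = shz k x` then `shz k (D φ x) = D φ x`, and `shz_stab` gives
`shz k x = x`.  If `y = shz k (K x)` and `Ko n` holds use `not_coll`; if `Ko n` fails, then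
`shz k' (K x') = x'` for some `x'`, `k'`, so (as `K` is transitive and commutes with `shz`)
`shz k' (K x) = x`, and we are back in the first case. -/
theorem D_inj (h2 : E.Two n) (hK : E.KT n) {φ : MulAut G} (hφ : φ F.δ = F.δ) {x y : S}
    (hx : x ∈ E.T n) (hy : y ∈ E.T n) (h : F.D φ x = F.D φ y) : x = y := by
  have hDx : F.D φ x ∈ E.T n := F.D_mem_T hφ hx
  -- the first case
  have c1 : ∀ k : ℤ, y = E.shz k x → x = y := by
    intro k hk
    have h3 : E.shz k (F.D φ x) = F.D φ x := by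
      rw [← F.D_shz hφ, ← hk]
      exact h.symm
    have h4 := Germ.shz_stab hK hDx hx h3
    rw [hk, h4]
  rcases Germ.exists_shz_or hK hx hy with ⟨k, hk⟩ | ⟨k, hk⟩
  · exact c1 k hk
  · by_cases hko : E.Ko n
    · exfalso
      apply F.not_coll h2 hK hko hφ hx k
      rw [h, hk, F.D_shz hφ, ← E.shz_add, neg_add_cancel, E.shz_zero]
    · unfold Germ.Ko at hko
      push Not at hko
      obtain ⟨x', hx', k', hk'⟩ := hko
      have hcomm : ∀ (i j : ℤ) (z : S), E.shz i (E.shz j z) = E.shz j (E.shz i z) := by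
        intro i j z
        rw [← E.shz_add, ← E.shz_add, add_comm]
      have h5 : E.shz k' (E.K x) = x := by
        rcases Germ.exists_shz_or hK hx' hx with ⟨i, hi⟩ | ⟨i, hi⟩
        · rw [hi, ← E.shz_K, hcomm, hk']
        · rw [hi, ← E.shz_K, hcomm, E.shz_K k', hk']
      have h6 : E.K x = E.shz (-k') x := by
        conv_rhs => rw [← h5]
        rw [← E.shz_add, neg_add_cancel, E.shz_zero]
      apply c1 (k + -k')
      rw [hk, h6, ← E.shz_add]

/-- `rt_of_inj`, `D_inj` -/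
theorem rt (h2 : E.Two n) (hK : E.KT n) {φ : MulAut G} (hφ : φ F.δ = F.δ) {a : S}
    (ha : a ∈ E.T n) : ∃ y ∈ E.T n, ∃ k : ℤ, φ (F.g a) = F.g y * F.δ ^ k := by
  exact F.rt_of_inj h2 hK hφ (fun x hx y hy h => F.D_inj h2 hK hφ hx hy h)
    (fun x hx y hy h => F.D_inj h2 hK (F.symm_δ hφ) hx hy h) ha

/-- If `K a = shz c a` then every element of `T n` is in the orbit of `a`.  Let
`φ (g a) = g y δ ^ k`, `y = shz i a`; then `φ (g (K a)) = δ ^ (-c) φ (g a) δ ^ c`, and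
`g a * g (K a) = δ` gives `len (φ (g a)) + len (φ (g (K a))) = len δ`, i.e.
`2 (len (g y) + k len δ) = len δ`; here `len (g y) = rk a`, and `2 rk a = rk a + rk (K a) = len δ`,
so `k = 0`. -/
theorem rt_one (h2 : E.Two n) (hK : E.KT n) {φ : MulAut G} (hφ : φ F.δ = F.δ) {a : S}
    (ha : a ∈ E.T n) {c : ℤ} (hc : E.K a = E.shz c a) :
    ∃ i : ℤ, φ (F.g a) = F.g (E.shz i a) := by
  obtain ⟨y, hy, k, hk⟩ := F.rt h2 hK hφ ha
  obtain ⟨i, hi⟩ : ∃ i : ℤ, y = E.shz i a := by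
    rcases Germ.exists_shz_or hK ha hy with ⟨i, hi⟩ | ⟨i, hi⟩
    · exact ⟨i, hi⟩
    · exact ⟨i + c, by rw [hi, hc, E.shz_add]⟩
  have hlen : ∀ (j : ℤ) (u : G), F.len (F.δ ^ (-j) * u * F.δ ^ j) = F.len u := by
    intro j u
    rw [F.len_mul, F.len_mul, F.toGar.len_zpow, F.toGar.len_zpow]
    ring
  have h1 : F.len (F.g (E.K a)) = F.len (F.g a) := by
    rw [hc, F.g_shz, hlen]
  have h3 : φ (F.g (E.K a)) = F.δ ^ (-c) * φ (F.g a) * F.δ ^ c := by
    rw [hc, F.g_shz, map_mul, map_mul, F.map_δ_zpow hφ, F.map_δ_zpow hφ]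
  have h4 : F.len (φ (F.g (E.K a))) = F.len (φ (F.g a)) := by
    rw [h3, hlen]
  have h5 : F.len (F.g a) + F.len (F.g (E.K a)) = F.len F.δ := by
    rw [← F.len_mul, F.g_K]
  have h6 : F.len (φ (F.g a)) + F.len (φ (F.g (E.K a))) = F.len F.δ := by
    rw [← F.len_mul, ← map_mul, F.g_K, hφ]
  have h7 : F.len (φ (F.g a)) = F.len (F.g a) + F.len F.δ * k := by
    rw [hk, F.len_mul, F.toGar.len_zpow, hi, F.g_shz, hlen]
  have h8 := F.len_δ
  have h9 : F.len F.δ * k = 0 := by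
    rw [h4, h7] at h6
    rw [h1] at h5
    linarith
  have h10 : k = 0 := by
    rcases mul_eq_zero.1 h9 with h | h
    · omega
    · exact h
  refine ⟨i, ?_⟩
  rw [hk, h10, zpow_zero, mul_one, hi]

end Pool.Agent.SPH.Frame
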