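import Pool.Agent.SPH.Germ1

/-!
# Project SPH, piece SPH-T1: germs from tables

The simple elements are numbered `0, …, N - 1`; `0` is `1` and `N - 1` is `δ`.  `msk i` is the set
of the atoms below `i` as a bit mask, `mt i j` is the meet, `q i j = i⁻¹ j` (for `i ≤ j`), `ki` is
the inverse of the complement `K i = q i (N - 1)`.  `TD.Ok` is the list of the finite checks.
-/

namespace Pool.Agent.SPH

/-- tables of the simple elements -/
structure TD where
  /-- the number of simple elements -/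
  N : ℕ
  /-- the masks -/
  msk : ℕ → ℕ
  /-- the meets -/
  mt : ℕ → ℕ → ℕ
  /-- the quotients -/
  q : ℕ → ℕ → ℕ
  /-- the inverse of the complement -/
  ki : ℕ → ℕ
  /-- the length -/
  rk : ℕ → ℕ
  /-- the order of the twist -/
  m : ℕ

namespace TD

variable (D : TD)

/-- the order -/
def le (i j : ℕ) : Bool := Nat.beq (Nat.land (D.msk i) (D.msk j)) (D.msk i)

/-- the complement -/
def K (i : ℕ) : ℕ := D.q i (D.N - 1)

/-- the twist -/
def tau (i : ℕ) : ℕ := D.K (D.K i)

/-- the product -/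
def tm (i j : ℕ) : ℕ := D.ki (D.q j (D.K i))

/-- the join -/
def jn (i j : ℕ) : ℕ := D.ki (D.mt (D.K i) (D.K j))

/-- the finite checks -/
structure Ok (D : TD) : Prop where
  two : 2 ≤ D.N
  m_pos : 0 < D.m
  inj : ∀ i < D.N, ∀ j < D.N, D.msk i = D.msk j → i = j
  bot_le : ∀ i < D.N, D.le 0 i = true
  le_top : ∀ i < D.N, D.le i (D.N - 1) = true
  mt_lt : ∀ i < D.N, ∀ j < D.N, D.mt i j < D.N
  mt_msk : ∀ i < D.N, ∀ j < D.N, D.msk (D.mt i j) = Nat.land (D.msk i) (D.msk j)
  q_lt : ∀ i < D.N, ∀ j < D.N, D.le i j = true → D.q i j < D.N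
  ki_lt : ∀ i < D.N, D.ki i < D.N
  K_ki : ∀ i < D.N, D.K (D.ki i) = i
  ki_K : ∀ i < D.N, D.ki (D.K i) = i
  anti : ∀ i < D.N, ∀ j < D.N, D.le i j = true → D.le (D.K j) (D.K i) = true
  q_bot : ∀ i < D.N, D.q 0 i = i
  q_mono : ∀ i < D.N, ∀ j < D.N, D.le i j = true → ∀ k < D.N, D.le j k = true →
    D.le (D.q i j) (D.q i k) = true
  q_q : ∀ i < D.N, ∀ j < D.N, D.le i j = true → ∀ k < D.N, D.le j k = true →
    D.q (D.q i j) (D.q i k) = D.q j k
  q_emb : ∀ i < D.N, ∀ j < D.N, D.le i j = true → ∀ k < D.N, D.le i k = true →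
    D.le (D.q i j) (D.q i k) = true → D.le j k = true
  q_surj : ∀ i < D.N, ∀ j < D.N, D.le j (D.K i) = true →
    D.tm i j < D.N ∧ D.le i (D.tm i j) = true ∧ D.q i (D.tm i j) = j
  K_pow : ∀ i < D.N, D.K^[2 * D.m] i = i
  rk_q : ∀ i < D.N, ∀ j < D.N, D.le i j = true → D.rk j = D.rk i + D.rk (D.q i j)
  rk_pos : ∀ i < D.N, i ≠ 0 → 0 < D.rk i

/-- the type of the simple elements of a table which satisfies the checks -/
structure El {D : TD} (h : D.Ok) where
  /-- the number -/
  i : ℕ
  lt : i < D.N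

namespace El

variable {D : TD} {h : D.Ok}

@[ext] theorem ext' {x y : El h} (e : x.i = y.i) : x = y := by
  cases x; cases y; cases e; rfl

private theorem le_iff {D : TD} {i j : ℕ} :
    D.le i j = true ↔ D.msk i &&& D.msk j = D.msk i := by
  unfold TD.le
  constructor
  · intro e
    exact Nat.eq_of_beq_eq_true e
  · intro e
    change Nat.beq (D.msk i &&& D.msk j) (D.msk i) = true
    rw [e]
    exact Nat.beq_refl _

private theorem le_rfl' {D : TD} (i : ℕ) : D.le i i = true :=
  le_iff.2 (Nat.and_self _)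

private theorem le_tr {D : TD} {i j k : ℕ} (a : D.le i j = true) (b : D.le j k = true) :
    D.le i k = true := by
  rw [le_iff] at *
  calc D.msk i &&& D.msk k = (D.msk i &&& D.msk j) &&& D.msk k := by rw [a]
    _ = D.msk i &&& (D.msk j &&& D.msk k) := Nat.and_assoc _ _ _
    _ = D.msk i := by rw [b, a]

private theorem mt_left {D : TD} (h : D.Ok) {i j : ℕ} (hi : i < D.N) (hj : j < D.N) :
    D.le (D.mt i j) i = true := by
  rw [le_iff, h.mt_msk i hi j hj]
  change (D.msk i &&& D.msk j) &&& D.msk i = D.msk i &&& D.msk j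
  rw [Nat.and_comm (D.msk i) (D.msk j), Nat.and_assoc, Nat.and_self]

private theorem mt_right {D : TD} (h : D.Ok) {i j : ℕ} (hi : i < D.N) (hj : j < D.N) :
    D.le (D.mt i j) j = true := by
  rw [le_iff, h.mt_msk i hi j hj]
  change (D.msk i &&& D.msk j) &&& D.msk j = D.msk i &&& D.msk j
  rw [Nat.and_assoc, Nat.and_self]

private theorem le_mt {D : TD} (h : D.Ok) {i j k : ℕ} (hj : j < D.N) (hk : k < D.N)
    (a : D.le i j = true) (b : D.le i k = true) : D.le i (D.mt j k) = true := by
  rw [le_iff] at *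
  rw [h.mt_msk j hj k hk]
  change D.msk i &&& (D.msk j &&& D.msk k) = D.msk i
  rw [← Nat.and_assoc, a, b]

private theorem K_lt {D : TD} (h : D.Ok) {i : ℕ} (hi : i < D.N) : D.K i < D.N := by
  have h2 := h.two
  exact h.q_lt i hi (D.N - 1) (by omega) (h.le_top i hi)

private theorem Kit_lt {D : TD} (h : D.Ok) (n : ℕ) {i : ℕ} (hi : i < D.N) :
    D.K^[n] i < D.N := by
  induction n with
  | zero => exact hi
  | succ n ih => rw [Function.iterate_succ_apply']; exact K_lt h ih

private theorem K2_mono {D : TD} (h : D.Ok) (n : ℕ) {i j : ℕ} (hi : i < D.N) (hj : j < D.N)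
    (a : D.le i j = true) : D.le (D.K^[2 * n] i) (D.K^[2 * n] j) = true := by
  induction n with
  | zero => exact a
  | succ n ih =>
    have e : 2 * (n + 1) = (2 * n + 1) + 1 := by ring
    rw [e, Function.iterate_succ_apply', Function.iterate_succ_apply',
      Function.iterate_succ_apply', Function.iterate_succ_apply']
    exact h.anti _ (K_lt h (Kit_lt h _ hj)) _ (K_lt h (Kit_lt h _ hi))
      (h.anti _ (Kit_lt h _ hi) _ (Kit_lt h _ hj) ih)

private theorem anti_inv {D : TD} (h : D.Ok) {i j : ℕ} (hi : i < D.N) (hj : j < D.N)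
    (a : D.le (D.K j) (D.K i) = true) : D.le i j = true := by
  have h1 := h.anti _ (K_lt h hj) _ (K_lt h hi) a
  have h2 := K2_mono h (D.m - 1) (K_lt h (K_lt h hi)) (K_lt h (K_lt h hj)) h1
  have e : 2 * D.m = 2 * (D.m - 1) + 1 + 1 := by have := h.m_pos; omega
  have h3 : ∀ x < D.N, D.K^[2 * (D.m - 1)] (D.K (D.K x)) = x := by
    intro x hx
    have := h.K_pow x hx
    rw [e, Function.iterate_succ_apply, Function.iterate_succ_apply] at this
    exact this
  rw [h3 i hi, h3 j hj] at h2
  exact h2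

private theorem jn_lt {D : TD} (h : D.Ok) {i j : ℕ} (hi : i < D.N) (hj : j < D.N) :
    D.jn i j < D.N :=
  h.ki_lt _ (h.mt_lt _ (K_lt h hi) _ (K_lt h hj))

private theorem K_jn {D : TD} (h : D.Ok) {i j : ℕ} (hi : i < D.N) (hj : j < D.N) :
    D.K (D.jn i j) = D.mt (D.K i) (D.K j) :=
  h.K_ki _ (h.mt_lt _ (K_lt h hi) _ (K_lt h hj))

/-- `le` is transitive because it is defined by masks (`Nat.land`); antisymmetric by `inj`;
`K` is an order reversing bijection, with the order reversing inverse `ki` (if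
`le i j` fails for `i = ki a`, `j = ki b`, `le b a` ... : `K` maps the finite set of pairs with
`le` injectively into itself, so `anti` is an equivalence; or prove `anti` for `ki` from
`K_pow`: `ki = K^[2 m - 1]`). -/
instance lat : Lattice (El h) where
  le x y := D.le x.i y.i = true
  le_refl := by
    intro x
    exact le_rfl' x.i
  le_trans := by
    intro x y z a b
    exact le_tr a b
  le_antisymm := by
    intro x y a b
    change D.le x.i y.i = true at a
    change D.le y.i x.i = true at b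
    rw [le_iff] at a b
    refine El.ext' (h.inj _ x.lt _ y.lt ?_)
    rw [← a, Nat.and_comm, b]
  inf x y := ⟨D.mt x.i y.i, h.mt_lt _ x.lt _ y.lt⟩
  inf_le_left := by
    intro x y
    exact mt_left h x.lt y.lt
  inf_le_right := by
    intro x y
    exact mt_right h x.lt y.lt
  le_inf := by
    intro x y z a b
    exact le_mt h y.lt z.lt a b
  sup x y := ⟨D.jn x.i y.i, by
    exact jn_lt h x.lt y.lt⟩
  le_sup_left := by
    intro x y
    refine anti_inv h x.lt (jn_lt h x.lt y.lt) ?_
    change D.le (D.K (D.jn x.i y.i)) (D.K x.i) = true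
    rw [K_jn h x.lt y.lt]
    exact mt_left h (K_lt h x.lt) (K_lt h y.lt)
  le_sup_right := by
    intro x y
    refine anti_inv h y.lt (jn_lt h x.lt y.lt) ?_
    change D.le (D.K (D.jn x.i y.i)) (D.K y.i) = true
    rw [K_jn h x.lt y.lt]
    exact mt_right h (K_lt h x.lt) (K_lt h y.lt)
  sup_le := by
    intro x y z a b
    refine anti_inv h (jn_lt h x.lt y.lt) z.lt ?_
    change D.le (D.K z.i) (D.K (D.jn x.i y.i)) = true
    rw [K_jn h x.lt y.lt]
    exact le_mt h (K_lt h x.lt) (K_lt h y.lt) (h.anti _ x.lt _ z.lt a) (h.anti _ y.lt _ z.lt b)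

instance bd : BoundedOrder (El h) where
  top := ⟨D.N - 1, by have := h.two; omega⟩
  bot := ⟨0, by have := h.two; omega⟩
  le_top := by
    intro x
    exact h.le_top _ x.lt
  bot_le := by
    intro x
    exact h.bot_le _ x.lt

theorem le_def {x y : El h} : x ≤ y ↔ D.le x.i y.i = true := Iff.rfl

theorem bot_i : (⊥ : El h).i = 0 := rfl

theorem top_i : (⊤ : El h).i = D.N - 1 := rfl

theorem inf_i (x y : El h) : (x ⊓ y).i = D.mt x.i y.i := rfl

theorem sup_i (x y : El h) : (x ⊔ y).i = D.jn x.i y.i := rfl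

theorem top_ne_bot : (⊤ : El h) ≠ ⊥ := by
  intro e
  have e1 := congrArg El.i e
  rw [top_i, bot_i] at e1
  have := h.two
  omega

open Classical in
/-- the quotient -/
noncomputable def qq (x y : El h) : El h :=
  if e : D.le x.i y.i = true then ⟨D.q x.i y.i, h.q_lt _ x.lt _ y.lt e⟩ else ⊥

theorem qq_i {x y : El h} (e : x ≤ y) : (qq x y).i = D.q x.i y.i := by
  have e' : D.le x.i y.i = true := e
  unfold qq
  rw [dif_pos e']

private theorem qq_iter (n : ℕ) (x : El h) :
    ((fun x : El h => qq x ⊤)^[n] x).i = D.K^[n] x.i := by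
  induction n with
  | zero => rfl
  | succ n ih =>
    rw [Function.iterate_succ_apply', Function.iterate_succ_apply', qq_i le_top, ih]
    rfl

/-- the germ of a table -/
noncomputable def germ (h : D.Ok) : Germ (El h) where
  q := qq
  m := D.m
  m_pos := h.m_pos
  q_bot := by
    intro y
    ext
    rw [qq_i bot_le]
    exact h.q_bot _ y.lt
  q_mono := by
    intro x y z e1 e2
    rw [le_def, qq_i e1, qq_i (e1.trans e2)]
    exact h.q_mono _ x.lt _ y.lt e1 _ z.lt e2
  q_q := by
    intro x y z e1 e2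
    have e3 : qq x y ≤ qq x z := by
      rw [le_def, qq_i e1, qq_i (e1.trans e2)]
      exact h.q_mono _ x.lt _ y.lt e1 _ z.lt e2
    ext
    rw [qq_i e3, qq_i e1, qq_i (e1.trans e2), qq_i e2]
    exact h.q_q _ x.lt _ y.lt e1 _ z.lt e2
  q_surj := by
    intro x t e
    have e1 : D.le t.i (D.K x.i) = true := by
      have e2 : D.le t.i (qq x ⊤).i = true := e
      rwa [qq_i le_top] at e2
    obtain ⟨h1, h2, h3⟩ := h.q_surj _ x.lt _ t.lt e1
    have h4 : x ≤ (⟨D.tm x.i t.i, h1⟩ : El h) := h2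
    refine ⟨⟨D.tm x.i t.i, h1⟩, h4, ?_⟩
    ext
    rw [qq_i h4]
    exact h3
  q_emb := by
    intro x y z e1 e2 e3
    rw [le_def, qq_i e1, qq_i e2] at e3
    exact h.q_emb _ x.lt _ y.lt e1 _ z.lt e2 e3
  K_pow := by
    intro x
    ext
    rw [qq_iter]
    exact h.K_pow _ x.lt
  rk x := D.rk x.i
  rk_q := by
    intro x y e
    rw [qq_i e]
    exact h.rk_q _ x.lt _ y.lt e
  rk_pos := by
    intro x hx
    refine h.rk_pos _ x.lt fun h0 => hx ?_
    ext
    exact h0

theorem q_i {x y : El h} (e : x ≤ y) : ((germ h).q x y).i = D.q x.i y.i := qq_i e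

theorem K_i (x : El h) : ((germ h).K x).i = D.K x.i := by
  exact q_i le_top

theorem tau_i (x : El h) : ((germ h).tau x).i = D.tau x.i := by
  show ((germ h).K ((germ h).K x)).i = D.K (D.K x.i)
  rw [K_i, K_i]

theorem tau_iter (n : ℕ) (x : El h) : ((germ h).tau^[n] x).i = D.tau^[n] x.i := by
  induction n with
  | zero => rfl
  | succ n ih =>
    rw [Function.iterate_succ_apply', Function.iterate_succ_apply', tau_i, ih]

theorem rk_i (x : El h) : (germ h).rk x = D.rk x.i := rfl

theorem mul_i {x t : El h} (e : t ≤ (germ h).K x) : ((germ h).mul x t).i = D.tm x.i t.i := by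
  have e1 : D.le t.i (D.K x.i) = true := by
    have e2 : D.le t.i ((germ h).K x).i = true := e
    rwa [K_i] at e2
  obtain ⟨h1, h2, h3⟩ := h.q_surj _ x.lt _ t.lt e1
  have h4 : x ≤ (⟨D.tm x.i t.i, h1⟩ : El h) := h2
  have h5 : (germ h).q x ⟨D.tm x.i t.i, h1⟩ = t := by
    ext
    rw [q_i h4]
    exact h3
  have h6 : (germ h).mul x t = (⟨D.tm x.i t.i, h1⟩ : El h) := by
    have e' : t ≤ (germ h).q x ⊤ := e
    unfold Germ.mul
    rw [dif_pos e']
    have hs := ((germ h).q_surj e').choose_spec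
    exact (germ h).q_inj hs.1 h4 (hs.2.trans h5.symm)
  rw [h6]

end El

end TD

end Pool.Agent.SPH
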